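import Pool.Agent.FSG.AbsDefs
import Pool.Agent.RSec.ScalarPart3

set_option autoImplicit false

open Filter Topology Pool.Agent.RSec

namespace Pool.Agent.FSG

universe u

/-- the structure of `Pool.Agent.RSec` from the one of `Pool.Agent.FSG` -/
noncomputable def ScalarPart.toRSec {X : Type u} [NormedAddCommGroup X] [NormedSpace ℂ X]
    {a : (X →L[ℂ] X) →ₗ[ℂ] ℂ} (ha : ScalarPart a) : Pool.Agent.RSec.ScalarPart X where
  a := a
  a_one := ha.one
  a_lim := ha.sot
  a_sep := by
    intro J hJ y C δ hy hδ hsep h0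
    obtain ⟨φ, hφ, l, hl⟩ := ha.cpt J hJ y C hy h0
    obtain ⟨N, hN⟩ := Metric.tendsto_atTop.mp hl (δ / 2) (by positivity)
    have h1 := hN N le_rfl
    have h2 := hN (N + 1) (Nat.le_succ N)
    have h3 := hsep (φ N) (φ (N + 1)) (fun h => by
      have := hφ (Nat.lt_succ_self N)
      rw [Nat.succ_eq_add_one, ← h] at this
      exact lt_irrefl _ this)
    rw [← dist_eq_norm] at h3
    have h4 := dist_triangle_right (y (φ N)) (y (φ (N + 1))) l
    linarith
  a_mul := ha.ideal
  a_wk := ha.wc

end Pool.Agent.FSG
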