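import Pool.Agent.RSec.Defs

/-!
The abstract part: Banach spaces with a scalar part functional on their operators.
-/

set_option autoImplicit false

open Filter Topology

namespace Pool.Agent.FSG

/-- `a` is a scalar part of the operators on `X` -/
structure ScalarPart {X : Type*} [NormedAddCommGroup X] [NormedSpace ℂ X]
    (a : (X →L[ℂ] X) →ₗ[ℂ] ℂ) : Prop where
  one : a 1 = 1
  sot : ∀ (T : ℕ → (X →L[ℂ] X)) (S : X →L[ℂ] X) (M : ℝ), (∀ n, ‖T n‖ ≤ M) →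
    (∀ x, Tendsto (fun n => T n x) atTop (𝓝 (S x))) → Tendsto (fun n => a (T n)) atTop (𝓝 (a S))
  cpt : ∀ J : X →L[ℂ] X, a J ≠ 0 → ∀ (y : ℕ → X) (M : ℝ), (∀ s, ‖y s‖ ≤ M) →
    Tendsto (fun s => J (y s)) atTop (𝓝 0) →
    ∃ φ : ℕ → ℕ, StrictMono φ ∧ ∃ l, Tendsto (fun s => y (φ s)) atTop (𝓝 l)
  ideal : ∀ A S : X →L[ℂ] X, a A = 0 → a (A * S) = 0
  wc : ∀ (y : ℕ → X) (M : ℝ), (∀ s, ‖y s‖ ≤ M) →
    ∃ φ : ℕ → ℕ, StrictMono φ ∧ ∃ u, ∀ ξ : X →L[ℂ] ℂ,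
      Tendsto (fun s => ξ (y (φ s))) atTop (𝓝 (ξ u))

end Pool.Agent.FSG
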