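import Pool.Agent.FSG.AbsBridge

set_option autoImplicit false

open Filter Topology Pool.Agent.RSec

namespace Pool.Agent.FSG

/-- (6.1)-(6.3): property (H) -/
theorem propertyH_of_scalarPart {X : Type*} [NormedAddCommGroup X] [NormedSpace ℂ X]
    [CompleteSpace X] {a : (X →L[ℂ] X) →ₗ[ℂ] ℂ} (ha : ScalarPart a) : PropertyH X :=
  ha.toRSec.propertyH

end Pool.Agent.FSG
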