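import Pool.Agent.FSG.Defs

set_option autoImplicit false

open Finset Filter Topology

namespace Pool.Agent.FSG

open Classical in
/-- the set of the `g l` met by `x` -/
noncomputable def Split_M (r : ℕ) (g : ℕ → V) (x : V) : Finset ℕ :=
  (range r).filter fun l => ∃ n, n ∈ (g l).support ∧ n ∈ x.support

theorem Split_mem_M {r : ℕ} {g : ℕ → V} {x : V} {l : ℕ} :
    l ∈ Split_M r g x ↔ l < r ∧ ∃ n, n ∈ (g l).support ∧ n ∈ x.support := by
  simp only [Split_M, mem_filter, mem_range]

open Classical in
/-- the least index of the `g l` met by `x` -/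
noncomputable def Split_min (r : ℕ) (g : ℕ → V) (x : V) : ℕ :=
  if h : (Split_M r g x).Nonempty then (Split_M r g x).min' h else 0

theorem Split_pr_eq_zero {r : ℕ} {g : ℕ → V} {x : V} {l : ℕ} (hl : l < r)
    (h : l ∉ Split_M r g x) : pr (g l) x = 0 := by
  apply pr_eq_zero
  intro i hi hx
  exact h (Split_mem_M.2 ⟨hl, i, hi, hx⟩)

/-- (2.0) -/
theorem split_wt {w : ℕ} {f : V} (hf : Wt w f) (A : Finset ℕ) (z : ℕ → V)
    (hz : ∀ s ∈ A, ∀ t ∈ A, s < t → ∀ a ∈ (z s).support, ∀ b ∈ (z t).support, a < b) :
    ∃ (r : ℕ) (g : ℕ → V) (P : Finset ℕ) (B : ℕ → Finset ℕ), r ≤ nn w ∧ (∀ l < r, K (g l)) ∧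
      P ⊆ A ∧ P.card ≤ r ∧ (∀ l, B l ⊆ A) ∧ ∑ l ∈ range r, (B l).card ≤ A.card ∧
      ‖pr f (∑ s ∈ A, z s)‖ ≤ ∑ s ∈ P, ‖pr f (z s)‖ +
        (1 / mm w) * ∑ l ∈ range r, ‖pr (g l) (∑ s ∈ B l, z s)‖ := by
  classical
  obtain ⟨r, g, hr, hK, hsucc, hfe⟩ := hf.wf
  refine ⟨r, g, A.filter fun s => 2 ≤ (Split_M r g (z s)).card,
    fun l => A.filter fun s => Split_M r g (z s) = {l}, hr, hK, filter_subset _ _, ?_,
    fun l => filter_subset _ _, ?_, ?_⟩
  · -- the number of split indices
    have h1 : ∀ s ∈ A, ∀ t ∈ A, s < t → 2 ≤ (Split_M r g (z s)).card →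
        2 ≤ (Split_M r g (z t)).card → Split_min r g (z s) ≠ Split_min r g (z t) := by
      intro s hs t ht hst h2s h2t he
      have hns : (Split_M r g (z s)).Nonempty := card_pos.1 (by omega)
      have hnt : (Split_M r g (z t)).Nonempty := card_pos.1 (by omega)
      unfold Split_min at he
      rw [dif_pos hns, dif_pos hnt] at he
      obtain ⟨l', hl', hne⟩ := exists_mem_ne (by omega : 1 < (Split_M r g (z s)).card)
        ((Split_M r g (z s)).min' hns)
      have hlt : (Split_M r g (z s)).min' hns < l' :=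
        lt_of_le_of_ne (min'_le _ _ hl') (Ne.symm hne)
      obtain ⟨hl'r, b, hb1, hb2⟩ := Split_mem_M.1 hl'
      have hm := min'_mem (Split_M r g (z t)) hnt
      rw [← he] at hm
      obtain ⟨_, a, ha1, ha2⟩ := Split_mem_M.1 hm
      have h3 := hsucc _ _ hlt hl'r a ha1 b hb1
      have h4 := hz s hs t ht hst b hb2 a ha2
      omega
    calc _ ≤ (range r).card := by
          refine card_le_card_of_injOn (fun s => Split_min r g (z s)) ?_ ?_
          · intro s hs
            have hs' : s ∈ A ∧ 2 ≤ (Split_M r g (z s)).card := by simpa using hs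
            have hns : (Split_M r g (z s)).Nonempty := card_pos.1 (by omega)
            have hm := min'_mem (Split_M r g (z s)) hns
            have : Split_min r g (z s) = (Split_M r g (z s)).min' hns := by
              unfold Split_min
              rw [dif_pos hns]
            simp only [coe_range, Set.mem_Iio]
            rw [this]
            exact (Split_mem_M.1 hm).1
          · intro s hs t ht he
            have hs' : s ∈ A ∧ 2 ≤ (Split_M r g (z s)).card := by simpa using hs
            have ht' : t ∈ A ∧ 2 ≤ (Split_M r g (z t)).card := by simpa using ht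
            rcases lt_trichotomy s t with h | h | h
            · exact absurd he (h1 s hs'.1 t ht'.1 h hs'.2 ht'.2)
            · exact h
            · exact absurd he.symm (h1 t ht'.1 s hs'.1 h ht'.2 hs'.2)
      _ = r := card_range r
  · rw [← card_biUnion]
    · apply card_le_card
      intro s hs
      simp only [mem_biUnion, mem_filter] at hs
      obtain ⟨_, _, h, _⟩ := hs
      exact h
    · intro l _ l' _ hne
      rw [Function.onFun, disjoint_left]
      intro s hs hs'
      simp only [mem_filter] at hs hs'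
      rw [hs.2] at hs'
      exact hne (singleton_inj.1 hs'.2)
  · -- the estimate
    have hmm : ‖(1 / (mm w : ℂ))‖ = 1 / mm w := by
      rw [norm_div, norm_one, Complex.norm_natCast]
    have key : ∀ s, ¬ 2 ≤ (Split_M r g (z s)).card → pr f (z s) =
        (1 / (mm w : ℂ)) * ∑ l ∈ range r, if Split_M r g (z s) = {l} then pr (g l) (z s) else 0 := by
      intro s hs
      rw [hfe, smul_pr, sum_pr]
      congr 1
      refine sum_congr rfl fun l hl => ?_
      by_cases h : Split_M r g (z s) = {l}
      · rw [if_pos h]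
      · rw [if_neg h]
        apply Split_pr_eq_zero (mem_range.1 hl)
        intro hm
        apply h
        push Not at hs
        exact eq_singleton_iff_unique_mem.2 ⟨hm, fun x hx =>
          card_le_one.1 (by omega : (Split_M r g (z s)).card ≤ 1) x hx l hm⟩
    rw [pr_sum, ← sum_filter_add_sum_filter_not A (fun s => 2 ≤ (Split_M r g (z s)).card)]
    refine (norm_add_le _ _).trans (add_le_add (norm_sum_le _ _) ?_)
    have h1 : ∑ s ∈ A.filter (fun s => ¬ 2 ≤ (Split_M r g (z s)).card), pr f (z s) =
        (1 / (mm w : ℂ)) * ∑ l ∈ range r,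
          pr (g l) (∑ s ∈ A.filter (fun s => Split_M r g (z s) = {l}), z s) := by
      have h2 : ∑ s ∈ A.filter (fun s => ¬ 2 ≤ (Split_M r g (z s)).card), pr f (z s) =
          ∑ s ∈ A.filter (fun s => ¬ 2 ≤ (Split_M r g (z s)).card), (1 / (mm w : ℂ)) *
            ∑ l ∈ range r, if Split_M r g (z s) = {l} then pr (g l) (z s) else 0 :=
        sum_congr rfl fun s hs => key s (mem_filter.1 hs).2
      rw [h2, ← mul_sum, sum_comm]
      congr 1
      refine sum_congr rfl fun l _ => ?_
      rw [pr_sum, ← sum_filter, filter_filter]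
      refine sum_congr ?_ fun _ _ => rfl
      ext s
      simp only [mem_filter]
      constructor
      · rintro ⟨h3, _, h4⟩
        exact ⟨h3, h4⟩
      · rintro ⟨h3, h4⟩
        refine ⟨h3, ?_, h4⟩
        rw [h4, card_singleton]
        omega
    rw [h1, norm_mul, hmm]
    exact mul_le_mul_of_nonneg_left (norm_sum_le _ _) (by positivity)

end Pool.Agent.FSG
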