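import Pool.Agent.FSG.Params
import Pool.Agent.FSG.Split

set_option autoImplicit false

open Finset Filter Topology

namespace Pool.Agent.FSG

/-- (2.1) -/
theorem avg {N : ℕ} (hN : 0 < N) {x : ℕ → V} (hs : Succ N x) (hx : ∀ c < N, ‖x c‖ ≤ 1) :
    ‖(1 / (N : ℂ)) • ∑ c ∈ range N, x c‖ ≤ 1 ∧
      ∀ w f, Wt w f → nn w * mm w ≤ N →
        ‖pr f ((1 / (N : ℂ)) • ∑ c ∈ range N, x c)‖ ≤ 2 / mm w := by
  have hNR : (0 : ℝ) < N := by exact_mod_cast hN
  have h1N : ‖(1 / (N : ℂ))‖ = 1 / N := by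
    rw [norm_div, norm_one, Complex.norm_natCast]
  refine ⟨?_, ?_⟩
  · rw [norm_smul, h1N]
    have h1 : ‖∑ c ∈ range N, x c‖ ≤ N := by
      refine (norm_sum_le _ _).trans ?_
      have h2 : ∑ c ∈ range N, ‖x c‖ ≤ ∑ _c ∈ range N, (1 : ℝ) :=
        Finset.sum_le_sum fun c hc => hx c (Finset.mem_range.mp hc)
      simpa using h2
    calc 1 / (N : ℝ) * ‖∑ c ∈ range N, x c‖ ≤ 1 / (N : ℝ) * N :=
          mul_le_mul_of_nonneg_left h1 (by positivity)
      _ = 1 := by field_simp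
  · intro w f hf hwN
    have hf1 := hf.mem
    have hm := mm_posR w
    obtain ⟨r, g, P, B, hr, hK, hPA, hPr, hBA, hBs, hmain⟩ := split_wt hf (range N) x
      (fun s _ t ht hst => hs s t hst (Finset.mem_range.mp ht))
    have h1 : ∑ s ∈ P, ‖pr f (x s)‖ ≤ nn w := by
      have h2 : ∑ s ∈ P, ‖pr f (x s)‖ ≤ ∑ _s ∈ P, (1 : ℝ) :=
        Finset.sum_le_sum fun s hs' =>
          (hf1.le_norm _).trans (hx s (Finset.mem_range.mp (hPA hs')))
      have h3 : ((P.card : ℕ) : ℝ) ≤ nn w := by exact_mod_cast hPr.trans hr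
      refine h2.trans ?_
      simpa using h3
    have h2 : ∑ l ∈ range r, ‖pr (g l) (∑ s ∈ B l, x s)‖ ≤ N := by
      have h3 : ∑ l ∈ range r, ‖pr (g l) (∑ s ∈ B l, x s)‖ ≤
          ∑ l ∈ range r, ((B l).card : ℝ) := by
        refine Finset.sum_le_sum fun l hl => ?_
        rw [pr_sum]
        refine (norm_sum_le _ _).trans ?_
        have h4 : ∑ s ∈ B l, ‖pr (g l) (x s)‖ ≤ ∑ _s ∈ B l, (1 : ℝ) :=
          Finset.sum_le_sum fun s hs' =>
            ((hK l (Finset.mem_range.mp hl)).le_norm _).trans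
              (hx s (Finset.mem_range.mp (hBA l hs')))
        simpa using h4
      have h4 : ((∑ l ∈ range r, (B l).card : ℕ) : ℝ) ≤ N := by
        have h5 := hBs
        rw [Finset.card_range] at h5
        exact_mod_cast h5
      rw [Nat.cast_sum] at h4
      exact h3.trans h4
    have h3 : ‖pr f (∑ s ∈ range N, x s)‖ ≤ nn w + (1 / mm w) * N :=
      hmain.trans (add_le_add h1 (mul_le_mul_of_nonneg_left h2 (by positivity)))
    have h4 : (nn w : ℝ) * mm w ≤ N := by exact_mod_cast hwN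
    have h5 : (nn w : ℝ) ≤ N / mm w := by
      rw [le_div_iff₀ hm]; exact h4
    rw [pr_smul, norm_mul, h1N]
    calc 1 / (N : ℝ) * ‖pr f (∑ c ∈ range N, x c)‖
        ≤ 1 / (N : ℝ) * (N / mm w + (1 / mm w) * N) :=
          mul_le_mul_of_nonneg_left (h3.trans (add_le_add h5 le_rfl)) (by positivity)
      _ = 2 / mm w := by field_simp; ring

theorem avg_PR {x : ℕ → ℕ → V} (hs : ∀ s, Succ (nn s) (x s))
    (hx : ∀ s, ∀ c < nn s, ‖x s c‖ ≤ 1)
    (hsupp : ∀ N, ∀ᶠ s in atTop, ∀ c < nn s, ∀ a ∈ (x s c).support, N ≤ a) :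
    PR 2 (fun s => (1 / (nn s : ℂ)) • ∑ c ∈ range (nn s), x s c) where
  bd s := ((avg (nn_pos s) (hs s) (hx s)).1).trans (by norm_num)
  wt := ⟨fun s => s, tendsto_id, fun s w f hf hw =>
    (avg (nn_pos s) (hs s) (hx s)).2 w f hf (nn_mm_le hw)⟩
  supp := by
    intro N
    filter_upwards [hsupp N] with s hN a ha
    rw [Finsupp.mem_support_iff, Finsupp.smul_apply, Finsupp.finsetSum_apply] at ha
    by_contra hlt
    apply ha
    rw [Finset.sum_eq_zero, smul_zero]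
    intro c hc
    by_contra hne
    exact hlt (hN c (Finset.mem_range.mp hc) a (Finsupp.mem_support_iff.mpr hne))

end Pool.Agent.FSG
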