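import Mathlib

/-!
Base file of the FSG project: finitely supported sequences, the pairing, restrictions, the
parameters, the code, the norming set `K`, the norm, the dual space.
-/

set_option autoImplicit false

open Finset

namespace Pool.Agent.FSG

/-! ### vectors, pairing, restrictions -/

/-- finitely supported complex sequences (used for vectors and for functionals) -/
abbrev V := ℕ →₀ ℂ

/-- unit vectors -/
noncomputable abbrev ee (i : ℕ) : V := Finsupp.single i 1

/-- the bilinear pairing -/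
noncomputable def pr (f x : V) : ℂ := f.sum fun i c => c * x i

/-- restriction to the interval `[a, b)` -/
noncomputable def rs (a b : ℕ) (x : V) : V := x.filter fun i => a ≤ i ∧ i < b

/-- successive vectors `g 0 < g 1 < ⋯ < g (r - 1)` -/
def Succ (r : ℕ) (g : ℕ → V) : Prop :=
  ∀ i j, i < j → j < r → ∀ a ∈ (g i).support, ∀ b ∈ (g j).support, a < b

/-- the `ℓ_1` norm -/
noncomputable def l1 (x : V) : ℝ := ∑ i ∈ x.support, ‖x i‖

/-- all coordinates are complex rational numbers -/
def IsRat (f : V) : Prop := ∀ i, ∃ p q : ℚ, f i = (p : ℂ) + (q : ℂ) * Complex.I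

theorem pr_eq_sum {f x : V} {S : Finset ℕ} (h : f.support ⊆ S) :
    pr f x = ∑ i ∈ S, f i * x i := by
  unfold pr
  rw [Finsupp.sum_of_support_subset f h]
  intro i _
  simp

theorem pr_comm (f x : V) : pr f x = pr x f := by
  rw [pr_eq_sum (S := f.support ∪ x.support) subset_union_left,
    pr_eq_sum (S := f.support ∪ x.support) subset_union_right]
  exact Finset.sum_congr rfl fun i _ => mul_comm _ _

theorem pr_eq_sum' {f x : V} {S : Finset ℕ} (h : x.support ⊆ S) :
    pr f x = ∑ i ∈ S, f i * x i := by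
  rw [pr_comm, pr_eq_sum h]
  exact Finset.sum_congr rfl fun i _ => mul_comm _ _

@[simp] theorem pr_zero (f : V) : pr f 0 = 0 := by
  rw [pr_eq_sum (Finset.Subset.refl _)]; simp

@[simp] theorem zero_pr (x : V) : pr 0 x = 0 := by
  rw [pr_comm]; simp

theorem pr_add (f x y : V) : pr f (x + y) = pr f x + pr f y := by
  rw [pr_eq_sum (Finset.Subset.refl _), pr_eq_sum (Finset.Subset.refl _),
    pr_eq_sum (Finset.Subset.refl _), ← Finset.sum_add_distrib]
  exact Finset.sum_congr rfl fun i _ => by simp [mul_add]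

theorem pr_smul (f : V) (c : ℂ) (x : V) : pr f (c • x) = c * pr f x := by
  rw [pr_eq_sum (Finset.Subset.refl _), pr_eq_sum (Finset.Subset.refl _), Finset.mul_sum]
  exact Finset.sum_congr rfl fun i _ => by simp; ring

theorem add_pr (f g x : V) : pr (f + g) x = pr f x + pr g x := by
  rw [pr_comm, pr_add, pr_comm x, pr_comm x]

theorem smul_pr (c : ℂ) (f x : V) : pr (c • f) x = c * pr f x := by
  rw [pr_comm, pr_smul, pr_comm x]

theorem pr_neg (f x : V) : pr f (-x) = -pr f x := by
  have := pr_smul f (-1) x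
  simpa using this

theorem neg_pr (f x : V) : pr (-f) x = -pr f x := by
  rw [pr_comm, pr_neg, pr_comm]

theorem pr_sub (f x y : V) : pr f (x - y) = pr f x - pr f y := by
  rw [sub_eq_add_neg, pr_add, pr_neg, sub_eq_add_neg]

theorem sub_pr (f g x : V) : pr (f - g) x = pr f x - pr g x := by
  rw [pr_comm, pr_sub, pr_comm x, pr_comm x]

theorem pr_sum {ι : Type*} (S : Finset ι) (f : V) (x : ι → V) :
    pr f (∑ i ∈ S, x i) = ∑ i ∈ S, pr f (x i) := by
  classical
  induction S using Finset.induction_on with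
  | empty => simp
  | insert i S hi ih => rw [Finset.sum_insert hi, Finset.sum_insert hi, pr_add, ih]

theorem sum_pr {ι : Type*} (S : Finset ι) (f : ι → V) (x : V) :
    pr (∑ i ∈ S, f i) x = ∑ i ∈ S, pr (f i) x := by
  rw [pr_comm, pr_sum]
  exact Finset.sum_congr rfl fun i _ => pr_comm _ _

@[simp] theorem pr_ee (f : V) (i : ℕ) : pr f (ee i) = f i := by
  classical
  rw [pr_eq_sum' (S := {i}) Finsupp.support_single_subset]
  simp

@[simp] theorem ee_pr (x : V) (i : ℕ) : pr (ee i) x = x i := by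
  rw [pr_comm, pr_ee]

/-- disjoint supports pair to zero -/
theorem pr_eq_zero {f x : V} (h : ∀ i ∈ f.support, i ∉ x.support) : pr f x = 0 := by
  rw [pr_eq_sum (Finset.Subset.refl _)]
  refine Finset.sum_eq_zero fun i hi => ?_
  have := h i hi
  rw [Finsupp.notMem_support_iff] at this
  simp [this]

theorem rs_apply (a b : ℕ) (x : V) (i : ℕ) : rs a b x i = if a ≤ i ∧ i < b then x i else 0 := by
  classical
  unfold rs
  rw [Finsupp.filter_apply]

theorem rs_add (a b : ℕ) (x y : V) : rs a b (x + y) = rs a b x + rs a b y := by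
  ext i; simp only [rs_apply, Finsupp.add_apply]; split_ifs <;> simp

theorem rs_smul (a b : ℕ) (c : ℂ) (x : V) : rs a b (c • x) = c • rs a b x := by
  ext i; simp only [rs_apply, Finsupp.smul_apply]; split_ifs <;> simp

@[simp] theorem rs_zero (a b : ℕ) : rs a b 0 = 0 := by
  ext i; simp [rs_apply]

theorem rs_sum {ι : Type*} (S : Finset ι) (a b : ℕ) (x : ι → V) :
    rs a b (∑ i ∈ S, x i) = ∑ i ∈ S, rs a b (x i) := by
  classical
  induction S using Finset.induction_on with
  | empty => simp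
  | insert i S hi ih => rw [Finset.sum_insert hi, Finset.sum_insert hi, rs_add, ih]

theorem rs_rs (a b c d : ℕ) (x : V) : rs a b (rs c d x) = rs (max a c) (min b d) x := by
  ext i
  simp only [rs_apply]
  split_ifs <;> grind

theorem rs_support (a b : ℕ) (x : V) : (rs a b x).support ⊆ x.support := by
  intro i hi
  rw [Finsupp.mem_support_iff, rs_apply] at hi
  rw [Finsupp.mem_support_iff]
  split_ifs at hi with h
  · exact hi
  · exact absurd rfl hi

theorem mem_rs_support {a b : ℕ} {x : V} {i : ℕ} :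
    i ∈ (rs a b x).support ↔ (a ≤ i ∧ i < b) ∧ i ∈ x.support := by
  rw [Finsupp.mem_support_iff, rs_apply, Finsupp.mem_support_iff]
  split_ifs with h <;> simp [h]

/-- restriction does nothing iff the support is in the interval -/
theorem rs_eq_self_iff {a b : ℕ} {x : V} :
    rs a b x = x ↔ ∀ i ∈ x.support, a ≤ i ∧ i < b := by
  constructor
  · intro h i hi
    rw [← h] at hi
    exact (mem_rs_support.mp hi).1
  · intro h
    ext i
    rw [rs_apply]
    split_ifs with h1
    · rfl
    · by_contra h2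
      exact h1 (h i (Finsupp.mem_support_iff.mpr (Ne.symm h2)))

theorem pr_rs (a b : ℕ) (f x : V) : pr f (rs a b x) = pr (rs a b f) x := by
  rw [pr_eq_sum (Finset.Subset.refl _), pr_eq_sum (rs_support a b f)]
  refine Finset.sum_congr rfl fun i _ => ?_
  rw [rs_apply, rs_apply]
  split_ifs <;> simp

theorem Succ.mono {r r' : ℕ} {g : ℕ → V} (h : Succ r g) (hr : r' ≤ r) : Succ r' g :=
  fun i j hij hj => h i j hij (hj.trans_le hr)

theorem Succ.restr {r : ℕ} {g : ℕ → V} (h : Succ r g) (a b : ℕ) :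
    Succ r (fun i => rs a b (g i)) :=
  fun i j hij hj x hx y hy => h i j hij hj x (rs_support _ _ _ hx) y (rs_support _ _ _ hy)

/-- at most one member of a successive family has a given coordinate -/
theorem Succ.unique {r : ℕ} {g : ℕ → V} (h : Succ r g) {i j n : ℕ} (hi : i < r) (hj : j < r)
    (h1 : g i n ≠ 0) (h2 : g j n ≠ 0) : i = j := by
  rw [← Finsupp.mem_support_iff] at h1 h2
  rcases lt_trichotomy i j with h3 | h3 | h3
  · exact absurd (h i j h3 hj n h1 n h2) (lt_irrefl _)
  · exact h3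
  · exact absurd (h j i h3 hi n h2 n h1) (lt_irrefl _)

theorem Succ.sum_apply_le {r : ℕ} {g : ℕ → V} (h : Succ r g) {c : ℝ} (hc : 0 ≤ c) {n : ℕ}
    (hb : ∀ i < r, ‖g i n‖ ≤ c) : ‖(∑ i ∈ range r, g i) n‖ ≤ c := by
  rw [Finsupp.finsetSum_apply]
  by_cases h0 : ∀ i < r, g i n = 0
  · rw [Finset.sum_eq_zero fun i hi => h0 i (Finset.mem_range.mp hi)]
    simpa using hc
  · push Not at h0
    obtain ⟨i, hi, hin⟩ := h0
    rw [Finset.sum_eq_single i]
    · exact hb i hi
    · intro j hj hji
      by_contra h2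
      exact hji (h.unique (Finset.mem_range.mp hj) hi h2 hin)
    · intro h2
      exact absurd (Finset.mem_range.mpr hi) h2

theorem l1_nonneg (x : V) : 0 ≤ l1 x := Finset.sum_nonneg fun _ _ => norm_nonneg _

theorem norm_pr_le_l1 {f x : V} (h : ∀ i, ‖f i‖ ≤ 1) : ‖pr f x‖ ≤ l1 x := by
  rw [pr_eq_sum' (Finset.Subset.refl _)]
  refine (norm_sum_le _ _).trans ?_
  refine Finset.sum_le_sum fun i _ => ?_
  rw [norm_mul]
  exact mul_le_of_le_one_left (norm_nonneg _) (h i)

/-! ### parameters -/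

/-- the weights `m_j` -/
def mm (j : ℕ) : ℕ := 2 ^ 2 ^ j

/-- the exponents `r_j` -/
def rr : ℕ → ℕ
  | 0 => 1
  | j + 1 => 20 * (2 ^ j + 1) * rr j

/-- the lengths `n_j` -/
def nn (j : ℕ) : ℕ := 9 ^ rr j

theorem mm_pos (j : ℕ) : 0 < mm j := by unfold mm; positivity

theorem mm_posR (j : ℕ) : (0 : ℝ) < mm j := by exact_mod_cast mm_pos j

theorem one_le_mm (j : ℕ) : 1 ≤ mm j := mm_pos j

theorem two_le_mm (j : ℕ) : 2 ≤ mm j := by
  unfold mm
  calc 2 = 2 ^ 1 := by norm_num
    _ ≤ 2 ^ 2 ^ j := Nat.pow_le_pow_right (by norm_num) Nat.one_le_two_pow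

theorem nn_pos (j : ℕ) : 0 < nn j := by unfold nn; positivity

theorem nn_posR (j : ℕ) : (0 : ℝ) < nn j := by exact_mod_cast nn_pos j

/-! ### the code -/

theorem isRat_countable : Countable {f : V // IsRat f} := by
  classical
  let F : (ℕ →₀ ℚ × ℚ) → {f : V // IsRat f} := fun g =>
    ⟨g.mapRange (fun p => (p.1 : ℂ) + (p.2 : ℂ) * Complex.I) (by simp), fun i =>
      ⟨(g i).1, (g i).2, by simp⟩⟩
  have hF : Function.Surjective F := by
    rintro ⟨f, hf⟩
    have hf' := hf
    choose p q hpq using hf'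
    refine ⟨Finsupp.onFinset f.support (fun i => if f i = 0 then 0 else (p i, q i)) ?_, ?_⟩
    · intro i hi
      rw [Finsupp.mem_support_iff]
      intro h
      simp [h] at hi
    · apply Subtype.ext
      ext i
      by_cases h : f i = 0
      · simp [F, h]
      · simp [F, h, ← hpq i]
  exact hF.countable

theorem exists_enc : ∃ e : List V → ℕ, ∀ L L' : List V, (∀ f ∈ L, IsRat f) →
    (∀ f ∈ L', IsRat f) → e L = e L' → L = L' := by
  classical
  have := isRat_countable
  obtain ⟨φ, hφ⟩ := Countable.exists_injective_nat (List {f : V // IsRat f})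
  refine ⟨fun L => if h : ∀ f ∈ L, IsRat f then φ (L.attachWith _ h) else 0, ?_⟩
  intro L L' h h' he
  beta_reduce at he
  rw [dif_pos h, dif_pos h'] at he
  have h1 := hφ he
  have h2 := congrArg (List.map Subtype.val) h1
  simpa using h2

/-- the injective enumeration of the lists of rational vectors -/
noncomputable def enc : List V → ℕ := Classical.choose exists_enc

theorem enc_inj {L L' : List V} (h : ∀ f ∈ L, IsRat f) (h' : ∀ f ∈ L', IsRat f)
    (he : enc L = enc L') : L = L' :=
  Classical.choose_spec exists_enc L L' h h' he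

/-- the code -/
noncomputable def code (j : ℕ) (L : List V) : ℕ := 2 * (enc L + (nn j * mm j) ^ 2 + j + 1)

theorem code_even (j : ℕ) (L : List V) : Even (code j L) := by
  unfold code; exact even_two_mul _

theorem lt_code (j : ℕ) (L : List V) : j < code j L := by
  unfold code; omega

theorem le_mm (w : ℕ) : w ≤ mm w := by
  unfold mm
  exact (Nat.lt_two_pow_self.trans Nat.lt_two_pow_self).le

theorem code_large (j : ℕ) (L : List V) : (nn j * mm j) ^ 2 ≤ mm (code j L) := by
  refine le_trans ?_ (le_mm _)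
  unfold code
  omega

theorem code_inj {j : ℕ} {L L' : List V} (h : ∀ f ∈ L, IsRat f) (h' : ∀ f ∈ L', IsRat f)
    (he : code j L = code j L') : L = L' := by
  apply enc_inj h h'
  unfold code at he
  omega

/-! ### the norming set -/

/-- the norming set -/
inductive K : V → Prop
  | basis (i : ℕ) : K (ee i)
  | comb (r : ℕ) (c : ℕ → ℂ) (g : ℕ → V) (hg : ∀ i < r, K (g i))
      (hc : ∑ i ∈ range r, ‖c i‖ ≤ 1) : K (∑ i ∈ range r, c i • g i)
  | even (j r : ℕ) (hj : Even j) (hr : r ≤ nn j) (g : ℕ → V) (hg : ∀ i < r, K (g i))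
      (hs : Succ r g) : K ((1 / (mm j : ℂ)) • ∑ i ∈ range r, g i)
  | odd (j r : ℕ) (hj : Odd j) (hr : r ≤ nn j) (s : ℕ → ℕ) (h : ℕ → ℕ → V) (F : ℕ → V)
      (hh : ∀ k < r, ∀ i < s k, K (h k i))
      (hsn : ∀ k < r, s k ≤ nn (code j ((List.range k).map F)))
      (hhs : ∀ k < r, Succ (s k) (h k))
      (hF : ∀ k < r, F k =
        (1 / (mm (code j ((List.range k).map F)) : ℂ)) • ∑ i ∈ range (s k), h k i)
      (hrat : ∀ k < r, IsRat (F k)) (hsucc : Succ r F) (a b : ℕ) :
      K ((1 / (mm j : ℂ)) • ∑ k ∈ range r, rs a b (F k))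

/-- a functional `(1 / m_w) ∑ h_i`, `h_i ∈ K` successive, at most `n_w` terms -/
def WF (w : ℕ) (f : V) : Prop :=
  ∃ (s : ℕ) (h : ℕ → V), s ≤ nn w ∧ (∀ i < s, K (h i)) ∧ Succ s h ∧
    f = (1 / (mm w : ℂ)) • ∑ i ∈ range s, h i

/-- special sequences of length `r` for the (odd) number `j` -/
structure Special (j r : ℕ) (F : ℕ → V) : Prop where
  succ : Succ r F
  rat : ∀ k < r, IsRat (F k)
  wf : ∀ k < r, WF (code j ((List.range k).map F)) (F k)

/-- the functionals of weight `w` -/
def Wt (w : ℕ) (f : V) : Prop :=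
  (Even w ∧ WF w f) ∨
    (Odd w ∧ ∃ (r : ℕ) (F : ℕ → V) (a b : ℕ), r ≤ nn w ∧ Special w r F ∧
      f = (1 / (mm w : ℂ)) • ∑ k ∈ range r, rs a b (F k))

theorem K.of_special {j r : ℕ} {F : ℕ → V} (hj : Odd j) (hr : r ≤ nn j) (hF : Special j r F)
    (a b : ℕ) : K ((1 / (mm j : ℂ)) • ∑ k ∈ range r, rs a b (F k)) := by
  classical
  have h1 : ∀ k, ∃ (s : ℕ) (h : ℕ → V), k < r → s ≤ nn (code j ((List.range k).map F)) ∧
      (∀ i < s, K (h i)) ∧ Succ s h ∧
      F k = (1 / (mm (code j ((List.range k).map F)) : ℂ)) • ∑ i ∈ range s, h i := by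
    intro k
    by_cases hk : k < r
    · obtain ⟨s, h, h2⟩ := hF.wf k hk
      exact ⟨s, h, fun _ => h2⟩
    · exact ⟨0, 0, fun h => absurd h hk⟩
  choose s h h2 using h1
  exact K.odd j r hj hr s h F (fun k hk => (h2 k hk).2.1) (fun k hk => (h2 k hk).1)
    (fun k hk => (h2 k hk).2.2.1) (fun k hk => (h2 k hk).2.2.2) hF.rat hF.succ a b

theorem WF.mem {w : ℕ} (hw : Even w) {f : V} (h : WF w f) : K f := by
  obtain ⟨s, g, hs, hg, hsu, rfl⟩ := h
  exact K.even w s hw hs g hg hsu

theorem Wt.mem {w : ℕ} {f : V} (h : Wt w f) : K f := by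
  rcases h with ⟨hw, h⟩ | ⟨hw, r, F, a, b, hr, hF, rfl⟩
  · exact h.mem hw
  · exact K.of_special hw hr hF a b

/-- induction principle -/
theorem K.ind {P : V → Prop} (h0 : ∀ i, P (ee i))
    (hc : ∀ (r : ℕ) (c : ℕ → ℂ) (g : ℕ → V), (∀ i < r, P (g i)) →
      ∑ i ∈ range r, ‖c i‖ ≤ 1 → P (∑ i ∈ range r, c i • g i))
    (hw : ∀ w f, Wt w f → P f) : ∀ f, K f → P f := by
  intro f hf
  induction hf with
  | basis i => exact h0 i
  | comb r c g hg hcs ih => exact hc r c g ih hcs
  | even j r hj hr g hg hs ih => exact hw j _ (Or.inl ⟨hj, r, g, hr, hg, hs, rfl⟩)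
  | odd j r hj hr s h F hh hsn hhs hF hrat hsucc a b ih =>
    exact hw j _ (Or.inr ⟨hj, r, F, a, b, hr,
      ⟨hsucc, hrat, fun k hk => ⟨s k, h k, hsn k hk, hh k hk, hhs k hk, hF k hk⟩⟩, rfl⟩)

theorem WF.restr {w : ℕ} {f : V} (hK : ∀ g, K g → ∀ a b, K (rs a b g)) (h : WF w f) (a b : ℕ) :
    WF w (rs a b f) := by
  obtain ⟨s, g, hs, hg, hsu, rfl⟩ := h
  refine ⟨s, fun i => rs a b (g i), hs, fun i hi => hK _ (hg i hi) a b, hsu.restr a b, ?_⟩
  rw [rs_smul, rs_sum]

theorem K.restr {f : V} (hf : K f) (a b : ℕ) : K (rs a b f) := by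
  induction hf with
  | basis i =>
    have h1 : rs a b (ee i) = ∑ n ∈ range 1, (if a ≤ i ∧ i < b then (1 : ℂ) else 0) • ee i := by
      ext n
      rw [rs_apply]
      simp only [range_one, sum_singleton, Finsupp.smul_apply, smul_eq_mul]
      by_cases hn : n = i
      · subst hn
        simp
      · have h2 : (ee i : V) n = 0 := Finsupp.single_eq_of_ne hn
        rw [h2]; simp
    rw [h1]
    exact K.comb 1 (fun _ => if a ≤ i ∧ i < b then (1 : ℂ) else 0) (fun _ => ee i)
      (fun _ _ => K.basis i) (by simp only [range_one, sum_singleton]; split_ifs <;> simp)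
  | comb r c g hg hcs ih =>
    rw [rs_sum]
    simp only [rs_smul]
    exact K.comb r c _ ih hcs
  | even j r hj hr g hg hs ih =>
    rw [rs_smul, rs_sum]
    exact K.even j r hj hr _ ih (hs.restr a b)
  | odd j r hj hr s h F hh hsn hhs hF hrat hsucc a' b' ih =>
    rw [rs_smul, rs_sum]
    simp only [rs_rs]
    exact K.odd j r hj hr s h F hh hsn hhs hF hrat hsucc _ _

theorem Wt.restr {w : ℕ} {f : V} (h : Wt w f) (a b : ℕ) : Wt w (rs a b f) := by
  rcases h with ⟨hw, h⟩ | ⟨hw, r, F, a', b', hr, hF, rfl⟩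
  · exact Or.inl ⟨hw, h.restr (fun g hg a b => K.restr hg a b) a b⟩
  · refine Or.inr ⟨hw, r, F, max a a', min b b', hr, hF, ?_⟩
    rw [rs_smul, rs_sum]
    simp only [rs_rs]

theorem Special.mem {j r : ℕ} {F : ℕ → V} (hF : Special j r F) {k : ℕ} (hk : k < r) : K (F k) :=
  (hF.wf k hk).mem (code_even _ _)

/-- every weighted functional has the form `(1 / m_w) ∑ g_i` -/
theorem Wt.wf {w : ℕ} {f : V} (h : Wt w f) : WF w f := by
  rcases h with ⟨hw, h⟩ | ⟨hw, r, F, a, b, hr, hF, rfl⟩
  · exact h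
  · exact ⟨r, fun k => rs a b (F k), hr, fun i hi => (hF.mem hi).restr a b, hF.succ.restr a b, rfl⟩

theorem WF.apply_le_of {w : ℕ} {f : V} (hw : WF w f) {n : ℕ}
    (h1 : ∀ g, K g → ‖g n‖ ≤ 1) : ‖f n‖ ≤ 1 / mm w := by
  obtain ⟨s, g, hs, hg, hsu, rfl⟩ := hw
  rw [Finsupp.smul_apply, smul_eq_mul, norm_mul]
  have h2 := hsu.sum_apply_le (c := 1) zero_le_one (n := n) (fun i hi => h1 _ (hg i hi))
  have h3 : ‖(1 / (mm w : ℂ))‖ = 1 / mm w := by
    rw [norm_div, norm_one, Complex.norm_natCast]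
  rw [h3]
  exact mul_le_of_le_one_right (by positivity) h2

theorem K.abs_le {f : V} (hf : K f) (n : ℕ) : ‖f n‖ ≤ 1 := by
  have key : ∀ (w r : ℕ) (g : ℕ → V), Succ r g → (∀ i < r, ‖g i n‖ ≤ 1) →
      ‖((1 / (mm w : ℂ)) • ∑ i ∈ range r, g i) n‖ ≤ 1 := by
    intro w r g hs hg
    rw [Finsupp.smul_apply, smul_eq_mul, norm_mul]
    have h2 := hs.sum_apply_le (c := 1) zero_le_one (n := n) hg
    have h3 : ‖(1 / (mm w : ℂ))‖ ≤ 1 := by
      rw [norm_div, norm_one, Complex.norm_natCast, div_le_one (mm_posR w)]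
      exact_mod_cast one_le_mm w
    calc _ ≤ 1 * 1 := mul_le_mul h3 h2 (norm_nonneg _) zero_le_one
      _ = 1 := one_mul 1
  induction hf with
  | basis i =>
    by_cases h : n = i
    · subst h; simp
    · rw [show (ee i : V) n = 0 from Finsupp.single_eq_of_ne h]; simp
  | comb r c g hg hcs ih =>
    rw [Finsupp.finsetSum_apply]
    refine (norm_sum_le _ _).trans (le_trans ?_ hcs)
    refine Finset.sum_le_sum fun i hi => ?_
    rw [Finsupp.smul_apply, smul_eq_mul, norm_mul]
    exact mul_le_of_le_one_right (norm_nonneg _) (ih i (Finset.mem_range.mp hi))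
  | even j r hj hr g hg hs ih => exact key j r g hs ih
  | odd j r hj hr s h F hh hsn hhs hF hrat hsucc a b ih =>
    apply key j r _ (hsucc.restr a b)
    intro k hk
    have h1 : ‖F k n‖ ≤ 1 := by
      rw [hF k hk]
      exact key _ _ _ (hhs k hk) (ih k hk)
    rw [rs_apply]
    split_ifs
    · exact h1
    · simp

/-- coordinates of weighted functionals are small -/
theorem Wt.apply_le {w : ℕ} {f : V} (hf : Wt w f) (n : ℕ) : ‖f n‖ ≤ 1 / mm w :=
  hf.wf.apply_le_of fun _ hg => hg.abs_le n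

theorem K.zero : K 0 := by
  simpa using K.comb 0 (fun _ => 0) (fun _ => 0) (by simp) (by simp)

theorem K.smul {f : V} (hf : K f) {c : ℂ} (hc : ‖c‖ ≤ 1) : K (c • f) := by
  simpa using K.comb 1 (fun _ => c) (fun _ => f) (fun _ _ => hf) (by simpa using hc)

theorem K.comb2 {f g : V} (hf : K f) (hg : K g) {c d : ℂ} (h : ‖c‖ + ‖d‖ ≤ 1) :
    K (c • f + d • g) := by
  have := K.comb 2 (fun i => if i = 0 then c else d) (fun i => if i = 0 then f else g)
    (by intro i _; by_cases h : i = 0 <;> simp [h, hf, hg])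
    (by simpa [Finset.sum_range_succ] using h)
  simpa [Finset.sum_range_succ] using this

/-! ### the norm -/

/-- the norm of `c_00` given by `K` -/
noncomputable def nX (x : V) : ℝ := ⨆ f : {f : V // K f}, ‖pr f.1 x‖

theorem bdd (x : V) : BddAbove (Set.range fun f : {f : V // K f} => ‖pr f.1 x‖) := by
  refine ⟨l1 x, ?_⟩
  rintro _ ⟨f, rfl⟩
  exact norm_pr_le_l1 f.2.abs_le

theorem le_nX {f : V} (hf : K f) (x : V) : ‖pr f x‖ ≤ nX x := le_ciSup (bdd x) ⟨f, hf⟩

theorem nX_le {x : V} {C : ℝ} (h : ∀ f, K f → ‖pr f x‖ ≤ C) : nX x ≤ C := by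
  have : Nonempty {f : V // K f} := ⟨⟨0, K.zero⟩⟩
  exact ciSup_le fun f => h f.1 f.2

noncomputable instance instNormV : Norm V := ⟨nX⟩

theorem norm_def (x : V) : ‖x‖ = nX x := rfl

theorem coreV : NormedSpace.Core ℂ V where
  norm_nonneg x := by
    rw [norm_def]
    exact (norm_nonneg _).trans (le_nX K.zero x)
  norm_smul c x := by
    rw [norm_def, norm_def]
    have h1 : ∀ (c : ℂ) (x : V), nX (c • x) ≤ ‖c‖ * nX x := by
      intro c x
      apply nX_le
      intro f hf
      rw [pr_smul, norm_mul]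
      exact mul_le_mul_of_nonneg_left (le_nX hf x) (norm_nonneg _)
    apply le_antisymm (h1 c x)
    by_cases hc : c = 0
    · subst hc
      rw [norm_zero, zero_mul]
      exact (norm_nonneg _).trans (le_nX K.zero _)
    · have h2 := h1 c⁻¹ (c • x)
      rw [inv_smul_smul₀ hc, norm_inv] at h2
      have h3 : 0 < ‖c‖ := norm_pos_iff.mpr hc
      calc ‖c‖ * nX x ≤ ‖c‖ * (‖c‖⁻¹ * nX (c • x)) := mul_le_mul_of_nonneg_left h2 h3.le
        _ = nX (c • x) := by field_simp
  norm_triangle x y := by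
    rw [norm_def, norm_def, norm_def]
    apply nX_le
    intro f hf
    rw [pr_add]
    exact (norm_add_le _ _).trans (add_le_add (le_nX hf x) (le_nX hf y))
  norm_eq_zero_iff x := by
    rw [norm_def]
    constructor
    · intro h
      ext i
      have h1 := le_nX (K.basis i) x
      rw [h, ee_pr] at h1
      simpa using h1
    · rintro rfl
      apply le_antisymm
      · apply nX_le
        intro f _
        simp
      · exact (norm_nonneg _).trans (le_nX K.zero _)

noncomputable instance instNormedV : NormedAddCommGroup V := NormedAddCommGroup.ofCore coreV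

noncomputable instance instNormedSpaceV : NormedSpace ℂ V := NormedSpace.ofCore coreV

theorem K.le_norm {f : V} (hf : K f) (x : V) : ‖pr f x‖ ≤ ‖x‖ := le_nX hf x

theorem normV_le {x : V} {C : ℝ} (h : ∀ f, K f → ‖pr f x‖ ≤ C) : ‖x‖ ≤ C := nX_le h

theorem coord_le_norm (x : V) (i : ℕ) : ‖x i‖ ≤ ‖x‖ := by
  have := (K.basis i).le_norm x
  rwa [ee_pr] at this

theorem norm_le_l1 (x : V) : ‖x‖ ≤ l1 x := normV_le fun _ hf => norm_pr_le_l1 hf.abs_le

theorem norm_rs_le (a b : ℕ) (x : V) : ‖rs a b x‖ ≤ ‖x‖ := by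
  apply normV_le
  intro f hf
  rw [pr_rs]
  exact (hf.restr a b).le_norm x

/-! ### the dual -/

/-- the dual of `c_00` with the norm above -/
abbrev D := V →L[ℂ] ℂ

/-- shortcut instance (needed for operator norms on submodules of `D`) -/
noncomputable instance (priority := 10000) instACMD : AddCommMonoid D :=
  (inferInstance : NormedAddCommGroup D).toAddCommGroup.toAddCommMonoid

/-- shortcut instance (needed for operator norms on submodules of `D`) -/
noncomputable instance (priority := 10000) instModD : Module ℂ D :=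
  (inferInstance : NormedSpace ℂ D).toModule

/-- the functional on `V` given by an element of `V` -/
noncomputable def toD (f : V) : D :=
  LinearMap.mkContinuous
    { toFun := fun x => pr f x
      map_add' := fun x y => pr_add f x y
      map_smul' := fun c x => pr_smul f c x } (l1 f) (by
    intro x
    show ‖pr f x‖ ≤ l1 f * ‖x‖
    rw [pr_eq_sum (Finset.Subset.refl _), l1, Finset.sum_mul]
    refine (norm_sum_le _ _).trans (Finset.sum_le_sum fun i _ => ?_)
    rw [norm_mul]
    exact mul_le_mul_of_nonneg_left (coord_le_norm x i) (norm_nonneg _))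

@[simp] theorem toD_apply (f x : V) : toD f x = pr f x := rfl

theorem toD_add (f g : V) : toD (f + g) = toD f + toD g := by
  ext x; simp [add_pr]

theorem toD_smul (c : ℂ) (f : V) : toD (c • f) = c • toD f := by
  ext x; simp [smul_pr]

theorem toD_sub (f g : V) : toD (f - g) = toD f - toD g := by
  ext x; simp [sub_pr]

@[simp] theorem toD_zero : toD 0 = 0 := by
  ext x; simp

theorem toD_sum {ι : Type*} (S : Finset ι) (f : ι → V) :
    toD (∑ i ∈ S, f i) = ∑ i ∈ S, toD (f i) := by
  classical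
  induction S using Finset.induction_on with
  | empty => simp
  | insert i S hi ih => rw [Finset.sum_insert hi, Finset.sum_insert hi, toD_add, ih]

theorem norm_toD_le {f : V} (hf : K f) : ‖toD f‖ ≤ 1 := by
  apply ContinuousLinearMap.opNorm_le_bound _ zero_le_one
  intro x
  rw [toD_apply, one_mul]
  exact hf.le_norm x

/-- restriction to `[a, b)` as a bounded operator on `V` -/
noncomputable def rsL (a b : ℕ) : V →L[ℂ] V :=
  LinearMap.mkContinuous
    { toFun := fun x => rs a b x
      map_add' := fun x y => rs_add a b x y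
      map_smul' := fun c x => rs_smul a b c x } 1 (by
    intro x
    show ‖rs a b x‖ ≤ 1 * ‖x‖
    rw [one_mul]
    exact norm_rs_le a b x)

@[simp] theorem rsL_apply (a b : ℕ) (x : V) : rsL a b x = rs a b x := rfl

/-- restriction of elements of the dual -/
noncomputable def rD (a b : ℕ) (ζ : D) : D := ζ.comp (rsL a b)

@[simp] theorem rD_apply (a b : ℕ) (ζ : D) (x : V) : rD a b ζ x = ζ (rs a b x) := rfl

theorem rD_add (a b : ℕ) (ζ ξ : D) : rD a b (ζ + ξ) = rD a b ζ + rD a b ξ := by
  ext x; simp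

theorem rD_sub (a b : ℕ) (ζ ξ : D) : rD a b (ζ - ξ) = rD a b ζ - rD a b ξ := by
  ext x; simp

theorem rD_smul (a b : ℕ) (c : ℂ) (ζ : D) : rD a b (c • ζ) = c • rD a b ζ := by
  ext x; simp

theorem rD_sum {ι : Type*} (S : Finset ι) (a b : ℕ) (ζ : ι → D) :
    rD a b (∑ i ∈ S, ζ i) = ∑ i ∈ S, rD a b (ζ i) := by
  ext x; simp

theorem norm_rD_le (a b : ℕ) (ζ : D) : ‖rD a b ζ‖ ≤ ‖ζ‖ := by
  apply ContinuousLinearMap.opNorm_le_bound _ (norm_nonneg _)
  intro x
  rw [rD_apply]
  exact (ζ.le_opNorm _).trans (mul_le_mul_of_nonneg_left (norm_rs_le a b x) (norm_nonneg _))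

theorem rD_rD (a b c d : ℕ) (ζ : D) : rD a b (rD c d ζ) = rD (max a c) (min b d) ζ := by
  ext x
  simp [rs_rs, max_comm, min_comm]

theorem rD_toD (a b : ℕ) (f : V) : rD a b (toD f) = toD (rs a b f) := by
  ext x
  simp [pr_rs]

end Pool.Agent.FSG
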