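import Pool.Agent.FSG.Defs

set_option autoImplicit false

open Finset Filter Topology

namespace Pool.Agent.FSG

/-- the vector with the coordinates `v i`, `a ≤ i < b` -/
noncomputable def densE (a b : ℕ) (v : ℕ → ℂ) : V := ∑ i ∈ Finset.Ico a b, v i • ee i

theorem densE_apply (a b : ℕ) (v : ℕ → ℂ) (n : ℕ) :
    densE a b v n = if n ∈ Finset.Ico a b then v n else 0 := by
  classical
  unfold densE
  rw [Finsupp.finsetSum_apply]
  simp only [Finsupp.smul_apply, smul_eq_mul]
  split_ifs with h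
  · rw [Finset.sum_eq_single n]
    · simp
    · intro i _ hin
      rw [show (ee i : V) n = 0 from Finsupp.single_eq_of_ne hin.symm, mul_zero]
    · intro h1; exact absurd h h1
  · refine Finset.sum_eq_zero fun i hi => ?_
    have hin : n ≠ i := by rintro rfl; exact h hi
    rw [show (ee i : V) n = 0 from Finsupp.single_eq_of_ne hin, mul_zero]

theorem densE_rs (a b : ℕ) (v : ℕ → ℂ) : rs a b (densE a b v) = densE a b v := by
  ext n
  rw [rs_apply, densE_apply]
  by_cases h : a ≤ n ∧ n < b
  · rw [if_pos h]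
  · rw [if_neg h, if_neg (by rw [Finset.mem_Ico]; exact h)]

theorem dens_rs_eq (a b : ℕ) (x : V) : rs a b x = densE a b (fun i => x i) := by
  ext n
  rw [rs_apply, densE_apply]
  simp only [Finset.mem_Ico]

theorem dens_map (a b : ℕ) (v : ℕ → ℂ) (ζ : D) :
    ζ (densE a b v) = ∑ i ∈ Finset.Ico a b, v i * ζ (ee i) := by
  unfold densE
  rw [map_sum]
  refine Finset.sum_congr rfl fun i _ => ?_
  rw [map_smul, smul_eq_mul]

/-- coordinatewise closeness gives closeness in the dual -/
theorem dens_diff {a b : ℕ} {f : V} {ζ : D} (hf : rs a b f = f) (h : rD a b ζ = ζ) {ε : ℝ}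
    (hε : ∀ i ∈ Finset.Ico a b, ‖f i - ζ (ee i)‖ ≤ ε) (h0 : 0 ≤ ε) :
    ‖toD f - ζ‖ ≤ ((b - a : ℕ) : ℝ) * ε := by
  apply ContinuousLinearMap.opNorm_le_bound _ (by positivity)
  intro x
  have h1 : (toD f - ζ) x = ∑ i ∈ Finset.Ico a b, (f i - ζ (ee i)) * x i := by
    rw [sub_apply, toD_apply]
    have h2 : ζ x = ∑ i ∈ Finset.Ico a b, x i * ζ (ee i) := by
      rw [← dens_map a b (fun i => x i) ζ, ← dens_rs_eq, ← rD_apply, h]
    have h3 : pr f x = ∑ i ∈ Finset.Ico a b, f i * x i := by
      apply pr_eq_sum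
      intro i hi
      rw [Finset.mem_Ico]
      exact rs_eq_self_iff.mp hf i hi
    rw [h2, h3, ← Finset.sum_sub_distrib]
    refine Finset.sum_congr rfl fun i _ => ?_
    ring
  rw [h1]
  calc ‖∑ i ∈ Finset.Ico a b, (f i - ζ (ee i)) * x i‖
      ≤ ∑ i ∈ Finset.Ico a b, ‖(f i - ζ (ee i)) * x i‖ := norm_sum_le _ _
    _ ≤ ∑ _i ∈ Finset.Ico a b, ε * ‖x‖ := by
        refine Finset.sum_le_sum fun i hi => ?_
        rw [norm_mul]
        exact mul_le_mul (hε i hi) (coord_le_norm x i) (norm_nonneg _) h0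
    _ = ((b - a : ℕ) : ℝ) * ε * ‖x‖ := by
        rw [Finset.sum_const, Nat.card_Ico, nsmul_eq_mul, mul_assoc]

/-- extension by zero of a function on the interval -/
noncomputable def densX (a b : ℕ) (v : Finset.Ico a b → ℂ) : ℕ → ℂ :=
  fun i => if h : i ∈ Finset.Ico a b then v ⟨i, h⟩ else 0

theorem densX_apply {a b : ℕ} (v : Finset.Ico a b → ℂ) {i : ℕ} (h : i ∈ Finset.Ico a b) :
    densX a b v i = v ⟨i, h⟩ := by
  unfold densX
  rw [dif_pos h]

/-- Hahn-Banach: elements of `K` near the functional, coordinatewise -/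
theorem dens_hb {a b : ℕ} {ζ : D} (h : rD a b ζ = ζ) (h1 : ‖ζ‖ ≤ 1) {η : ℝ} (hη : 0 < η) :
    ∃ f : V, K f ∧ rs a b f = f ∧ ∀ i ∈ Finset.Ico a b, ‖f i - ζ (ee i)‖ ≤ η := by
  classical
  set S : Set (Finset.Ico a b → ℂ) := {v | K (densE a b (densX a b v))} with hS
  have hadd : ∀ (c d : ℂ) (v w : Finset.Ico a b → ℂ),
      densE a b (densX a b (c • v + d • w)) =
        c • densE a b (densX a b v) + d • densE a b (densX a b w) := by
    intro c d v w
    ext n
    rw [Finsupp.add_apply, Finsupp.smul_apply, Finsupp.smul_apply, densE_apply, densE_apply,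
      densE_apply]
    by_cases hn : n ∈ Finset.Ico a b
    · rw [if_pos hn, if_pos hn, if_pos hn, densX_apply _ hn, densX_apply _ hn, densX_apply _ hn]
      rfl
    · rw [if_neg hn, if_neg hn, if_neg hn]; simp
  have hconv : Convex ℝ S := by
    intro v hv w hw s t hs ht hst
    have h2 := K.comb2 (c := (s : ℂ)) (d := (t : ℂ)) hv hw (by
      rw [Complex.norm_real, Complex.norm_real, Real.norm_eq_abs, Real.norm_eq_abs,
        abs_of_nonneg hs, abs_of_nonneg ht, hst])
    rw [← hadd] at h2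
    have h3 : s • v + t • w = (s : ℂ) • v + (t : ℂ) • w := by
      ext i
      simp
    show K (densE a b (densX a b (s • v + t • w)))
    rw [h3]
    exact h2
  set ζv : Finset.Ico a b → ℂ := fun i => ζ (ee i) with hζv
  have hmem : ζv ∈ closure S := by
    by_contra hcon
    obtain ⟨F, u, hF1, hF2⟩ := RCLike.geometric_hahn_banach_closed_point (𝕜 := ℂ)
      hconv.closure isClosed_closure hcon
    -- the vector
    set x : V := densE a b (densX a b (fun i => F (Pi.single i 1))) with hx
    have hFv : ∀ v : Finset.Ico a b → ℂ,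
        F v = ∑ i ∈ Finset.Ico a b, densX a b v i * x i := by
      intro v
      have h2 : v = ∑ i, v i • (Pi.single i 1 : Finset.Ico a b → ℂ) := by
        ext j
        rw [Finset.sum_apply]
        simp [Pi.single_apply]
      conv_lhs => rw [h2]
      rw [map_sum, ← Finset.sum_coe_sort (Finset.Ico a b)]
      refine Finset.sum_congr rfl fun i _ => ?_
      rw [map_smul, smul_eq_mul, densX_apply v i.2, hx, densE_apply, if_pos i.2,
        densX_apply _ i.2]
    have hxs : rs a b x = x := densE_rs _ _ _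
    have hpr : ∀ v : Finset.Ico a b → ℂ, F v = pr (densE a b (densX a b v)) x := by
      intro v
      rw [hFv, pr_eq_sum' (S := Finset.Ico a b)]
      · refine Finset.sum_congr rfl fun i hi => ?_
        rw [densE_apply a b (densX a b v), if_pos hi]
      · intro i hi
        rw [Finset.mem_Ico]
        exact rs_eq_self_iff.mp hxs i hi
    have hz : ζ x = F ζv := by
      have h2 : ζ x = ζ (densE a b (fun i => x i)) := by rw [← dens_rs_eq, hxs]
      rw [hFv, h2, dens_map]
      refine Finset.sum_congr rfl fun i hi => ?_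
      rw [densX_apply _ hi, mul_comm]
    have hK : ∀ g, K g → ‖pr g x‖ ≤ u := by
      intro g hg
      have h2 : pr g x = pr (rs a b g) x := by
        rw [← pr_rs, hxs]
      obtain ⟨c, hc1, hc2⟩ : ∃ c : ℂ, ‖c‖ ≤ 1 ∧ c * pr g x = (‖pr g x‖ : ℂ) := by
        by_cases h0 : pr g x = 0
        · exact ⟨0, by simp, by simp [h0]⟩
        · refine ⟨(‖pr g x‖ : ℂ) / pr g x, ?_, ?_⟩
          · rw [norm_div, Complex.norm_real, norm_norm, div_self (norm_ne_zero_iff.mpr h0)]
          · field_simp
      set v : Finset.Ico a b → ℂ := fun i => c * g i with hv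
      have hvE : densE a b (densX a b v) = c • rs a b g := by
        ext n
        rw [densE_apply, Finsupp.smul_apply, rs_apply, smul_eq_mul]
        by_cases hn : n ∈ Finset.Ico a b
        · rw [if_pos hn, densX_apply _ hn, if_pos (Finset.mem_Ico.mp hn)]
        · rw [if_neg hn, if_neg (fun h => hn (Finset.mem_Ico.mpr h)), mul_zero]
      have hvS : v ∈ S := by
        show K (densE a b (densX a b v))
        rw [hvE]
        exact (hg.restr a b).smul hc1
      have h3 := hF1 v (subset_closure hvS)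
      rw [hpr, hvE, smul_pr, ← h2, hc2] at h3
      have h4 : RCLike.re ((‖pr g x‖ : ℂ)) = ‖pr g x‖ := by
        simp
      rw [h4] at h3
      exact h3.le
    have hxu : ‖x‖ ≤ u := normV_le hK
    have h5 : RCLike.re (F ζv) ≤ ‖x‖ := by
      rw [← hz]
      calc RCLike.re (ζ x) ≤ ‖ζ x‖ := RCLike.re_le_norm _
        _ ≤ ‖ζ‖ * ‖x‖ := ζ.le_opNorm x
        _ ≤ 1 * ‖x‖ := mul_le_mul_of_nonneg_right h1 (norm_nonneg _)
        _ = ‖x‖ := one_mul _
    linarith
  rw [Metric.mem_closure_iff] at hmem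
  obtain ⟨v, hv, hd⟩ := hmem η hη
  refine ⟨densE a b (densX a b v), hv, densE_rs _ _ _, ?_⟩
  intro i hi
  rw [densE_apply, if_pos hi, densX_apply _ hi]
  rw [dist_comm] at hd
  have h2 := dist_le_pi_dist v ζv ⟨i, hi⟩
  rw [dist_eq_norm] at h2
  exact h2.trans hd.le

/-- rational approximation of a complex number -/
theorem dens_rat (z : ℂ) {ε : ℝ} (hε : 0 < ε) :
    ∃ p q : ℚ, ‖((p : ℂ) + (q : ℂ) * Complex.I) - z‖ ≤ ε := by
  obtain ⟨p, hp1, hp2⟩ := exists_rat_btwn (show z.re - ε / 2 < z.re by linarith)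
  obtain ⟨q, hq1, hq2⟩ := exists_rat_btwn (show z.im - ε / 2 < z.im by linarith)
  refine ⟨p, q, ?_⟩
  refine (Complex.norm_le_abs_re_add_abs_im _).trans ?_
  have h1 : (((p : ℂ) + (q : ℂ) * Complex.I) - z).re = (p : ℝ) - z.re := by
    simp
  have h2 : (((p : ℂ) + (q : ℂ) * Complex.I) - z).im = (q : ℝ) - z.im := by
    simp
  rw [h1, h2]
  have h3 : |(p : ℝ) - z.re| ≤ ε / 2 := by rw [abs_le]; constructor <;> linarith
  have h4 : |(q : ℝ) - z.im| ≤ ε / 2 := by rw [abs_le]; constructor <;> linarith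
  linarith

/-- (1.4) -/
theorem dens {a b : ℕ} {ζ : D} (h : rD a b ζ = ζ) (h1 : ‖ζ‖ ≤ 1) {η : ℝ} (hη : 0 < η) :
    ∃ f : V, K f ∧ IsRat f ∧ rs a b f = f ∧ ‖toD f - ζ‖ ≤ η := by
  classical
  set n : ℕ := b - a with hn
  set δ : ℝ := η / (n + 1) with hδ
  have hnpos : (0 : ℝ) < (n : ℝ) + 1 := by positivity
  have hδ0 : 0 < δ := div_pos hη hnpos
  set t : ℝ := min (1 / 2) (δ / 4) with ht
  have ht0 : 0 < t := lt_min (by norm_num) (by linarith)
  have ht1 : t ≤ 1 / 2 := min_le_left _ _
  have ht2 : t ≤ δ / 4 := min_le_right _ _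
  obtain ⟨κ, hκ, hκs, hκd⟩ := dens_hb h h1 (half_pos hδ0)
  have hpq : ∀ i, ∃ p q : ℚ, ‖((p : ℂ) + (q : ℂ) * Complex.I) - ((1 - t : ℝ) : ℂ) * κ i‖ ≤
      t / (n + 1) := fun i => dens_rat _ (div_pos ht0 hnpos)
  choose p q hpq using hpq
  set w : ℕ → ℂ := fun i => (p i : ℂ) + (q i : ℂ) * Complex.I with hw
  have hrs : rs a b (densE a b w) = densE a b w := densE_rs _ _ _
  refine ⟨densE a b w, ?_, ?_, hrs, ?_⟩
  · -- membership
    set c : ℕ → ℂ := fun i => if i ∈ Finset.Ico a b then
      (w i - ((1 - t : ℝ) : ℂ) * κ i) / (t : ℂ) else 0 with hc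
    have h2 : K (∑ i ∈ range b, c i • ee i) := by
      apply K.comb b c (fun i => ee i) (fun i _ => K.basis i)
      have h3 : ∑ i ∈ range b, ‖c i‖ ≤ ∑ i ∈ Finset.Ico a b, (1 : ℝ) / (n + 1) := by
        have h4 : ∑ i ∈ range b, ‖c i‖ = ∑ i ∈ Finset.Ico a b, ‖c i‖ := by
          symm
          apply Finset.sum_subset
          · intro i hi
            rw [Finset.mem_range]
            exact (Finset.mem_Ico.mp hi).2
          · intro i _ hi
            rw [hc]
            simp only
            rw [if_neg hi, norm_zero]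
        rw [h4]
        refine Finset.sum_le_sum fun i hi => ?_
        rw [hc]
        simp only
        rw [if_pos hi, norm_div, Complex.norm_real, Real.norm_eq_abs, abs_of_pos ht0,
          div_le_iff₀ ht0]
        refine (hpq i).trans (le_of_eq ?_)
        ring
      refine h3.trans ?_
      rw [Finset.sum_const, Nat.card_Ico, nsmul_eq_mul, ← hn, mul_one_div,
        div_le_one hnpos]
      linarith
    have h3 : densE a b w = ((1 - t : ℝ) : ℂ) • κ + (t : ℂ) • ∑ i ∈ range b, c i • ee i := by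
      have ht' : (t : ℂ) ≠ 0 := by exact_mod_cast ht0.ne'
      ext i
      rw [Finsupp.add_apply, Finsupp.smul_apply, Finsupp.smul_apply, densE_apply]
      have h4 : (∑ i ∈ range b, c i • ee i : V) i = if i ∈ Finset.Ico a b then c i else 0 := by
        have h5 : (∑ i ∈ range b, c i • ee i : V) = densE 0 b c := by
          unfold densE
          rw [Finset.range_eq_Ico]
        rw [h5, densE_apply]
        by_cases hi : i ∈ Finset.Ico a b
        · rw [if_pos hi, if_pos (by
            rw [Finset.mem_Ico] at hi ⊢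
            exact ⟨Nat.zero_le _, hi.2⟩)]
        · rw [if_neg hi]
          split_ifs
          · rw [hc]
            simp only
            rw [if_neg hi]
          · rfl
      rw [h4]
      by_cases hi : i ∈ Finset.Ico a b
      · rw [if_pos hi, if_pos hi, hc]
        simp only
        rw [if_pos hi, smul_eq_mul, smul_eq_mul]
        field_simp
        ring
      · rw [if_neg hi, if_neg hi]
        have h5 : κ i = 0 := by
          by_contra h6
          exact hi (Finset.mem_Ico.mpr (rs_eq_self_iff.mp hκs i (Finsupp.mem_support_iff.mpr h6)))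
        rw [h5]
        simp
    rw [h3]
    apply K.comb2 hκ h2
    rw [Complex.norm_real, Complex.norm_real, Real.norm_eq_abs, Real.norm_eq_abs,
      abs_of_pos ht0, abs_of_nonneg (by linarith)]
    linarith
  · -- rationality
    intro i
    rw [densE_apply]
    split_ifs
    · exact ⟨p i, q i, rfl⟩
    · exact ⟨0, 0, by simp⟩
  · -- closeness
    have h2 : ‖toD (densE a b w) - ζ‖ ≤ ((b - a : ℕ) : ℝ) * δ := by
      apply dens_diff hrs h _ hδ0.le
      intro i hi
      rw [densE_apply, if_pos hi]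
      have h3 : w i - ζ (ee i) = (w i - ((1 - t : ℝ) : ℂ) * κ i) + (-(t : ℂ)) * κ i +
          (κ i - ζ (ee i)) := by
        push_cast
        ring
      rw [h3]
      have h4 : ‖w i - ((1 - t : ℝ) : ℂ) * κ i‖ ≤ t := by
        refine (hpq i).trans ?_
        rw [div_le_iff₀ hnpos]
        have : (0 : ℝ) ≤ n := Nat.cast_nonneg n
        nlinarith
      have h5 : ‖(-(t : ℂ)) * κ i‖ ≤ t := by
        rw [norm_mul, norm_neg, Complex.norm_real, Real.norm_eq_abs, abs_of_pos ht0]
        exact mul_le_of_le_one_right ht0.le (hκ.abs_le i)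
      have h6 := hκd i hi
      calc _ ≤ ‖(w i - ((1 - t : ℝ) : ℂ) * κ i) + (-(t : ℂ)) * κ i‖ + ‖κ i - ζ (ee i)‖ :=
            norm_add_le _ _
        _ ≤ (‖w i - ((1 - t : ℝ) : ℂ) * κ i‖ + ‖(-(t : ℂ)) * κ i‖) + ‖κ i - ζ (ee i)‖ := by
            gcongr
            exact norm_add_le _ _
        _ ≤ (t + t) + δ / 2 := by gcongr
        _ ≤ δ := by linarith
    refine h2.trans ?_
    rw [← hn, hδ, mul_div_assoc', div_le_iff₀ hnpos]
    nlinarith

end Pool.Agent.FSG
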