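import Pool.Agent.FSG.Params

set_option autoImplicit false

open Finset Filter Topology

namespace Pool.Agent.FSG

theorem RISm_pr_le {f x : V} {c : ℝ} (h : ∀ i, ‖f i‖ ≤ c) : ‖pr f x‖ ≤ c * l1 x := by
  rw [pr_eq_sum' (Finset.Subset.refl _), l1, Finset.mul_sum]
  refine (norm_sum_le _ _).trans ?_
  refine Finset.sum_le_sum fun i _ => ?_
  rw [norm_mul]
  exact mul_le_mul_of_nonneg_right (h i) (norm_nonneg _)

theorem RISm_mm_le {a b : ℕ} (h : a ≤ b) : (mm a : ℝ) ≤ mm b := by
  exact_mod_cast mm_strictMono.monotone h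

theorem RISm_support_smul (c : ℂ) (x : V) : (c • x).support ⊆ x.support := by
  intro a ha
  rw [Finsupp.mem_support_iff] at ha ⊢
  intro h
  apply ha
  rw [Finsupp.smul_apply, h, smul_zero]

theorem RISm_norm_smul_le (c : ℂ) (x : V) {B C : ℝ} (hB : 0 ≤ B) (hc : ‖c‖ ≤ B)
    (hx : ‖x‖ ≤ C) : ‖c • x‖ ≤ B * C := by
  rw [norm_smul]
  exact mul_le_mul hc hx (norm_nonneg _) hB

theorem RIS.comp {C : ℝ} {j : ℕ → ℕ} {z : ℕ → V} (h : RIS C j z) {φ : ℕ → ℕ}
    (hφ : StrictMono φ) : RIS C (fun s => j (φ s)) (fun s => z (φ s)) where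
  succ r := by
    intro a b hab _ x hx y hy
    exact h.succ (φ b + 1) (φ a) (φ b) (hφ hab) (Nat.lt_succ_self _) x hx y hy
  mono := h.mono.comp hφ
  bd s := h.bd (φ s)
  wt s := h.wt (φ s)
  l1 s := by
    refine (h.l1 (φ s)).trans ?_
    exact RISm_mm_le (h.mono.monotone (Nat.succ_le_of_lt (hφ (Nat.lt_succ_self s))))

theorem RIS.smul {C : ℝ} {j : ℕ → ℕ} {z : ℕ → V} (h : RIS C j z) {c : ℕ → ℂ}
    (hc : ∀ s, ‖c s‖ = 1) : RIS C j (fun s => c s • z s) where
  succ r := by
    intro a b hab hb x hx y hy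
    exact h.succ r a b hab hb x (RISm_support_smul _ _ hx) y (RISm_support_smul _ _ hy)
  mono := h.mono
  bd s := by
    have := RISm_norm_smul_le (c s) (z s) zero_le_one (hc s).le (h.bd s)
    rwa [one_mul] at this
  wt s w f hf hw := by
    rw [pr_smul, norm_mul, hc s, one_mul]
    exact h.wt s w f hf hw
  l1 s := by
    have h1 : Pool.Agent.FSG.l1 (c s • z s) ≤ Pool.Agent.FSG.l1 (z s) := by
      unfold Pool.Agent.FSG.l1
      refine le_trans (Finset.sum_le_sum_of_subset_of_nonneg (RISm_support_smul (c s) (z s))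
        fun _ _ _ => norm_nonneg _) ?_
      refine Finset.sum_le_sum fun i _ => ?_
      rw [Finsupp.smul_apply, smul_eq_mul, norm_mul, hc s, one_mul]
    exact (mul_le_mul_of_nonneg_right h1 (Nat.cast_nonneg _)).trans (h.l1 s)

theorem RIS.mono_const {C C' : ℝ} {j : ℕ → ℕ} {z : ℕ → V} (h : RIS C j z) (hC : C ≤ C') :
    RIS C' j z where
  succ := h.succ
  mono := h.mono
  bd s := (h.bd s).trans hC
  wt s w f hf hw := (h.wt s w f hf hw).trans
    (div_le_div_of_nonneg_right hC (Nat.cast_nonneg _))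
  l1 := h.l1

theorem PR.comp {C : ℝ} {z : ℕ → V} (h : PR C z) {φ : ℕ → ℕ} (hφ : StrictMono φ) :
    PR C (fun s => z (φ s)) where
  bd s := h.bd (φ s)
  wt := by
    obtain ⟨j, hj, h1⟩ := h.wt
    exact ⟨fun s => j (φ s), hj.comp hφ.tendsto_atTop, fun s => h1 (φ s)⟩
  supp N := hφ.tendsto_atTop.eventually (h.supp N)

theorem PR.mono_const {C C' : ℝ} {z : ℕ → V} (h : PR C z) (hC : C ≤ C') : PR C' z where
  bd s := (h.bd s).trans hC
  wt := by
    obtain ⟨j, hj, h1⟩ := h.wt
    exact ⟨j, hj, fun s w f hf hw => (h1 s w f hf hw).trans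
      (div_le_div_of_nonneg_right hC (Nat.cast_nonneg _))⟩
  supp := h.supp

theorem PR.smul {C : ℝ} {z : ℕ → V} (h : PR C z) {B : ℝ} (hB : 0 ≤ B) {c : ℕ → ℂ}
    (hc : ∀ s, ‖c s‖ ≤ B) : PR (B * C) (fun s => c s • z s) where
  bd s := RISm_norm_smul_le (c s) (z s) hB (hc s) (h.bd s)
  wt := by
    obtain ⟨j, hj, h1⟩ := h.wt
    refine ⟨j, hj, fun s w f hf hw => ?_⟩
    rw [pr_smul, norm_mul, mul_div_assoc]
    exact mul_le_mul (hc s) (h1 s w f hf hw) (norm_nonneg _) hB
  supp N := (h.supp N).mono fun s hs a ha => hs a (RISm_support_smul _ _ ha)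

theorem PR.add {C C' : ℝ} {z z' : ℕ → V} (h : PR C z) (h' : PR C' z') :
    PR (C + C') (fun s => z s + z' s) where
  bd s := (norm_add_le _ _).trans (add_le_add (h.bd s) (h'.bd s))
  wt := by
    obtain ⟨j, hj, h1⟩ := h.wt
    obtain ⟨j', hj', h1'⟩ := h'.wt
    refine ⟨fun s => min (j s) (j' s), ?_, fun s w f hf hw => ?_⟩
    · rw [Filter.tendsto_atTop]
      intro b
      filter_upwards [hj.eventually (Filter.eventually_ge_atTop b),
        hj'.eventually (Filter.eventually_ge_atTop b)] with s h2 h3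
      exact le_min h2 h3
    rw [pr_add, add_div]
    exact (norm_add_le _ _).trans (add_le_add (h1 s w f hf (lt_of_lt_of_le hw (min_le_left _ _)))
      (h1' s w f hf (lt_of_lt_of_le hw (min_le_right _ _))))
  supp N := by
    filter_upwards [h.supp N, h'.supp N] with s hs hs' a ha
    by_cases h1 : a ∈ (z s).support
    · exact hs a h1
    · apply hs' a
      rw [Finsupp.notMem_support_iff] at h1
      rw [Finsupp.mem_support_iff, Finsupp.add_apply, h1, zero_add] at ha
      rwa [Finsupp.mem_support_iff]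

/-- every pre-RIS has a subsequence which is a RIS -/
theorem PR.exists_ris {C : ℝ} {z : ℕ → V} (h : PR C z) :
    ∃ φ : ℕ → ℕ, StrictMono φ ∧ ∃ j : ℕ → ℕ, RIS C j (fun s => z (φ s)) := by
  obtain ⟨j, hj, hwt⟩ := h.wt
  have key : ∀ m : ℕ, ∃ N : ℕ, ∀ t, N ≤ t → ∀ s ∈ range (m + 1),
      (∀ a ∈ (z s).support, ∀ b ∈ (z t).support, a < b) ∧ j s < j t ∧
      l1 (z s) * mm (j s) ≤ mm (j t) := by
    intro m
    rw [← Filter.eventually_atTop (p := fun t => ∀ s ∈ range (m + 1),
      (∀ a ∈ (z s).support, ∀ b ∈ (z t).support, a < b) ∧ j s < j t ∧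
      l1 (z s) * mm (j s) ≤ mm (j t))]
    rw [Filter.eventually_all_finset]
    intro s _
    have e1 := h.supp ((z s).support.sup id + 1)
    have e2 := hj.eventually (Filter.eventually_gt_atTop (j s))
    have e3 := (mm_tendsto.comp hj).eventually
      (Filter.eventually_ge_atTop (l1 (z s) * mm (j s)))
    filter_upwards [e1, e2, e3] with t h1 h2 h3
    refine ⟨fun a ha b hb => ?_, h2, h3⟩
    have h4 : a ≤ (z s).support.sup id := Finset.le_sup (f := id) ha
    have h5 := h1 b hb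
    omega
  choose N hN using key
  let φ : ℕ → ℕ := fun n => Nat.rec 0 (fun _ p => max (N p) (p + 1)) n
  have hφ1 : ∀ n, φ (n + 1) = max (N (φ n)) (φ n + 1) := fun n => rfl
  have hφ : StrictMono φ := by
    apply strictMono_nat_of_lt_succ
    intro n
    rw [hφ1]
    exact lt_of_lt_of_le (Nat.lt_succ_self _) (le_max_right _ _)
  have hlt : ∀ s t, s < t → (∀ a ∈ (z (φ s)).support, ∀ b ∈ (z (φ t)).support, a < b) ∧
      j (φ s) < j (φ t) ∧ l1 (z (φ s)) * mm (j (φ s)) ≤ mm (j (φ t)) := by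
    intro s t hst
    obtain ⟨t', rfl⟩ : ∃ t', t = t' + 1 := ⟨t - 1, by omega⟩
    refine hN (φ t') (φ (t' + 1)) ?_ (φ s) ?_
    · rw [hφ1]
      exact le_max_left _ _
    · rw [Finset.mem_range]
      exact Nat.lt_succ_of_le (hφ.monotone (by omega))
  refine ⟨φ, hφ, fun s => j (φ s), ?_, ?_, ?_, ?_, ?_⟩
  · intro r s t hst _
    exact (hlt s t hst).1
  · intro s t hst
    exact (hlt s t hst).2.1
  · intro s
    exact h.bd (φ s)
  · intro s
    exact hwt (φ s)
  · intro s
    exact (hlt s (s + 1) (Nat.lt_succ_self s)).2.2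

/-- (2.3): a RIS satisfies the hypotheses of Lemma B -/
theorem RIS.bh {C : ℝ} (hC : 1 ≤ C) {j : ℕ → ℕ} {z : ℕ → V} (h : RIS C j z) {v : ℕ}
    {A₀ : Finset ℕ} (hv : ∀ s ∈ A₀, v ≤ j s) : BH v C A₀ z where
  succ := by
    intro s _ t _ hst a ha b hb
    exact h.succ (t + 1) s t hst (Nat.lt_succ_self _) a ha b hb
  bd s _ := h.bd s
  wt := by
    classical
    intro w f hw hf A hA
    have hC0 : (0 : ℝ) ≤ C := le_trans zero_le_one hC
    have hterm : ∀ s ∈ A, ‖pr f (z s)‖ ≤
        C / mm v + (if j s ≤ w ∧ w < j (s + 1) then C else 0) := by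
      intro s hs
      have hCv : 0 ≤ C / (mm v : ℝ) := div_nonneg hC0 (Nat.cast_nonneg _)
      rcases lt_or_ge w (j s) with h1 | h1
      · have h2 : ‖pr f (z s)‖ ≤ C / mm v :=
          (h.wt s w f hf h1).trans
            (div_le_div_of_nonneg_left hC0 (mm_posR v) (RISm_mm_le hw))
        have h3 : (0 : ℝ) ≤ (if j s ≤ w ∧ w < j (s + 1) then C else 0) := by
          split_ifs
          · exact hC0
          · exact le_refl _
        linarith
      · rcases lt_or_ge w (j (s + 1)) with h2 | h2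
        · rw [if_pos ⟨h1, h2⟩]
          have h3 : ‖pr f (z s)‖ ≤ C := (hf.mem.le_norm (z s)).trans (h.bd s)
          linarith
        · have h3 : ¬ (j s ≤ w ∧ w < j (s + 1)) := fun h4 => absurd h4.2 (not_lt.mpr h2)
          rw [if_neg h3, add_zero]
          have h4 : ‖pr f (z s)‖ ≤ 1 / mm w * Pool.Agent.FSG.l1 (z s) :=
            RISm_pr_le fun i => hf.apply_le i
          have h5 := h.l1 s
          have h6 : (mm (j (s + 1)) : ℝ) ≤ mm w := RISm_mm_le h2
          have h7 : (mm v : ℝ) ≤ mm (j s) := RISm_mm_le (hv s (hA hs))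
          have h8 := mm_posR v
          have h9 := mm_posR w
          have h10 := mm_posR (j s)
          have h11 := l1_nonneg (z s)
          refine h4.trans ?_
          rw [le_div_iff₀ h8, one_div_mul_eq_div, div_mul_eq_mul_div, div_le_iff₀ h9]
          calc Pool.Agent.FSG.l1 (z s) * mm v ≤ Pool.Agent.FSG.l1 (z s) * mm (j s) :=
                mul_le_mul_of_nonneg_left h7 h11
            _ ≤ mm (j (s + 1)) := h5
            _ ≤ mm w := h6
            _ ≤ C * mm w := le_mul_of_one_le_left h9.le hC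
    refine (Finset.sum_le_sum hterm).trans ?_
    rw [Finset.sum_add_distrib, Finset.sum_const, nsmul_eq_mul]
    have h1 : (∑ s ∈ A, (if j s ≤ w ∧ w < j (s + 1) then C else 0)) ≤ C := by
      rw [← Finset.sum_filter, Finset.sum_const, nsmul_eq_mul]
      have h2 : (A.filter fun s => j s ≤ w ∧ w < j (s + 1)).card ≤ 1 := by
        rw [Finset.card_le_one]
        intro s hs t ht
        rw [Finset.mem_filter] at hs ht
        by_contra hne
        rcases lt_or_gt_of_ne hne with h3 | h3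
        · have h4 : j (s + 1) ≤ j t := h.mono.monotone (Nat.succ_le_of_lt h3)
          omega
        · have h4 : j (t + 1) ≤ j s := h.mono.monotone (Nat.succ_le_of_lt h3)
          omega
      have h3 : ((A.filter fun s => j s ≤ w ∧ w < j (s + 1)).card : ℝ) ≤ 1 := by
        exact_mod_cast h2
      calc _ ≤ 1 * C := mul_le_mul_of_nonneg_right h3 hC0
        _ = C := one_mul C
    have h2 : (A.card : ℝ) * (C / mm v) = C * A.card / mm v := by ring
    rw [h2]
    linarith

/-- (2.3): unit vectors -/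
theorem unit_bh (j : ℕ) {A₀ : Finset ℕ} {c : ℕ → ℂ} (hc : ∀ s ∈ A₀, ‖c s‖ ≤ 1) {i : ℕ → ℕ}
    (hi : StrictMono i) : BH j 1 A₀ (fun s => c s • ee (i s)) where
  succ := by
    intro s _ t _ hst a ha b hb
    have h1 := RISm_support_smul _ _ ha
    have h2 := RISm_support_smul _ _ hb
    have h3 : a = i s := by
      simpa using Finsupp.support_single_subset h1
    have h4 : b = i t := by
      simpa using Finsupp.support_single_subset h2
    rw [h3, h4]
    exact hi hst
  bd s hs := by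
    apply normV_le
    intro f hf
    rw [pr_smul, pr_ee, norm_mul]
    calc ‖c s‖ * ‖f (i s)‖ ≤ 1 * 1 :=
          mul_le_mul (hc s hs) (hf.abs_le _) (norm_nonneg _) zero_le_one
      _ = 1 := one_mul 1
  wt := by
    intro w f hw hf A hA
    have h1 : ∀ s ∈ A, ‖pr f (c s • ee (i s))‖ ≤ 1 / mm j := by
      intro s hs
      rw [pr_smul, pr_ee, norm_mul]
      calc ‖c s‖ * ‖f (i s)‖ ≤ 1 * ‖f (i s)‖ :=
            mul_le_mul_of_nonneg_right (hc s (hA hs)) (norm_nonneg _)
        _ = ‖f (i s)‖ := one_mul _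
        _ ≤ 1 / mm w := hf.apply_le _
        _ ≤ 1 / mm j := one_div_le_one_div_of_le (mm_posR j) (RISm_mm_le hw)
    refine (Finset.sum_le_sum h1).trans ?_
    rw [Finset.sum_const, nsmul_eq_mul]
    have h2 : (A.card : ℝ) * (1 / mm j) = 1 * A.card / mm j := by ring
    rw [h2]
    linarith

end Pool.Agent.FSG
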