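import Pool.Agent.FSG.LemB
import Pool.Agent.FSG.RISm

set_option autoImplicit false

open Finset Filter Topology

namespace Pool.Agent.FSG

theorem LemC_norm_coef (j : ℕ) : ‖((mm j : ℂ) / (nn j : ℂ))‖ = (mm j : ℝ) / nn j := by
  rw [norm_div, Complex.norm_natCast, Complex.norm_natCast]

/-- (2.4) -/
theorem lemC {j : ℕ} (hj : 1 ≤ j) {C : ℝ} (hC : 1 ≤ C) {A : Finset ℕ} {z : ℕ → V}
    (h : BH j C A z) (hA : A.card = nn j) :
    ‖((mm j : ℂ) / (nn j : ℂ)) • ∑ s ∈ A, z s‖ ≤ 4 * C ∧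
      ∀ w f, w < j → Wt w f →
        ‖pr f (((mm j : ℂ) / (nn j : ℂ)) • ∑ s ∈ A, z s)‖ ≤ 5 * C / mm w := by
  have hC0 : 0 ≤ C := zero_le_one.trans hC
  have hm : (0 : ℝ) < mm j := mm_posR j
  have hm1 : (1 : ℝ) ≤ mm j := by exact_mod_cast one_le_mm j
  have hn : (0 : ℝ) < nn j := nn_posR j
  set X : ℝ := ((nn (j - 1) : ℝ) + 2) ^ 2 ^ j with hX
  have hX0 : 0 ≤ X := by positivity
  have hP2a : 5 * X * (mm j : ℝ) ^ 3 ≤ nn j := by
    have := P2a hj
    rw [hX]
    exact_mod_cast this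
  constructor
  · have h1 : ‖((mm j : ℂ) / (nn j : ℂ)) • ∑ s ∈ A, z s‖
        = (mm j : ℝ) / nn j * ‖∑ s ∈ A, z s‖ := by
      rw [norm_smul, LemC_norm_coef]
    rw [h1]
    have h2 := lemB' hj hC0 h A (Finset.Subset.refl _)
    rw [hA] at h2
    have h3 : (5 * X) * (mm j : ℝ) ≤ nn j := by
      refine le_trans ?_ hP2a
      have h4 : (mm j : ℝ) ≤ (mm j : ℝ) ^ 3 := le_self_pow₀ hm1 (by norm_num)
      exact mul_le_mul_of_nonneg_left h4 (by positivity)
    calc (mm j : ℝ) / nn j * ‖∑ s ∈ A, z s‖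
        ≤ (mm j : ℝ) / nn j * (3 * C * (nn j : ℝ) / mm j + 5 * C * X) :=
          mul_le_mul_of_nonneg_left h2 (by positivity)
      _ = 3 * C + C * ((5 * X) * (mm j : ℝ) / nn j) := by
          field_simp
      _ ≤ 3 * C + C * 1 := by
          have h5 : (5 * X) * (mm j : ℝ) / nn j ≤ 1 := by
            rw [div_le_one hn]; exact h3
          have := mul_le_mul_of_nonneg_left h5 hC0
          linarith
      _ = 4 * C := by ring
  · intro w f hw hf
    have hmw : (0 : ℝ) < mm w := mm_posR w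
    have hP2c : (mm j : ℝ) * nn w * (mm w + 5 * X) ≤ 2 * nn j := by
      have := P2c hj hw
      rw [hX]
      exact_mod_cast this
    obtain ⟨r, g, P, B, hr, hg, hPA, hPc, hBA, hBs, hmain⟩ := split_wt hf A z h.succ
    have hrR : (r : ℝ) ≤ nn w := by exact_mod_cast hr
    have h1 : ∑ s ∈ P, ‖pr f (z s)‖ ≤ nn w * C := by
      calc ∑ s ∈ P, ‖pr f (z s)‖ ≤ ∑ s ∈ P, C :=
            Finset.sum_le_sum fun s hs => (hf.mem.le_norm _).trans (h.bd s (hPA hs))
        _ = P.card * C := by rw [Finset.sum_const, nsmul_eq_mul]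
        _ ≤ nn w * C := by
            apply mul_le_mul_of_nonneg_right _ hC0
            exact_mod_cast hPc.trans hr
    have h2 : ∑ l ∈ range r, ‖pr (g l) (∑ s ∈ B l, z s)‖
        ≤ 3 * C * nn j / mm j + nn w * (5 * C * X) := by
      calc ∑ l ∈ range r, ‖pr (g l) (∑ s ∈ B l, z s)‖
          ≤ ∑ l ∈ range r, (3 * C / mm j * ((B l).card : ℝ) + 5 * C * X) := by
            refine Finset.sum_le_sum fun l hl => ?_
            refine ((hg l (Finset.mem_range.mp hl)).le_norm _).trans ?_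
            refine (lemB' hj hC0 h (B l) (hBA l)).trans (le_of_eq ?_)
            rw [hX]; ring
        _ = 3 * C / mm j * (∑ l ∈ range r, ((B l).card : ℝ)) + r * (5 * C * X) := by
            rw [Finset.sum_add_distrib, ← Finset.mul_sum, Finset.sum_const, Finset.card_range,
              nsmul_eq_mul]
        _ ≤ 3 * C / mm j * nn j + nn w * (5 * C * X) := by
            have h3 : (∑ l ∈ range r, ((B l).card : ℝ)) ≤ nn j := by
              have : ∑ l ∈ range r, (B l).card ≤ nn j := by rw [← hA]; exact hBs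
              exact_mod_cast this
            have h4 : 3 * C / (mm j : ℝ) * (∑ l ∈ range r, ((B l).card : ℝ))
                ≤ 3 * C / mm j * nn j := mul_le_mul_of_nonneg_left h3 (by positivity)
            have h5 : (r : ℝ) * (5 * C * X) ≤ nn w * (5 * C * X) :=
              mul_le_mul_of_nonneg_right hrR (by positivity)
            linarith
        _ = 3 * C * nn j / mm j + nn w * (5 * C * X) := by ring
    have h3 : ‖pr f (∑ s ∈ A, z s)‖ ≤
        nn w * C + (1 / mm w) * (3 * C * nn j / mm j + nn w * (5 * C * X)) := by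
      refine hmain.trans (add_le_add h1 ?_)
      exact mul_le_mul_of_nonneg_left h2 (by positivity)
    rw [pr_smul, norm_mul, LemC_norm_coef]
    calc (mm j : ℝ) / nn j * ‖pr f (∑ s ∈ A, z s)‖
        ≤ (mm j : ℝ) / nn j *
          (nn w * C + (1 / mm w) * (3 * C * nn j / mm j + nn w * (5 * C * X))) :=
          mul_le_mul_of_nonneg_left h3 (by positivity)
      _ = 3 * C / mm w + C / mm w * (((mm j : ℝ) * nn w * (mm w + 5 * X)) / nn j) := by
          field_simp
          ring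
      _ ≤ 3 * C / mm w + C / mm w * 2 := by
          have h4 : ((mm j : ℝ) * nn w * (mm w + 5 * X)) / nn j ≤ 2 := by
            rw [div_le_iff₀ hn]; exact hP2c
          have := mul_le_mul_of_nonneg_left h4 (show 0 ≤ C / (mm w : ℝ) by positivity)
          linarith
      _ = 5 * C / mm w := by ring

theorem lemC' {j : ℕ} (hj : 1 ≤ j) {C : ℝ} (hC : 1 ≤ C) {A : Finset ℕ} {z : ℕ → V}
    {jj : ℕ → ℕ} (h : RIS C jj z) (hA : A.card = nn j) (hjj : ∀ s ∈ A, j < jj s) :
    ∀ w f, j < w → Wt w f →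
      ‖pr f (((mm j : ℂ) / (nn j : ℂ)) • ∑ s ∈ A, z s)‖ ≤ 3 * C / mm j := by
  intro w f hw hf
  have hC0 : 0 ≤ C := zero_le_one.trans hC
  have hm : (0 : ℝ) < mm j := mm_posR j
  have hn : (0 : ℝ) < nn j := nn_posR j
  have hbh : BH (j + 1) C A z := h.bh hC (v := j + 1) (fun s hs => hjj s hs)
  have h1 := hbh.wt w f hw hf A (Finset.Subset.refl _)
  rw [hA, mm_succ] at h1
  have hsq : (mm j : ℝ) ^ 2 ≤ nn j := by exact_mod_cast mm_sq_le hj
  have h2 : ‖pr f (∑ s ∈ A, z s)‖ ≤ C * nn j / (mm j : ℝ) ^ 2 + C := by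
    rw [pr_sum]
    refine (norm_sum_le _ _).trans (h1.trans (le_of_eq ?_))
    push_cast
    ring
  rw [pr_smul, norm_mul, LemC_norm_coef]
  calc (mm j : ℝ) / nn j * ‖pr f (∑ s ∈ A, z s)‖
      ≤ (mm j : ℝ) / nn j * (C * nn j / (mm j : ℝ) ^ 2 + C) :=
        mul_le_mul_of_nonneg_left h2 (by positivity)
    _ = C / mm j + C / mm j * ((mm j : ℝ) ^ 2 / nn j) := by
        field_simp
    _ ≤ C / mm j + C / mm j * 1 := by
        have h3 : (mm j : ℝ) ^ 2 / nn j ≤ 1 := by rw [div_le_one hn]; exact hsq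
        have := mul_le_mul_of_nonneg_left h3 (show 0 ≤ C / (mm j : ℝ) by positivity)
        linarith
    _ ≤ 3 * C / mm j := by
        rw [mul_one, ← add_div]
        apply div_le_div_of_nonneg_right _ hm.le
        linarith

end Pool.Agent.FSG
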