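import Pool.Agent.FSG.Select
import Pool.Agent.FSG.LemC
import Pool.Agent.FSG.Dens

set_option autoImplicit false

open Finset Filter Topology

namespace Pool.Agent.FSG

theorem Block_rs_mono {a b a' b' : ℕ} {x : V} (h : rs a b x = x) (ha : a' ≤ a) (hb : b ≤ b') :
    rs a' b' x = x := by
  rw [rs_eq_self_iff] at h ⊢
  intro i hi
  exact ⟨ha.trans (h i hi).1, (h i hi).2.trans_le hb⟩

theorem Block_rD_rs {a b : ℕ} (ζ : D) {x : V} (h : rs a b x = x) : rD a b ζ x = ζ x := by
  rw [rD_apply, h]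

theorem Block_rD_disj {a b c d : ℕ} (ζ : D) {x : V} (h : rs c d x = x)
    (hd : b ≤ c ∨ d ≤ a) : rD a b ζ x = 0 := by
  rw [rD_apply]
  have h1 : rs a b x = 0 := by
    rw [← h, rs_rs]
    ext i
    rw [rs_apply, if_neg]
    · rfl
    · omega
  rw [h1, map_zero]

theorem Block_isRat {w n : ℕ} {g : ℕ → V} (hg : ∀ a, IsRat (g a)) :
    IsRat ((1 / (mm w : ℂ)) • ∑ a ∈ range n, g a) := by
  intro i
  choose p q hpq using fun a => hg a i
  refine ⟨(∑ a ∈ range n, p a) / mm w, (∑ a ∈ range n, q a) / mm w, ?_⟩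
  rw [Finsupp.smul_apply, smul_eq_mul, Finsupp.finsetSum_apply]
  simp only [hpq, Finset.sum_add_distrib, ← Finset.sum_mul]
  push_cast
  ring

/-- (4.1) (ii) -/
theorem block {Y : Submodule ℂ D} {T : Y →L[ℂ] Y} {u : ℕ → Y} {z : ℕ → V} {j : ℕ → ℕ}
    {C δ : ℝ} (h : EH Y T u z j C δ) (N w : ℕ) (hw : Even w) (hw1 : 1 ≤ w) {η : ℝ}
    (hη : 0 < η) : ∃ (N' : ℕ) (F x : V) (y : Y), BlockC Y T C δ η w N N' F x y := by
  classical
  have hC := h.one_le
  have hδ := h.pos
  have hn : 0 < nn w := nn_pos w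
  have hnR : (0 : ℝ) < nn w := nn_posR w
  have hn1 : (1 : ℝ) ≤ nn w := by exact_mod_cast hn
  have hmR : (0 : ℝ) < mm w := mm_posR w
  have hm1 : (1 : ℝ) ≤ mm w := by exact_mod_cast mm_pos w
  have hnC : (nn w : ℂ) ≠ 0 := by exact_mod_cast hn.ne'
  have hmC : (mm w : ℂ) ≠ 0 := by exact_mod_cast (mm_pos w).ne'
  set η' : ℝ := min (η / (2 * nn w * (1 + 2 * C))) (δ / (2 * nn w * C)) with hη'
  have hη'0 : 0 < η' := lt_min (by positivity) (by positivity)
  have hη1 : η' * (2 * nn w * (1 + 2 * C)) ≤ η := by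
    rw [← le_div_iff₀ (by positivity)]
    exact min_le_left _ _
  have hη2 : η' * (2 * nn w * C) ≤ δ := by
    rw [← le_div_iff₀ (by positivity)]
    exact min_le_right _ _
  obtain ⟨s, M, hM0, hMm, hs, hjs, hzs, hus, hTs, hps⟩ := select h N w hη'0
  have hg : ∀ a, ∃ f : V, K f ∧ IsRat f ∧ rs (M a) (M (a + 1)) f = f ∧
      ‖toD f - rD (M a) (M (a + 1)) (u (s a) : D)‖ ≤ η' := by
    intro a
    apply dens _ _ hη'0
    · rw [rD_rD, max_self, min_self]
    · exact (norm_rD_le _ _ _).trans (h.bd (s a))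
  choose g hgK hgR hgs hgn using hg
  have hzn : ∀ a, ‖z (s a)‖ ≤ C := fun a => h.ris.bd (s a)
  have hgu : ∀ a, ‖(u (s a) : D) - toD (g a)‖ ≤ 2 * η' := by
    intro a
    have h1 : (u (s a) : D) - toD (g a) =
        ((u (s a) : D) - rD (M a) (M (a + 1)) (u (s a) : D)) -
          (toD (g a) - rD (M a) (M (a + 1)) (u (s a) : D)) := by abel
    rw [h1]
    refine (norm_sub_le _ _).trans ?_
    have := hus a
    have := hgn a
    linarith
  have hMN : ∀ a, N ≤ M a := fun a => by rw [← hM0]; exact hMm (Nat.zero_le a)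
  have hMn : ∀ a < nn w, M (a + 1) ≤ M (nn w) := fun a ha => hMm ha
  have hdisj : ∀ a b, a ≠ b → M (a + 1) ≤ M b ∨ M (b + 1) ≤ M a := by
    intro a b hab
    rcases lt_or_gt_of_ne hab with h1 | h1
    · exact Or.inl (hMm h1)
    · exact Or.inr (hMm h1)
  set F : V := (1 / (mm w : ℂ)) • ∑ a ∈ range (nn w), g a with hF
  set x : V := ((mm w : ℂ) / (nn w : ℂ)) • ∑ a ∈ range (nn w), z (s a) with hx
  set y : Y := (1 / (mm w : ℂ)) • ∑ a ∈ range (nn w), u (s a) with hy
  set A : Finset ℕ := (range (nn w)).image s with hA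
  have hAcard : A.card = nn w := by
    rw [hA, Finset.card_image_of_injective _ hs.injective, Finset.card_range]
  have hAsum : ∑ t ∈ A, z t = ∑ a ∈ range (nn w), z (s a) := by
    rw [hA, Finset.sum_image (fun a _ b _ hab => hs.injective hab)]
  have hAj : ∀ t ∈ A, w < j t := by
    intro t ht
    rw [hA, Finset.mem_image] at ht
    obtain ⟨a, _, rfl⟩ := ht
    exact hjs a
  have hBH : BH w C A z := RIS.bh hC h.ris (fun t ht => (hAj t ht).le)
  obtain ⟨hc1, hc2⟩ := lemC hw1 hC hBH hAcard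
  have hc3 := lemC' hw1 hC h.ris hAcard hAj
  rw [hAsum] at hc1 hc2 hc3
  have hyD : (y : D) = (1 / (mm w : ℂ)) • ∑ a ∈ range (nn w), (u (s a) : D) := by
    rw [hy]; push_cast; rfl
  have hTy : (T y : D) = (1 / (mm w : ℂ)) • ∑ a ∈ range (nn w), (T (u (s a)) : D) := by
    rw [hy, map_smul, map_sum]; push_cast; rfl
  have hm1n : ‖(1 / (mm w : ℂ))‖ = 1 / mm w := by
    rw [norm_div, norm_one, Complex.norm_natCast]
  have hscale : ∀ ζ : ℕ → D, (∀ a < nn w, ‖ζ a‖ ≤ 2 * η') →
      ‖(1 / (mm w : ℂ)) • ∑ a ∈ range (nn w), ζ a‖ ≤ η := by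
    intro ζ hζ
    rw [norm_smul, hm1n]
    have h1 : ‖∑ a ∈ range (nn w), ζ a‖ ≤ nn w * (2 * η') := by
      calc _ ≤ ∑ a ∈ range (nn w), ‖ζ a‖ := norm_sum_le _ _
        _ ≤ ∑ _a ∈ range (nn w), 2 * η' :=
            Finset.sum_le_sum fun a ha => hζ a (Finset.mem_range.mp ha)
        _ = nn w * (2 * η') := by rw [Finset.sum_const, Finset.card_range, nsmul_eq_mul]
    have h2 : 1 / (mm w : ℝ) ≤ 1 := by
      rw [div_le_one hmR]; exact hm1
    calc 1 / (mm w : ℝ) * ‖∑ a ∈ range (nn w), ζ a‖ ≤ 1 * (nn w * (2 * η')) :=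
          mul_le_mul h2 h1 (norm_nonneg _) zero_le_one
      _ ≤ η' * (2 * nn w * (1 + 2 * C)) := by
          have : 0 ≤ η' * (2 * nn w * (2 * C)) := by positivity
          nlinarith
      _ ≤ η := hη1
  refine ⟨M (nn w), F, x, y, ?_⟩
  refine
    { le := hMN _
      rat := Block_isRat hgR
      wf := ⟨nn w, g, le_rfl, fun a _ => hgK a, ?_, rfl⟩
      Fs := ?_
      xs := ?_
      near := ?_
      out := ?_
      pair := ?_
      low := ?_
      bd := hc1.trans (by linarith)
      wlow := fun v f hf hv => hc2 v f hv hf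
      whigh := fun v f hf hv => (hc3 v f hv hf).trans (by gcongr; norm_num) }
  · intro a b hab hb i hi k hk
    have h1 := (rs_eq_self_iff.mp (hgs a) i hi).2
    have h2 := (rs_eq_self_iff.mp (hgs b) k hk).1
    have h3 : M (a + 1) ≤ M b := hMm hab
    omega
  · rw [hF, rs_smul, rs_sum]
    congr 1
    exact Finset.sum_congr rfl fun a ha =>
      Block_rs_mono (hgs a) (hMN a) (hMn a (Finset.mem_range.mp ha))
  · rw [hx, rs_smul, rs_sum]
    congr 1
    exact Finset.sum_congr rfl fun a ha =>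
      Block_rs_mono (hzs a) (hMN a) (hMn a (Finset.mem_range.mp ha))
  · have h1 : (y : D) - toD F =
        (1 / (mm w : ℂ)) • ∑ a ∈ range (nn w), ((u (s a) : D) - toD (g a)) := by
      rw [hyD, hF, toD_smul, toD_sum]
      ext v
      simp only [_root_.sub_apply, _root_.smul_apply, ContinuousLinearMap.sum_apply, smul_eq_mul,
        Finset.sum_sub_distrib, mul_sub]
    rw [h1]
    exact hscale _ fun a _ => hgu a
  · have h1 : (T y : D) - rD N (M (nn w)) (T y : D) =
        (1 / (mm w : ℂ)) • ∑ a ∈ range (nn w),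
          ((T (u (s a)) : D) - rD N (M (nn w)) (T (u (s a)) : D)) := by
      rw [hTy, rD_smul, rD_sum]
      ext v
      simp only [_root_.sub_apply, _root_.smul_apply, ContinuousLinearMap.sum_apply, smul_eq_mul,
        Finset.sum_sub_distrib, mul_sub]
    rw [h1]
    apply hscale
    intro a ha
    set ζ : D := (T (u (s a)) : D) with hζ
    set ρ : D := rD (M a) (M (a + 1)) ζ with hρ
    have h2 : rD N (M (nn w)) ρ = ρ := by
      rw [hρ, rD_rD, max_eq_right (hMN a), min_eq_right (hMn a ha)]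
    have h3 : ζ - rD N (M (nn w)) ζ = (ζ - ρ) - rD N (M (nn w)) (ζ - ρ) := by
      rw [rD_sub, h2]; abel
    rw [h3]
    refine (norm_sub_le _ _).trans ?_
    have h4 := hTs a
    have h5 := norm_rD_le N (M (nn w)) (ζ - ρ)
    linarith
  · have h1 : pr F x = (1 / (nn w : ℂ)) * ∑ a ∈ range (nn w), pr (g a) (z (s a)) := by
      rw [hF, hx, smul_pr, pr_smul, sum_pr]
      have h2 : ∀ a ∈ range (nn w), pr (g a) (∑ b ∈ range (nn w), z (s b)) =
          pr (g a) (z (s a)) := by
        intro a ha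
        rw [pr_sum, Finset.sum_eq_single a]
        · intro b _ hba
          apply pr_eq_zero
          intro i hi hi'
          have h3 := rs_eq_self_iff.mp (hgs a) i hi
          have h4 := rs_eq_self_iff.mp (hzs b) i hi'
          rcases hdisj a b (Ne.symm hba) with h5 | h5
          · omega
          · omega
        · intro h3
          exact absurd ha h3
      rw [Finset.sum_congr rfl h2]
      field_simp
    rw [h1, norm_mul, norm_div, norm_one, Complex.norm_natCast]
    have h2 : ∀ a, ‖pr (g a) (z (s a))‖ ≤ η' * (1 + 2 * C) := by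
      intro a
      have h3 : pr (g a) (z (s a)) = (u (s a) : D) (z (s a)) -
          ((u (s a) : D) - toD (g a)) (z (s a)) := by
        simp
      rw [h3]
      refine (norm_sub_le _ _).trans ?_
      have h4 := hps a
      have h5 : ‖((u (s a) : D) - toD (g a)) (z (s a))‖ ≤ 2 * η' * C :=
        (((u (s a) : D) - toD (g a)).le_opNorm _).trans
          (mul_le_mul (hgu a) (hzn a) (norm_nonneg _) (by positivity))
      linarith
    have h6 : ‖∑ a ∈ range (nn w), pr (g a) (z (s a))‖ ≤ nn w * (η' * (1 + 2 * C)) := by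
      calc _ ≤ ∑ a ∈ range (nn w), ‖pr (g a) (z (s a))‖ := norm_sum_le _ _
        _ ≤ ∑ _a ∈ range (nn w), η' * (1 + 2 * C) := Finset.sum_le_sum fun a _ => h2 a
        _ = nn w * (η' * (1 + 2 * C)) := by
            rw [Finset.sum_const, Finset.card_range, nsmul_eq_mul]
    calc 1 / (nn w : ℝ) * ‖∑ a ∈ range (nn w), pr (g a) (z (s a))‖
        ≤ 1 / (nn w : ℝ) * (nn w * (η' * (1 + 2 * C))) :=
          mul_le_mul_of_nonneg_left h6 (by positivity)
      _ = η' * (1 + 2 * C) := by field_simp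
      _ ≤ η' * (2 * nn w * (1 + 2 * C)) := by
          apply mul_le_mul_of_nonneg_left _ hη'0.le
          have : 0 < 1 + 2 * C := by positivity
          nlinarith
      _ ≤ η := hη1
  · have h1 : (T y : D) x = (1 / (nn w : ℂ)) * ∑ a ∈ range (nn w), ∑ b ∈ range (nn w),
        (T (u (s a)) : D) (z (s b)) := by
      rw [hTy, hx, map_smul, map_sum]
      simp only [_root_.smul_apply, ContinuousLinearMap.sum_apply, smul_eq_mul]
      rw [Finset.sum_comm, ← Finset.mul_sum]
      field_simp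
    have h2 : ∀ a ∈ range (nn w), δ - nn w * (η' * C) ≤
        (∑ b ∈ range (nn w), (T (u (s a)) : D) (z (s b))).re := by
      intro a ha
      rw [Complex.re_sum, ← Finset.add_sum_erase _ _ ha]
      have h3 := h.low (s a)
      have h4 : -(nn w * (η' * C)) ≤
          ∑ b ∈ (range (nn w)).erase a, ((T (u (s a)) : D) (z (s b))).re := by
        have h5 : ∀ b ∈ (range (nn w)).erase a,
            -(η' * C) ≤ ((T (u (s a)) : D) (z (s b))).re := by
          intro b hb
          have hba : a ≠ b := (Finset.ne_of_mem_erase hb).symm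
          have h6 : (T (u (s a)) : D) (z (s b)) =
              ((T (u (s a)) : D) - rD (M a) (M (a + 1)) (T (u (s a)) : D)) (z (s b)) := by
            rw [_root_.sub_apply, Block_rD_disj _ (hzs b) (hdisj a b hba), sub_zero]
          have h7 : ‖(T (u (s a)) : D) (z (s b))‖ ≤ η' * C := by
            rw [h6]
            exact (ContinuousLinearMap.le_opNorm _ _).trans
              (mul_le_mul (hTs a) (hzn b) (norm_nonneg _) hη'0.le)
          exact (neg_le_neg h7).trans (neg_le_of_abs_le (Complex.abs_re_le_norm _))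
        have h8 := Finset.sum_le_sum h5
        rw [Finset.sum_const, nsmul_eq_mul] at h8
        refine le_trans ?_ h8
        have h9 : (((range (nn w)).erase a).card : ℝ) ≤ nn w := by
          have := Finset.card_erase_le (s := range (nn w)) (a := a)
          rw [Finset.card_range] at this
          exact_mod_cast this
        have h10 : 0 ≤ η' * C := by positivity
        nlinarith
      linarith
    have h3 : ((T y : D) x).re = 1 / (nn w : ℝ) * ∑ a ∈ range (nn w),
        (∑ b ∈ range (nn w), (T (u (s a)) : D) (z (s b))).re := by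
      rw [h1, show (1 / (nn w : ℂ)) = ((1 / (nn w : ℝ) : ℝ) : ℂ) by push_cast; rfl,
        Complex.re_ofReal_mul, Complex.re_sum]
    rw [h3]
    have h4 := Finset.sum_le_sum h2
    rw [Finset.sum_const, Finset.card_range, nsmul_eq_mul] at h4
    calc δ / 2 ≤ δ - nn w * (η' * C) := by linarith
      _ = 1 / (nn w : ℝ) * (nn w * (δ - nn w * (η' * C))) := by field_simp
      _ ≤ _ := mul_le_mul_of_nonneg_left h4 (by positivity)

end Pool.Agent.FSG
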