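import Pool.Agent.FSG.Defs

set_option autoImplicit false

open Finset Filter Topology

namespace Pool.Agent.FSG

theorem mm_zero : mm 0 = 2 := by
  unfold mm
  rw [pow_zero, pow_one]

theorem mm_succ (j : ℕ) : mm (j + 1) = mm j ^ 2 := by
  unfold mm
  rw [← pow_mul, pow_succ]

theorem mm_strictMono : StrictMono mm := by
  refine strictMono_nat_of_lt_succ fun j => ?_
  rw [mm_succ]
  have h := two_le_mm j
  nlinarith

theorem Params_le_mm (j : ℕ) : j ≤ mm j := mm_strictMono.le_apply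

theorem mm_tendsto : Tendsto (fun j => (mm j : ℝ)) atTop atTop :=
  tendsto_natCast_atTop_atTop.comp mm_strictMono.tendsto_atTop

theorem Params_rr_zero : rr 0 = 1 := rfl

theorem Params_rr_succ (j : ℕ) : rr (j + 1) = 20 * (2 ^ j + 1) * rr j := rfl

theorem rr_pos (j : ℕ) : 0 < rr j := by
  induction j with
  | zero => rw [Params_rr_zero]; exact Nat.one_pos
  | succ j ih => rw [Params_rr_succ]; positivity

theorem rr_strictMono : StrictMono rr := by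
  refine strictMono_nat_of_lt_succ fun j => ?_
  rw [Params_rr_succ]
  have h1 := rr_pos j
  have h2 : 0 < 2 ^ j := by positivity
  nlinarith

theorem nn_strictMono : StrictMono nn := by
  intro a b hab
  unfold nn
  exact Nat.pow_lt_pow_right (by norm_num) (rr_strictMono hab)

theorem Params_nine_le (j : ℕ) : 9 ≤ nn j := by
  unfold nn
  calc 9 = 9 ^ 1 := by norm_num
    _ ≤ 9 ^ rr j := Nat.pow_le_pow_right (by norm_num) (rr_pos j)

theorem Params_aux (k : ℕ) :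
    (nn k + 10) ^ (4 * 2 ^ (k + 1) + 10) * mm (k + 1) ^ 4 ≤ nn (k + 1) := by
  have h1 : nn k + 10 ≤ 9 ^ (rr k + 1) := by
    have h := Params_nine_le k
    rw [pow_succ]
    have h2 : nn k = 9 ^ rr k := rfl
    rw [← h2]
    omega
  have h2 : mm (k + 1) ^ 4 ≤ 9 ^ (2 * 2 ^ (k + 1)) := by
    unfold mm
    rw [← pow_mul, show 2 ^ (k + 1) * 4 = 2 * (2 * 2 ^ (k + 1)) by ring, pow_mul]
    exact Nat.pow_le_pow_left (by norm_num) _
  have h3 : (nn k + 10) ^ (4 * 2 ^ (k + 1) + 10) ≤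
      9 ^ ((rr k + 1) * (4 * 2 ^ (k + 1) + 10)) := by
    rw [pow_mul]
    exact Nat.pow_le_pow_left h1 _
  have h4 : (rr k + 1) * (4 * 2 ^ (k + 1) + 10) + 2 * 2 ^ (k + 1) ≤ rr (k + 1) := by
    rw [Params_rr_succ, pow_succ]
    have h5 := rr_pos k
    generalize rr k = r at h5 ⊢
    generalize 2 ^ k = p
    obtain ⟨s, rfl⟩ : ∃ s, r = s + 1 := ⟨r - 1, by omega⟩
    have h6 : 0 ≤ s * p := Nat.zero_le _
    ring_nf
    omega
  calc (nn k + 10) ^ (4 * 2 ^ (k + 1) + 10) * mm (k + 1) ^ 4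
      ≤ 9 ^ ((rr k + 1) * (4 * 2 ^ (k + 1) + 10)) * 9 ^ (2 * 2 ^ (k + 1)) :=
        Nat.mul_le_mul h3 h2
    _ = 9 ^ ((rr k + 1) * (4 * 2 ^ (k + 1) + 10) + 2 * 2 ^ (k + 1)) := (pow_add _ _ _).symm
    _ ≤ 9 ^ rr (k + 1) := Nat.pow_le_pow_right (by norm_num) h4

/-- (P2) -/
theorem P2 {j : ℕ} (hj : 1 ≤ j) : (nn (j - 1) + 10) ^ (4 * 2 ^ j + 10) * mm j ^ 4 ≤ nn j := by
  obtain ⟨k, rfl⟩ : ∃ k, j = k + 1 := ⟨j - 1, by omega⟩
  exact Params_aux k

theorem Params_P2' {j a b : ℕ} (hj : 1 ≤ j) (ha : a ≤ 4 * 2 ^ j + 10) (hb : b ≤ 4) :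
    (nn (j - 1) + 10) ^ a * mm j ^ b ≤ nn j := by
  refine le_trans (Nat.mul_le_mul ?_ ?_) (P2 hj)
  · exact Nat.pow_le_pow_right (by omega) ha
  · exact Nat.pow_le_pow_right (mm_pos j) hb

theorem P2a {j : ℕ} (hj : 1 ≤ j) : 5 * (nn (j - 1) + 2) ^ 2 ^ j * mm j ^ 3 ≤ nn j := by
  refine le_trans ?_ (Params_P2' (a := 2 ^ j + 1) (b := 3) hj (by omega) (by norm_num))
  refine Nat.mul_le_mul ?_ le_rfl
  rw [pow_succ, mul_comm]
  exact Nat.mul_le_mul (Nat.pow_le_pow_left (by omega) _) (by omega)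

theorem P2b {j : ℕ} (hj : 1 ≤ j) : 6 * (nn (j - 1) + 2) ^ (2 * 2 ^ j) * mm j ^ 2 ≤ nn j := by
  refine le_trans ?_ (Params_P2' (a := 2 * 2 ^ j + 1) (b := 2) hj (by omega) (by norm_num))
  refine Nat.mul_le_mul ?_ le_rfl
  rw [pow_succ, mul_comm]
  exact Nat.mul_le_mul (Nat.pow_le_pow_left (by omega) _) (by omega)

theorem P2c {w j : ℕ} (hj : 1 ≤ j) (hw : w < j) :
    mm j * nn w * (mm w + 5 * (nn (j - 1) + 2) ^ 2 ^ j) ≤ 2 * nn j := by
  have h1 : nn w ≤ nn (j - 1) := nn_strictMono.monotone (by omega)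
  have h2 : mm w ≤ mm j := mm_strictMono.monotone hw.le
  have h3 : mm j * nn w * mm w ≤ nn j := by
    refine le_trans ?_ (Params_P2' (a := 1) (b := 2) hj (by omega) (by norm_num))
    calc mm j * nn w * mm w ≤ mm j * (nn (j - 1) + 10) * mm j :=
          Nat.mul_le_mul (Nat.mul_le_mul le_rfl (by omega)) h2
      _ = (nn (j - 1) + 10) ^ 1 * mm j ^ 2 := by ring
  have h4 : mm j * nn w * (5 * (nn (j - 1) + 2) ^ 2 ^ j) ≤ nn j := by
    refine le_trans ?_ (Params_P2' (a := 2 ^ j + 2) (b := 1) hj (by omega) (by norm_num))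
    calc mm j * nn w * (5 * (nn (j - 1) + 2) ^ 2 ^ j)
        ≤ mm j * (nn (j - 1) + 10) * ((nn (j - 1) + 10) * (nn (j - 1) + 10) ^ 2 ^ j) :=
          Nat.mul_le_mul (Nat.mul_le_mul le_rfl (by omega))
            (Nat.mul_le_mul (by omega) (Nat.pow_le_pow_left (by omega) _))
      _ = (nn (j - 1) + 10) ^ (2 ^ j + 2) * mm j ^ 1 := by ring
  calc mm j * nn w * (mm w + 5 * (nn (j - 1) + 2) ^ 2 ^ j)
      = mm j * nn w * mm w + mm j * nn w * (5 * (nn (j - 1) + 2) ^ 2 ^ j) := by rw [mul_add]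
    _ ≤ nn j + nn j := Nat.add_le_add h3 h4
    _ = 2 * nn j := by ring

theorem mm_sq_le {j : ℕ} (hj : 1 ≤ j) : mm j ^ 2 ≤ nn j := by
  have h := Params_P2' (a := 0) (b := 2) hj (by omega) (by norm_num)
  rwa [pow_zero, one_mul] at h

theorem nn_mm_le {w s : ℕ} (h : w < s) : nn w * mm w ≤ nn s := by
  have hs : 1 ≤ s := by omega
  have h1 : nn w ≤ nn (s - 1) := nn_strictMono.monotone (by omega)
  have h2 : mm w ≤ mm s := mm_strictMono.monotone h.le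
  refine le_trans ?_ (Params_P2' (a := 1) (b := 1) hs (by omega) (by norm_num))
  rw [pow_one, pow_one]
  exact Nat.mul_le_mul (by omega) h2

/-- (P3) -/
theorem P3 {i : ℕ} (hi : 2 ≤ i) : mm (2 * i) ^ 8 ≤ 3 ^ rr (2 * i - 2) := by
  obtain ⟨k, rfl⟩ : ∃ k, i = k + 2 := ⟨i - 2, by omega⟩
  have h1 : 2 * (k + 2) - 2 = 2 * k + 1 + 1 := by omega
  have h2 : 2 * (k + 2) = 2 * k + 1 + 3 := by omega
  rw [h1, h2]
  have h3 : 2 ^ (2 * k + 1 + 3) * 8 ≤ rr (2 * k + 1 + 1) := by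
    rw [Params_rr_succ (2 * k + 1), Params_rr_succ (2 * k)]
    have h5 := rr_pos (2 * k)
    have h6 : 2 ^ (2 * k + 1 + 3) * 8 = 64 * 2 ^ (2 * k + 1) := by
      rw [pow_add]; ring
    rw [h6]
    generalize rr (2 * k) = r at h5 ⊢
    generalize 2 ^ (2 * k) = p
    generalize 2 ^ (2 * k + 1) = q
    have h7 : 40 ≤ 20 * (p + 1) * r * 2 := by
      have : 1 ≤ (p + 1) * r := Nat.mul_pos (by omega) h5
      nlinarith
    have h8 : 20 ≤ 20 * (p + 1) * r := by omega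
    calc 64 * q ≤ 400 * q + 400 := by omega
      _ = 20 * (q + 1) * 20 := by ring
      _ ≤ 20 * (q + 1) * (20 * (p + 1) * r) := Nat.mul_le_mul le_rfl h8
  unfold mm
  rw [← pow_mul]
  calc 2 ^ (2 ^ (2 * k + 1 + 3) * 8) ≤ 3 ^ (2 ^ (2 * k + 1 + 3) * 8) :=
        Nat.pow_le_pow_left (by norm_num) _
    _ ≤ 3 ^ rr (2 * k + 1 + 1) := Nat.pow_le_pow_right (by norm_num) h3

theorem exists_tree (N : ℕ) (B : ℝ) : ∃ L j : ℕ, Even j ∧ N ^ L ≤ nn j ∧ B * mm j < 2 ^ L := by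
  obtain ⟨b, hb⟩ := exists_nat_gt B
  refine ⟨2 * 2 ^ (2 * (N + b + 1)), 2 * (N + b + 1), even_two_mul _, ?_, ?_⟩
  · have hj : 1 ≤ 2 * (N + b + 1) := by omega
    have h1 : N ≤ nn (2 * (N + b + 1) - 1) :=
      le_trans (by omega) (nn_strictMono.le_apply (x := 2 * (N + b + 1) - 1))
    have h2 := Params_P2' (a := 2 * 2 ^ (2 * (N + b + 1))) (b := 0) hj (by omega) (by norm_num)
    rw [pow_zero, mul_one] at h2
    refine le_trans (Nat.pow_le_pow_left ?_ _) h2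
    omega
  · have h1 : (2 : ℝ) ^ (2 * 2 ^ (2 * (N + b + 1))) =
        (mm (2 * (N + b + 1)) : ℝ) * (mm (2 * (N + b + 1)) : ℝ) := by
      unfold mm
      push_cast
      rw [two_mul (2 ^ (2 * (N + b + 1))), pow_add]
    rw [h1]
    refine mul_lt_mul_of_pos_right ?_ (mm_posR _)
    refine lt_of_lt_of_le hb ?_
    exact_mod_cast le_trans (by omega : b ≤ 2 * (N + b + 1)) (Params_le_mm _)

end Pool.Agent.FSG
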