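import Pool.Agent.FSG.WNull
import Pool.Agent.FSG.Aver

set_option autoImplicit false

open Finset Filter Topology

namespace Pool.Agent.FSG

/-- the part of `x` beyond `N` -/
theorem tail_exists_rs (N : ℕ) (x : V) : ∃ B, x - rs 0 N x = rs N B x := by
  refine ⟨x.support.sup id + 1, ?_⟩
  ext i
  rw [Finsupp.sub_apply, rs_apply, rs_apply]
  by_cases hi : i ∈ x.support
  · have h1 : i ≤ x.support.sup id := Finset.le_sup (f := id) hi
    by_cases h2 : i < N
    · rw [if_pos ⟨Nat.zero_le _, h2⟩, if_neg (fun h => absurd h.1 (not_le.mpr h2)), sub_self]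
    · rw [if_neg (fun h => h2 h.2), if_pos ⟨not_lt.mp h2, Nat.lt_succ_of_le h1⟩, sub_zero]
  · rw [Finsupp.notMem_support_iff] at hi
    rw [hi]
    split_ifs <;> simp

/-- a vector beyond `N` on which `ζ` is large -/
theorem tail_exists_vec {ζ : D} {δ : ℝ} (hδ : 0 < δ) {N : ℕ} (h : δ ≤ ‖ζ - rD 0 N ζ‖) :
    ∃ y : V, ‖y‖ ≤ 1 ∧ (∀ i ∈ y.support, N ≤ i) ∧ δ / 2 ≤ (ζ y).re := by
  have h1 : ∃ x : V, δ / 2 * ‖x‖ < ‖(ζ - rD 0 N ζ) x‖ := by
    by_contra hcon
    push Not at hcon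
    have h2 := ContinuousLinearMap.opNorm_le_bound _ (half_pos hδ).le hcon
    linarith
  obtain ⟨x, hx⟩ := h1
  have hx0 : x ≠ 0 := by
    rintro rfl
    simp at hx
  have hxn : 0 < ‖x‖ := norm_pos_iff.mpr hx0
  obtain ⟨B, hB⟩ := tail_exists_rs N x
  have h3 : (ζ - rD 0 N ζ) x = ζ (rs N B x) := by
    rw [← hB, map_sub]
    rfl
  rw [h3] at hx
  set a : ℂ := ζ (rs N B x) with ha
  have ha0 : a ≠ 0 := by
    intro h0
    rw [h0, norm_zero] at hx
    have : 0 < δ / 2 * ‖x‖ := by positivity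
    linarith
  have hna : 0 < ‖a‖ := norm_pos_iff.mpr ha0
  -- the phase
  set c : ℂ := (starRingEnd ℂ) a / (‖a‖ * ‖x‖ : ℝ) with hc
  have hcn : ‖c‖ = 1 / ‖x‖ := by
    rw [hc, norm_div, RCLike.norm_conj, Complex.norm_real, Real.norm_of_nonneg (by positivity)]
    field_simp
  refine ⟨c • rs N B x, ?_, ?_, ?_⟩
  · rw [norm_smul, hcn]
    calc 1 / ‖x‖ * ‖rs N B x‖ ≤ 1 / ‖x‖ * ‖x‖ :=
          mul_le_mul_of_nonneg_left (norm_rs_le _ _ _) (by positivity)
      _ = 1 := by field_simp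
  · intro i hi
    have h4 : i ∈ (rs N B x).support := Finsupp.support_smul hi
    exact (mem_rs_support.mp h4).1.1
  · rw [map_smul, smul_eq_mul, ← ha, hc]
    have h5 : (starRingEnd ℂ) a / ((‖a‖ * ‖x‖ : ℝ) : ℂ) * a = ((‖a‖ / ‖x‖ : ℝ) : ℂ) := by
      rw [div_mul_eq_mul_div, mul_comm ((starRingEnd ℂ) a) a, Complex.mul_conj,
        Complex.normSq_eq_norm_sq]
      rw [← Complex.ofReal_div]
      congr 1
      field_simp
    rw [h5, Complex.ofReal_re, le_div_iff₀ hxn]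
    exact hx.le

/-- (3.2) -/
theorem tail (ζ : D) : Tendsto (fun N => rD 0 N ζ) atTop (𝓝 ζ) := by
  rw [Metric.tendsto_atTop]
  by_contra hcon
  push Not at hcon
  obtain ⟨δ, hδ, hcon⟩ := hcon
  have h1 : ∀ N : ℕ, ∃ y : V, ‖y‖ ≤ 1 ∧ (∀ i ∈ y.support, N ≤ i) ∧ δ / 2 ≤ (ζ y).re := by
    intro N
    obtain ⟨N', hN', hd⟩ := hcon N
    rw [dist_comm, dist_eq_norm] at hd
    obtain ⟨y, hy1, hy2, hy3⟩ := tail_exists_vec hδ hd
    exact ⟨y, hy1, fun i hi => hN'.trans (hy2 i hi), hy3⟩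
  choose Y hY1 hY2 hY3 using h1
  -- the recursion
  let M : ℕ → ℕ := fun i => Nat.rec 0 (fun _ m => max m ((Y m).support.sup id) + 1) i
  have hM : ∀ i, M (i + 1) = max (M i) ((Y (M i)).support.sup id) + 1 := fun i => rfl
  have hMmono : StrictMono M := strictMono_nat_of_lt_succ fun i => by
    rw [hM]
    exact Nat.lt_succ_of_le (le_max_left _ _)
  have hlt : ∀ i, ∀ a ∈ (Y (M i)).support, a < M (i + 1) := by
    intro i a ha
    rw [hM]
    exact Nat.lt_succ_of_le ((Finset.le_sup (f := id) ha).trans (le_max_right _ _))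
  have hpr := avg_PR (x := fun s c => Y (M (s + c)))
    (fun s i j hij _ a ha b hb => by
      have h2 : M (s + i + 1) ≤ M (s + j) :=
        hMmono.monotone (show s + i + 1 ≤ s + j by omega)
      exact (hlt _ a ha).trans_le (h2.trans (hY2 _ b hb)))
    (fun s c _ => hY1 _)
    (fun N => by
      filter_upwards [eventually_ge_atTop N] with s hs c _ a ha
      have h2 : s + c ≤ M (s + c) := hMmono.id_le _
      have h3 := hY2 _ a ha
      omega)
  have h2 := hpr.weak_null ζ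
  rw [Metric.tendsto_atTop] at h2
  obtain ⟨s, hs⟩ := h2 (δ / 2) (half_pos hδ)
  have h3 := hs s le_rfl
  rw [dist_zero_right, map_smul, map_sum, smul_eq_mul] at h3
  have h4 : δ / 2 ≤ ((1 / (nn s : ℂ)) * ∑ c ∈ range (nn s), ζ (Y (M (s + c)))).re := by
    have h5 : (1 / (nn s : ℂ)) = ((1 / (nn s : ℝ) : ℝ) : ℂ) := by push_cast; rfl
    rw [h5, Complex.re_ofReal_mul, Complex.re_sum]
    have h6 : (nn s : ℝ) * (δ / 2) ≤ ∑ c ∈ range (nn s), (ζ (Y (M (s + c)))).re := by
      have h7 := Finset.sum_le_sum (s := range (nn s)) (f := fun _ => δ / 2)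
        (g := fun c => (ζ (Y (M (s + c)))).re) (fun c _ => hY3 _)
      rwa [Finset.sum_const, Finset.card_range, nsmul_eq_mul] at h7
    have h8 := nn_posR s
    rw [one_div, ← div_eq_inv_mul, le_div_iff₀ h8, mul_comm]
    exact h6
  have h9 := h4.trans (Complex.re_le_norm _)
  linarith

theorem small_out_norm (N : ℕ) (ζ : D) : ‖rD 0 N ζ‖ ≤ ∑ i ∈ range N, ‖ζ (ee i)‖ := by
  refine ContinuousLinearMap.opNorm_le_bound _ (Finset.sum_nonneg fun _ _ => norm_nonneg _) ?_
  intro x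
  have h1 : rs 0 N x = ∑ i ∈ range N, x i • ee i := by
    ext k
    rw [rs_apply, Finsupp.finsetSum_apply]
    by_cases hk : k < N
    · rw [if_pos ⟨Nat.zero_le _, hk⟩, Finset.sum_eq_single k]
      · simp
      · intro i _ hik
        rw [Finsupp.smul_apply, Finsupp.single_eq_of_ne (Ne.symm hik), smul_zero]
      · intro h
        exact absurd (Finset.mem_range.mpr hk) h
    · rw [if_neg (fun h => hk h.2), Finset.sum_eq_zero]
      intro i hi
      have : i ≠ k := by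
        rintro rfl
        exact hk (Finset.mem_range.mp hi)
      rw [Finsupp.smul_apply, Finsupp.single_eq_of_ne (Ne.symm this), smul_zero]
  rw [rD_apply, h1, map_sum, Finset.sum_mul]
  refine (norm_sum_le _ _).trans (Finset.sum_le_sum fun i _ => ?_)
  rw [map_smul, norm_smul, mul_comm]
  exact mul_le_mul_of_nonneg_left (coord_le_norm x i) (norm_nonneg _)

theorem small_out {u : ℕ → D} (h : ∀ x : V, Tendsto (fun s => u s x) atTop (𝓝 0)) (N : ℕ)
    {η : ℝ} (hη : 0 < η) :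
    ∀ᶠ s in atTop, ∃ N₀, ∀ N', N₀ ≤ N' → ‖u s - rD N N' (u s)‖ ≤ η := by
  have h1 : Tendsto (fun s => ∑ i ∈ range N, ‖u s (ee i)‖) atTop (𝓝 0) := by
    have h2 := tendsto_finsetSum (range N) fun i _ => (h (ee i)).norm
    simpa using h2
  have h2 : ∀ᶠ s in atTop, ∑ i ∈ range N, ‖u s (ee i)‖ < η / 2 :=
    h1.eventually_lt_const (half_pos hη)
  filter_upwards [h2] with s hs
  have h3 := tail (u s)
  rw [Metric.tendsto_atTop] at h3
  obtain ⟨N₀, hN₀⟩ := h3 (η / 2) (half_pos hη)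
  refine ⟨max N₀ N, fun N' hN' => ?_⟩
  have h4 := hN₀ N' ((le_max_left _ _).trans hN')
  rw [dist_comm, dist_eq_norm] at h4
  have h5 : u s - rD N N' (u s) = (u s - rD 0 N' (u s)) + rD 0 N (u s) := by
    have h6 : rD 0 N' (u s) = rD 0 N (u s) + rD N N' (u s) := by
      ext x
      rw [add_apply, rD_apply, rD_apply, rD_apply, ← map_add]
      congr 1
      ext i
      rw [Finsupp.add_apply, rs_apply, rs_apply, rs_apply]
      have hNN : N ≤ N' := (le_max_right _ _).trans hN'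
      by_cases hi : i < N
      · rw [if_pos ⟨Nat.zero_le _, hi.trans_le hNN⟩, if_pos ⟨Nat.zero_le _, hi⟩,
          if_neg (fun h => absurd h.1 (not_le.mpr hi)), add_zero]
      · by_cases hi' : i < N'
        · rw [if_pos ⟨Nat.zero_le _, hi'⟩, if_neg (fun h => hi h.2),
            if_pos ⟨not_lt.mp hi, hi'⟩, zero_add]
        · rw [if_neg (fun h => hi' h.2), if_neg (fun h => hi h.2), if_neg (fun h => hi' h.2),
            add_zero]
    rw [h6]
    abel
  rw [h5]
  have h7 := small_out_norm N (u s)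
  calc ‖(u s - rD 0 N' (u s)) + rD 0 N (u s)‖ ≤ ‖u s - rD 0 N' (u s)‖ + ‖rD 0 N (u s)‖ :=
        norm_add_le _ _
    _ ≤ η / 2 + η / 2 := add_le_add h4.le (h7.trans hs.le)
    _ = η := add_halves η

end Pool.Agent.FSG
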