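import Pool.Agent.FSG.Defs

set_option autoImplicit false

open Finset Filter Topology

namespace Pool.Agent.FSG

/-- almost norming functionals with real values -/
theorem Upper_exists (y : V) {ε : ℝ} (hε : 0 < ε) : ∃ g, K g ∧ ‖y‖ - ε ≤ (pr g y).re := by
  have h1 : ∃ f, K f ∧ ‖y‖ - ε < ‖pr f y‖ := by
    by_contra h
    push Not at h
    have h2 := normV_le h
    linarith
  obtain ⟨f, hf, hfy⟩ := h1
  by_cases h0 : pr f y = 0
  · refine ⟨0, K.zero, ?_⟩
    rw [h0, norm_zero] at hfy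
    rw [zero_pr, Complex.zero_re]
    exact hfy.le
  · have hn : ‖pr f y‖ ≠ 0 := norm_ne_zero_iff.mpr h0
    have hnC : ((‖pr f y‖ : ℝ) : ℂ) ≠ 0 := by exact_mod_cast hn
    refine ⟨((starRingEnd ℂ) (pr f y) / ((‖pr f y‖ : ℝ) : ℂ)) • f, hf.smul ?_, ?_⟩
    · rw [norm_div, RCLike.norm_conj, Complex.norm_real, norm_norm, div_self hn]
    · have h3 : (starRingEnd ℂ) (pr f y) / ((‖pr f y‖ : ℝ) : ℂ) * pr f y
          = ((‖pr f y‖ : ℝ) : ℂ) := by
        rw [div_mul_eq_mul_div, mul_comm, Complex.mul_conj, Complex.normSq_eq_norm_sq,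
          div_eq_iff hnC]
        push_cast
        ring
      rw [smul_pr, h3, Complex.ofReal_re]
      exact hfy.le

/-- successive intervals -/
theorem Upper_succ {r : ℕ} {N : ℕ → ℕ} (hN : Monotone N) (g : ℕ → V) :
    Succ r (fun i => rs (N i) (N (i + 1)) (g i)) := by
  intro i j hij _ a ha b hb
  have h1 := (mem_rs_support.mp ha).1
  have h2 := (mem_rs_support.mp hb).1
  have h3 : N (i + 1) ≤ N j := hN hij
  omega

/-- (1.3) -/
theorem sum_norm_rs_le {j r : ℕ} (hj : Even j) (hr : r ≤ nn j) {N : ℕ → ℕ} (hN : Monotone N)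
    (x : V) : ∑ i ∈ range r, ‖rs (N i) (N (i + 1)) x‖ ≤ mm j * ‖x‖ := by
  have hm : (0 : ℝ) < mm j := mm_posR j
  have key : ∀ ε : ℝ, 0 < ε →
      ∑ i ∈ range r, ‖rs (N i) (N (i + 1)) x‖ ≤ mm j * ‖x‖ + r * ε := by
    intro ε hε
    choose g hg hgy using fun i => Upper_exists (rs (N i) (N (i + 1)) x) hε
    have hK := K.even j r hj hr (fun i => rs (N i) (N (i + 1)) (g i))
      (fun i _ => (hg i).restr _ _) (Upper_succ hN g)
    have h1 := hK.le_norm x
    rw [smul_pr, sum_pr, norm_mul, norm_div, norm_one, Complex.norm_natCast, one_div,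
      inv_mul_le_iff₀ hm] at h1
    have h2 : ∑ i ∈ range r, pr (rs (N i) (N (i + 1)) (g i)) x
        = ∑ i ∈ range r, pr (g i) (rs (N i) (N (i + 1)) x) :=
      Finset.sum_congr rfl fun i _ => (pr_rs _ _ _ _).symm
    rw [h2] at h1
    have h3 := (Complex.re_le_norm (∑ i ∈ range r, pr (g i) (rs (N i) (N (i + 1)) x))).trans h1
    rw [Complex.re_sum] at h3
    have h4 : ∑ i ∈ range r, ‖rs (N i) (N (i + 1)) x‖
        ≤ ∑ i ∈ range r, ((pr (g i) (rs (N i) (N (i + 1)) x)).re + ε) :=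
      Finset.sum_le_sum fun i _ => by linarith [hgy i]
    rw [Finset.sum_add_distrib, Finset.sum_const, card_range, nsmul_eq_mul] at h4
    linarith
  apply le_of_forall_pos_le_add
  intro δ hδ
  have h5 := key (δ / (r + 1)) (by positivity)
  have h6 : (r : ℝ) * (δ / (r + 1)) ≤ δ := by
    rw [mul_div_assoc', div_le_iff₀ (by positivity)]
    nlinarith
  linarith

theorem upper {j r : ℕ} (hj : Even j) (hr : r ≤ nn j) {N : ℕ → ℕ} (hN : Monotone N) {ζ : ℕ → D}
    (hs : ∀ i < r, rD (N i) (N (i + 1)) (ζ i) = ζ i) {c : ℝ} (hc : 0 ≤ c)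
    (h1 : ∀ i < r, ‖ζ i‖ ≤ c) : ‖∑ i ∈ range r, ζ i‖ ≤ mm j * c := by
  apply ContinuousLinearMap.opNorm_le_bound _ (mul_nonneg (mm_posR j).le hc)
  intro x
  rw [_root_.sum_apply]
  have h2 : ∀ i ∈ range r, ‖ζ i x‖ ≤ c * ‖rs (N i) (N (i + 1)) x‖ := by
    intro i hi
    have hi' := Finset.mem_range.mp hi
    have h3 : ζ i x = ζ i (rs (N i) (N (i + 1)) x) := by
      conv_lhs => rw [← hs i hi']
      rw [rD_apply]
    rw [h3]
    exact ((ζ i).le_opNorm _).trans (mul_le_mul_of_nonneg_right (h1 i hi') (norm_nonneg _))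
  calc ‖∑ i ∈ range r, ζ i x‖ ≤ ∑ i ∈ range r, ‖ζ i x‖ := norm_sum_le _ _
    _ ≤ ∑ i ∈ range r, c * ‖rs (N i) (N (i + 1)) x‖ := Finset.sum_le_sum h2
    _ = c * ∑ i ∈ range r, ‖rs (N i) (N (i + 1)) x‖ := by rw [Finset.mul_sum]
    _ ≤ c * (mm j * ‖x‖) := mul_le_mul_of_nonneg_left (sum_norm_rs_le hj hr hN x) hc
    _ = mm j * c * ‖x‖ := by ring

theorem upper_coord {j : ℕ} (hj : Even j) {a m : ℕ} (hm : m ≤ nn j) {f : V}
    (hf : rs a (a + m) f = f) {θ : ℝ} (hθ : ∀ i, ‖f i‖ ≤ θ) : ‖toD f‖ ≤ mm j * θ := by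
  have hθ0 : 0 ≤ θ := (norm_nonneg _).trans (hθ 0)
  have h1 : f = ∑ i ∈ range m, f (a + i) • ee (a + i) := by
    ext n
    rw [Finsupp.finsetSum_apply]
    by_cases hn : a ≤ n ∧ n < a + m
    · obtain ⟨h2, h3⟩ := hn
      obtain ⟨i, rfl⟩ := Nat.exists_eq_add_of_le h2
      have hi : i < m := by omega
      rw [Finset.sum_eq_single i]
      · simp
      · intro k _ hk
        rw [Finsupp.smul_apply, Finsupp.single_eq_of_ne (by omega)]
        simp
      · intro h
        exact absurd (Finset.mem_range.mpr hi) h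
    · have h2 : f n = 0 := by
        rw [← hf, rs_apply, if_neg hn]
      rw [h2]
      symm
      apply Finset.sum_eq_zero
      intro k hk
      have hk' := Finset.mem_range.mp hk
      rw [Finsupp.smul_apply, Finsupp.single_eq_of_ne (by omega)]
      simp
  have h2 : toD f = ∑ i ∈ range m, toD (f (a + i) • ee (a + i)) := by
    conv_lhs => rw [h1]
    rw [toD_sum]
  rw [h2]
  refine upper (N := fun i => a + i) hj hm (fun i k hik => by
    show a + i ≤ a + k
    omega) ?_ hθ0 ?_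
  · intro i _
    rw [rD_toD]
    congr 1
    rw [rs_eq_self_iff]
    intro n hn
    rw [Finsupp.mem_support_iff, Finsupp.smul_apply] at hn
    by_cases h3 : n = a + i
    · subst h3
      omega
    · exfalso
      apply hn
      rw [Finsupp.single_eq_of_ne h3]
      simp
  · intro i _
    rw [toD_smul, norm_smul]
    calc ‖f (a + i)‖ * ‖toD (ee (a + i))‖ ≤ θ * 1 :=
          mul_le_mul (hθ _) (norm_toD_le (K.basis _)) (norm_nonneg _) hθ0
      _ = θ := mul_one θ

end Pool.Agent.FSG
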