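import Pool.Agent.FSG.Tree
import Pool.Agent.FSG.Tail
import Pool.Agent.FSG.Upper
import Pool.Agent.FSG.Params

set_option autoImplicit false

open Finset Filter Topology

namespace Pool.Agent.FSG

theorem ClaimW_rD_zero {a b : ℕ} (h : b ≤ a) (ζ : D) : rD a b ζ = 0 := by
  ext x
  have h1 : rs a b x = 0 := by
    ext i
    rw [rs_apply, if_neg (by omega)]
    rfl
  rw [rD_apply, h1, map_zero]
  rfl

theorem ClaimW_seq {u : ℕ → D} (hn : ∀ x : V, Tendsto (fun i => u i x) atTop (𝓝 0)) (i₀ : ℕ)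
    {ε : ℝ} (hε : 0 < ε) :
    ∃ t m : ℕ → ℕ, StrictMono t ∧ Monotone m ∧ (∀ a, i₀ ≤ t a) ∧ (∀ a, i₀ ≤ m a) ∧
      ∀ a, ‖u (t a) - rD (m a) (m (a + 1)) (u (t a))‖ ≤ ε := by
  have hstep : ∀ p : ℕ × ℕ, ∃ q : ℕ × ℕ, p.1 < q.1 ∧ p.2 ≤ q.2 ∧
      ‖u q.1 - rD p.2 q.2 (u q.1)‖ ≤ ε := by
    rintro ⟨a, b⟩
    obtain ⟨s, ⟨N₀, hN₀⟩, hs⟩ := ((small_out hn b hε).and (eventually_gt_atTop a)).exists
    exact ⟨(s, max b N₀), hs, le_max_left _ _, hN₀ _ (le_max_right _ _)⟩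
  choose nx h1 h2 h3 using hstep
  let st : ℕ → ℕ × ℕ := fun n => Nat.rec (i₀, i₀) (fun _ p => nx p) n
  have hst : ∀ n, st (n + 1) = nx (st n) := fun n => rfl
  have hm : Monotone fun n => (st n).2 := monotone_nat_of_le_succ fun n => by
    rw [hst]; exact h2 _
  have ht : StrictMono fun n => (st n).1 := strictMono_nat_of_lt_succ fun n => by
    rw [hst]; exact h1 _
  refine ⟨fun a => (st (a + 1)).1, fun a => (st a).2, ?_, hm, ?_, ?_, ?_⟩
  · exact fun a b hab => ht (Nat.add_lt_add_right hab 1)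
  · intro a
    have : (st 0).1 ≤ (st (a + 1)).1 := ht.monotone (Nat.zero_le (a + 1))
    exact this
  · intro a
    have : (st 0).2 ≤ (st a).2 := hm (Nat.zero_le a)
    exact this
  · intro a
    beta_reduce
    rw [hst]
    exact h3 _

/-- (4.3) -/
theorem claimW {u : ℕ → D} {M δ : ℝ} (hM : ∀ i, ‖u i‖ ≤ M) (hδ : 0 < δ)
    (hl : ∀ i, δ ≤ ‖u i‖) (hn : ∀ x : V, Tendsto (fun i => u i x) atTop (𝓝 0)) (N i₀ : ℕ)
    (hN : 0 < N) {η : ℝ} (hη : 0 < η) :
    ∃ (B : Finset ℕ) (θ : ℂ) (x : ℕ → V), (∀ i ∈ B, i₀ ≤ i) ∧ ‖θ‖ ≤ 2 / δ ∧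
      ‖θ • ∑ i ∈ B, u i‖ ≤ 2 ∧ Succ N x ∧ (∀ c < N, ‖x c‖ ≤ 1) ∧
      (∀ c < N, ∀ a ∈ (x c).support, i₀ ≤ a) ∧ ‖rD 0 i₀ (θ • ∑ i ∈ B, u i)‖ ≤ η ∧
      1 / 4 ≤ ((θ • ∑ i ∈ B, u i) ((1 / (N : ℂ)) • ∑ c ∈ range N, x c)).re := by
  classical
  have hM0 : 0 < M := hδ.trans_le ((hl 0).trans (hM 0))
  obtain ⟨L, j, hj, hNL, hBL⟩ := exists_tree N (2 * (M + 1) / δ)
  have hn0 : 0 < N ^ L := pow_pos hN L
  have hn0R : (0 : ℝ) < ((N ^ L : ℕ) : ℝ) := by exact_mod_cast hn0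
  set e : ℝ := min (δ / 16) (η * δ / 2) with he
  have he0 : 0 < e := lt_min (by positivity) (by positivity)
  have he1 : e ≤ δ / 16 := min_le_left _ _
  have he2 : e ≤ η * δ / 2 := min_le_right _ _
  set ε : ℝ := e / ((N ^ L : ℕ) : ℝ) with hε
  have hε0 : 0 < ε := div_pos he0 hn0R
  have hε1 : ε ≤ e := by
    rw [hε, div_le_iff₀ hn0R]
    have : (1 : ℝ) ≤ ((N ^ L : ℕ) : ℝ) := by exact_mod_cast hn0
    nlinarith
  obtain ⟨t, m, ht, hm, ht0, hm0, htm⟩ := ClaimW_seq hn i₀ hε0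
  set v : ℕ → D := fun a => rD (m a) (m (a + 1)) (u (t a)) with hv
  have hv1 : ∀ a, ‖v a‖ ≤ M := fun a => (norm_rD_le _ _ _).trans (hM _)
  have hv2 : ∀ a, δ / 2 ≤ ‖v a‖ := by
    intro a
    have h1 := htm a
    have h2 : ‖u (t a)‖ ≤ ‖u (t a) - v a‖ + ‖v a‖ := by
      have := norm_add_le (u (t a) - v a) (v a)
      rwa [sub_add_cancel] at this
    have h3 := hl (t a)
    have h4 : ‖u (t a) - v a‖ ≤ ε := h1
    linarith
  -- restrictions of the `v i`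
  have hr1 : ∀ lo hi i, lo ≤ i → i < hi → rD (m lo) (m hi) (v i) = v i := by
    intro lo hi i h1 h2
    rw [hv]
    beta_reduce
    rw [rD_rD, max_eq_right (hm h1), min_eq_right (hm (Nat.succ_le_of_lt h2))]
  have hr2 : ∀ lo hi i, ¬ (lo ≤ i ∧ i < hi) → rD (m lo) (m hi) (v i) = 0 := by
    intro lo hi i h1
    rw [hv]
    beta_reduce
    rw [rD_rD]
    apply ClaimW_rD_zero
    by_cases h2 : lo ≤ i
    · have h3 : hi ≤ i := by
        by_contra h4
        exact h1 ⟨h2, by omega⟩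
      exact (min_le_left _ _).trans ((hm h3).trans (le_max_right _ _))
    · have h3 : i + 1 ≤ lo := by omega
      exact (min_le_right _ _).trans ((hm h3).trans (le_max_left _ _))
  have hrS : ∀ lo hi, ∀ S : Finset ℕ, Ico lo hi ⊆ S →
      rD (m lo) (m hi) (∑ i ∈ S, v i) = ∑ i ∈ Ico lo hi, v i := by
    intro lo hi S hS
    rw [rD_sum]
    symm
    rw [← Finset.sum_subset hS]
    · exact Finset.sum_congr rfl fun i hi' => by
        rw [Finset.mem_Ico] at hi'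
        exact (hr1 lo hi i hi'.1 hi'.2).symm
    · intro i _ hi'
      rw [Finset.mem_Ico] at hi'
      exact hr2 lo hi i hi'
  -- the upper estimate and the tree
  have hsum : ‖∑ i ∈ range (N ^ L), v i‖ < 2 ^ L * (δ / 2) := by
    have h1 : ‖∑ i ∈ range (N ^ L), v i‖ ≤ mm j * M :=
      upper hj hNL hm (fun i _ => hr1 i (i + 1) i le_rfl (Nat.lt_succ_self i)) hM0.le
        (fun i _ => hv1 i)
    refine h1.trans_lt ?_
    have h2 : (mm j : ℝ) * (M + 1) < 2 ^ L * (δ / 2) := by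
      have h3 : 2 * (M + 1) / δ * (mm j : ℝ) * (δ / 2) < 2 ^ L * (δ / 2) :=
        mul_lt_mul_of_pos_right hBL (by positivity)
      have h4 : 2 * (M + 1) / δ * (mm j : ℝ) * (δ / 2) = (mm j : ℝ) * (M + 1) := by
        field_simp
      rwa [h4] at h3
    have h5 := mm_posR j
    nlinarith
  obtain ⟨l, q, hlL, hq, hineq⟩ := tree hN (fun i _ => hv2 i) hsum
  set S : Finset ℕ := Ico (q * N ^ (l + 1)) ((q + 1) * N ^ (l + 1)) with hS
  set W : D := ∑ i ∈ S, v i with hW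
  set lo : ℕ → ℕ := fun c => q * N ^ (l + 1) + c * N ^ l with hlo
  have hNl : 0 < N ^ l := pow_pos hN l
  have hNl1 : N ^ (l + 1) = N * N ^ l := by rw [pow_succ]; ring
  have hlomono : Monotone lo := by
    intro a b hab
    rw [hlo]
    beta_reduce
    have := Nat.mul_le_mul_right (N ^ l) hab
    omega
  have hsub : ∀ c < N, Ico (lo c) (lo (c + 1)) ⊆ S := by
    intro c hc i hi
    rw [Finset.mem_Ico] at hi
    rw [hS, Finset.mem_Ico]
    refine ⟨(Nat.le_add_right _ _).trans hi.1, hi.2.trans_le ?_⟩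
    rw [hlo]
    beta_reduce
    have h1 : (c + 1) * N ^ l ≤ N * N ^ l := Nat.mul_le_mul_right _ hc
    rw [add_mul q 1, one_mul, hNl1]
    rw [← hNl1]
    rw [hNl1] at *
    omega
  have hWpos : δ / 2 ≤ ‖W‖ := by
    have h1 : Ico (q * N ^ (l + 1)) (q * N ^ (l + 1) + 1) ⊆ S := by
      rw [hS]
      apply Finset.Ico_subset_Ico le_rfl
      rw [add_mul q 1, one_mul]
      have : 0 < N ^ (l + 1) := pow_pos hN _
      omega
    have h2 := hrS _ _ S h1
    rw [Nat.Ico_succ_singleton, Finset.sum_singleton] at h2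
    have h3 := norm_rD_le (m (q * N ^ (l + 1))) (m (q * N ^ (l + 1) + 1)) W
    rw [hW] at h3
    rw [h2] at h3
    exact (hv2 _).trans h3
  have hWpos' : 0 < ‖W‖ := lt_of_lt_of_le (by positivity) hWpos
  -- the vectors
  have hx : ∀ c, ∃ x : V, rs (m (lo c)) (m (lo (c + 1))) x = x ∧ ‖x‖ ≤ 1 ∧
      ‖∑ i ∈ Ico (lo c) (lo (c + 1)), v i‖ - δ / 16 ≤
        ((∑ i ∈ Ico (lo c) (lo (c + 1)), v i) x).re := by
    intro c
    set G : D := ∑ i ∈ Ico (lo c) (lo (c + 1)), v i with hG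
    obtain ⟨y, hy1, hy2⟩ := G.exists_lt_apply_of_lt_opNorm
      (show ‖G‖ - δ / 16 < ‖G‖ by linarith)
    obtain ⟨w, hw1, hw2⟩ : ∃ w : ℂ, ‖w‖ = 1 ∧ w * G y = (‖G y‖ : ℂ) := by
      by_cases h0 : G y = 0
      · exact ⟨1, by simp, by simp [h0]⟩
      · refine ⟨(‖G y‖ : ℂ) / G y, ?_, ?_⟩
        · rw [norm_div, Complex.norm_real, norm_norm, div_self (norm_ne_zero_iff.mpr h0)]
        · rw [div_mul_cancel₀ _ h0]
    have hGr : rD (m (lo c)) (m (lo (c + 1))) G = G := by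
      rw [hG]
      exact hrS _ _ _ (Finset.Subset.refl _)
    refine ⟨rs (m (lo c)) (m (lo (c + 1))) (w • y), ?_, ?_, ?_⟩
    · rw [rs_rs, max_self, min_self]
    · refine (norm_rs_le _ _ _).trans ?_
      rw [norm_smul, hw1, one_mul]
      exact hy1.le
    · rw [← rD_apply, hGr, map_smul, smul_eq_mul, hw2, Complex.ofReal_re]
      exact hy2.le
  choose x hx1 hx2 hx3 using hx
  have hsupp : ∀ c, ∀ a ∈ (x c).support, m (lo c) ≤ a ∧ a < m (lo (c + 1)) := by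
    intro c
    exact rs_eq_self_iff.mp (hx1 c)
  -- the sum of the `u i`
  set E : D := ∑ a ∈ S, (u (t a) - v a) with hE
  have hsumu : ∑ i ∈ S.image t, u i = W + E := by
    rw [Finset.sum_image (fun a _ b _ hab => ht.injective hab), hW, hE, ← Finset.sum_add_distrib]
    exact Finset.sum_congr rfl fun a _ => by abel
  have hcard : (S.card : ℝ) ≤ ((N ^ L : ℕ) : ℝ) := by
    have h1 : S.card = N ^ (l + 1) := by
      rw [hS, Nat.card_Ico, add_mul q 1, one_mul]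
      omega
    rw [h1]
    exact_mod_cast Nat.pow_le_pow_right hN hlL
  have hEn : ‖E‖ ≤ e := by
    calc ‖E‖ ≤ ∑ a ∈ S, ‖u (t a) - v a‖ := norm_sum_le _ _
      _ ≤ ∑ _a ∈ S, ε := Finset.sum_le_sum fun a _ => htm a
      _ = S.card * ε := by rw [Finset.sum_const, nsmul_eq_mul]
      _ ≤ ((N ^ L : ℕ) : ℝ) * ε := mul_le_mul_of_nonneg_right hcard hε0.le
      _ = e := by rw [hε]; field_simp
  set θ : ℂ := ((1 / ‖W‖ : ℝ) : ℂ) with hθ
  have hθn : ‖θ‖ = 1 / ‖W‖ := by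
    rw [hθ, Complex.norm_real, Real.norm_eq_abs, abs_of_pos (by positivity)]
  have hθ2 : 1 / ‖W‖ ≤ 2 / δ := by
    rw [div_le_div_iff₀ hWpos' hδ]
    linarith
  have hθe : 1 / ‖W‖ * e ≤ 2 / δ * e := mul_le_mul_of_nonneg_right hθ2 he0.le
  have hNR : (0 : ℝ) < N := by exact_mod_cast hN
  have hz : ‖(1 / (N : ℂ)) • ∑ c ∈ range N, x c‖ ≤ 1 := by
    rw [norm_smul, norm_div, norm_one, Complex.norm_natCast]
    have h1 : ‖∑ c ∈ range N, x c‖ ≤ N := by
      calc ‖∑ c ∈ range N, x c‖ ≤ ∑ c ∈ range N, ‖x c‖ := norm_sum_le _ _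
        _ ≤ ∑ _c ∈ range N, (1 : ℝ) := Finset.sum_le_sum fun c _ => hx2 c
        _ = N := by simp
    calc 1 / (N : ℝ) * ‖∑ c ∈ range N, x c‖ ≤ 1 / (N : ℝ) * N :=
          mul_le_mul_of_nonneg_left h1 (by positivity)
      _ = 1 := by field_simp
  refine ⟨S.image t, θ, x, ?_, ?_, ?_, ?_, fun c _ => hx2 c, ?_, ?_, ?_⟩
  · intro i hi
    rw [Finset.mem_image] at hi
    obtain ⟨a, _, rfl⟩ := hi
    exact ht0 a
  · rw [hθn]; exact hθ2
  · rw [hsumu, norm_smul, hθn]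
    have h1 : ‖W + E‖ ≤ ‖W‖ + e := (norm_add_le _ _).trans (by linarith)
    calc 1 / ‖W‖ * ‖W + E‖ ≤ 1 / ‖W‖ * (‖W‖ + e) :=
          mul_le_mul_of_nonneg_left h1 (by positivity)
      _ = 1 + 1 / ‖W‖ * e := by field_simp
      _ ≤ 1 + 2 / δ * (δ / 16) := by
          have := mul_le_mul_of_nonneg_left he1 (show (0 : ℝ) ≤ 2 / δ by positivity)
          linarith
      _ ≤ 2 := by
          have : 2 / δ * (δ / 16) = 1 / 8 := by field_simp; norm_num
          rw [this]; norm_num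
  · intro a b hab _ i hi k hk
    have h1 := (hsupp a i hi).2
    have h2 := (hsupp b k hk).1
    have h3 : m (lo (a + 1)) ≤ m (lo b) := hm (hlomono hab)
    omega
  · intro c _ a ha
    exact (hm0 _).trans (hsupp c a ha).1
  · rw [hsumu, rD_smul, rD_add]
    have h1 : rD 0 i₀ W = 0 := by
      rw [hW, rD_sum]
      apply Finset.sum_eq_zero
      intro i _
      rw [hv]
      beta_reduce
      rw [rD_rD]
      apply ClaimW_rD_zero
      exact (min_le_left _ _).trans ((hm0 i).trans (le_max_right _ _))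
    rw [h1, zero_add, norm_smul, hθn]
    have h2 : ‖rD 0 i₀ E‖ ≤ e := (norm_rD_le _ _ _).trans hEn
    calc 1 / ‖W‖ * ‖rD 0 i₀ E‖ ≤ 1 / ‖W‖ * e := mul_le_mul_of_nonneg_left h2 (by positivity)
      _ ≤ 2 / δ * e := hθe
      _ ≤ 2 / δ * (η * δ / 2) := mul_le_mul_of_nonneg_left he2 (by positivity)
      _ = η := by field_simp
  · rw [hsumu]
    set z : V := (1 / (N : ℂ)) • ∑ c ∈ range N, x c with hz'
    have hWx : ∀ c < N, W (x c) = (∑ i ∈ Ico (lo c) (lo (c + 1)), v i) (x c) := by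
      intro c hc
      rw [← hrS _ _ S (hsub c hc), rD_apply, hx1 c]
    have h1 : ‖W‖ / 2 - δ / 16 ≤ (W z).re := by
      have h2 : W z = (1 / (N : ℂ)) * ∑ c ∈ range N, W (x c) := by
        rw [hz', map_smul, map_sum, smul_eq_mul]
      have h3 : (W z).re = 1 / (N : ℝ) * ∑ c ∈ range N, (W (x c)).re := by
        rw [h2, show (1 / (N : ℂ)) = ((1 / (N : ℝ) : ℝ) : ℂ) by push_cast; rfl,
          Complex.re_ofReal_mul, Complex.re_sum]
      rw [h3]
      have h4 : ∑ c ∈ range N, (‖∑ i ∈ Ico (lo c) (lo (c + 1)), v i‖ - δ / 16) ≤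
          ∑ c ∈ range N, (W (x c)).re := by
        apply Finset.sum_le_sum
        intro c hc
        rw [hWx c (Finset.mem_range.mp hc)]
        exact hx3 c
      rw [Finset.sum_sub_distrib, Finset.sum_const, Finset.card_range, nsmul_eq_mul] at h4
      have h5 : ‖W‖ ≤ (2 / (N : ℝ)) * ∑ c ∈ range N, ‖∑ i ∈ Ico (lo c) (lo (c + 1)), v i‖ :=
        hineq
      have h6 : 1 / (N : ℝ) * (∑ c ∈ range N, ‖∑ i ∈ Ico (lo c) (lo (c + 1)), v i‖ -
          N * (δ / 16)) ≤ 1 / (N : ℝ) * ∑ c ∈ range N, (W (x c)).re :=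
        mul_le_mul_of_nonneg_left h4 (by positivity)
      refine le_trans ?_ h6
      have h7 : 1 / (N : ℝ) * (∑ c ∈ range N, ‖∑ i ∈ Ico (lo c) (lo (c + 1)), v i‖ -
          N * (δ / 16)) = (2 / (N : ℝ) * ∑ c ∈ range N,
            ‖∑ i ∈ Ico (lo c) (lo (c + 1)), v i‖) / 2 - δ / 16 := by
        field_simp
      rw [h7]
      linarith
    have h8 : ‖E z‖ ≤ e := by
      calc ‖E z‖ ≤ ‖E‖ * ‖z‖ := E.le_opNorm z
        _ ≤ e * 1 := mul_le_mul hEn hz (norm_nonneg _) he0.le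
        _ = e := mul_one e
    have h9 : -e ≤ (E z).re := by
      have := Complex.abs_re_le_norm (E z)
      have h10 := neg_le_of_abs_le this
      linarith
    have h11 : (((θ • (W + E)) : D) z).re = 1 / ‖W‖ * ((W z).re + (E z).re) := by
      rw [hθ]
      simp only [_root_.smul_apply, _root_.add_apply, smul_eq_mul,
        Complex.re_ofReal_mul, Complex.add_re]
    rw [h11]
    calc (1 : ℝ) / 4 = 1 / 2 - 2 / δ * (δ / 16 + δ / 16) := by field_simp; norm_num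
      _ ≤ 1 / 2 - 1 / ‖W‖ * (δ / 16 + δ / 16) := by
          have := mul_le_mul_of_nonneg_right hθ2 (show 0 ≤ δ / 16 + δ / 16 by positivity)
          linarith
      _ = 1 / ‖W‖ * (‖W‖ / 2 - δ / 16 - δ / 16) := by field_simp; ring
      _ ≤ 1 / ‖W‖ * ((W z).re + (E z).re) := by
          apply mul_le_mul_of_nonneg_left _ (by positivity)
          linarith

end Pool.Agent.FSG
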