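import Mathlib

set_option autoImplicit false

open Finset

namespace Pool.Agent.FSG

/-- the sign of a Boolean -/
def DSigns_sg (b : Bool) : ℝ := if b then 1 else -1

theorem DSigns_mgf (n : ℕ) (b : Fin n → ℝ) (hb : ∀ j, |b j| ≤ 1) (l : ℝ) :
    ∑ e : Fin n → Bool, Real.exp (l * ∑ j, DSigns_sg (e j) * b j)
      ≤ 2 ^ n * Real.exp (l ^ 2 * n / 2) := by
  have h1 : ∀ e : Fin n → Bool, Real.exp (l * ∑ j, DSigns_sg (e j) * b j)
      = ∏ j, Real.exp (l * (DSigns_sg (e j) * b j)) := by
    intro e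
    rw [← Real.exp_sum, Finset.mul_sum]
  have h2 : ∑ e : Fin n → Bool, ∏ j, Real.exp (l * (DSigns_sg (e j) * b j))
      = ∏ j : Fin n, ∑ x : Bool, Real.exp (l * (DSigns_sg x * b j)) := by
    rw [Finset.prod_univ_sum (fun _ : Fin n => (Finset.univ : Finset Bool))
      (fun j x => Real.exp (l * (DSigns_sg x * b j))), Fintype.piFinset_univ]
  have h3 : ∀ j : Fin n, ∑ x : Bool, Real.exp (l * (DSigns_sg x * b j))
      ≤ 2 * Real.exp (l ^ 2 / 2) := by
    intro j
    have e1 : ∑ x : Bool, Real.exp (l * (DSigns_sg x * b j)) = 2 * Real.cosh (l * b j) := by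
      rw [Real.cosh_eq]
      simp [DSigns_sg]
      ring
    rw [e1]
    have e2 := Real.cosh_le_exp_half_sq (l * b j)
    have e3 : Real.exp ((l * b j) ^ 2 / 2) ≤ Real.exp (l ^ 2 / 2) := by
      apply Real.exp_le_exp.2
      have : (b j) ^ 2 ≤ 1 := by
        have := hb j
        rw [← sq_abs]
        nlinarith [abs_nonneg (b j)]
      have h4 : (l * b j) ^ 2 ≤ l ^ 2 := by
        rw [mul_pow]
        nlinarith [sq_nonneg l]
      linarith
    linarith
  calc ∑ e : Fin n → Bool, Real.exp (l * ∑ j, DSigns_sg (e j) * b j)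
      = ∏ j : Fin n, ∑ x : Bool, Real.exp (l * (DSigns_sg x * b j)) := by
        rw [← h2]
        exact Finset.sum_congr rfl fun e _ => h1 e
    _ ≤ ∏ _j : Fin n, (2 * Real.exp (l ^ 2 / 2)) :=
        Finset.prod_le_prod (fun j _ => Finset.sum_nonneg fun x _ => (Real.exp_pos _).le)
          fun j _ => h3 j
    _ = 2 ^ n * Real.exp (l ^ 2 * n / 2) := by
        rw [Finset.prod_const, Finset.card_univ, Fintype.card_fin, mul_pow, ← Real.exp_nat_mul]
        congr 2
        ring

theorem DSigns_exists (n M : ℕ) (hM : 1 ≤ M) (hn : 0 < n) (a : ℕ → Fin n → ℂ)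
    (ha : ∀ c < M, ∀ j, ‖a c j‖ ≤ 1) :
    ∃ e : Fin n → Bool, ∀ c < M,
      |∑ j, DSigns_sg (e j) * (a c j).re| ≤ Real.sqrt (2 * n * Real.log (8 * M)) ∧
      |∑ j, DSigns_sg (e j) * (a c j).im| ≤ Real.sqrt (2 * n * Real.log (8 * M)) := by
  set t : ℝ := Real.sqrt (2 * n * Real.log (8 * M)) with ht
  have hnR : (0 : ℝ) < n := by exact_mod_cast hn
  have hMR : (1 : ℝ) ≤ M := by exact_mod_cast hM
  have hlog : 0 < Real.log (8 * M) := Real.log_pos (by linarith)
  have ht2 : t ^ 2 = 2 * n * Real.log (8 * M) := by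
    rw [ht, Real.sq_sqrt (by positivity)]
  have ht0 : 0 < t := by
    rw [ht]
    exact Real.sqrt_pos.2 (by positivity)
  set l : ℝ := t / n with hl
  have hl0 : 0 < l := div_pos ht0 hnR
  by_contra hcon
  push Not at hcon
  -- the bad sum
  have hbad : ∀ e : Fin n → Bool, Real.exp (l * t) ≤ ∑ c ∈ range M,
      (Real.exp (l * ∑ j, DSigns_sg (e j) * (a c j).re)
        + Real.exp (-l * ∑ j, DSigns_sg (e j) * (a c j).re)
        + Real.exp (l * ∑ j, DSigns_sg (e j) * (a c j).im)
        + Real.exp (-l * ∑ j, DSigns_sg (e j) * (a c j).im)) := by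
    intro e
    obtain ⟨c, hc, hc'⟩ := hcon e
    have hle : Real.exp (l * t) ≤ (Real.exp (l * ∑ j, DSigns_sg (e j) * (a c j).re)
        + Real.exp (-l * ∑ j, DSigns_sg (e j) * (a c j).re)
        + Real.exp (l * ∑ j, DSigns_sg (e j) * (a c j).im)
        + Real.exp (-l * ∑ j, DSigns_sg (e j) * (a c j).im)) := by
      have hex : ∀ y : ℝ, t < |y| → Real.exp (l * t) ≤ Real.exp (l * y) + Real.exp (-l * y) := by
        intro y hy
        rcases lt_abs.1 hy with h | h
        · have := Real.exp_le_exp.2 (mul_le_mul_of_nonneg_left h.le hl0.le)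
          have := Real.exp_pos (-l * y)
          linarith
        · have := Real.exp_le_exp.2 (mul_le_mul_of_nonneg_left h.le hl0.le)
          have h2 : l * -y = -l * y := by ring
          rw [h2] at this
          have := Real.exp_pos (l * y)
          linarith
      have p1 := Real.exp_pos (l * ∑ j, DSigns_sg (e j) * (a c j).re)
      have p2 := Real.exp_pos (-l * ∑ j, DSigns_sg (e j) * (a c j).re)
      have p3 := Real.exp_pos (l * ∑ j, DSigns_sg (e j) * (a c j).im)
      have p4 := Real.exp_pos (-l * ∑ j, DSigns_sg (e j) * (a c j).im)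
      by_cases h : |∑ j, DSigns_sg (e j) * (a c j).re| ≤ t
      · have := hex _ (hc' h)
        linarith
      · have := hex _ (not_le.1 h)
        linarith
    refine hle.trans (Finset.single_le_sum (f := fun c =>
      (Real.exp (l * ∑ j, DSigns_sg (e j) * (a c j).re)
        + Real.exp (-l * ∑ j, DSigns_sg (e j) * (a c j).re)
        + Real.exp (l * ∑ j, DSigns_sg (e j) * (a c j).im)
        + Real.exp (-l * ∑ j, DSigns_sg (e j) * (a c j).im))) (fun c _ => ?_)
        (Finset.mem_range.2 hc))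
    positivity
  have hsum := Finset.sum_le_sum fun e (_ : e ∈ (Finset.univ : Finset (Fin n → Bool))) => hbad e
  have hre : ∀ c < M, ∀ j, |(a c j).re| ≤ 1 := fun c hc j =>
    (Complex.abs_re_le_norm _).trans (ha c hc j)
  have him : ∀ c < M, ∀ j, |(a c j).im| ≤ 1 := fun c hc j =>
    (Complex.abs_im_le_norm _).trans (ha c hc j)
  have hupper : ∑ e : Fin n → Bool, ∑ c ∈ range M,
      (Real.exp (l * ∑ j, DSigns_sg (e j) * (a c j).re)
        + Real.exp (-l * ∑ j, DSigns_sg (e j) * (a c j).re)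
        + Real.exp (l * ∑ j, DSigns_sg (e j) * (a c j).im)
        + Real.exp (-l * ∑ j, DSigns_sg (e j) * (a c j).im))
      ≤ M * (4 * (2 ^ n * Real.exp (l ^ 2 * n / 2))) := by
    rw [Finset.sum_comm]
    calc _ ≤ ∑ _c ∈ range M, 4 * (2 ^ n * Real.exp (l ^ 2 * n / 2)) := by
          refine Finset.sum_le_sum fun c hc => ?_
          rw [Finset.mem_range] at hc
          rw [Finset.sum_add_distrib, Finset.sum_add_distrib, Finset.sum_add_distrib]
          have q1 := DSigns_mgf n (fun j => (a c j).re) (hre c hc) l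
          have q2 := DSigns_mgf n (fun j => (a c j).re) (hre c hc) (-l)
          have q3 := DSigns_mgf n (fun j => (a c j).im) (him c hc) l
          have q4 := DSigns_mgf n (fun j => (a c j).im) (him c hc) (-l)
          rw [neg_sq] at q2 q4
          linarith
      _ = M * (4 * (2 ^ n * Real.exp (l ^ 2 * n / 2))) := by simp
  have hlower : ∑ _e : Fin n → Bool, Real.exp (l * t) = 2 ^ n * Real.exp (l * t) := by
    simp
  rw [hlower] at hsum
  have hfin := hsum.trans hupper
  have hlt : l * t = 2 * Real.log (8 * M) := by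
    rw [hl, div_mul_eq_mul_div, ← sq, ht2]
    field_simp
  have hl2 : l ^ 2 * n / 2 = Real.log (8 * M) := by
    rw [hl, div_pow, ht2]
    field_simp
  rw [hlt, hl2, two_mul, Real.exp_add, Real.exp_log (by linarith)] at hfin
  have h2n : (0 : ℝ) < 2 ^ n := by positivity
  have hM0 : (0 : ℝ) < M := by linarith
  have h5 : (2 : ℝ) ^ n * (8 * M * (8 * M)) ≤ 2 ^ n * (M * (4 * (8 * M))) := by
    calc (2 : ℝ) ^ n * (8 * M * (8 * M)) ≤ M * (4 * (2 ^ n * (8 * M))) := hfin
      _ = 2 ^ n * (M * (4 * (8 * M))) := by ring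
  have h6 := le_of_mul_le_mul_left h5 h2n
  nlinarith

/-- random signs -/
theorem random_signs (n M : ℕ) (hM : 1 ≤ M) (a : ℕ → ℕ → ℂ)
    (ha : ∀ c < M, ∀ j < n, ‖a c j‖ ≤ 1) :
    ∃ ε : ℕ → ℂ, (∀ j, ε j = 1 ∨ ε j = -1) ∧
      ∀ c < M, ‖∑ j ∈ range n, ε j * a c j‖ ≤ 2 * Real.sqrt (2 * n * Real.log (8 * M)) := by
  rcases Nat.eq_zero_or_pos n with rfl | hn
  · exact ⟨fun _ => 1, fun _ => Or.inl rfl, fun c _ => by simp⟩
  obtain ⟨e, he⟩ := DSigns_exists n M hM hn (fun c j => a c j) (fun c hc j => ha c hc j j.2)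
  refine ⟨fun j => if h : j < n then ((DSigns_sg (e ⟨j, h⟩) : ℝ) : ℂ) else 1, fun j => ?_,
    fun c hc => ?_⟩
  · by_cases h : j < n
    · simp only [h, dif_pos]
      unfold DSigns_sg
      split_ifs <;> simp
    · simp [h]
  · have hs : ∑ j ∈ range n, (if h : j < n then ((DSigns_sg (e ⟨j, h⟩) : ℝ) : ℂ) else 1) * a c j
        = ∑ j : Fin n, ((DSigns_sg (e j) : ℝ) : ℂ) * a c j := by
      rw [Finset.sum_range]
      refine Finset.sum_congr rfl fun j _ => ?_
      simp
    rw [hs]
    obtain ⟨h1, h2⟩ := he c hc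
    have hre : (∑ j : Fin n, ((DSigns_sg (e j) : ℝ) : ℂ) * a c j).re
        = ∑ j : Fin n, DSigns_sg (e j) * (a c j).re := by
      rw [Complex.re_sum]
      exact Finset.sum_congr rfl fun j _ => Complex.re_ofReal_mul _ _
    have him : (∑ j : Fin n, ((DSigns_sg (e j) : ℝ) : ℂ) * a c j).im
        = ∑ j : Fin n, DSigns_sg (e j) * (a c j).im := by
      rw [Complex.im_sum]
      exact Finset.sum_congr rfl fun j _ => Complex.im_ofReal_mul _ _
    refine (Complex.norm_le_abs_re_add_abs_im _).trans ?_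
    rw [hre, him]
    linarith

end Pool.Agent.FSG
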