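import Pool.Agent.FSG.DField
import Pool.Agent.FSG.DSigns

set_option autoImplicit false

open Finset Filter Topology

namespace Pool.Agent.FSG

theorem qq_pow8 : qq ^ 8 = 3 := by
  have h3 : (0 : ℝ) ≤ 3 := by norm_num
  have h1 : qq ^ 2 = Real.sqrt (Real.sqrt 3) := by
    unfold qq
    exact Real.sq_sqrt (Real.sqrt_nonneg _)
  have h2 : qq ^ 4 = Real.sqrt 3 := by
    have : qq ^ 4 = (qq ^ 2) ^ 2 := by ring
    rw [this, h1]
    exact Real.sq_sqrt (Real.sqrt_nonneg _)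
  have : qq ^ 8 = (qq ^ 4) ^ 2 := by ring
  rw [this, h2]
  exact Real.sq_sqrt h3

theorem DAsm_qq_nonneg : 0 ≤ qq := Real.sqrt_nonneg _

theorem one_lt_qq : 1 < qq := by
  by_contra h
  have h1 : qq ^ 8 ≤ 1 := pow_le_one₀ DAsm_qq_nonneg (not_lt.1 h)
  rw [qq_pow8] at h1
  norm_num at h1

theorem DAsm_qq_sq : (1.3 : ℝ) ≤ qq ^ 2 := by
  by_contra h
  have h0 : 0 ≤ qq ^ 2 := sq_nonneg _
  have h1 : (qq ^ 2) ^ 4 ≤ (1.3 : ℝ) ^ 4 := pow_le_pow_left₀ h0 (le_of_lt (not_le.1 h)) 4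
  have h2 : (qq ^ 2) ^ 4 = 3 := by rw [← pow_mul, qq_pow8]
  rw [h2] at h1
  norm_num at h1

theorem DAsm_growth (k : ℕ) : 32 * ((k : ℝ) + 1) ≤ 108 * (qq ^ 2) ^ k := by
  have h1 := one_add_mul_le_pow (a := qq ^ 2 - 1) (by have := DAsm_qq_sq; linarith) k
  have h2 : 1 + (qq ^ 2 - 1) = qq ^ 2 := by ring
  rw [h2] at h1
  have h3 : (0.3 : ℝ) ≤ qq ^ 2 - 1 := by have := DAsm_qq_sq; linarith
  have h4 : (k : ℝ) * 0.3 ≤ (k : ℝ) * (qq ^ 2 - 1) :=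
    mul_le_mul_of_nonneg_left h3 (Nat.cast_nonneg k)
  have h5 : (0 : ℝ) ≤ k := Nat.cast_nonneg k
  nlinarith

theorem DAsm_log (k : ℕ) :
    Real.log (8 * ((9 ^ k * 9 ^ (k + 1) : ℕ) : ℝ)) ≤ 16 * ((k : ℝ) + 1) := by
  have h1 : (8 : ℝ) * ((9 ^ k * 9 ^ (k + 1) : ℕ) : ℝ) ≤ (9 : ℝ) ^ (2 * (k + 1)) := by
    push_cast
    have : (9 : ℝ) ^ (2 * (k + 1)) = 9 * (9 ^ k * 9 ^ (k + 1)) := by ring
    rw [this]
    have h2 : (0 : ℝ) ≤ 9 ^ k * 9 ^ (k + 1) := by positivity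
    nlinarith
  have h0 : (0 : ℝ) < 8 * ((9 ^ k * 9 ^ (k + 1) : ℕ) : ℝ) := by positivity
  have h3 := Real.log_le_log h0 h1
  rw [Real.log_pow] at h3
  have h4 : Real.log 9 ≤ 8 := by
    have := Real.log_le_sub_one_of_pos (show (0 : ℝ) < 9 by norm_num)
    linarith
  have h5 : ((2 * (k + 1) : ℕ) : ℝ) * Real.log 9 ≤ ((2 * (k + 1) : ℕ) : ℝ) * 8 :=
    mul_le_mul_of_nonneg_left h4 (Nat.cast_nonneg _)
  have h6 : ((2 * (k + 1) : ℕ) : ℝ) * 8 = 16 * ((k : ℝ) + 1) := by push_cast; ring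
  linarith

theorem DAsm_bound (k : ℕ) :
    2 * Real.sqrt (2 * ((3 ^ (k + 1) : ℕ) : ℝ) *
      Real.log (8 * ((9 ^ k * 9 ^ (k + 1) : ℕ) : ℝ))) / 3 ^ (k + 1) ≤ 12 / (qq ^ 3) ^ k := by
  have hq : 0 < qq := lt_trans one_pos one_lt_qq
  have hq3 : 0 < (qq ^ 3) ^ k := by positivity
  have h3 : (0 : ℝ) < 3 ^ (k + 1) := by positivity
  have key : Real.sqrt (2 * ((3 ^ (k + 1) : ℕ) : ℝ) *
      Real.log (8 * ((9 ^ k * 9 ^ (k + 1) : ℕ) : ℝ))) ≤ 6 * 3 ^ (k + 1) / (qq ^ 3) ^ k := by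
    apply Real.sqrt_le_iff.2
    refine ⟨by positivity, ?_⟩
    have h1 := DAsm_log k
    have h2 : 2 * ((3 ^ (k + 1) : ℕ) : ℝ) * Real.log (8 * ((9 ^ k * 9 ^ (k + 1) : ℕ) : ℝ)) ≤
        2 * ((3 ^ (k + 1) : ℕ) : ℝ) * (16 * ((k : ℝ) + 1)) :=
      mul_le_mul_of_nonneg_left h1 (by positivity)
    refine le_trans h2 ?_
    rw [div_pow, le_div_iff₀ (by positivity)]
    have h4 := DAsm_growth k
    have e1 : ((qq ^ 3) ^ k) ^ 2 = (qq ^ 6) ^ k := by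
      rw [← pow_mul, ← pow_mul, ← pow_mul]; ring_nf
    have e2 : (3 : ℝ) ^ k = (qq ^ 6) ^ k * (qq ^ 2) ^ k := by
      rw [← mul_pow, ← pow_add, qq_pow8]
    rw [e1]
    push_cast
    have h5 : (0 : ℝ) ≤ (qq ^ 6) ^ k * 3 ^ (k + 1) := by positivity
    have h6 := mul_le_mul_of_nonneg_right h4 h5
    calc 2 * (3 : ℝ) ^ (k + 1) * (16 * ((k : ℝ) + 1)) * (qq ^ 6) ^ k
        = 32 * ((k : ℝ) + 1) * ((qq ^ 6) ^ k * 3 ^ (k + 1)) := by ring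
      _ ≤ 108 * (qq ^ 2) ^ k * ((qq ^ 6) ^ k * 3 ^ (k + 1)) := h6
      _ = (6 * 3 ^ (k + 1)) * (18 * ((qq ^ 6) ^ k * (qq ^ 2) ^ k)) := by ring
      _ = (6 * 3 ^ (k + 1)) ^ 2 := by rw [← e2]; ring
  rw [div_le_div_iff₀ h3 hq3]
  have h7 := mul_le_mul_of_nonneg_right key hq3.le
  rw [div_mul_cancel₀ _ hq3.ne'] at h7
  nlinarith

theorem DAsm_sign {e : ℂ} (h : e = 1 ∨ e = -1) : (starRingEnd ℂ) e * e = 1 ∧ e * (starRingEnd ℂ) e = 1 ∧ ‖e‖ = 1 := by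
  rcases h with h | h <;> subst h <;> simp

/-- changing the signs of the functions `σ j` -/
theorem DAsm_lev {k : ℕ} {s t : ℕ → ℕ → ℂ} (h : Lev k s t) {e : ℕ → ℂ}
    (he : ∀ j, e j = 1 ∨ e j = -1) : Lev k (fun j g => e j * s j g) t := by
  refine ⟨?_, h.uτ, ?_, h.oτ, ?_, ?_⟩
  · intro j hj g hg
    rw [norm_mul, (DAsm_sign (he j)).2.2, h.uσ j hj g hg, one_mul]
  · intro i hi j hj
    have h1 : ∀ g, e i * s i g * (starRingEnd ℂ) (e j * s j g) =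
        (e i * (starRingEnd ℂ) (e j)) * (s i g * (starRingEnd ℂ) (s j g)) := by
      intro g
      rw [map_mul]
      ring
    simp only [h1]
    rw [← Finset.mul_sum, h.oσ i hi j hj]
    split_ifs with hij
    · subst hij
      rw [(DAsm_sign (he i)).2.1, one_mul]
    · rw [mul_zero]
  · intro i hi j hj
    have h1 : ∀ g, e i * s i g * (starRingEnd ℂ) (t j g) = e i * (s i g * (starRingEnd ℂ) (t j g)) := by
      intro g
      ring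
    simp only [h1]
    rw [← Finset.mul_sum, h.oστ i hi j hj, mul_zero]
  · intro g hg h' hh
    have h1 : ∀ j, (starRingEnd ℂ) (e j * s j g) * (e j * s j h') =
        (starRingEnd ℂ) (s j g) * s j h' := by
      intro j
      rw [map_mul]
      have := (DAsm_sign (he j)).1
      linear_combination ((starRingEnd ℂ) (s j g) * s j h') * this
    simp only [h1]
    exact h.diff g hg h' hh

/-- the signs of level `k + 1` -/
theorem DAsm_signs {k : ℕ} {s' t : ℕ → ℕ → ℂ}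
    (ht : ∀ j < 3 ^ (k + 1), ∀ g < 9 ^ k, ‖t j g‖ = 1)
    (hs : ∀ j < 3 ^ (k + 1), ∀ g < 9 ^ (k + 1), ‖s' j g‖ = 1) :
    ∃ e : ℕ → ℂ, (∀ j, e j = 1 ∨ e j = -1) ∧ ∀ g < 9 ^ k, ∀ h < 9 ^ (k + 1),
      ‖(1 / (3 : ℂ) ^ (k + 1)) *
        ∑ j ∈ range (3 ^ (k + 1)), (starRingEnd ℂ) (t j g) * (e j * s' j h)‖
        ≤ 12 / (qq ^ 3) ^ k := by
  have hpos : 0 < 9 ^ (k + 1) := by positivity
  obtain ⟨e, he, hb⟩ := random_signs (3 ^ (k + 1)) (9 ^ k * 9 ^ (k + 1))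
    (Nat.succ_le_of_lt (by positivity))
    (fun c j => (starRingEnd ℂ) (t j (c / 9 ^ (k + 1))) * s' j (c % 9 ^ (k + 1))) (by
      intro c hc j hj
      have h1 : c / 9 ^ (k + 1) < 9 ^ k := Nat.div_lt_of_lt_mul (by rw [mul_comm]; exact hc)
      have h2 : c % 9 ^ (k + 1) < 9 ^ (k + 1) := Nat.mod_lt _ hpos
      rw [norm_mul, RCLike.norm_conj, ht j hj _ h1, hs j hj _ h2, one_mul])
  refine ⟨e, he, ?_⟩
  intro g hg h hh
  have hc : g * 9 ^ (k + 1) + h < 9 ^ k * 9 ^ (k + 1) := by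
    calc g * 9 ^ (k + 1) + h < g * 9 ^ (k + 1) + 9 ^ (k + 1) := by omega
      _ = (g + 1) * 9 ^ (k + 1) := by ring
      _ ≤ 9 ^ k * 9 ^ (k + 1) := Nat.mul_le_mul_right _ hg
  have h1 := hb _ hc
  have e1 : (g * 9 ^ (k + 1) + h) / 9 ^ (k + 1) = g := by
    rw [mul_comm, Nat.mul_add_div hpos, Nat.div_eq_of_lt hh, add_zero]
  have e2 : (g * 9 ^ (k + 1) + h) % 9 ^ (k + 1) = h := by
    rw [mul_comm, Nat.mul_add_mod, Nat.mod_eq_of_lt hh]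
  simp only [e1, e2] at h1
  have e3 : ∑ j ∈ range (3 ^ (k + 1)), (starRingEnd ℂ) (t j g) * (e j * s' j h) =
      ∑ j ∈ range (3 ^ (k + 1)), e j * ((starRingEnd ℂ) (t j g) * s' j h) :=
    Finset.sum_congr rfl fun j _ => by ring
  rw [e3, norm_mul, norm_div, norm_one, norm_pow]
  have e4 : ‖(3 : ℂ)‖ = 3 := by norm_num
  rw [e4]
  refine le_trans ?_ (DAsm_bound k)
  rw [one_div, inv_mul_eq_div]
  exact div_le_div_of_nonneg_right h1 (by positivity)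

/-- (5.1) -/
theorem exists_davie : ∃ (C₀ : ℝ) (σ τ : ℕ → ℕ → ℕ → ℂ), Davie C₀ σ τ := by
  have h1 : ∀ k : ℕ, ∃ st : (ℕ → ℕ → ℂ) × (ℕ → ℕ → ℂ), 2 ≤ k → Lev k st.1 st.2 := by
    intro k
    by_cases hk : 2 ≤ k
    · obtain ⟨s, t, h⟩ := exists_lev k hk
      exact ⟨(s, t), fun _ => h⟩
    · exact ⟨(0, 0), fun h => absurd h hk⟩
  choose st hst using h1
  have h2 : ∀ k : ℕ, ∃ e : ℕ → ℂ, (∀ j, e j = 1 ∨ e j = -1) ∧ (2 ≤ k → ∀ g < 9 ^ k,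
      ∀ h < 9 ^ (k + 1), ‖(1 / (3 : ℂ) ^ (k + 1)) *
        ∑ j ∈ range (3 ^ (k + 1)), (starRingEnd ℂ) ((st k).2 j g) * (e j * (st (k + 1)).1 j h)‖
        ≤ 12 / (qq ^ 3) ^ k) := by
    intro k
    by_cases hk : 2 ≤ k
    · obtain ⟨e, he, hb⟩ := DAsm_signs (hst k hk).uτ (hst (k + 1) (by omega)).uσ
      exact ⟨e, he, fun _ => hb⟩
    · exact ⟨fun _ => 1, fun _ => Or.inl rfl, fun h => absurd h hk⟩
  choose e he1 he2 using h2
  refine ⟨12, fun k j g => e (k - 1) j * (st k).1 j g, fun k => (st k).2, ?_, ?_⟩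
  · intro k hk
    exact DAsm_lev (hst k hk) (he1 (k - 1))
  · intro k hk g hg h hh
    have := he2 k hk g hg h hh
    simpa using this

end Pool.Agent.FSG
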