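import Pool.Agent.FSG.Defs

set_option autoImplicit false

open Finset Filter Topology

namespace Pool.Agent.FSG

section Field

variable {F : Type} [Field F] [Fintype F] [DecidableEq F]

set_option linter.unusedSectionVars false

/-- the characters of `F × F` -/
noncomputable def chi (ψ : AddChar F ℂ) (a b : F) (g : F × F) : ℂ := ψ (a * g.1 + b * g.2)

theorem chi_norm (ψ : AddChar F ℂ) (a b : F) (g : F × F) : ‖chi ψ a b g‖ = 1 :=
  AddChar.norm_apply ψ _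

theorem chi_conj_mul (ψ : AddChar F ℂ) (a b a' b' : F) (g : F × F) :
    chi ψ a b g * (starRingEnd ℂ) (chi ψ a' b' g) = ψ (g.1 * (a - a')) * ψ (g.2 * (b - b')) := by
  unfold chi
  rw [← AddChar.map_neg_eq_conj, ← AddChar.map_add_eq_mul, ← AddChar.map_add_eq_mul]
  congr 1
  ring

theorem chi_orth {ψ : AddChar F ℂ} (hψ : ψ.IsPrimitive) (a b a' b' : F) :
    ∑ g : F × F, chi ψ a b g * (starRingEnd ℂ) (chi ψ a' b' g) =
      if a = a' ∧ b = b' then ((Fintype.card F : ℕ) : ℂ) * (Fintype.card F : ℕ) else 0 := by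
  simp only [chi_conj_mul]
  rw [Fintype.sum_prod_type]
  simp only
  have h1 : ∀ x : F, ∑ y : F, ψ (x * (a - a')) * ψ (y * (b - b')) =
      ψ (x * (a - a')) * ∑ y : F, ψ (y * (b - b')) := fun x => by rw [Finset.mul_sum]
  simp only [h1]
  rw [← Finset.sum_mul, AddChar.sum_mulShift _ hψ, AddChar.sum_mulShift _ hψ]
  by_cases ha : a = a'
  · by_cases hb : b = b'
    · simp [ha, hb]
    · have : b - b' ≠ 0 := sub_ne_zero.2 hb
      simp [hb, this]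
  · have : a - a' ≠ 0 := sub_ne_zero.2 ha
    simp [ha, this]

/-- the quadratic sum -/
noncomputable def SS (ψ : AddChar F ℂ) (x y : F) : ℂ := ∑ t : F, ψ (t * x + t ^ 2 * y)

theorem SS_norm {ψ : AddChar F ℂ} (hψ : ψ.IsPrimitive) (h2 : (2 : F) ≠ 0) (x y : F)
    (hy : y ≠ 0) : ‖SS ψ x y‖ ^ 2 = (Fintype.card F : ℕ) := by
  have h1 : SS ψ x y * (starRingEnd ℂ) (SS ψ x y) = ((Fintype.card F : ℕ) : ℂ) := by
    unfold SS
    rw [map_sum, Finset.sum_mul_sum, Finset.sum_comm]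
    have h3 : ∀ t : F, ∑ s : F, ψ (s * x + s ^ 2 * y) *
        (starRingEnd ℂ) (ψ (t * x + t ^ 2 * y)) =
        ∑ h : F, ψ (h * x + h ^ 2 * y) * ψ (t * (2 * h * y)) := by
      intro t
      rw [← Equiv.sum_comp (Equiv.addRight t)]
      refine Finset.sum_congr rfl fun h _ => ?_
      rw [← AddChar.map_neg_eq_conj, ← AddChar.map_add_eq_mul, ← AddChar.map_add_eq_mul]
      congr 1
      simp only [Equiv.coe_addRight]
      ring
    simp only [h3]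
    rw [Finset.sum_comm]
    simp only [← Finset.mul_sum]
    rw [Finset.sum_eq_single 0]
    · rw [AddChar.sum_mulShift _ hψ]
      simp
    · intro h _ hh
      rw [AddChar.sum_mulShift _ hψ, if_neg (mul_ne_zero (mul_ne_zero h2 hh) hy)]
      simp
    · intro h
      exact absurd (Finset.mem_univ _) h
  rw [Complex.mul_conj, Complex.normSq_eq_norm_sq] at h1
  exact_mod_cast h1

theorem chi_diff (ψ : AddChar F ℂ) (s : F) (b : F) (g h : F × F) :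
    (starRingEnd ℂ) (chi ψ s b g) * chi ψ s b h =
      ψ (s * (h.1 - g.1) + b * (h.2 - g.2)) := by
  unfold chi
  rw [← AddChar.map_neg_eq_conj, ← AddChar.map_add_eq_mul]
  congr 1
  ring

/-- (O2) over the field -/
theorem field_diff {ψ : AddChar F ℂ} (hψ : ψ.IsPrimitive) (h2 : (2 : F) ≠ 0) (δ : Fin 3 → F)
    (g h : F × F) :
    ‖(1 / (3 * (Fintype.card F : ℕ) : ℂ)) * ∑ p : F × Fin 3,
        (starRingEnd ℂ) (chi ψ p.1 (p.1 ^ 2 + δ p.2) g) * chi ψ p.1 (p.1 ^ 2 + δ p.2) h -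
      (1 / ((Fintype.card F : ℕ) : ℂ)) * ∑ t : F,
        (starRingEnd ℂ) (chi ψ t (t ^ 2) g) * chi ψ t (t ^ 2) h‖ ≤
      2 / Real.sqrt (Fintype.card F : ℕ) := by
  set q : ℕ := Fintype.card F with hq
  have hqpos : 0 < q := Fintype.card_pos
  have hq0 : (q : ℂ) ≠ 0 := by exact_mod_cast hqpos.ne'
  have hqr : (0 : ℝ) < q := by exact_mod_cast hqpos
  simp only [chi_diff]
  set x := h.1 - g.1
  set y := h.2 - g.2
  have e1 : ∑ p : F × Fin 3, ψ (p.1 * x + (p.1 ^ 2 + δ p.2) * y) =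
      SS ψ x y * ∑ d : Fin 3, ψ (δ d * y) := by
    rw [Fintype.sum_prod_type, SS, Finset.sum_mul_sum]
    refine Finset.sum_congr rfl fun t _ => Finset.sum_congr rfl fun d _ => ?_
    rw [← AddChar.map_add_eq_mul]
    congr 1
    ring
  have e2 : ∑ t : F, ψ (t * x + t ^ 2 * y) = SS ψ x y := rfl
  rw [e1, e2]
  have e3 : (1 / (3 * (q : ℂ))) * (SS ψ x y * ∑ d : Fin 3, ψ (δ d * y)) -
      (1 / (q : ℂ)) * SS ψ x y =
      SS ψ x y * ((1 / (3 * (q : ℂ))) * (∑ d : Fin 3, ψ (δ d * y) - 3)) := by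
    generalize ∑ d : Fin 3, ψ (δ d * y) = w
    field_simp
  rw [e3]
  by_cases hy : y = 0
  · have : ∑ d : Fin 3, ψ (δ d * y) = 3 := by
      simp [hy]
    rw [this, sub_self, mul_zero, mul_zero, norm_zero]
    positivity
  · have hS := SS_norm hψ h2 x y hy
    rw [← hq] at hS
    have hS' : ‖SS ψ x y‖ = Real.sqrt q := by
      rw [← hS, Real.sqrt_sq (norm_nonneg _)]
    have hb : ‖∑ d : Fin 3, ψ (δ d * y) - 3‖ ≤ 6 := by
      refine (norm_sub_le _ _).trans ?_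
      have h5 : ‖∑ d : Fin 3, ψ (δ d * y)‖ ≤ 3 := by
        refine (norm_sum_le _ _).trans ?_
        simp [AddChar.norm_apply]
      have h6 : ‖(3 : ℂ)‖ = 3 := by simp
      linarith
    rw [norm_mul, norm_mul, hS']
    have h7 : ‖(1 / (3 * (q : ℂ)))‖ = 1 / (3 * q) := by
      rw [norm_div, norm_mul]
      simp
    rw [h7]
    have h8 : (2 : ℝ) / Real.sqrt q = Real.sqrt q * (1 / (3 * q) * 6) := by
      have h9 : Real.sqrt q * Real.sqrt q = q := Real.mul_self_sqrt hqr.le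
      have h10 : Real.sqrt q ≠ 0 := (Real.sqrt_pos.2 hqr).ne'
      field_simp
      nlinarith
    rw [h8]
    gcongr

end Field

/-- transport of sums over an initial segment -/
theorem sum_range_equiv {α : Type} [Fintype α] {n : ℕ} (e : Fin n ≃ α) (f : ℕ → ℂ) (f' : α → ℂ)
    (h : ∀ (j : ℕ) (hj : j < n), f j = f' (e ⟨j, hj⟩)) : ∑ j ∈ range n, f j = ∑ a : α, f' a := by
  rw [Finset.sum_range]
  exact Fintype.sum_equiv e _ _ (fun j => h j.1 j.2)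

/-- (5.1) (O1), (O2) -/
theorem exists_lev (k : ℕ) (hk : 2 ≤ k) : ∃ σ τ : ℕ → ℕ → ℂ, Lev k σ τ := by
  classical
  have : Fact (Nat.Prime 3) := ⟨Nat.prime_three⟩
  let F := GaloisField 3 k
  have : Fintype F := Fintype.ofFinite F
  have hcard : Fintype.card F = 3 ^ k := by
    rw [← Nat.card_eq_fintype_card]
    exact GaloisField.card 3 k (by omega)
  have : CharP F 3 := inferInstance
  have h2 : (2 : F) ≠ 0 := by
    intro h
    have h3 : ((2 : ℕ) : F) = 0 := by exact_mod_cast h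
    rw [CharP.cast_eq_zero_iff F 3] at h3
    omega
  obtain ⟨ψ, hψ⟩ : ∃ ψ : AddChar F ℂ, ψ.IsPrimitive := by
    obtain ⟨ψ, h⟩ := (AddChar.exists_apply_ne_zero (α := F) (a := 1)).2 one_ne_zero
    refine ⟨ψ, AddChar.IsPrimitive.of_ne_one ?_⟩
    rintro rfl
    exact h (AddChar.one_apply _)
  obtain ⟨δ, hδ, hδ0⟩ : ∃ δ : Fin 3 → F, Function.Injective δ ∧ ∀ i, δ i ≠ 0 := by
    have h9 : 3 ^ 2 ≤ 3 ^ k := Nat.pow_le_pow_right (by norm_num) hk
    obtain ⟨e⟩ : Nonempty (Fin 3 ↪ Fˣ) := by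
      apply Function.Embedding.nonempty_of_card_le
      rw [Fintype.card_units, hcard, Fintype.card_fin]
      omega
    exact ⟨fun i => (e i : F), fun i j h => e.injective (Units.ext h), fun i => (e i).ne_zero⟩
  obtain ⟨eF⟩ : Nonempty (Fin (3 ^ k) ≃ F) :=
    ⟨(Fintype.equivFinOfCardEq hcard).symm⟩
  obtain ⟨eG⟩ : Nonempty (Fin (9 ^ k) ≃ F × F) := by
    refine ⟨(Fintype.equivFinOfCardEq ?_).symm⟩
    rw [Fintype.card_prod, hcard, ← mul_pow]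
    norm_num
  obtain ⟨eT⟩ : Nonempty (Fin (3 ^ (k + 1)) ≃ F × Fin 3) := by
    refine ⟨(Fintype.equivFinOfCardEq ?_).symm⟩
    rw [Fintype.card_prod, hcard, Fintype.card_fin, pow_succ]
  let σ : ℕ → ℕ → ℂ := fun j g => if h : j < 3 ^ k ∧ g < 9 ^ k then
    chi ψ (eF ⟨j, h.1⟩) (eF ⟨j, h.1⟩ ^ 2) (eG ⟨g, h.2⟩) else 0
  let τ : ℕ → ℕ → ℂ := fun j g => if h : j < 3 ^ (k + 1) ∧ g < 9 ^ k then
    chi ψ (eT ⟨j, h.1⟩).1 ((eT ⟨j, h.1⟩).1 ^ 2 + δ (eT ⟨j, h.1⟩).2) (eG ⟨g, h.2⟩) else 0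
  have hσ : ∀ j (hj : j < 3 ^ k) g (hg : g < 9 ^ k), σ j g =
      chi ψ (eF ⟨j, hj⟩) (eF ⟨j, hj⟩ ^ 2) (eG ⟨g, hg⟩) := fun j hj g hg => dif_pos ⟨hj, hg⟩
  have hτ : ∀ j (hj : j < 3 ^ (k + 1)) g (hg : g < 9 ^ k), τ j g =
      chi ψ (eT ⟨j, hj⟩).1 ((eT ⟨j, hj⟩).1 ^ 2 + δ (eT ⟨j, hj⟩).2) (eG ⟨g, hg⟩) :=
    fun j hj g hg => dif_pos ⟨hj, hg⟩
  have hc9 : ((Fintype.card F : ℕ) : ℂ) * (Fintype.card F : ℕ) = (9 : ℂ) ^ k := by
    rw [hcard]
    push_cast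
    rw [← mul_pow]
    norm_num
  refine ⟨σ, τ, ?_, ?_, ?_, ?_, ?_, ?_⟩
  · intro j hj g hg
    rw [hσ j hj g hg]
    exact chi_norm _ _ _ _
  · intro j hj g hg
    rw [hτ j hj g hg]
    exact chi_norm _ _ _ _
  · intro i hi j hj
    rw [sum_range_equiv eG _ (fun g => chi ψ (eF ⟨i, hi⟩) (eF ⟨i, hi⟩ ^ 2) g *
      (starRingEnd ℂ) (chi ψ (eF ⟨j, hj⟩) (eF ⟨j, hj⟩ ^ 2) g))
      (fun g hg => by rw [hσ i hi g hg, hσ j hj g hg]), chi_orth hψ, hc9]
    by_cases hij : i = j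
    · subst hij
      simp
    · rw [if_neg hij, if_neg]
      rintro ⟨h, -⟩
      exact hij (by simpa using eF.injective h)
  · intro i hi j hj
    rw [sum_range_equiv eG _ (fun g => chi ψ (eT ⟨i, hi⟩).1
        ((eT ⟨i, hi⟩).1 ^ 2 + δ (eT ⟨i, hi⟩).2) g *
      (starRingEnd ℂ) (chi ψ (eT ⟨j, hj⟩).1 ((eT ⟨j, hj⟩).1 ^ 2 + δ (eT ⟨j, hj⟩).2) g))
      (fun g hg => by rw [hτ i hi g hg, hτ j hj g hg]), chi_orth hψ, hc9]
    by_cases hij : i = j
    · subst hij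
      simp
    · rw [if_neg hij, if_neg]
      rintro ⟨h, h'⟩
      rw [h] at h'
      have h3 : eT ⟨i, hi⟩ = eT ⟨j, hj⟩ := Prod.ext h (hδ (add_left_cancel h'))
      exact hij (by simpa using eT.injective h3)
  · intro i hi j hj
    rw [sum_range_equiv eG _ (fun g => chi ψ (eF ⟨i, hi⟩) (eF ⟨i, hi⟩ ^ 2) g *
      (starRingEnd ℂ) (chi ψ (eT ⟨j, hj⟩).1 ((eT ⟨j, hj⟩).1 ^ 2 + δ (eT ⟨j, hj⟩).2) g))
      (fun g hg => by rw [hσ i hi g hg, hτ j hj g hg]), chi_orth hψ, if_neg]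
    rintro ⟨h, h'⟩
    rw [h] at h'
    exact hδ0 _ (by simpa using h')
  · intro g hg h hh
    have h1 := field_diff hψ h2 δ (eG ⟨g, hg⟩) (eG ⟨h, hh⟩)
    rw [sum_range_equiv eT _ (fun p => (starRingEnd ℂ) (chi ψ p.1 (p.1 ^ 2 + δ p.2) (eG ⟨g, hg⟩)) *
        chi ψ p.1 (p.1 ^ 2 + δ p.2) (eG ⟨h, hh⟩))
      (fun j hj => by rw [hτ j hj g hg, hτ j hj h hh]),
      sum_range_equiv eF _ (fun t => (starRingEnd ℂ) (chi ψ t (t ^ 2) (eG ⟨g, hg⟩)) *
        chi ψ t (t ^ 2) (eG ⟨h, hh⟩))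
      (fun j hj => by rw [hσ j hj g hg, hσ j hj h hh])]
    have h3 : (3 : ℂ) ^ (k + 1) = 3 * (Fintype.card F : ℕ) := by
      rw [hcard]
      push_cast
      ring
    have h4 : (3 : ℂ) ^ k = ((Fintype.card F : ℕ) : ℂ) := by
      rw [hcard]
      push_cast
      ring
    rw [h3, h4]
    have h5 : (qq ^ 4) ^ k = Real.sqrt (Fintype.card F : ℕ) := by
      have h6 : qq ^ 4 = Real.sqrt 3 := by
        unfold qq
        rw [show (4 : ℕ) = 2 * 2 from rfl, pow_mul, Real.sq_sqrt (Real.sqrt_nonneg _),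
          Real.sq_sqrt (Real.sqrt_nonneg _)]
      rw [h6, hcard]
      push_cast
      rw [Real.sqrt_eq_rpow, Real.sqrt_eq_rpow, ← Real.rpow_natCast, ← Real.rpow_natCast,
        ← Real.rpow_mul (by norm_num), ← Real.rpow_mul (by norm_num), mul_comm]
    rw [h5]
    exact h1

end Pool.Agent.FSG
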