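import Pool.Agent.FSG.ThmE

set_option autoImplicit false

open Finset Filter Topology

namespace Pool.Agent.FSG

theorem TP.comp {Y : Submodule ℂ D} {y : ℕ → Y} {z : ℕ → V} (h : TP Y y z) {φ : ℕ → ℕ}
    (hφ : StrictMono φ) : TP Y (fun s => y (φ s)) (fun s => z (φ s)) := by
  obtain ⟨M, hM⟩ := h.bd
  obtain ⟨C, hC⟩ := h.pre
  exact ⟨⟨M, fun s => hM (φ s)⟩, fun x => (h.null x).comp hφ.tendsto_atTop,
    ⟨C, hC.comp hφ⟩, fun s => h.one (φ s)⟩

private theorem Merge_inv : Tendsto (fun i : ℕ => 1 / ((i : ℝ) + 1)) atTop (𝓝 0) :=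
  tendsto_one_div_add_atTop_nhds_zero_nat

private theorem Merge_null {f : ℕ → ℂ} (h : ∀ i, ‖f i‖ ≤ 1 / ((i : ℝ) + 1)) :
    Tendsto f atTop (𝓝 0) :=
  squeeze_zero_norm h Merge_inv

/-- (4.2) -/
theorem merge (Y : Submodule ℂ D) (hY : IsClosed (Y : Set D)) (T : Y →L[ℂ] Y) {y y' : ℕ → Y}
    {z z' : ℕ → V} (h : TP Y y z) (h' : TP Y y' z') {α β : ℂ}
    (hα : Tendsto (fun s => (T (y s) : D) (z s)) atTop (𝓝 α))
    (hβ : Tendsto (fun s => (T (y' s) : D) (z' s)) atTop (𝓝 β)) : α = β := by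
  obtain ⟨M, hM⟩ := h.bd
  obtain ⟨M', hM'⟩ := h'.bd
  obtain ⟨C, hC⟩ := h.pre
  obtain ⟨C', hC'⟩ := h'.pre
  have hev : ∀ {f : ℕ → ℂ} (n : ℕ), Tendsto f atTop (𝓝 0) →
      ∀ᶠ t in atTop, ‖f t‖ ≤ 1 / ((n : ℝ) + 1) := by
    intro f n hf
    have h1 : Tendsto (fun t => ‖f t‖) atTop (𝓝 0) := by simpa using hf.norm
    have h2 : (0 : ℝ) < 1 / ((n : ℝ) + 1) := by positivity
    exact (h1.eventually (gt_mem_nhds h2)).mono fun _ h => h.le
  have h1 : ∀ n, ∀ᶠ t in atTop, ‖(y n : D) (z' t)‖ ≤ 1 / ((n : ℝ) + 1) ∧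
      ‖(T (y n) : D) (z' t)‖ ≤ 1 / ((n : ℝ) + 1) ∧ ‖(y' t : D) (z n)‖ ≤ 1 / ((n : ℝ) + 1) ∧
      ‖(T (y' t) : D) (z n)‖ ≤ 1 / ((n : ℝ) + 1) := by
    intro n
    filter_upwards [hev n (hC'.weak_null (y n : D)), hev n (hC'.weak_null (T (y n) : D)),
      hev n (h'.null (z n)), hev n (null_map Y T hM' h'.null (z n))] with t a b c d
    exact ⟨a, b, c, d⟩
  obtain ⟨φ, hφ, hP⟩ := extraction_forall_of_eventually h1
  have e1 := Merge_null fun i => (hP i).1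
  have e2 := Merge_null fun i => (hP i).2.1
  have e3 := Merge_null fun i => (hP i).2.2.1
  have e4 := Merge_null fun i => (hP i).2.2.2
  have hPR : PR (C + C') (fun s => z s + z' (φ s)) := hC.add (hC'.comp hφ)
  have hu : ∀ s, ‖y s - y' (φ s)‖ ≤ M + M' := fun s =>
    (norm_sub_le _ _).trans (add_le_add (hM s) (hM' _))
  have h2 : Tendsto (fun s => ((y s - y' (φ s) : Y) : D) (z s + z' (φ s))) atTop (𝓝 0) := by
    have h3 : ∀ s, ((y s - y' (φ s) : Y) : D) (z s + z' (φ s)) =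
        (y s : D) (z' (φ s)) - (y' (φ s) : D) (z s) := by
      intro s
      have a := h.one s
      have b := h'.one (φ s)
      have c : ((y s - y' (φ s) : Y) : D) (z s + z' (φ s)) =
          (y s : D) (z s) + (y s : D) (z' (φ s)) - ((y' (φ s) : D) (z s) +
            (y' (φ s) : D) (z' (φ s))) := by
        rw [← map_add, ← map_add]
        rfl
      rw [c, a, b]
      ring
    simp only [h3]
    simpa using e1.sub e3
  have h4 := thmE Y hY T hu hPR h2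
  have h5 : ∀ s, (T (y s - y' (φ s)) : D) (z s + z' (φ s)) =
      (T (y s) : D) (z s) + (T (y s) : D) (z' (φ s)) - ((T (y' (φ s)) : D) (z s) +
        (T (y' (φ s)) : D) (z' (φ s))) := by
    intro s
    rw [← map_add, ← map_add, map_sub]
    rfl
  simp only [h5] at h4
  have h6 := (hα.add e2).sub (e4.add (hβ.comp hφ.tendsto_atTop))
  have h7 := tendsto_nhds_unique h4 h6
  have h8 : α - β = 0 := by
    rw [h7]
    ring
  exact sub_eq_zero.1 h8

end Pool.Agent.FSG
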