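import Pool.Agent.FSG.DTP
import Pool.Agent.FSG.Merge

set_option autoImplicit false

open Finset Filter Topology

namespace Pool.Agent.FSG

theorem DLim_rr (j : ℕ) : j + 1 ≤ rr j := by
  induction j with
  | zero => exact le_refl 1
  | succ j ih =>
    have h1 : rr (j + 1) = 20 * (2 ^ j + 1) * rr j := rfl
    rw [h1]
    have h2 : 20 * 1 * (j + 1) ≤ 20 * (2 ^ j + 1) * rr j :=
      Nat.mul_le_mul (Nat.mul_le_mul_left _ (Nat.le_add_left _ _)) ih
    omega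

theorem DLim_rk : Tendsto rk atTop atTop := by
  refine tendsto_atTop_mono (fun i => ?_) tendsto_id
  have h := DLim_rr (2 * (i + 1))
  unfold rk
  simp only [id_eq]
  omega

/-- the pairing of the test pairs -/
theorem DLim_pair {σ τ : ℕ → ℕ → ℕ → ℂ} (T : YS σ τ →L[ℂ] YS σ τ) (d : ℕ → ℕ) (i : ℕ) :
    (T ((1 / (mm (2 * (i + 1)) : ℂ)) • yv σ τ (rk i) (d i)) : D)
      ((mm (2 * (i + 1)) : ℂ) • al σ (rk i) (d i)) =
      (T (yv σ τ (rk i) (d i)) : D) (al σ (rk i) (d i)) := by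
  have hm : (mm (2 * (i + 1)) : ℂ) ≠ 0 := by exact_mod_cast (mm_pos _).ne'
  have h1 : T ((1 / (mm (2 * (i + 1)) : ℂ)) • yv σ τ (rk i) (d i)) =
      (1 / (mm (2 * (i + 1)) : ℂ)) • T (yv σ τ (rk i) (d i)) := T.map_smul _ _
  have h2 : ((T (yv σ τ (rk i) (d i)) : D)) ((mm (2 * (i + 1)) : ℂ) • al σ (rk i) (d i)) =
      (mm (2 * (i + 1)) : ℂ) • (T (yv σ τ (rk i) (d i)) : D) (al σ (rk i) (d i)) :=
    (T (yv σ τ (rk i) (d i)) : D).map_smul _ _
  rw [h1, Submodule.coe_smul, ContinuousLinearMap.smul_apply, h2, smul_smul,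
    one_div, inv_mul_cancel₀ hm, one_smul]

theorem DLim_bounded {C₀ : ℝ} {σ τ : ℕ → ℕ → ℕ → ℂ} (h : Davie C₀ σ τ)
    (T : YS σ τ →L[ℂ] YS σ τ) {d : ℕ → ℕ} (hd : ∀ i, d i < 3 ^ (rk i + 1)) :
    ∃ B : ℝ, ∀ i, ‖(T (yv σ τ (rk i) (d i)) : D) (al σ (rk i) (d i))‖ ≤ B := by
  have htp := tp_davie h hd
  obtain ⟨M, hM⟩ := htp.bd
  obtain ⟨C, hC⟩ := htp.pre
  refine ⟨‖T‖ * M * C, fun i => ?_⟩
  rw [← DLim_pair]
  have h1 := hM i
  have h2 := hC.bd i
  have hM0 : 0 ≤ M := (norm_nonneg _).trans h1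
  refine (ContinuousLinearMap.le_opNorm _ _).trans ?_
  refine mul_le_mul ?_ h2 (norm_nonneg _) (mul_nonneg T.opNorm_nonneg hM0)
  refine (T.le_opNorm _).trans ?_
  exact mul_le_mul_of_nonneg_left h1 T.opNorm_nonneg

/-- some member of the average is at least as far away as the average -/
theorem DLim_choose (n : ℕ) (hn : 0 < n) (g : ℕ → ℂ) (b γ : ℂ)
    (hb : b = (1 / (n : ℂ)) * ∑ j ∈ range n, g j) :
    ∃ j < n, ‖b - γ‖ ≤ ‖g j - γ‖ := by
  by_contra hcon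
  push Not at hcon
  have hn0 : (n : ℂ) ≠ 0 := by exact_mod_cast hn.ne'
  have h1 : (n : ℂ) * (b - γ) = ∑ j ∈ range n, (g j - γ) := by
    rw [Finset.sum_sub_distrib, hb]
    simp only [sum_const, card_range, nsmul_eq_mul]
    field_simp
  have h2 : (n : ℝ) * ‖b - γ‖ = ‖∑ j ∈ range n, (g j - γ)‖ := by
    rw [← h1, norm_mul, Complex.norm_natCast]
  have h3 : ‖∑ j ∈ range n, (g j - γ)‖ < ∑ j ∈ range n, ‖b - γ‖ := by
    refine (norm_sum_le _ _).trans_lt ?_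
    refine Finset.sum_lt_sum_of_nonempty ⟨0, Finset.mem_range.2 hn⟩ fun j hj => ?_
    exact hcon j (Finset.mem_range.1 hj)
  rw [← h2] at h3
  simp only [sum_const, card_range, nsmul_eq_mul] at h3
  exact lt_irrefl _ h3

/-- (5.4) -/
theorem tendsto_pair {C₀ : ℝ} {σ τ : ℕ → ℕ → ℕ → ℂ} (h : Davie C₀ σ τ)
    {a : (YS σ τ →L[ℂ] YS σ τ) →ₗ[ℂ] ℂ}
    (ha : ∀ T, Tendsto (fun k => beta σ τ k T) atTop (𝓝 (a T))) (T : YS σ τ →L[ℂ] YS σ τ)
    {c : ℕ → ℕ} (hc : ∀ i, c i < 3 ^ (rk i + 1)) :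
    Tendsto (fun i => (T (yv σ τ (rk i) (c i)) : D) (al σ (rk i) (c i))) atTop (𝓝 (a T)) := by
  by_contra hcon
  set γ : (ℕ → ℕ) → ℕ → ℂ := fun d i => (T (yv σ τ (rk i) (d i)) : D) (al σ (rk i) (d i)) with hγ
  have hcon' : ¬ Tendsto (γ c) atTop (𝓝 (a T)) := hcon
  rw [not_tendsto_iff_exists_frequently_notMem] at hcon'
  obtain ⟨s, hs, hfr⟩ := hcon'
  obtain ⟨φ, hφ, hφs⟩ := extraction_of_frequently_atTop hfr
  obtain ⟨ε, hε, hball⟩ := Metric.mem_nhds_iff.1 hs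
  have hfar : ∀ i, ε ≤ ‖γ c (φ i) - a T‖ := by
    intro i
    by_contra hlt
    push Not at hlt
    apply hφs i
    apply hball
    rw [Metric.mem_ball, dist_eq_norm]
    exact hlt
  obtain ⟨B, hB⟩ := DLim_bounded h T hc
  obtain ⟨g, -, φ', hφ', hlim⟩ := tendsto_subseq_of_bounded
    (Metric.isBounded_closedBall (x := (0 : ℂ)) (r := B)) (x := fun i => γ c (φ i))
    (fun i => by rw [mem_closedBall_zero_iff]; exact hB _)
  have hg : ε ≤ ‖g - a T‖ := by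
    refine ge_of_tendsto ((hlim.sub_const (a T)).norm) (Eventually.of_forall fun i => ?_)
    exact hfar _
  -- the second choice
  have hch : ∀ i, ∃ j < 3 ^ (rk i + 1), ‖beta σ τ (rk i) T - g‖ ≤
      ‖(T (yv σ τ (rk i) j) : D) (al σ (rk i) j) - g‖ := by
    intro i
    refine DLim_choose (3 ^ (rk i + 1)) (by positivity) (fun j => (T (yv σ τ (rk i) j) : D)
      (al σ (rk i) j)) _ g ?_
    unfold beta
    push_cast
    rfl
  choose c' hc' hfar' using hch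
  obtain ⟨B', hB'⟩ := DLim_bounded h T hc'
  obtain ⟨g', -, χ, hχ, hlim'⟩ := tendsto_subseq_of_bounded
    (Metric.isBounded_closedBall (x := (0 : ℂ)) (r := B')) (x := fun i => γ c' (φ (φ' i)))
    (fun i => by rw [mem_closedBall_zero_iff]; exact hB' _)
  have hψ : StrictMono (fun i => φ (φ' (χ i))) := hφ.comp (hφ'.comp hχ)
  have hbeta : Tendsto (fun i => beta σ τ (rk (φ (φ' (χ i)))) T) atTop (𝓝 (a T)) :=
    (ha T).comp (DLim_rk.comp hψ.tendsto_atTop)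
  have hgg : ‖a T - g‖ ≤ ‖g' - g‖ := by
    refine le_of_tendsto_of_tendsto' ((hbeta.sub_const g).norm) ((hlim'.sub_const g).norm)
      fun i => ?_
    exact hfar' _
  have h1 := (tp_davie h hc).comp hψ
  have h2 := (tp_davie h hc').comp hψ
  have hm : g = g' := by
    refine merge (YS σ τ) (YS_closed σ τ) T h1 h2 ?_ ?_
    · have := hlim.comp hχ.tendsto_atTop
      refine this.congr fun i => ?_
      exact (DLim_pair T c _).symm
    · refine hlim'.congr fun i => ?_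
      exact (DLim_pair T c' _).symm
  rw [hm, sub_self, norm_zero] at hgg
  rw [hm, norm_sub_rev] at hg
  linarith

end Pool.Agent.FSG
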