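import Pool.Agent.FSG.Defs

set_option autoImplicit false

open Finset Filter Topology

namespace Pool.Agent.FSG

theorem DPair_off_succ (k : ℕ) : off (k + 1) = off k + 9 ^ k := by
  unfold off
  rw [Finset.sum_range_succ]

theorem DPair_off_mono : Monotone off :=
  monotone_nat_of_le_succ fun k => by rw [DPair_off_succ]; exact Nat.le_add_right _ _

/-- a vector supported in the block `G_k` -/
noncomputable def DPair_blk (k : ℕ) (c : ℕ → ℂ) : V :=
  ∑ g ∈ range (9 ^ k), c g • ee (off k + g)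

theorem DPair_blk_apply (k l : ℕ) (d : ℕ → ℂ) {g : ℕ} (hg : g < 9 ^ k) :
    (DPair_blk l d) (off k + g) = if k = l then d g else 0 := by
  unfold DPair_blk
  rw [Finsupp.finsetSum_apply]
  split_ifs with h
  · subst h
    rw [Finset.sum_eq_single g]
    · simp
    · intro b _ hb
      rw [Finsupp.smul_apply, Finsupp.single_apply, if_neg (by omega), smul_zero]
    · intro h
      exact absurd (Finset.mem_range.2 hg) h
  · apply Finset.sum_eq_zero
    intro b hb
    have hb' := Finset.mem_range.1 hb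
    rw [Finsupp.smul_apply, Finsupp.single_apply, if_neg, smul_zero]
    intro h2
    rcases Nat.lt_or_gt_of_ne h with h1 | h1
    · have := DPair_off_mono (show k + 1 ≤ l from h1)
      rw [DPair_off_succ] at this
      omega
    · have := DPair_off_mono (show l + 1 ≤ k from h1)
      rw [DPair_off_succ] at this
      omega

theorem DPair_pr_blk (k l : ℕ) (c d : ℕ → ℂ) :
    pr (DPair_blk k c) (DPair_blk l d) =
      if k = l then ∑ g ∈ range (9 ^ k), c g * d g else 0 := by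
  have h1 : pr (DPair_blk k c) (DPair_blk l d) =
      ∑ g ∈ range (9 ^ k), c g * (if k = l then d g else 0) := by
    unfold DPair_blk
    rw [sum_pr]
    apply Finset.sum_congr rfl
    intro g hg
    rw [smul_pr, ee_pr]
    congr 1
    exact DPair_blk_apply k l d (Finset.mem_range.1 hg)
  rw [h1]
  split_ifs with h
  · rfl
  · simp

theorem DPair_ev (σ τ : ℕ → ℕ → ℕ → ℂ) (k j : ℕ) :
    ev σ τ k j = DPair_blk k (τ k j) + DPair_blk (k + 1) (σ (k + 1) j) := rfl

theorem DPair_al (σ : ℕ → ℕ → ℕ → ℂ) (k j : ℕ) :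
    al σ k j = (1 / (9 : ℂ) ^ (k + 1)) •
      DPair_blk (k + 1) (fun g => (starRingEnd ℂ) (σ (k + 1) j g)) := rfl

theorem DPair_al' (τ : ℕ → ℕ → ℕ → ℂ) (k j : ℕ) :
    al' τ k j = (1 / (9 : ℂ) ^ k) •
      DPair_blk k (fun g => (starRingEnd ℂ) (τ k j g)) := rfl

theorem DPair_pow_ne (k : ℕ) : ((9 : ℂ) ^ k) ≠ 0 := pow_ne_zero _ (by norm_num)

/-- (5.2) -/
theorem yv_al {C₀ : ℝ} {σ τ : ℕ → ℕ → ℕ → ℂ} (h : Davie C₀ σ τ) {k i j : ℕ} (hk : 2 ≤ k)
    (hi : i < 3 ^ (k + 1)) (hj : j < 3 ^ (k + 1)) :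
    (yv σ τ k i : D) (al σ k j) = if i = j then 1 else 0 := by
  rw [yv_coe σ τ hk hi, toD_apply, DPair_ev, DPair_al, pr_smul, add_pr, DPair_pr_blk,
    DPair_pr_blk, if_neg (by omega), if_pos rfl, zero_add,
    (h.lev (k + 1) (by omega)).oσ i hi j hj]
  split_ifs
  · rw [one_div, inv_mul_cancel₀ (DPair_pow_ne _)]
  · rw [mul_zero]

theorem DPair_gen {C₀ : ℝ} {σ τ : ℕ → ℕ → ℕ → ℂ} (h : Davie C₀ σ τ) {k j : ℕ} (hk : 2 ≤ k)
    (hj : j < 3 ^ (k + 1)) {l i : ℕ} (hl : 2 ≤ l) (hi : i < 3 ^ (l + 1)) :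
    pr (ev σ τ l i) (al σ k j) = pr (ev σ τ l i) (al' τ k j) := by
  rw [DPair_ev, DPair_al, DPair_al', pr_smul, pr_smul, add_pr, add_pr, DPair_pr_blk,
    DPair_pr_blk, DPair_pr_blk, DPair_pr_blk]
  by_cases h1 : l = k
  · subst h1
    rw [if_neg (by omega), if_pos rfl, if_pos rfl, if_neg (by omega), zero_add, add_zero,
      (h.lev (l + 1) (by omega)).oσ i hi j hj, (h.lev l hl).oτ i hi j hj]
    split_ifs
    · rw [one_div, inv_mul_cancel₀ (DPair_pow_ne _), one_div,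
        inv_mul_cancel₀ (DPair_pow_ne _)]
    · rw [mul_zero, mul_zero]
  · by_cases h2 : l = k + 1
    · subst h2
      rw [if_pos rfl, if_neg (by omega), if_neg (by omega), if_neg (by omega)]
      have h3 := (h.lev (k + 1) (by omega)).oστ j hj i hi
      have h4 : ∑ g ∈ range (9 ^ (k + 1)),
          τ (k + 1) i g * (starRingEnd ℂ) (σ (k + 1) j g) = 0 := by
        have h5 := congrArg (starRingEnd ℂ) h3
        rw [map_sum, map_zero] at h5
        rw [← h5]
        apply Finset.sum_congr rfl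
        intro g _
        rw [map_mul, Complex.conj_conj, mul_comm]
      rw [h4]
      simp
    · by_cases h3 : l + 1 = k
      · subst h3
        rw [if_neg (by omega), if_neg (by omega), if_neg (by omega), if_pos rfl,
          (h.lev (l + 1) (by omega)).oστ i hi j hj]
        simp
      · rw [if_neg h2, if_neg (by omega), if_neg h1, if_neg h3]
        simp

theorem al_eq {C₀ : ℝ} {σ τ : ℕ → ℕ → ℕ → ℂ} (h : Davie C₀ σ τ) {k j : ℕ} (hk : 2 ≤ k)
    (hj : j < 3 ^ (k + 1)) (y : YS σ τ) : (y : D) (al σ k j) = (y : D) (al' τ k j) := by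
  let L : D →L[ℂ] ℂ := ContinuousLinearMap.apply ℂ ℂ (al σ k j - al' τ k j)
  have hL : ∀ ζ : D, L ζ = ζ (al σ k j) - ζ (al' τ k j) := by
    intro ζ
    change ζ (al σ k j - al' τ k j) = _
    rw [map_sub]
  have hcl : IsClosed {ζ : D | L ζ = 0} := isClosed_eq L.continuous continuous_const
  have hsub : (YS σ τ : Set D) ⊆ {ζ : D | L ζ = 0} := by
    unfold YS
    rw [Submodule.topologicalClosure_coe]
    apply closure_minimal _ hcl
    intro ζ hζ
    refine Submodule.span_induction (p := fun ζ _ => L ζ = 0) ?_ ?_ ?_ ?_ hζ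
    · rintro ζ ⟨l, i, hl, hi, rfl⟩
      rw [hL, toD_apply, toD_apply, DPair_gen h hk hj hl hi, sub_self]
    · exact map_zero L
    · intro x y _ _ hx hy
      rw [map_add, hx, hy, add_zero]
    · intro c x _ hx
      rw [map_smul, hx, smul_zero]
  have := hsub y.2
  rw [Set.mem_ofPred_eq, hL] at this
  exact sub_eq_zero.1 this

theorem DPair_apply_al (σ : ℕ → ℕ → ℕ → ℂ) (k j : ℕ) (ζ : D) :
    ζ (al σ k j) = (1 / (9 : ℂ) ^ (k + 1)) *
      ∑ g ∈ range (9 ^ (k + 1)),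
        (starRingEnd ℂ) (σ (k + 1) j g) * ζ (ee (off (k + 1) + g)) := by
  unfold al
  rw [map_smul, map_sum, smul_eq_mul]
  congr 1
  apply Finset.sum_congr rfl
  intro g _
  rw [map_smul, smul_eq_mul]

theorem DPair_apply_al' (τ : ℕ → ℕ → ℕ → ℂ) (k j : ℕ) (ζ : D) :
    ζ (al' τ k j) = (1 / (9 : ℂ) ^ k) *
      ∑ g ∈ range (9 ^ k), (starRingEnd ℂ) (τ k j g) * ζ (ee (off k + g)) := by
  unfold al'
  rw [map_smul, map_sum, smul_eq_mul]
  congr 1
  apply Finset.sum_congr rfl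
  intro g _
  rw [map_smul, smul_eq_mul]

theorem DPair_T_phi (σ τ : ℕ → ℕ → ℕ → ℂ) (k g : ℕ) (T : YS σ τ →L[ℂ] YS σ τ) (x : V) :
    (T (phi σ τ k g) : D) x =
      (1 / (3 : ℂ) ^ (k + 2)) * ∑ j ∈ range (3 ^ (k + 2)),
        (starRingEnd ℂ) (τ (k + 1) j g) * (T (yv σ τ (k + 1) j) : D) x -
      (1 / (3 : ℂ) ^ (k + 1)) * ∑ j ∈ range (3 ^ (k + 1)),
        (starRingEnd ℂ) (σ (k + 1) j g) * (T (yv σ τ k j) : D) x := by
  let E : YS σ τ →ₗ[ℂ] ℂ :=
    { toFun := fun y => (T y : D) x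
      map_add' := fun a b => by rw [map_add]; rfl
      map_smul' := fun c a => by rw [map_smul]; rfl }
  change E (phi σ τ k g) = _
  unfold phi
  rw [map_sub, map_smul, map_smul, map_sum, map_sum, smul_eq_mul, smul_eq_mul]
  simp only [map_smul, smul_eq_mul]
  rfl

/-- (5.3) -/
theorem beta_diff {C₀ : ℝ} {σ τ : ℕ → ℕ → ℕ → ℂ} (h : Davie C₀ σ τ) {k : ℕ} (hk : 2 ≤ k)
    (T : YS σ τ →L[ℂ] YS σ τ) :
    beta σ τ (k + 1) T - beta σ τ k T = (1 / (9 : ℂ) ^ (k + 1)) *
      ∑ g ∈ range (9 ^ (k + 1)), (T (phi σ τ k g) : D) (ee (off (k + 1) + g)) := by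
  have h1 : beta σ τ (k + 1) T = (1 / (9 : ℂ) ^ (k + 1)) * ∑ g ∈ range (9 ^ (k + 1)),
      (1 / (3 : ℂ) ^ (k + 2)) * ∑ j ∈ range (3 ^ (k + 2)),
        (starRingEnd ℂ) (τ (k + 1) j g) *
          (T (yv σ τ (k + 1) j) : D) (ee (off (k + 1) + g)) := by
    unfold beta
    rw [Finset.sum_congr rfl (g := fun j => (1 / (9 : ℂ) ^ (k + 1)) *
      ∑ g ∈ range (9 ^ (k + 1)), (starRingEnd ℂ) (τ (k + 1) j g) *
        (T (yv σ τ (k + 1) j) : D) (ee (off (k + 1) + g)))]
    · simp only [Finset.mul_sum]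
      rw [Finset.sum_comm]
      apply Finset.sum_congr rfl
      intro g _
      apply Finset.sum_congr rfl
      intro j _
      ring
    · intro j hj
      rw [al_eq h (show 2 ≤ k + 1 by omega) (Finset.mem_range.1 hj), DPair_apply_al']
  have h2 : beta σ τ k T = (1 / (9 : ℂ) ^ (k + 1)) * ∑ g ∈ range (9 ^ (k + 1)),
      (1 / (3 : ℂ) ^ (k + 1)) * ∑ j ∈ range (3 ^ (k + 1)),
        (starRingEnd ℂ) (σ (k + 1) j g) *
          (T (yv σ τ k j) : D) (ee (off (k + 1) + g)) := by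
    unfold beta
    simp only [DPair_apply_al, Finset.mul_sum]
    rw [Finset.sum_comm]
    apply Finset.sum_congr rfl
    intro g _
    apply Finset.sum_congr rfl
    intro j _
    ring
  rw [h1, h2, ← mul_sub, ← Finset.sum_sub_distrib]
  congr 1
  apply Finset.sum_congr rfl
  intro g _
  rw [DPair_T_phi]

end Pool.Agent.FSG
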