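import Pool.Agent.FSG.Upper
import Pool.Agent.FSG.Params
import Pool.Agent.FSG.DAsm

set_option autoImplicit false

open Finset Filter Topology

namespace Pool.Agent.FSG

theorem norm_block (k : ℕ) {f : V} (hf : rs (off k) (off k + 9 ^ k) f = f) {θ : ℝ}
    (hθ : ∀ i, ‖f i‖ ≤ θ) : ‖toD f‖ ≤ 16 * θ * qq ^ k := by
  have h0 : 0 ≤ θ := (norm_nonneg _).trans (hθ 0)
  have hq1 : (1 : ℝ) ≤ qq ^ k := one_le_pow₀ one_lt_qq.le
  by_cases hk : k ≤ rr 2
  · have h1 : 9 ^ k ≤ nn 2 := Nat.pow_le_pow_right (by norm_num) hk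
    have h2 := upper_coord (j := 2) even_two h1 hf hθ
    have h3 : (mm 2 : ℝ) = 16 := by
      have : mm 2 = 16 := rfl
      rw [this]; norm_num
    rw [h3] at h2
    refine h2.trans ?_
    exact le_mul_of_one_le_right (by positivity) hq1
  · push Not at hk
    have hex : ∃ i, k ≤ rr (2 * i) := by
      refine ⟨k, ?_⟩
      have h1 : 2 * k ≤ rr (2 * k) := rr_strictMono.le_apply
      omega
    classical
    obtain ⟨i, hi, hmin⟩ : ∃ i, k ≤ rr (2 * i) ∧ ∀ i' < i, rr (2 * i') < k :=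
      ⟨Nat.find hex, Nat.find_spec hex, fun i' hi' => not_le.mp (Nat.find_min hex hi')⟩
    have hi2 : 2 ≤ i := by
      by_contra hc
      have h1 : 2 * i ≤ 2 := by omega
      have h2 := rr_strictMono.monotone h1
      omega
    have h1 := hmin (i - 1) (by omega)
    have h2 : 2 * (i - 1) = 2 * i - 2 := by omega
    rw [h2] at h1
    have h3 : mm (2 * i) ^ 8 ≤ 3 ^ k :=
      (P3 hi2).trans (Nat.pow_le_pow_right (by norm_num) h1.le)
    have h4 : (mm (2 * i) : ℝ) ^ 8 ≤ (qq ^ k) ^ 8 := by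
      have h5 : (qq ^ k) ^ 8 = (3 : ℝ) ^ k := by
        rw [← pow_mul, mul_comm, pow_mul, qq_pow8]
      rw [h5]
      exact_mod_cast h3
    have h5 : (mm (2 * i) : ℝ) ≤ qq ^ k :=
      le_of_pow_le_pow_left₀ (by norm_num) (by positivity) h4
    have h6 : 9 ^ k ≤ nn (2 * i) := Nat.pow_le_pow_right (by norm_num) hi
    have h7 := upper_coord (even_two_mul i) h6 hf hθ
    calc ‖toD f‖ ≤ mm (2 * i) * θ := h7
      _ ≤ qq ^ k * θ := mul_le_mul_of_nonneg_right h5 h0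
      _ ≤ 16 * θ * qq ^ k := by nlinarith [mul_nonneg h0 (zero_le_one.trans hq1)]

/-- a block of coordinates -/
noncomputable def dphiBlk (a m : ℕ) (c : ℕ → ℂ) : V := ∑ h ∈ range m, c h • ee (a + h)

theorem dphiBlk_apply (a m : ℕ) (c : ℕ → ℂ) (n : ℕ) :
    dphiBlk a m c n = if a ≤ n ∧ n < a + m then c (n - a) else 0 := by
  unfold dphiBlk
  rw [Finsupp.finsetSum_apply]
  simp only [Finsupp.smul_apply, Finsupp.single_apply, smul_eq_mul, mul_ite, mul_one, mul_zero]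
  split_ifs with h
  · rw [Finset.sum_eq_single (n - a)]
    · rw [if_pos (by omega)]
    · intro b _ hb
      rw [if_neg (by omega)]
    · intro hb
      exact absurd (Finset.mem_range.mpr (by omega)) hb
  · refine Finset.sum_eq_zero fun b hb => ?_
    have := Finset.mem_range.mp hb
    rw [if_neg (by omega)]

theorem rs_dphiBlk (a m : ℕ) (c : ℕ → ℂ) : rs a (a + m) (dphiBlk a m c) = dphiBlk a m c := by
  ext n
  rw [rs_apply, dphiBlk_apply]
  split_ifs <;> rfl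

theorem norm_dphiBlk_le (k : ℕ) (c : ℕ → ℂ) {θ : ℝ} (h0 : 0 ≤ θ) (hc : ∀ h < 9 ^ k, ‖c h‖ ≤ θ) :
    ‖toD (dphiBlk (off k) (9 ^ k) c)‖ ≤ 16 * θ * qq ^ k := by
  refine norm_block k (rs_dphiBlk _ _ _) fun i => ?_
  rw [dphiBlk_apply]
  split_ifs with h
  · exact hc _ (by omega)
  · simpa using h0

theorem dphi_sum {ι : Type*} (S : Finset ι) (a m : ℕ) (b : ι → ℂ) (c : ι → ℕ → ℂ) :
    ∑ j ∈ S, b j • dphiBlk a m (c j) = dphiBlk a m (fun h => ∑ j ∈ S, b j * c j h) := by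
  ext n
  rw [Finsupp.finsetSum_apply]
  simp only [Finsupp.smul_apply, dphiBlk_apply, smul_eq_mul]
  split_ifs
  · rfl
  · simp

theorem dphi_smul (a m : ℕ) (b : ℂ) (c : ℕ → ℂ) :
    b • dphiBlk a m c = dphiBlk a m (fun h => b * c h) := by
  ext n
  simp only [Finsupp.smul_apply, dphiBlk_apply, smul_eq_mul]
  split_ifs
  · rfl
  · simp

theorem dphi_sub (a m : ℕ) (b c : ℕ → ℂ) :
    dphiBlk a m b - dphiBlk a m c = dphiBlk a m (fun h => b h - c h) := by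
  ext n
  simp only [Finsupp.sub_apply, dphiBlk_apply]
  split_ifs
  · rfl
  · simp

theorem dphi_ev (σ τ : ℕ → ℕ → ℕ → ℂ) (k j : ℕ) :
    ev σ τ k j = dphiBlk (off k) (9 ^ k) (τ k j) +
      dphiBlk (off (k + 1)) (9 ^ (k + 1)) (σ (k + 1) j) := rfl

/-- (5.3), the bound of `φ_g` -/
theorem norm_phi_le {C₀ : ℝ} {σ τ : ℕ → ℕ → ℕ → ℂ} (h : Davie C₀ σ τ) :
    ∃ C₁ : ℝ, ∀ k, 2 ≤ k → ∀ g < 9 ^ (k + 1), ‖phi σ τ k g‖ ≤ C₁ / (qq ^ 2) ^ k := by
  have hq0 : 0 < qq := zero_lt_one.trans one_lt_qq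
  have hC : 0 ≤ C₀ := by
    have h1 := (norm_nonneg _).trans (h.cross 2 le_rfl 0 (by norm_num) 0 (by norm_num))
    by_contra hc
    push Not at hc
    exact absurd h1 (not_le.mpr (div_neg_of_neg_of_pos hc (by positivity)))
  refine ⟨32 + 32 * C₀, fun k hk g hg => ?_⟩
  set f0 := dphiBlk (off k) (9 ^ k) (fun h => (1 / (3 : ℂ) ^ (k + 1)) *
    ∑ j ∈ range (3 ^ (k + 1)), (starRingEnd ℂ) (σ (k + 1) j g) * τ k j h) with hf0
  set f1 := dphiBlk (off (k + 1)) (9 ^ (k + 1)) (fun h => (1 / (3 : ℂ) ^ (k + 2)) *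
    ∑ j ∈ range (3 ^ (k + 2)), (starRingEnd ℂ) (τ (k + 1) j g) * τ (k + 1) j h -
    (1 / (3 : ℂ) ^ (k + 1)) *
      ∑ j ∈ range (3 ^ (k + 1)), (starRingEnd ℂ) (σ (k + 1) j g) * σ (k + 1) j h) with hf1
  set f2 := dphiBlk (off (k + 2)) (9 ^ (k + 2)) (fun h => (1 / (3 : ℂ) ^ (k + 2)) *
    ∑ j ∈ range (3 ^ (k + 2)), (starRingEnd ℂ) (τ (k + 1) j g) * σ (k + 2) j h) with hf2
  have hphi : (phi σ τ k g : D) = toD f1 + toD f2 - toD f0 := by
    have h1 : (phi σ τ k g : D) = toD ((1 / (3 : ℂ) ^ (k + 2)) • ∑ j ∈ range (3 ^ (k + 2)),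
        (starRingEnd ℂ) (τ (k + 1) j g) • ev σ τ (k + 1) j -
        (1 / (3 : ℂ) ^ (k + 1)) • ∑ j ∈ range (3 ^ (k + 1)),
          (starRingEnd ℂ) (σ (k + 1) j g) • ev σ τ k j) := by
      unfold phi
      rw [toD_sub, toD_smul, toD_smul, toD_sum, toD_sum]
      push_cast
      congr 1
      · congr 1
        refine Finset.sum_congr rfl fun j hj => ?_
        rw [toD_smul, yv_coe σ τ (by omega) (by simpa using hj)]
      · congr 1
        refine Finset.sum_congr rfl fun j hj => ?_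
        rw [toD_smul, yv_coe σ τ hk (by simpa using hj)]
    rw [h1, ← toD_add, ← toD_sub]
    congr 1
    simp only [dphi_ev, smul_add, Finset.sum_add_distrib]
    rw [dphi_sum, dphi_sum, dphi_sum, dphi_sum, dphi_smul, dphi_smul, dphi_smul, dphi_smul,
      hf1, ← dphi_sub]
    abel
  have hn0 : ‖toD f0‖ ≤ 16 * C₀ / (qq ^ 2) ^ k := by
    refine (norm_dphiBlk_le k _ (θ := C₀ / (qq ^ 3) ^ k) (by positivity) fun x hx => ?_).trans ?_
    · refine le_trans (le_of_eq ?_) (h.cross k hk x hx g hg)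
      rw [← Complex.norm_conj]
      congr 1
      simp only [map_mul, map_div₀, map_one, map_pow, map_sum, map_ofNat, Complex.conj_conj]
      congr 1
      exact Finset.sum_congr rfl fun j _ => mul_comm _ _
    · have h2 : 16 * (C₀ / (qq ^ 3) ^ k) * qq ^ k = 16 * C₀ / (qq ^ 2) ^ k := by
        have h3 : (qq ^ 3) ^ k = (qq ^ 2) ^ k * qq ^ k := by
          rw [← mul_pow]; congr 1
        rw [h3]
        field_simp
      rw [h2]
  have hn1 : ‖toD f1‖ ≤ 32 / (qq ^ 2) ^ k := by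
    refine (norm_dphiBlk_le (k + 1) _ (θ := 2 / (qq ^ 4) ^ (k + 1)) (by positivity)
      fun x hx => (h.lev (k + 1) (by omega)).diff g hg x hx).trans ?_
    have h3 : (qq ^ 4) ^ (k + 1) = (qq ^ 2) ^ k * qq ^ (k + 1) * (qq ^ (k + 3)) := by ring
    have h2 : 16 * (2 / (qq ^ 4) ^ (k + 1)) * qq ^ (k + 1) =
        32 / (qq ^ 2) ^ k * (1 / qq ^ (k + 3)) := by
      rw [h3]
      field_simp
      norm_num
    rw [h2]
    refine mul_le_of_le_one_right (by positivity) ?_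
    rw [div_le_one (by positivity)]
    exact one_le_pow₀ one_lt_qq.le
  have hn2 : ‖toD f2‖ ≤ 16 * C₀ / (qq ^ 2) ^ k := by
    refine (norm_dphiBlk_le (k + 2) _ (θ := C₀ / (qq ^ 3) ^ (k + 1)) (by positivity)
      fun x hx => h.cross (k + 1) (by omega) g hg x hx).trans ?_
    have h3 : (qq ^ 3) ^ (k + 1) = (qq ^ 2) ^ k * qq ^ (k + 2) * qq := by ring
    have h2 : 16 * (C₀ / (qq ^ 3) ^ (k + 1)) * qq ^ (k + 2) =
        16 * C₀ / (qq ^ 2) ^ k * (1 / qq) := by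
      rw [h3]
      field_simp
    rw [h2]
    refine mul_le_of_le_one_right (by positivity) ?_
    rw [div_le_one hq0]
    exact one_lt_qq.le
  have h9 : ‖phi σ τ k g‖ = ‖(phi σ τ k g : D)‖ := rfl
  rw [h9, hphi]
  calc ‖toD f1 + toD f2 - toD f0‖ ≤ ‖toD f1‖ + ‖toD f2‖ + ‖toD f0‖ :=
        (norm_sub_le _ _).trans (by gcongr; exact norm_add_le _ _)
    _ ≤ 32 / (qq ^ 2) ^ k + 16 * C₀ / (qq ^ 2) ^ k + 16 * C₀ / (qq ^ 2) ^ k := by gcongr
    _ = (32 + 32 * C₀) / (qq ^ 2) ^ k := by ring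

end Pool.Agent.FSG
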