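import Pool.Agent.FSG.DPair
import Pool.Agent.FSG.DPhi

set_option autoImplicit false

open Finset Filter Topology

namespace Pool.Agent.FSG

theorem DScal_norm_ee (i : ℕ) : ‖(ee i : V)‖ ≤ 1 := by
  refine (norm_le_l1 _).trans ?_
  unfold l1
  refine (Finset.sum_le_sum_of_subset_of_nonneg Finsupp.support_single_subset
    (fun _ _ _ => norm_nonneg _)).trans ?_
  simp

theorem DScal_beta_add (σ τ : ℕ → ℕ → ℕ → ℂ) (k : ℕ) (S T : YS σ τ →L[ℂ] YS σ τ) :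
    beta σ τ k (S + T) = beta σ τ k S + beta σ τ k T := by
  unfold beta
  rw [← mul_add, ← Finset.sum_add_distrib]
  rfl

theorem DScal_beta_smul (σ τ : ℕ → ℕ → ℕ → ℂ) (k : ℕ) (c : ℂ) (T : YS σ τ →L[ℂ] YS σ τ) :
    beta σ τ k (c • T) = c * beta σ τ k T := by
  unfold beta
  have h1 : ∀ j ∈ Finset.range (3 ^ (k + 1)), ((c • T) (yv σ τ k j) : D) (al σ k j) =
      c * (T (yv σ τ k j) : D) (al σ k j) := fun _ _ => rfl
  rw [Finset.sum_congr rfl h1, ← Finset.mul_sum]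
  ring

theorem DScal_beta_one {C₀ : ℝ} {σ τ : ℕ → ℕ → ℕ → ℂ} (h : Davie C₀ σ τ) {k : ℕ} (hk : 2 ≤ k) :
    beta σ τ k (1 : YS σ τ →L[ℂ] YS σ τ) = 1 := by
  unfold beta
  have h1 : ∀ j ∈ Finset.range (3 ^ (k + 1)),
      (((1 : YS σ τ →L[ℂ] YS σ τ) (yv σ τ k j) : YS σ τ) : D) (al σ k j) = 1 := by
    intro j hj
    have hj' := Finset.mem_range.mp hj
    have := yv_al h hk hj' hj'
    rw [if_pos rfl] at this
    exact this
  rw [Finset.sum_congr rfl h1, Finset.sum_const, Finset.card_range, nsmul_eq_mul, mul_one]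
  push_cast
  have h3 : (3 : ℂ) ^ (k + 1) ≠ 0 := pow_ne_zero _ (by norm_num)
  field_simp

theorem DScal_beta_diff {C₀ : ℝ} {σ τ : ℕ → ℕ → ℕ → ℂ} (h : Davie C₀ σ τ) {C₁ : ℝ}
    (h1 : ∀ k, 2 ≤ k → ∀ g < 9 ^ (k + 1), ‖phi σ τ k g‖ ≤ C₁ / (qq ^ 2) ^ k) {k : ℕ} (hk : 2 ≤ k)
    (T : YS σ τ →L[ℂ] YS σ τ) :
    ‖beta σ τ (k + 1) T - beta σ τ k T‖ ≤ ‖T‖ * (C₁ / (qq ^ 2) ^ k) := by
  rw [beta_diff h hk T, norm_mul]
  have h9 : (0 : ℝ) < 9 ^ (k + 1) := by positivity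
  have h2 : ‖(1 / (9 : ℂ) ^ (k + 1))‖ = 1 / 9 ^ (k + 1) := by
    rw [norm_div, norm_one, norm_pow]
    norm_num
  rw [h2]
  have h3 : ‖∑ g ∈ Finset.range (9 ^ (k + 1)), (T (phi σ τ k g) : D) (ee (off (k + 1) + g))‖
      ≤ 9 ^ (k + 1) * (‖T‖ * (C₁ / (qq ^ 2) ^ k)) := by
    refine (norm_sum_le _ _).trans ?_
    have : ∀ g ∈ Finset.range (9 ^ (k + 1)),
        ‖(T (phi σ τ k g) : D) (ee (off (k + 1) + g))‖ ≤ ‖T‖ * (C₁ / (qq ^ 2) ^ k) := by
      intro g hg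
      have hg' := Finset.mem_range.mp hg
      calc ‖(T (phi σ τ k g) : D) (ee (off (k + 1) + g))‖
          ≤ ‖(T (phi σ τ k g) : D)‖ * ‖(ee (off (k + 1) + g) : V)‖ :=
            ContinuousLinearMap.le_opNorm _ _
        _ ≤ ‖(T (phi σ τ k g) : D)‖ * 1 :=
            mul_le_mul_of_nonneg_left (DScal_norm_ee _) (norm_nonneg _)
        _ = ‖T (phi σ τ k g)‖ := by rw [mul_one]; rfl
        _ ≤ ‖T‖ * ‖phi σ τ k g‖ := T.le_opNorm _
        _ ≤ ‖T‖ * (C₁ / (qq ^ 2) ^ k) :=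
            mul_le_mul_of_nonneg_left (h1 k hk g hg') T.opNorm_nonneg
    refine (Finset.sum_le_sum this).trans ?_
    rw [Finset.sum_const, Finset.card_range, nsmul_eq_mul]
    push_cast
    exact le_refl _
  calc 1 / 9 ^ (k + 1) * ‖∑ g ∈ Finset.range (9 ^ (k + 1)),
        (T (phi σ τ k g) : D) (ee (off (k + 1) + g))‖
      ≤ 1 / 9 ^ (k + 1) * (9 ^ (k + 1) * (‖T‖ * (C₁ / (qq ^ 2) ^ k))) :=
        mul_le_mul_of_nonneg_left h3 (by positivity)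
    _ = ‖T‖ * (C₁ / (qq ^ 2) ^ k) := by field_simp

theorem DScal_beta_sot {σ τ : ℕ → ℕ → ℕ → ℂ} (k : ℕ) (T : ℕ → (YS σ τ →L[ℂ] YS σ τ))
    (S : YS σ τ →L[ℂ] YS σ τ) (hT : ∀ x, Tendsto (fun n => T n x) atTop (𝓝 (S x))) :
    Tendsto (fun n => beta σ τ k (T n)) atTop (𝓝 (beta σ τ k S)) := by
  unfold beta
  refine Tendsto.const_mul _ (tendsto_finsetSum _ fun j _ => ?_)
  have h1 : Tendsto (fun n => ((T n (yv σ τ k j) : YS σ τ) : D)) atTop
      (𝓝 ((S (yv σ τ k j) : YS σ τ) : D)) :=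
    (continuous_subtype_val.tendsto _).comp (hT _)
  have h2 : Continuous fun ζ : D => ζ (al σ k j) :=
    (ContinuousLinearMap.apply ℂ ℂ (al σ k j)).continuous
  exact (h2.tendsto _).comp h1

/-- (5.3): the scalar part -/
theorem exists_scal {C₀ : ℝ} {σ τ : ℕ → ℕ → ℕ → ℂ} (h : Davie C₀ σ τ) :
    ∃ a : (YS σ τ →L[ℂ] YS σ τ) →ₗ[ℂ] ℂ, a 1 = 1 ∧
      (∀ T, Tendsto (fun k => beta σ τ k T) atTop (𝓝 (a T))) ∧
      ∀ (T : ℕ → (YS σ τ →L[ℂ] YS σ τ)) (S : YS σ τ →L[ℂ] YS σ τ) (M : ℝ),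
        (∀ n, ‖T n‖ ≤ M) → (∀ x, Tendsto (fun n => T n x) atTop (𝓝 (S x))) →
        Tendsto (fun n => a (T n)) atTop (𝓝 (a S)) := by
  obtain ⟨C₁, hC₁⟩ := norm_phi_le h
  have hq1 : (1 : ℝ) < qq ^ 2 := one_lt_pow₀ one_lt_qq two_ne_zero
  set q : ℝ := (qq ^ 2)⁻¹ with hq
  have hq0 : 0 < q := by positivity
  have hqlt : q < 1 := inv_lt_one_of_one_lt₀ hq1
  have hC0 : 0 ≤ C₁ := by
    have h1 := (norm_nonneg _).trans (hC₁ 2 le_rfl 0 (by positivity))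
    by_contra hneg
    push Not at hneg
    have : C₁ / (qq ^ 2) ^ 2 < 0 := div_neg_of_neg_of_pos hneg (by positivity)
    linarith
  -- the shifted sequence
  have hdist : ∀ (T : YS σ τ →L[ℂ] YS σ τ) (n : ℕ),
      dist (beta σ τ (n + 2) T) (beta σ τ (n + 1 + 2) T) ≤ ‖T‖ * (C₁ * q ^ 2) * q ^ n := by
    intro T n
    rw [dist_comm, dist_eq_norm]
    have := DScal_beta_diff h hC₁ (k := n + 2) (by omega) T
    rw [show n + 1 + 2 = n + 2 + 1 by ring]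
    refine this.trans (le_of_eq ?_)
    rw [div_eq_mul_inv, ← inv_pow, ← hq, pow_add]
    ring
  have hlim : ∀ T : YS σ τ →L[ℂ] YS σ τ, ∃ l : ℂ,
      Tendsto (fun n => beta σ τ (n + 2) T) atTop (𝓝 l) := fun T =>
    cauchySeq_tendsto_of_complete (cauchySeq_of_le_geometric q (‖T‖ * (C₁ * q ^ 2)) hqlt (hdist T))
  choose a ha using hlim
  have hrate : ∀ (T : YS σ τ →L[ℂ] YS σ τ) (n : ℕ),
      dist (beta σ τ (n + 2) T) (a T) ≤ ‖T‖ * (C₁ * q ^ 2) * q ^ n / (1 - q) := fun T n =>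
    dist_le_of_le_geometric_of_tendsto q (‖T‖ * (C₁ * q ^ 2)) hqlt (hdist T) (ha T) n
  have hadd : ∀ S T, a (S + T) = a S + a T := by
    intro S T
    refine tendsto_nhds_unique (ha (S + T)) ?_
    simp only [DScal_beta_add]
    exact (ha S).add (ha T)
  have hsmul : ∀ (c : ℂ) T, a (c • T) = c * a T := by
    intro c T
    refine tendsto_nhds_unique (ha (c • T)) ?_
    simp only [DScal_beta_smul]
    exact (ha T).const_mul c
  refine ⟨{ toFun := a, map_add' := hadd, map_smul' := hsmul }, ?_, ?_, ?_⟩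
  · change a 1 = 1
    refine tendsto_nhds_unique (ha 1) ?_
    have : ∀ n, beta σ τ (n + 2) (1 : YS σ τ →L[ℂ] YS σ τ) = 1 := fun n =>
      DScal_beta_one h (by omega)
    simp only [this]
    exact tendsto_const_nhds
  · intro T
    change Tendsto (fun k => beta σ τ k T) atTop (𝓝 (a T))
    exact (tendsto_add_atTop_iff_nat 2).1 (ha T)
  · intro T S M hM hT
    change Tendsto (fun n => a (T n)) atTop (𝓝 (a S))
    have hM0 : 0 ≤ M := (T 0).opNorm_nonneg.trans (hM 0)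
    rw [Metric.tendsto_atTop]
    intro ε hε
    -- choose the level
    have hc : Tendsto (fun n : ℕ => (M + ‖S‖) * (C₁ * q ^ 2) / (1 - q) * q ^ n) atTop (𝓝 0) := by
      have := (tendsto_pow_atTop_nhds_zero_of_lt_one hq0.le hqlt).const_mul
        ((M + ‖S‖) * (C₁ * q ^ 2) / (1 - q))
      rwa [mul_zero] at this
    obtain ⟨k, hk⟩ := (hc.eventually (gt_mem_nhds (half_pos hε))).exists
    have h1 := DScal_beta_sot (k + 2) T S hT
    rw [Metric.tendsto_atTop] at h1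
    obtain ⟨N, hN⟩ := h1 (ε / 2) (half_pos hε)
    refine ⟨N, fun n hn => ?_⟩
    have e1 := hrate (T n) k
    have e2 := hrate S k
    have e3 := hN n hn
    have hq' : 0 < 1 - q := by linarith
    have e4 : ‖T n‖ * (C₁ * q ^ 2) * q ^ k / (1 - q) ≤ M * (C₁ * q ^ 2) * q ^ k / (1 - q) := by
      gcongr
      exact hM n
    have e5 : (M + ‖S‖) * (C₁ * q ^ 2) / (1 - q) * q ^ k
        = M * (C₁ * q ^ 2) * q ^ k / (1 - q) + ‖S‖ * (C₁ * q ^ 2) * q ^ k / (1 - q) := by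
      ring
    calc dist (a (T n)) (a S) ≤ dist (a (T n)) (beta σ τ (k + 2) (T n)) +
          dist (beta σ τ (k + 2) (T n)) (beta σ τ (k + 2) S) + dist (beta σ τ (k + 2) S) (a S) :=
          dist_triangle4 _ _ _ _
      _ < ε := by
          rw [dist_comm (a (T n))]
          linarith

end Pool.Agent.FSG
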