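import Pool.Agent.FSG.DPair
import Pool.Agent.FSG.Upper
import Pool.Agent.FSG.LemC

set_option autoImplicit false

open Finset Filter Topology

namespace Pool.Agent.FSG

theorem DTP_rr (j : ℕ) : j + 3 ≤ rr (j + 1) := by
  induction j with
  | zero =>
    show 0 + 3 ≤ 20 * (2 ^ 0 + 1) * 1
    norm_num
  | succ j ih =>
    have h1 : rr (j + 1 + 1) = 20 * (2 ^ (j + 1) + 1) * rr (j + 1) := rfl
    rw [h1]
    have h2 : 1 ≤ 2 ^ (j + 1) + 1 := Nat.le_add_left 1 _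
    calc j + 1 + 3 ≤ 20 * 1 * (j + 3) := by omega
      _ ≤ 20 * (2 ^ (j + 1) + 1) * rr (j + 1) := by gcongr

theorem DTP_rr2 (i : ℕ) : i + 4 ≤ rr (2 * (i + 1)) := by
  have h := DTP_rr (2 * i + 1)
  have h1 : 2 * (i + 1) = 2 * i + 1 + 1 := by ring
  rw [h1]
  omega

theorem DTP_rk_succ (i : ℕ) : rk i + 1 = rr (2 * (i + 1)) := by
  have h := DTP_rr2 i
  unfold rk
  omega

theorem DTP_rk_le (i : ℕ) : i + 2 ≤ rk i := by
  have h := DTP_rr2 i
  unfold rk
  omega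

theorem DTP_nn (i : ℕ) : 9 ^ (rk i + 1) = nn (2 * (i + 1)) := by
  unfold nn
  rw [DTP_rk_succ]

theorem DTP_off_ge (k : ℕ) : k ≤ off k := by
  unfold off
  calc k = ∑ l ∈ range k, 1 := by simp
    _ ≤ ∑ l ∈ range k, 9 ^ l := Finset.sum_le_sum fun l _ => Nat.one_le_pow _ _ (by norm_num)

theorem DTP_blk_apply (a m : ℕ) (c : ℕ → ℂ) (i : ℕ) :
    (∑ g ∈ range m, c g • ee (a + g) : V) i = if a ≤ i ∧ i < a + m then c (i - a) else 0 := by
  rw [Finsupp.finsetSum_apply]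
  simp only [Finsupp.smul_apply, smul_eq_mul, Finsupp.single_apply]
  split_ifs with h
  · rw [Finset.sum_eq_single (i - a)]
    · rw [if_pos (by omega), mul_one]
    · intro g _ hg
      rw [if_neg (by omega), mul_zero]
    · intro h1
      exact absurd (Finset.mem_range.2 (by omega)) h1
  · refine Finset.sum_eq_zero fun g hg => ?_
    have := Finset.mem_range.1 hg
    rw [if_neg (by omega), mul_zero]

theorem DTP_blk_supp {a m : ℕ} {c : ℕ → ℂ} {i : ℕ}
    (hi : i ∈ (∑ g ∈ range m, c g • ee (a + g) : V).support) : a ≤ i ∧ i < a + m := by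
  by_contra h
  rw [Finsupp.mem_support_iff, DTP_blk_apply, if_neg h] at hi
  exact hi rfl

theorem DTP_blk_norm {J : ℕ} (hJ : Even J) {a m : ℕ} (hm : m ≤ nn J) {c : ℕ → ℂ}
    (hc : ∀ g < m, ‖c g‖ ≤ 1) : ‖toD (∑ g ∈ range m, c g • ee (a + g) : V)‖ ≤ mm J := by
  have h := upper_coord hJ hm (a := a) (f := ∑ g ∈ range m, c g • ee (a + g)) (θ := 1)
    (rs_eq_self_iff.2 fun i hi => DTP_blk_supp hi) (by
      intro i
      rw [DTP_blk_apply]
      split_ifs with h1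
      · exact hc _ (by omega)
      · simp)
  rwa [mul_one] at h

theorem DTP_ev_norm {C₀ : ℝ} {σ τ : ℕ → ℕ → ℕ → ℂ} (h : Davie C₀ σ τ) {J k j : ℕ} (hJ : Even J)
    (hk : 2 ≤ k) (hj : j < 3 ^ (k + 1)) (hJk : 9 ^ (k + 1) = nn J) :
    ‖toD (ev σ τ k j)‖ ≤ 2 * mm J := by
  unfold ev
  rw [toD_add]
  refine (norm_add_le _ _).trans ?_
  have h1 : 9 ^ k ≤ nn J := by
    rw [← hJk]
    exact Nat.pow_le_pow_right (by norm_num) (Nat.le_succ k)
  have h2 := DTP_blk_norm hJ h1 (a := off k) (c := τ k j)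
    (fun g hg => ((h.lev k hk).uτ j hj g hg).le)
  have h3 := DTP_blk_norm hJ hJk.le (a := off (k + 1)) (c := σ (k + 1) j)
    (fun g hg => ((h.lev (k + 1) (by omega)).uσ j hj g hg).le)
  linarith

theorem DTP_ev_supp {σ τ : ℕ → ℕ → ℕ → ℂ} {k j i : ℕ} (hi : i ∈ (ev σ τ k j).support) :
    off k ≤ i := by
  by_contra hlt
  push Not at hlt
  rw [Finsupp.mem_support_iff] at hi
  apply hi
  have h1 : off k ≤ off (k + 1) := by
    unfold off
    rw [Finset.sum_range_succ]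
    exact Nat.le_add_right _ _
  unfold ev
  rw [Finsupp.add_apply, DTP_blk_apply, DTP_blk_apply, if_neg (by omega), if_neg (by omega),
    add_zero]

theorem DTP_al_supp {σ : ℕ → ℕ → ℕ → ℂ} {k j i : ℕ} (hi : i ∈ (al σ k j).support) :
    off (k + 1) ≤ i := by
  by_contra hlt
  push Not at hlt
  rw [Finsupp.mem_support_iff] at hi
  apply hi
  unfold al
  rw [Finsupp.smul_apply, DTP_blk_apply, if_neg (by omega), smul_zero]

theorem DTP_al_eq (σ : ℕ → ℕ → ℕ → ℂ) {J k : ℕ} (j : ℕ) (hJk : 9 ^ (k + 1) = nn J) :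
    (mm J : ℂ) • al σ k j = ((mm J : ℂ) / (nn J : ℂ)) •
      ∑ s ∈ range (nn J), (starRingEnd ℂ) (σ (k + 1) j s) • ee (off (k + 1) + s) := by
  unfold al
  rw [smul_smul, mul_one_div, ← hJk]
  push_cast
  rfl

/-- (5.4): the test pairs -/
theorem tp_davie {C₀ : ℝ} {σ τ : ℕ → ℕ → ℕ → ℂ} (h : Davie C₀ σ τ) {c : ℕ → ℕ}
    (hc : ∀ i, c i < 3 ^ (rk i + 1)) :
    TP (YS σ τ) (fun i => (1 / (mm (2 * (i + 1)) : ℂ)) • yv σ τ (rk i) (c i))
      (fun i => (mm (2 * (i + 1)) : ℂ) • al σ (rk i) (c i)) := by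
  have h2k : ∀ i, 2 ≤ rk i := fun i => by
    have := DTP_rk_le i
    omega
  have hcoe : ∀ i, ((((1 / (mm (2 * (i + 1)) : ℂ)) • yv σ τ (rk i) (c i) : YS σ τ)) : D) =
      (1 / (mm (2 * (i + 1)) : ℂ)) • toD (ev σ τ (rk i) (c i)) := fun i => by
    rw [← yv_coe σ τ (h2k i) (hc i)]
    rfl
  have hlem : ∀ i, ‖(mm (2 * (i + 1)) : ℂ) • al σ (rk i) (c i)‖ ≤ 4 * 1 ∧
      ∀ w f, w < 2 * (i + 1) → Wt w f →
        ‖pr f ((mm (2 * (i + 1)) : ℂ) • al σ (rk i) (c i))‖ ≤ 5 * 1 / mm w := fun i => by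
    rw [DTP_al_eq σ (c i) (DTP_nn i)]
    refine lemC (j := 2 * (i + 1)) (by omega) le_rfl
      (z := fun s => (starRingEnd ℂ) (σ (rk i + 1) (c i) s) • ee (off (rk i + 1) + s))
      (unit_bh _ ?_ ?_) ?_
    · intro s hs
      rw [RCLike.norm_conj]
      exact ((h.lev (rk i + 1) (by have := h2k i; omega)).uσ (c i) (hc i) s
        (by rw [DTP_nn]; exact Finset.mem_range.1 hs)).le
    · intro a b hab
      show off (rk i + 1) + a < off (rk i + 1) + b
      omega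
    · rw [Finset.card_range]
  refine ⟨⟨2, fun i => ?_⟩, fun x => ?_, ⟨5, ?_, ?_, ?_⟩, fun i => ?_⟩
  · -- bounded
    have h1 := DTP_ev_norm h (J := 2 * (i + 1)) (even_two_mul _) (h2k i) (hc i) (DTP_nn i)
    have h2 : ‖((((1 / (mm (2 * (i + 1)) : ℂ)) • yv σ τ (rk i) (c i) : YS σ τ)) : D)‖ ≤ 2 := by
      rw [hcoe i, norm_smul, norm_div, norm_one, Complex.norm_natCast]
      have h3 := mm_posR (2 * (i + 1))
      rw [one_div, inv_mul_le_iff₀ h3]
      linarith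
    exact h2
  · -- pointwise null
    refine tendsto_const_nhds.congr' ?_
    obtain ⟨N, hN⟩ : ∃ N, ∀ i ∈ x.support, i < N :=
      ⟨x.support.sup id + 1, fun i hi => Nat.lt_succ_of_le (Finset.le_sup (f := id) hi)⟩
    filter_upwards [eventually_ge_atTop N] with i hi
    rw [hcoe i]
    show 0 = (1 / (mm (2 * (i + 1)) : ℂ)) * pr (ev σ τ (rk i) (c i)) x
    rw [pr_eq_zero, mul_zero]
    intro n hn hn2
    have h1 := DTP_ev_supp hn
    have h2 := hN n hn2
    have h3 := DTP_off_ge (rk i)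
    have h4 := DTP_rk_le i
    omega
  · intro i
    exact (hlem i).1.trans (by norm_num)
  · refine ⟨fun i => 2 * (i + 1), ?_, fun s w f hw hlt => ?_⟩
    · exact tendsto_atTop_mono (fun i => show i ≤ 2 * (i + 1) by omega) tendsto_id
    · have := (hlem s).2 w f hlt hw
      rwa [mul_one] at this
  · intro N
    filter_upwards [eventually_ge_atTop N] with i hi a ha
    have h1 : a ∈ (al σ (rk i) (c i)).support := Finsupp.support_smul ha
    have h2 := DTP_al_supp h1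
    have h3 := DTP_off_ge (rk i + 1)
    have h4 := DTP_rk_le i
    omega
  · have h1 := yv_al h (h2k i) (hc i) (hc i)
    rw [if_pos rfl] at h1
    have h2 : ((((1 / (mm (2 * (i + 1)) : ℂ)) • yv σ τ (rk i) (c i) : YS σ τ)) : D)
        ((mm (2 * (i + 1)) : ℂ) • al σ (rk i) (c i)) =
        (1 / (mm (2 * (i + 1)) : ℂ)) * ((yv σ τ (rk i) (c i) : D)
          ((mm (2 * (i + 1)) : ℂ) • al σ (rk i) (c i))) := rfl
    rw [h2, map_smul, h1, smul_eq_mul, mul_one]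
    have h3 : (mm (2 * (i + 1)) : ℂ) ≠ 0 := by
      exact_mod_cast (mm_pos (2 * (i + 1))).ne'
    field_simp

end Pool.Agent.FSG
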