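import Pool.Agent.FSG.Base

/-!
Definitions of the FSG project (besides the base file).
-/

set_option autoImplicit false

open Finset Filter Topology

namespace Pool.Agent.FSG

/-- the hypotheses of the basic estimate (Lemma B) on a finite set `A₀` of indices -/
structure BH (j : ℕ) (C : ℝ) (A₀ : Finset ℕ) (z : ℕ → V) : Prop where
  succ : ∀ s ∈ A₀, ∀ t ∈ A₀, s < t → ∀ a ∈ (z s).support, ∀ b ∈ (z t).support, a < b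
  bd : ∀ s ∈ A₀, ‖z s‖ ≤ C
  wt : ∀ w f, j ≤ w → Wt w f → ∀ A ⊆ A₀, ∑ s ∈ A, ‖pr f (z s)‖ ≤ C * A.card / mm j + C

/-- rapidly increasing sequences -/
structure RIS (C : ℝ) (j : ℕ → ℕ) (z : ℕ → V) : Prop where
  succ : ∀ r, Succ r z
  mono : StrictMono j
  bd : ∀ s, ‖z s‖ ≤ C
  wt : ∀ s w f, Wt w f → w < j s → ‖pr f (z s)‖ ≤ C / mm w
  l1 : ∀ s, l1 (z s) * mm (j s) ≤ mm (j (s + 1))

/-- pre-RIS -/
structure PR (C : ℝ) (z : ℕ → V) : Prop where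
  bd : ∀ s, ‖z s‖ ≤ C
  wt : ∃ j : ℕ → ℕ, Tendsto j atTop atTop ∧
    ∀ s w f, Wt w f → w < j s → ‖pr f (z s)‖ ≤ C / mm w
  supp : ∀ N, ∀ᶠ s in atTop, ∀ a ∈ (z s).support, N ≤ a

/-- dependent sequences (hypotheses of Lemma D) -/
structure DS (j : ℕ) (C : ℝ) (N : ℕ → ℕ) (F x : ℕ → V) : Prop where
  odd : Odd j
  one_le : 1 ≤ C
  mono : Monotone N
  spec : Special j (nn j) F
  Fs : ∀ k < nn j, rs (N k) (N (k + 1)) (F k) = F k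
  xs : ∀ k < nn j, rs (N k) (N (k + 1)) (x k) = x k
  bd : ∀ k < nn j, ‖x k‖ ≤ C
  pair : ∀ k < nn j, ‖pr (F k) (x k)‖ ≤ 1 / nn j
  low : ∀ k < nn j, ∀ w f, Wt w f → w < code j ((List.range k).map F) →
    ‖pr f (x k)‖ ≤ C / mm w
  high : ∀ k < nn j, ∀ w f, Wt w f → code j ((List.range k).map F) < w →
    ‖pr f (x k)‖ ≤ C / mm (code j ((List.range k).map F))

/-- the situation in the proof of Theorem E -/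
structure EH (Y : Submodule ℂ D) (T : Y →L[ℂ] Y) (u : ℕ → Y) (z : ℕ → V) (j : ℕ → ℕ)
    (C δ : ℝ) : Prop where
  one_le : 1 ≤ C
  pos : 0 < δ
  ris : RIS C j z
  bd : ∀ s, ‖u s‖ ≤ 1
  null : ∀ x : V, Tendsto (fun s => (u s : D) x) atTop (𝓝 0)
  nullT : ∀ x : V, Tendsto (fun s => (T (u s) : D) x) atTop (𝓝 0)
  pair : Tendsto (fun s => (u s : D) (z s)) atTop (𝓝 0)
  low : ∀ s, δ ≤ ((T (u s) : D) (z s)).re

/-- one block in the proof of Theorem E -/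
structure BlockC (Y : Submodule ℂ D) (T : Y →L[ℂ] Y) (C δ η : ℝ) (w N N' : ℕ) (F x : V)
    (y : Y) : Prop where
  le : N ≤ N'
  rat : IsRat F
  wf : WF w F
  Fs : rs N N' F = F
  xs : rs N N' x = x
  near : ‖(y : D) - toD F‖ ≤ η
  out : ‖(T y : D) - rD N N' (T y : D)‖ ≤ η
  pair : ‖pr F x‖ ≤ η
  low : δ / 2 ≤ ((T y : D) x).re
  bd : ‖x‖ ≤ 5 * C
  wlow : ∀ v f, Wt v f → v < w → ‖pr f x‖ ≤ 5 * C / mm v
  whigh : ∀ v f, Wt v f → w < v → ‖pr f x‖ ≤ 5 * C / mm w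

/-- test pairs -/
structure TP (Y : Submodule ℂ D) (y : ℕ → Y) (z : ℕ → V) : Prop where
  bd : ∃ M : ℝ, ∀ s, ‖y s‖ ≤ M
  null : ∀ x : V, Tendsto (fun s => (y s : D) x) atTop (𝓝 0)
  pre : ∃ C : ℝ, PR C z
  one : ∀ s, (y s : D) (z s) = 1

/-! ### Davie type vectors -/

/-- the eighth root of three -/
noncomputable def qq : ℝ := Real.sqrt (Real.sqrt (Real.sqrt 3))

/-- the data of level `k` -/
structure Lev (k : ℕ) (σ τ : ℕ → ℕ → ℂ) : Prop where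
  uσ : ∀ j < 3 ^ k, ∀ g < 9 ^ k, ‖σ j g‖ = 1
  uτ : ∀ j < 3 ^ (k + 1), ∀ g < 9 ^ k, ‖τ j g‖ = 1
  oσ : ∀ i < 3 ^ k, ∀ j < 3 ^ k,
    ∑ g ∈ range (9 ^ k), σ i g * (starRingEnd ℂ) (σ j g) = if i = j then (9 : ℂ) ^ k else 0
  oτ : ∀ i < 3 ^ (k + 1), ∀ j < 3 ^ (k + 1),
    ∑ g ∈ range (9 ^ k), τ i g * (starRingEnd ℂ) (τ j g) = if i = j then (9 : ℂ) ^ k else 0
  oστ : ∀ i < 3 ^ k, ∀ j < 3 ^ (k + 1),
    ∑ g ∈ range (9 ^ k), σ i g * (starRingEnd ℂ) (τ j g) = 0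
  diff : ∀ g < 9 ^ k, ∀ h < 9 ^ k,
    ‖(1 / (3 : ℂ) ^ (k + 1)) * ∑ j ∈ range (3 ^ (k + 1)), (starRingEnd ℂ) (τ j g) * τ j h
      - (1 / (3 : ℂ) ^ k) * ∑ j ∈ range (3 ^ k), (starRingEnd ℂ) (σ j g) * σ j h‖
      ≤ 2 / (qq ^ 4) ^ k

/-- the data of all levels `k ≥ 2` -/
structure Davie (C₀ : ℝ) (σ τ : ℕ → ℕ → ℕ → ℂ) : Prop where
  lev : ∀ k, 2 ≤ k → Lev k (σ k) (τ k)
  cross : ∀ k, 2 ≤ k → ∀ g < 9 ^ k, ∀ h < 9 ^ (k + 1),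
    ‖(1 / (3 : ℂ) ^ (k + 1)) *
      ∑ j ∈ range (3 ^ (k + 1)), (starRingEnd ℂ) (τ k j g) * σ (k + 1) j h‖
      ≤ C₀ / (qq ^ 3) ^ k

/-- the beginning of the block `G_k = [off k, off k + 9 ^ k)` -/
def off (k : ℕ) : ℕ := ∑ l ∈ range k, 9 ^ l

/-- the vectors `e^{k+1}_j` (`k ≥ 2`, `j < 3 ^ (k + 1)`) -/
noncomputable def ev (σ τ : ℕ → ℕ → ℕ → ℂ) (k j : ℕ) : V :=
  ∑ g ∈ range (9 ^ k), τ k j g • ee (off k + g) +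
    ∑ g ∈ range (9 ^ (k + 1)), σ (k + 1) j g • ee (off (k + 1) + g)

/-- the test vectors `α^{k+1}_j` -/
noncomputable def al (σ : ℕ → ℕ → ℕ → ℂ) (k j : ℕ) : V :=
  (1 / (9 : ℂ) ^ (k + 1)) •
    ∑ g ∈ range (9 ^ (k + 1)), (starRingEnd ℂ) (σ (k + 1) j g) • ee (off (k + 1) + g)

/-- the test vectors `α'^{k+1}_j` -/
noncomputable def al' (τ : ℕ → ℕ → ℕ → ℂ) (k j : ℕ) : V :=
  (1 / (9 : ℂ) ^ k) • ∑ g ∈ range (9 ^ k), (starRingEnd ℂ) (τ k j g) • ee (off k + g)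

/-- the space: closed span of the vectors `e^{k+1}_j` -/
noncomputable def YS (σ τ : ℕ → ℕ → ℕ → ℂ) : Submodule ℂ D :=
  (Submodule.span ℂ {ζ : D | ∃ k j, 2 ≤ k ∧ j < 3 ^ (k + 1) ∧
    ζ = toD (ev σ τ k j)}).topologicalClosure

theorem ev_mem (σ τ : ℕ → ℕ → ℕ → ℂ) {k j : ℕ} (hk : 2 ≤ k) (hj : j < 3 ^ (k + 1)) :
    toD (ev σ τ k j) ∈ YS σ τ :=
  Submodule.le_topologicalClosure _ (Submodule.subset_span ⟨k, j, hk, hj, rfl⟩)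

open Classical in
/-- `e^{k+1}_j` as an element of the space -/
noncomputable def yv (σ τ : ℕ → ℕ → ℕ → ℂ) (k j : ℕ) : YS σ τ :=
  if h : 2 ≤ k ∧ j < 3 ^ (k + 1) then ⟨toD (ev σ τ k j), ev_mem σ τ h.1 h.2⟩ else 0

theorem yv_coe (σ τ : ℕ → ℕ → ℕ → ℂ) {k j : ℕ} (hk : 2 ≤ k) (hj : j < 3 ^ (k + 1)) :
    (yv σ τ k j : D) = toD (ev σ τ k j) := by
  unfold yv
  rw [dif_pos ⟨hk, hj⟩]

theorem YS_closed (σ τ : ℕ → ℕ → ℕ → ℂ) : IsClosed (YS σ τ : Set D) :=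
  Submodule.isClosed_topologicalClosure _

/-- the averages `β_{k+1}(T)` -/
noncomputable def beta (σ τ : ℕ → ℕ → ℕ → ℂ) (k : ℕ) (T : YS σ τ →L[ℂ] YS σ τ) : ℂ :=
  (1 / (3 : ℂ) ^ (k + 1)) * ∑ j ∈ range (3 ^ (k + 1)), (T (yv σ τ k j) : D) (al σ k j)

/-- the vectors `φ_g`, `g ∈ G_{k+1}` -/
noncomputable def phi (σ τ : ℕ → ℕ → ℕ → ℂ) (k g : ℕ) : YS σ τ :=
  (1 / (3 : ℂ) ^ (k + 2)) • ∑ j ∈ range (3 ^ (k + 2)),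
      (starRingEnd ℂ) (τ (k + 1) j g) • yv σ τ (k + 1) j -
    (1 / (3 : ℂ) ^ (k + 1)) • ∑ j ∈ range (3 ^ (k + 1)),
      (starRingEnd ℂ) (σ (k + 1) j g) • yv σ τ k j

/-- the levels with `|G_{k+1}| = n_{2i+2}` -/
def rk (i : ℕ) : ℕ := rr (2 * (i + 1)) - 1

end Pool.Agent.FSG
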