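import Pool.Agent.FSG.Block

set_option autoImplicit false

open Finset Filter Topology

namespace Pool.Agent.FSG

/-- (4.1) (iii), the construction -/
theorem depSeq {Y : Submodule ℂ D} {T : Y →L[ℂ] Y} {u : ℕ → Y} {z : ℕ → V} {j : ℕ → ℕ}
    {C δ : ℝ} (h : EH Y T u z j C δ) (jj : ℕ) {η : ℝ} (hη : 0 < η) :
    ∃ (N : ℕ → ℕ) (F x : ℕ → V) (y : ℕ → Y), ∀ k,
      BlockC Y T C δ η (code jj ((List.range k).map F)) (N k) (N (k + 1)) (F k) (x k) (y k) := by
  have hb : ∀ (N : ℕ) (L : List V), ∃ (N' : ℕ) (F x : V) (y : Y),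
      BlockC Y T C δ η (code jj L) N N' F x y := fun N L =>
    block h N (code jj L) (code_even _ _) (Nat.one_le_of_lt (lt_code jj L)) hη
  choose N' F' x' y' hB using hb
  obtain ⟨st, hst0, hst1⟩ : ∃ st : ℕ → ℕ × List V, st 0 = (0, []) ∧
      ∀ k, st (k + 1) = (N' (st k).1 (st k).2, (st k).2 ++ [F' (st k).1 (st k).2]) :=
    ⟨fun k => Nat.rec (0, []) (fun _ s => (N' s.1 s.2, s.2 ++ [F' s.1 s.2])) k, rfl,
      fun _ => rfl⟩
  have hL : ∀ k, (st k).2 = (List.range k).map (fun k => F' (st k).1 (st k).2) := by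
    intro k
    induction k with
    | zero => rw [hst0]; rfl
    | succ k ih =>
      rw [List.range_succ, List.map_append, ← ih, hst1]
      rfl
  refine ⟨fun k => (st k).1, fun k => F' (st k).1 (st k).2, fun k => x' (st k).1 (st k).2,
    fun k => y' (st k).1 (st k).2, fun k => ?_⟩
  have h1 := hB (st k).1 (st k).2
  have h2 : (st (k + 1)).1 = N' (st k).1 (st k).2 := by rw [hst1]
  beta_reduce
  rw [h2, ← hL k]
  exact h1

end Pool.Agent.FSG
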