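import Pool.Agent.FSG.DPair

set_option autoImplicit false

open Finset Filter Topology

namespace Pool.Agent.FSG

theorem YSx_linInd {C₀ : ℝ} {σ τ : ℕ → ℕ → ℕ → ℂ} (h : Davie C₀ σ τ) {k : ℕ} (hk : 2 ≤ k) :
    LinearIndependent ℂ (fun i : Fin (3 ^ (k + 1)) => yv σ τ k i) := by
  rw [Fintype.linearIndependent_iff]
  intro g hg j
  have h1 : ((∑ i, g i • yv σ τ k i : YS σ τ) : D) (al σ k j) = 0 := by
    rw [hg]; rfl
  rw [Submodule.coe_sum, ContinuousLinearMap.sum_apply] at h1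
  rw [Finset.sum_eq_single j] at h1
  · rw [Submodule.coe_smul, ContinuousLinearMap.smul_apply, yv_al h hk j.2 j.2, if_pos rfl] at h1
    simpa using h1
  · intro i _ hij
    rw [Submodule.coe_smul, ContinuousLinearMap.smul_apply, yv_al h hk i.2 j.2, if_neg]
    · simp
    · exact fun e => hij (Fin.ext e)
  · intro hj
    exact absurd (Finset.mem_univ j) hj

theorem YS_infinite {C₀ : ℝ} {σ τ : ℕ → ℕ → ℕ → ℂ} (h : Davie C₀ σ τ) :
    ¬ FiniteDimensional ℂ (YS σ τ) := by
  intro hfin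
  have h1 := (YSx_linInd h (k := Module.finrank ℂ (YS σ τ) + 2) (by omega)).fintype_card_le_finrank
  rw [Fintype.card_fin] at h1
  have h2 : Module.finrank ℂ (YS σ τ) + 2 + 1 < 3 ^ (Module.finrank ℂ (YS σ τ) + 2 + 1) :=
    Nat.lt_pow_self (by norm_num)
  omega

theorem YS_separable (σ τ : ℕ → ℕ → ℕ → ℂ) : TopologicalSpace.SeparableSpace (YS σ τ) := by
  have hc : Set.Countable {ζ : D | ∃ k j, 2 ≤ k ∧ j < 3 ^ (k + 1) ∧ ζ = toD (ev σ τ k j)} := by
    apply Set.Countable.mono (s₂ := Set.range (fun p : ℕ × ℕ => toD (ev σ τ p.1 p.2)))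
    · rintro ζ ⟨k, j, -, -, rfl⟩
      exact ⟨(k, j), rfl⟩
    · exact Set.countable_range _
  have hs : TopologicalSpace.IsSeparable (YS σ τ : Set D) := by
    unfold YS
    rw [Submodule.topologicalClosure_coe]
    exact (hc.isSeparable.span (R := ℂ)).closure
  exact hs.separableSpace

end Pool.Agent.FSG
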