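import Pool.Agent.FSG.Scal
import Pool.Agent.FSG.YSx
import Pool.Agent.FSG.DAsm
import Pool.Agent.FSG.AbsH
import Pool.Agent.FSG.AbsN

/-!
The final assembly: a separable Banach space with property (H) which is not isomorphic to a
Hilbert space.
-/

set_option autoImplicit false

open Filter Topology Pool.Agent.RSec

namespace Pool.Agent.FSG

theorem exists_separable_counterexample : ∃ (X : Type) (_ : NormedAddCommGroup X)
    (_ : NormedSpace ℂ X) (_ : CompleteSpace X) (_ : TopologicalSpace.SeparableSpace X),
    PropertyH X ∧ ¬ IsoHilbert X := by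
  obtain ⟨C₀, σ, τ, h⟩ := exists_davie
  obtain ⟨a, ha⟩ := exists_scalarPart h
  have : CompleteSpace (YS σ τ) := (YS_closed σ τ).completeSpace_coe
  exact ⟨YS σ τ, inferInstance, inferInstance, inferInstance, YS_separable σ τ,
    propertyH_of_scalarPart ha, not_isoHilbert ha (YS_infinite h)⟩

end Pool.Agent.FSG
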