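import Pool.Agent.FSG.Params
import Pool.Agent.FSG.Split

set_option autoImplicit false

open Finset Filter Topology

namespace Pool.Agent.FSG

/-- (2.2) -/
theorem lemB {j : ℕ} (hj : 1 ≤ j) {C : ℝ} (hC : 0 ≤ C) {A₀ : Finset ℕ} {z : ℕ → V}
    (h : BH j C A₀ z) (d : ℕ) (f : V) (hf : K f) (A : Finset ℕ) (hA : A ⊆ A₀) :
    ‖pr f (∑ s ∈ A, z s)‖ ≤
      (2 * C / mm j + C / 2 ^ d) * A.card + 5 * C * ((nn (j - 1) : ℝ) + 2) ^ d := by
  have hn0 : (0 : ℝ) ≤ nn (j - 1) := Nat.cast_nonneg _
  have hm0 : (0 : ℝ) < mm j := mm_posR j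
  induction d generalizing f A with
  | zero =>
    rw [pr_sum]
    have h1 : ∑ s ∈ A, ‖pr f (z s)‖ ≤ ∑ _s ∈ A, C :=
      sum_le_sum fun s hs => (hf.le_norm _).trans (h.bd s (hA hs))
    rw [sum_const, nsmul_eq_mul] at h1
    refine ((norm_sum_le _ _).trans h1).trans ?_
    have h2 : 0 ≤ 2 * C / mm j * A.card := by positivity
    simp only [pow_zero, div_one, mul_one]
    nlinarith
  | succ d ih =>
    have hpow : (1 : ℝ) ≤ ((nn (j - 1) : ℝ) + 2) ^ d := one_le_pow₀ (by linarith)
    have hpow' : (1 : ℝ) ≤ ((nn (j - 1) : ℝ) + 2) ^ (d + 1) := one_le_pow₀ (by linarith)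
    have hb0 : 0 ≤ (2 * C / mm j + C / 2 ^ (d + 1)) * A.card := by positivity
    have hb1 : C ≤ 5 * C * ((nn (j - 1) : ℝ) + 2) ^ (d + 1) := by nlinarith
    refine K.ind (P := fun f => ‖pr f (∑ s ∈ A, z s)‖ ≤
      (2 * C / mm j + C / 2 ^ (d + 1)) * A.card +
        5 * C * ((nn (j - 1) : ℝ) + 2) ^ (d + 1)) ?_ ?_ ?_ f hf
    · intro i
      have h1 : ‖pr (ee i) (∑ s ∈ A, z s)‖ ≤ C := by
        rw [ee_pr, Finsupp.finsetSum_apply]
        by_cases h0 : ∀ s ∈ A, z s i = 0
        · rw [sum_eq_zero h0, norm_zero]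
          exact hC
        · push Not at h0
          obtain ⟨s, hs, hsi⟩ := h0
          rw [sum_eq_single s]
          · exact (coord_le_norm _ _).trans (h.bd s (hA hs))
          · intro t ht hts
            by_contra h2
            rw [← Ne, ← Finsupp.mem_support_iff] at h2
            rw [← Finsupp.mem_support_iff] at hsi
            rcases lt_or_gt_of_ne hts with h3 | h3
            · exact lt_irrefl _ (h.succ t (hA ht) s (hA hs) h3 i h2 i hsi)
            · exact lt_irrefl _ (h.succ s (hA hs) t (hA ht) h3 i hsi i h2)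
          · intro h2
            exact absurd hs h2
      linarith
    · intro r c g hg hc
      rw [sum_pr]
      refine (norm_sum_le _ _).trans ?_
      have h1 : ∑ i ∈ range r, ‖pr (c i • g i) (∑ s ∈ A, z s)‖ ≤ ∑ i ∈ range r, ‖c i‖ *
          ((2 * C / mm j + C / 2 ^ (d + 1)) * A.card +
            5 * C * ((nn (j - 1) : ℝ) + 2) ^ (d + 1)) := by
        refine sum_le_sum fun i hi => ?_
        rw [smul_pr, norm_mul]
        exact mul_le_mul_of_nonneg_left (hg i (mem_range.1 hi)) (norm_nonneg _)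
      refine h1.trans ?_
      rw [← sum_mul]
      exact mul_le_of_le_one_left (by linarith) hc
    · intro w f hw
      by_cases hwj : j ≤ w
      · rw [pr_sum]
        refine (norm_sum_le _ _).trans ((h.wt w f hwj hw A hA).trans ?_)
        have h2 : C * A.card / mm j ≤ (2 * C / mm j + C / 2 ^ (d + 1)) * A.card := by
          have h3 : 0 ≤ C / 2 ^ (d + 1) * A.card := by positivity
          have h4 : 0 ≤ C / mm j * A.card := by positivity
          have h5 : C * A.card / mm j = C / mm j * A.card := by ring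
          have h6 : 2 * C / mm j * A.card = 2 * (C / mm j * A.card) := by ring
          rw [add_mul, h6, h5]
          linarith
        linarith
      · push Not at hwj
        obtain ⟨r, g, P, B, hr, hg, hPA, hPr, hBA, hBc, hest⟩ := split_wt hw A z
          (fun s hs t ht hst a ha b hb => h.succ s (hA hs) t (hA ht) hst a ha b hb)
        have hrn : r ≤ nn (j - 1) := hr.trans (nn_strictMono.monotone (by omega))
        have hrn' : (r : ℝ) ≤ nn (j - 1) := by exact_mod_cast hrn
        have h1 : ∑ s ∈ P, ‖pr f (z s)‖ ≤ nn (j - 1) * C := by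
          calc _ ≤ ∑ _s ∈ P, C :=
                sum_le_sum fun s hs => ((Wt.mem hw).le_norm _).trans (h.bd s (hA (hPA hs)))
            _ = P.card * C := by rw [sum_const, nsmul_eq_mul]
            _ ≤ _ := by
                have : (P.card : ℝ) ≤ nn (j - 1) := by exact_mod_cast hPr.trans hrn
                exact mul_le_mul_of_nonneg_right this hC
        have h2 : ∑ l ∈ range r, ‖pr (g l) (∑ s ∈ B l, z s)‖ ≤
            (2 * C / mm j + C / 2 ^ d) * A.card +
              nn (j - 1) * (5 * C * ((nn (j - 1) : ℝ) + 2) ^ d) := by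
          calc _ ≤ ∑ l ∈ range r, ((2 * C / mm j + C / 2 ^ d) * (B l).card +
                5 * C * ((nn (j - 1) : ℝ) + 2) ^ d) :=
                sum_le_sum fun l hl => ih (g l) (hg l (mem_range.1 hl)) (B l) ((hBA l).trans hA)
            _ = (2 * C / mm j + C / 2 ^ d) * (∑ l ∈ range r, (B l).card : ℕ) +
                r * (5 * C * ((nn (j - 1) : ℝ) + 2) ^ d) := by
                rw [sum_add_distrib, ← mul_sum, sum_const, card_range, nsmul_eq_mul]
                push_cast
                rfl
            _ ≤ _ := by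
                have h3 : ((∑ l ∈ range r, (B l).card : ℕ) : ℝ) ≤ A.card := by exact_mod_cast hBc
                have h4 : 0 ≤ 2 * C / mm j + C / 2 ^ d := by positivity
                have h5 : 0 ≤ 5 * C * ((nn (j - 1) : ℝ) + 2) ^ d := by positivity
                exact add_le_add (mul_le_mul_of_nonneg_left h3 h4)
                  (mul_le_mul_of_nonneg_right hrn' h5)
        have h3 : (1 / (mm w : ℝ)) ≤ 1 / 2 := by
          have : (2 : ℝ) ≤ mm w := by exact_mod_cast two_le_mm w
          exact one_div_le_one_div_of_le (by norm_num) this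
        have h4 : 0 ≤ ∑ l ∈ range r, ‖pr (g l) (∑ s ∈ B l, z s)‖ :=
          sum_nonneg fun _ _ => norm_nonneg _
        have h5 : (1 / (mm w : ℝ)) * ∑ l ∈ range r, ‖pr (g l) (∑ s ∈ B l, z s)‖ ≤
            (1 / 2) * ((2 * C / mm j + C / 2 ^ d) * A.card +
              nn (j - 1) * (5 * C * ((nn (j - 1) : ℝ) + 2) ^ d)) :=
          mul_le_mul h3 h2 h4 (by norm_num)
        refine hest.trans ((add_le_add h1 h5).trans ?_)
        have h6 : C / 2 ^ (d + 1) = (1 / 2) * (C / 2 ^ d) := by
          rw [pow_succ]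
          field_simp
        rw [h6, pow_succ]
        have h7 : 0 ≤ 2 * C / mm j * A.card := by positivity
        set p := ((nn (j - 1) : ℝ) + 2) ^ d with hp
        set n := (nn (j - 1) : ℝ) with hn
        have h8 : n * C ≤ n * C * p := le_mul_of_one_le_right (by positivity) hpow
        have h9 : 0 ≤ n * C * p := by positivity
        have h10 : 0 ≤ C * p := by positivity
        nlinarith

theorem lemB' {j : ℕ} (hj : 1 ≤ j) {C : ℝ} (hC : 0 ≤ C) {A₀ : Finset ℕ} {z : ℕ → V}
    (h : BH j C A₀ z) (A : Finset ℕ) (hA : A ⊆ A₀) :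
    ‖∑ s ∈ A, z s‖ ≤ 3 * C * A.card / mm j + 5 * C * ((nn (j - 1) : ℝ) + 2) ^ 2 ^ j := by
  apply normV_le
  intro f hf
  refine (lemB hj hC h (2 ^ j) f hf A hA).trans (le_of_eq ?_)
  have h1 : (2 : ℝ) ^ 2 ^ j = mm j := by
    unfold mm
    push_cast
    rfl
  rw [h1]
  ring

end Pool.Agent.FSG
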