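import Pool.Agent.FSG.Params

set_option autoImplicit false

open Finset Filter Topology

namespace Pool.Agent.FSG

theorem lemDa_sum_le {p : ℕ → Prop} [DecidablePred p] (hp : ∀ l l', p l → p l' → l = l') (r : ℕ)
    {C : ℝ} (hC : 0 ≤ C) : ∑ l ∈ range r, (if p l then C else 0) ≤ C := by
  by_cases h : ∃ l, p l
  · obtain ⟨l0, h0⟩ := h
    calc ∑ l ∈ range r, (if p l then C else 0) ≤ ∑ l ∈ range r, (if l = l0 then C else 0) := by
          apply Finset.sum_le_sum
          intro l _
          by_cases hl : p l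
          · rw [if_pos hl, if_pos (hp l l0 hl h0)]
          · rw [if_neg hl]
            split_ifs <;> simp [hC]
      _ ≤ C := by
          rw [Finset.sum_ite_eq' (range r) l0 (fun _ => C)]
          split_ifs <;> simp [hC]
  · push Not at h
    rw [Finset.sum_eq_zero fun l _ => if_neg (h l)]
    exact hC

open Classical in
theorem lemDa_term {j : ℕ} {C : ℝ} {N : ℕ → ℕ} {F x : ℕ → V} (h : DS j C N F x) {r : ℕ}
    {F' : ℕ → V} (_hr : r ≤ nn j) (hF' : Special j r F') (a b : ℕ) {l k : ℕ} (hl : l < r)
    (hk : k < nn j) :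
    ‖pr (rs a b (F' l)) (x k)‖ ≤ C / (nn j : ℝ) ^ 2 + if l = k then
      (1 / (nn j : ℝ) + (if N l < a ∧ a < N (l + 1) then C else 0) +
        (if N l < b ∧ b < N (l + 1) then C else 0) +
        (if (∀ i < l, F' i = F i) ∧ F' l ≠ F l then C else 0)) else 0 := by
  have hC : 0 ≤ C := zero_le_one.trans h.one_le
  have hn : (0 : ℝ) < nn j := nn_posR j
  have hn1 : (1 : ℝ) ≤ nn j := by exact_mod_cast nn_pos j
  have h1n : 0 ≤ 1 / (nn j : ℝ) := by positivity
  have hCn : 0 ≤ C / (nn j : ℝ) ^ 2 := by positivity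
  have hK : K (rs a b (F' l)) := (hF'.mem hl).restr a b
  have hbd : ‖pr (rs a b (F' l)) (x k)‖ ≤ C := (hK.le_norm _).trans (h.bd k hk)
  have hiC : ∀ (p : Prop) [Decidable p], 0 ≤ (if p then C else 0) := fun p _ => by
    split_ifs <;> simp [hC]
  have hlarge : ∀ L : List V, C / (mm (code j L) : ℝ) ≤ C / (nn j : ℝ) ^ 2 := by
    intro L
    apply div_le_div_of_nonneg_left hC (by positivity)
    have h2 : ((nn j * mm j : ℕ) : ℝ) ^ 2 ≤ mm (code j L) := by exact_mod_cast code_large j L
    have h3 : (1 : ℝ) ≤ mm j := by exact_mod_cast one_le_mm j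
    have h4 : (nn j : ℝ) ≤ ((nn j * mm j : ℕ) : ℝ) := by
      push_cast
      nlinarith
    exact (pow_le_pow_left₀ hn.le h4 2).trans h2
  have hwt : Wt (code j ((List.range l).map F')) (rs a b (F' l)) :=
    Wt.restr (Or.inl ⟨code_even _ _, hF'.wf l hl⟩) a b
  rcases lt_trichotomy (code j ((List.range l).map F')) (code j ((List.range k).map F))
    with hw | hw | hw
  · refine ((h.low k hk _ _ hwt hw).trans (hlarge _)).trans (le_add_of_nonneg_right ?_)
    split_ifs <;> positivity
  · -- equal lists
    have hlist := code_inj (j := j) (L := (List.range l).map F') (L' := (List.range k).map F)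
      (by
        intro f hf
        obtain ⟨i, hi, rfl⟩ := List.mem_map.mp hf
        exact hF'.rat i ((List.mem_range.mp hi).trans hl))
      (by
        intro f hf
        obtain ⟨i, hi, rfl⟩ := List.mem_map.mp hf
        exact h.spec.rat i ((List.mem_range.mp hi).trans hk)) hw
    have hlk : l = k := by
      have := congrArg List.length hlist
      simpa using this
    subst hlk
    have hpre : ∀ i < l, F' i = F i := by
      intro i hi
      have h1 := congrArg (fun L => L[i]?) hlist
      simpa [hi] using h1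
    rw [if_pos rfl]
    by_cases hne : F' l = F l
    · -- the common part
      by_cases ha : N l < a ∧ a < N (l + 1)
      · rw [if_pos ha]
        have := hiC (N l < b ∧ b < N (l + 1))
        have := hiC ((∀ i < l, F' i = F i) ∧ F' l ≠ F l)
        linarith
      by_cases hb : N l < b ∧ b < N (l + 1)
      · rw [if_pos hb]
        have := hiC (N l < a ∧ a < N (l + 1))
        have := hiC ((∀ i < l, F' i = F i) ∧ F' l ≠ F l)
        linarith
      have hmain : ‖pr (rs a b (F' l)) (x l)‖ ≤ 1 / (nn j : ℝ) := by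
        rw [hne, ← pr_rs]
        have hxs := rs_eq_self_iff.mp (h.xs l hk)
        by_cases hin : a ≤ N l ∧ N (l + 1) ≤ b
        · have h2 : rs a b (x l) = x l := by
            rw [rs_eq_self_iff]
            intro i hi
            have := hxs i hi
            omega
          rw [h2]
          exact h.pair l hk
        · have h2 : rs a b (x l) = 0 := by
            ext i
            rw [rs_apply, Finsupp.zero_apply]
            split_ifs with hi
            · by_contra hne0
              have := hxs i (Finsupp.mem_support_iff.mpr hne0)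
              omega
            · rfl
          rw [h2, pr_zero, norm_zero]
          exact h1n
      have := hiC (N l < a ∧ a < N (l + 1))
      have := hiC (N l < b ∧ b < N (l + 1))
      have := hiC ((∀ i < l, F' i = F i) ∧ F' l ≠ F l)
      linarith
    · rw [if_pos (⟨hpre, hne⟩ : (∀ i < l, F' i = F i) ∧ F' l ≠ F l)]
      have := hiC (N l < a ∧ a < N (l + 1))
      have := hiC (N l < b ∧ b < N (l + 1))
      linarith
  · refine ((h.high k hk _ _ hwt hw).trans (hlarge _)).trans (le_add_of_nonneg_right ?_)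
    split_ifs <;> positivity

/-- (2.5), the functionals of weight `j` -/
theorem lemDa {j : ℕ} {C : ℝ} {N : ℕ → ℕ} {F x : ℕ → V} (h : DS j C N F x) {f : V}
    (hf : Wt j f) {A : Finset ℕ} (hA : A ⊆ range (nn j)) : ‖pr f (∑ k ∈ A, x k)‖ ≤ 5 * C := by
  classical
  have hC : 0 ≤ C := zero_le_one.trans h.one_le
  have hn : (0 : ℝ) < nn j := nn_posR j
  rcases hf with ⟨he, _⟩ | ⟨_, r, F', a, b, hr, hF', rfl⟩
  · exact absurd he (Nat.not_even_iff_odd.mpr h.odd)
  have hN1 : ∀ c l l', N l < c ∧ c < N (l + 1) → N l' < c ∧ c < N (l' + 1) → l = l' := by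
    intro c l l' h1 h2
    rcases lt_trichotomy l l' with h3 | h3 | h3
    · have := h.mono (Nat.succ_le_of_lt h3)
      have h4 : N (l + 1) ≤ N l' := this
      omega
    · exact h3
    · have := h.mono (Nat.succ_le_of_lt h3)
      have h4 : N (l' + 1) ≤ N l := this
      omega
  have hD1 : ∀ l l', ((∀ i < l, F' i = F i) ∧ F' l ≠ F l) →
      ((∀ i < l', F' i = F i) ∧ F' l' ≠ F l') → l = l' := by
    intro l l' h1 h2
    rcases lt_trichotomy l l' with h3 | h3 | h3
    · exact absurd (h2.1 l h3) h1.2
    · exact h3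
    · exact absurd (h1.1 l' h3) h2.2
  have hAc : (A.card : ℝ) ≤ nn j := by
    have := Finset.card_le_card hA
    rw [Finset.card_range] at this
    exact_mod_cast this
  have h1 : ‖pr ((1 / (mm j : ℂ)) • ∑ k ∈ range r, rs a b (F' k)) (∑ k ∈ A, x k)‖ ≤
      ∑ l ∈ range r, ∑ k ∈ A, ‖pr (rs a b (F' l)) (x k)‖ := by
    rw [smul_pr, norm_mul, sum_pr]
    have h3 : ‖(1 / (mm j : ℂ))‖ ≤ 1 := by
      rw [norm_div, norm_one, Complex.norm_natCast, div_le_one (mm_posR j)]
      exact_mod_cast one_le_mm j
    refine (mul_le_of_le_one_left (norm_nonneg _) h3).trans ((norm_sum_le _ _).trans ?_)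
    apply Finset.sum_le_sum
    intro l _
    rw [pr_sum]
    exact norm_sum_le _ _
  have h2 : ∑ l ∈ range r, ∑ k ∈ A, ‖pr (rs a b (F' l)) (x k)‖ ≤
      ∑ l ∈ range r, (C / (nn j : ℝ) + (1 / (nn j : ℝ) +
        (if N l < a ∧ a < N (l + 1) then C else 0) +
        (if N l < b ∧ b < N (l + 1) then C else 0) +
        (if (∀ i < l, F' i = F i) ∧ F' l ≠ F l then C else 0))) := by
    apply Finset.sum_le_sum
    intro l hl
    have hl' := Finset.mem_range.mp hl
    refine (Finset.sum_le_sum fun k hk => lemDa_term h hr hF' a b hl'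
      (Finset.mem_range.mp (hA hk))).trans ?_
    rw [Finset.sum_add_distrib, Finset.sum_const, nsmul_eq_mul, Finset.sum_ite_eq]
    apply add_le_add
    · calc (A.card : ℝ) * (C / (nn j : ℝ) ^ 2) ≤ nn j * (C / (nn j : ℝ) ^ 2) :=
            mul_le_mul_of_nonneg_right hAc (by positivity)
        _ = C / nn j := by field_simp
    · split_ifs <;> first | exact le_rfl | positivity
  have h3 : ∑ l ∈ range r, (C / (nn j : ℝ) + (1 / (nn j : ℝ) +
        (if N l < a ∧ a < N (l + 1) then C else 0) +
        (if N l < b ∧ b < N (l + 1) then C else 0) +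
        (if (∀ i < l, F' i = F i) ∧ F' l ≠ F l then C else 0))) ≤ C + (1 + C + C + C) := by
    simp only [Finset.sum_add_distrib, Finset.sum_const, nsmul_eq_mul, Finset.card_range]
    have hrn : (r : ℝ) ≤ nn j := by exact_mod_cast hr
    have e1 : (r : ℝ) * (C / nn j) ≤ C := by
      calc (r : ℝ) * (C / nn j) ≤ nn j * (C / nn j) :=
            mul_le_mul_of_nonneg_right hrn (by positivity)
        _ = C := by field_simp
    have e2 : (r : ℝ) * (1 / nn j) ≤ 1 := by
      calc (r : ℝ) * (1 / nn j) ≤ nn j * (1 / nn j) :=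
            mul_le_mul_of_nonneg_right hrn (by positivity)
        _ = 1 := by field_simp
    have e3 := lemDa_sum_le (p := fun l => N l < a ∧ a < N (l + 1)) (hN1 a) r hC
    have e4 := lemDa_sum_le (p := fun l => N l < b ∧ b < N (l + 1)) (hN1 b) r hC
    have e5 := lemDa_sum_le (p := fun l => (∀ i < l, F' i = F i) ∧ F' l ≠ F l) hD1 r hC
    linarith
  have := h.one_le
  linarith

end Pool.Agent.FSG
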