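import Pool.Agent.FSG.LemDa
import Pool.Agent.FSG.Split

set_option autoImplicit false

open Finset Filter Topology

namespace Pool.Agent.FSG

/-- the vectors `x k` are successive -/
theorem LemDb_succ {j : ℕ} {C : ℝ} {N : ℕ → ℕ} {F x : ℕ → V} (h : DS j C N F x) {s t : ℕ}
    (hs : s < nn j) (ht : t < nn j) (hst : s < t) :
    ∀ a ∈ (x s).support, ∀ b ∈ (x t).support, a < b := by
  intro a ha b hb
  have h1 := (rs_eq_self_iff.1 (h.xs s hs) a ha).2
  have h2 := (rs_eq_self_iff.1 (h.xs t ht) b hb).1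
  exact h1.trans_le ((h.mono hst).trans h2)

/-- the weights are distinct -/
theorem LemDb_code_inj {j : ℕ} {C : ℝ} {N : ℕ → ℕ} {F x : ℕ → V} (h : DS j C N F x) {s t : ℕ}
    (hs : s < nn j) (ht : t < nn j)
    (hst : code j ((List.range s).map F) = code j ((List.range t).map F)) : s = t := by
  have hr : ∀ u < nn j, ∀ f ∈ (List.range u).map F, IsRat f := by
    intro u hu f hf
    rw [List.mem_map] at hf
    obtain ⟨k, hk, rfl⟩ := hf
    exact h.spec.rat k ((List.mem_range.1 hk).trans hu)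
  have h1 := code_inj (hr s hs) (hr t ht) hst
  simpa using congrArg List.length h1

/-- weights above `j` -/
theorem LemDb_high {j : ℕ} {C : ℝ} {N : ℕ → ℕ} {F x : ℕ → V} (h : DS j C N F x) {w : ℕ} {f : V}
    (hf : Wt w f) (hw : j < w) {A : Finset ℕ} (hA : A ⊆ range (nn j)) :
    ∑ k ∈ A, ‖pr f (x k)‖ ≤ C / (mm j : ℝ) ^ 2 * A.card + C := by
  classical
  have hC : 0 ≤ C := zero_le_one.trans h.one_le
  have hm : (0 : ℝ) < (mm j : ℝ) ^ 2 := by have := mm_posR j; positivity
  have hlt : ∀ k ∈ A, k < nn j := fun k hk => mem_range.1 (hA hk)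
  -- the indices with weight `w`
  have key : ∀ k ∈ A, code j ((List.range k).map F) ≠ w →
      ‖pr f (x k)‖ ≤ C / (mm j : ℝ) ^ 2 := by
    intro k hk hne
    rcases lt_or_gt_of_ne hne with h1 | h1
    · refine (h.high k (hlt k hk) w f hf h1).trans ?_
      apply div_le_div_of_nonneg_left hC hm
      have h2 := code_large j ((List.range k).map F)
      have h3 : mm j ^ 2 ≤ (nn j * mm j) ^ 2 :=
        Nat.pow_le_pow_left (Nat.le_mul_of_pos_left _ (nn_pos j)) 2
      exact_mod_cast h3.trans h2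
    · refine (h.low k (hlt k hk) w f hf h1).trans ?_
      apply div_le_div_of_nonneg_left hC hm
      have h2 : mm (j + 1) ≤ mm w := mm_strictMono.monotone hw
      rw [mm_succ] at h2
      exact_mod_cast h2
  have key2 : ∀ k ∈ A, ‖pr f (x k)‖ ≤ C := fun k hk =>
    (hf.mem.le_norm _).trans (h.bd k (hlt k hk))
  by_cases hex : ∃ k₀ ∈ A, code j ((List.range k₀).map F) = w
  · obtain ⟨k₀, hk₀, hw₀⟩ := hex
    rw [← Finset.add_sum_erase A _ hk₀, add_comm]
    have h1 : ∑ k ∈ A.erase k₀, ‖pr f (x k)‖ ≤ ∑ _k ∈ A.erase k₀, C / (mm j : ℝ) ^ 2 := by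
      refine Finset.sum_le_sum fun k hk => ?_
      have hkA := Finset.mem_of_mem_erase hk
      refine key k hkA fun h2 => ?_
      exact Finset.ne_of_mem_erase hk
        (LemDb_code_inj h (hlt k hkA) (hlt k₀ hk₀) (h2.trans hw₀.symm))
    have h2 : ∑ _k ∈ A.erase k₀, C / (mm j : ℝ) ^ 2 ≤ C / (mm j : ℝ) ^ 2 * A.card := by
      rw [Finset.sum_const, nsmul_eq_mul, mul_comm]
      apply mul_le_mul_of_nonneg_left _ (by positivity)
      exact_mod_cast Finset.card_le_card (Finset.erase_subset _ _)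
    exact add_le_add (h1.trans h2) (key2 k₀ hk₀)
  · push Not at hex
    have h1 : ∑ k ∈ A, ‖pr f (x k)‖ ≤ ∑ _k ∈ A, C / (mm j : ℝ) ^ 2 :=
      Finset.sum_le_sum fun k hk => key k hk (hex k hk)
    rw [Finset.sum_const, nsmul_eq_mul, mul_comm] at h1
    linarith

/-- the induction -/
theorem LemDb_ind {j : ℕ} {C : ℝ} {N : ℕ → ℕ} {F x : ℕ → V} (h : DS j C N F x) (d : ℕ) :
    ∀ f : V, K f → ∀ A ⊆ range (nn j), ‖pr f (∑ k ∈ A, x k)‖ ≤
      (4 * C / (mm j : ℝ) ^ 2 + C / 2 ^ d) * A.card + 6 * C * ((nn (j - 1) : ℝ) + 2) ^ d := by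
  classical
  have hC : 0 ≤ C := zero_le_one.trans h.one_le
  have hm : (0 : ℝ) < (mm j : ℝ) ^ 2 := by have := mm_posR j; positivity
  have hn : (0 : ℝ) < nn (j - 1) := nn_posR _
  induction d with
  | zero =>
    intro f hf A hA
    have h1 : ‖pr f (∑ k ∈ A, x k)‖ ≤ C * A.card := by
      rw [pr_sum]
      refine (norm_sum_le _ _).trans ?_
      have h2 : ∑ k ∈ A, ‖pr f (x k)‖ ≤ ∑ _k ∈ A, C :=
        Finset.sum_le_sum fun k hk => (hf.le_norm _).trans (h.bd k (mem_range.1 (hA hk)))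
      rw [Finset.sum_const, nsmul_eq_mul, mul_comm] at h2
      exact h2
    have h3 : (0 : ℝ) ≤ 4 * C / (mm j : ℝ) ^ 2 * A.card := by positivity
    simp only [pow_zero, div_one, mul_one]
    rw [add_mul]
    linarith
  | succ d ih =>
    intro f hf A hA
    have hpow : (1 : ℝ) ≤ ((nn (j - 1) : ℝ) + 2) ^ (d + 1) := one_le_pow₀ (by linarith)
    have hB : 6 * C ≤ 6 * C * ((nn (j - 1) : ℝ) + 2) ^ (d + 1) :=
      le_mul_of_one_le_right (by positivity) hpow
    have hA0 : (0 : ℝ) ≤ (4 * C / (mm j : ℝ) ^ 2 + C / 2 ^ (d + 1)) * A.card := by positivity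
    refine K.ind (P := fun f => ‖pr f (∑ k ∈ A, x k)‖ ≤
      (4 * C / (mm j : ℝ) ^ 2 + C / 2 ^ (d + 1)) * A.card +
        6 * C * ((nn (j - 1) : ℝ) + 2) ^ (d + 1)) ?_ ?_ ?_ f hf
    · intro i
      have h1 : ‖pr (ee i) (∑ k ∈ A, x k)‖ ≤ C := by
        rw [pr_sum]
        simp only [ee_pr]
        by_cases h0 : ∀ k ∈ A, x k i = 0
        · rw [Finset.sum_eq_zero h0]
          simpa using hC
        · push Not at h0
          obtain ⟨k, hk, hki⟩ := h0
          rw [Finset.sum_eq_single k]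
          · exact (coord_le_norm _ _).trans (h.bd k (mem_range.1 (hA hk)))
          · intro l hl hlk
            by_contra h2
            rw [← Ne, ← Finsupp.mem_support_iff] at h2
            rw [← Finsupp.mem_support_iff] at hki
            rcases lt_or_gt_of_ne hlk with h3 | h3
            · exact lt_irrefl _ (LemDb_succ h (mem_range.1 (hA hl)) (mem_range.1 (hA hk)) h3
                i h2 i hki)
            · exact lt_irrefl _ (LemDb_succ h (mem_range.1 (hA hk)) (mem_range.1 (hA hl)) h3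
                i hki i h2)
          · intro h2
            exact absurd hk h2
      beta_reduce
      linarith
    · intro r c g hg hc
      beta_reduce at hg ⊢
      rw [sum_pr]
      refine (norm_sum_le _ _).trans ?_
      set R := (4 * C / (mm j : ℝ) ^ 2 + C / 2 ^ (d + 1)) * A.card +
        6 * C * ((nn (j - 1) : ℝ) + 2) ^ (d + 1) with hR
      have hR0 : 0 ≤ R := by positivity
      calc ∑ i ∈ range r, ‖pr (c i • g i) (∑ k ∈ A, x k)‖
          ≤ ∑ i ∈ range r, ‖c i‖ * R := by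
            refine Finset.sum_le_sum fun i hi => ?_
            rw [smul_pr, norm_mul]
            exact mul_le_mul_of_nonneg_left (hg i (mem_range.1 hi)) (norm_nonneg _)
        _ = (∑ i ∈ range r, ‖c i‖) * R := by rw [Finset.sum_mul]
        _ ≤ 1 * R := mul_le_mul_of_nonneg_right hc hR0
        _ = R := one_mul R
    · intro w f hw
      beta_reduce
      rcases lt_trichotomy w j with h1 | h1 | h1
      · -- small weights
        obtain ⟨r, g, P, B, hr, hg, hPA, hPr, hBA, hBs, hle⟩ := split_wt hw A x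
          (fun s hs t ht hst => LemDb_succ h (mem_range.1 (hA hs)) (mem_range.1 (hA ht)) hst)
        refine hle.trans ?_
        have hrn : (r : ℝ) ≤ nn (j - 1) := by
          have h2 : nn w ≤ nn (j - 1) := nn_strictMono.monotone (by omega)
          exact_mod_cast hr.trans h2
        have hP : ∑ s ∈ P, ‖pr f (x s)‖ ≤ nn (j - 1) * C := by
          have h2 : ∑ s ∈ P, ‖pr f (x s)‖ ≤ ∑ _s ∈ P, C :=
            Finset.sum_le_sum fun k hk =>
              (hw.mem.le_norm _).trans (h.bd k (mem_range.1 (hA (hPA hk))))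
          rw [Finset.sum_const, nsmul_eq_mul] at h2
          refine h2.trans (mul_le_mul_of_nonneg_right ?_ hC)
          have : (P.card : ℝ) ≤ r := by exact_mod_cast hPr
          linarith
        set E := 4 * C / (mm j : ℝ) ^ 2 + C / 2 ^ d with hE
        have hE0 : 0 ≤ E := by positivity
        set G := 6 * C * ((nn (j - 1) : ℝ) + 2) ^ d with hG
        have hG0 : 0 ≤ G := by positivity
        have hS : ∑ l ∈ range r, ‖pr (g l) (∑ s ∈ B l, x s)‖ ≤ E * A.card + nn (j - 1) * G := by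
          calc ∑ l ∈ range r, ‖pr (g l) (∑ s ∈ B l, x s)‖
              ≤ ∑ l ∈ range r, (E * (B l).card + G) :=
                Finset.sum_le_sum fun l hl => ih (g l) (hg l (mem_range.1 hl)) (B l)
                  ((hBA l).trans hA)
            _ = E * ((∑ l ∈ range r, (B l).card : ℕ) : ℝ) + r * G := by
                rw [Finset.sum_add_distrib, ← Finset.mul_sum, Finset.sum_const, card_range,
                  nsmul_eq_mul]
                push_cast
                rfl
            _ ≤ E * A.card + nn (j - 1) * G := by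
                have h2 : ((∑ l ∈ range r, (B l).card : ℕ) : ℝ) ≤ A.card := by exact_mod_cast hBs
                gcongr
        have hmw : (1 : ℝ) / mm w ≤ 1 / 2 := by
          apply one_div_le_one_div_of_le two_pos
          exact_mod_cast two_le_mm w
        have hS0 : 0 ≤ ∑ l ∈ range r, ‖pr (g l) (∑ s ∈ B l, x s)‖ :=
          Finset.sum_nonneg fun _ _ => norm_nonneg _
        have h5 : (1 : ℝ) / mm w * ∑ l ∈ range r, ‖pr (g l) (∑ s ∈ B l, x s)‖ ≤
            1 / 2 * (E * A.card + nn (j - 1) * G) := mul_le_mul hmw hS hS0 (by norm_num)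
        have h6 : (1 : ℝ) / 2 * (E * A.card) ≤
            (4 * C / (mm j : ℝ) ^ 2 + C / 2 ^ (d + 1)) * A.card := by
          rw [← mul_assoc]
          apply mul_le_mul_of_nonneg_right _ (Nat.cast_nonneg _)
          have h7 : C / 2 ^ (d + 1) = 1 / 2 * (C / 2 ^ d) := by
            rw [pow_succ]; field_simp
          rw [hE, h7]
          have h8 : 0 ≤ C / (mm j : ℝ) ^ 2 := by positivity
          have h9 : 4 * C / (mm j : ℝ) ^ 2 = 4 * (C / (mm j : ℝ) ^ 2) := by ring
          rw [h9]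
          linarith
        have h7 : nn (j - 1) * C + 1 / 2 * (nn (j - 1) * G) ≤
            6 * C * ((nn (j - 1) : ℝ) + 2) ^ (d + 1) := by
          set n := (nn (j - 1) : ℝ) with hn'
          have hp : (1 : ℝ) ≤ (n + 2) ^ d := one_le_pow₀ (by linarith)
          rw [hG, pow_succ]
          have h8 : 0 ≤ C * n := by positivity
          have h9 : C * n * 1 ≤ C * n * (n + 2) ^ d := mul_le_mul_of_nonneg_left hp h8
          have h10 : 0 ≤ C * (n + 2) ^ d := by positivity
          nlinarith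
        calc ∑ s ∈ P, ‖pr f (x s)‖ + 1 / (mm w : ℝ) * ∑ l ∈ range r, ‖pr (g l) (∑ s ∈ B l, x s)‖
            ≤ nn (j - 1) * C + 1 / 2 * (E * A.card + nn (j - 1) * G) := add_le_add hP h5
          _ = 1 / 2 * (E * A.card) + (nn (j - 1) * C + 1 / 2 * (nn (j - 1) * G)) := by ring
          _ ≤ _ := add_le_add h6 h7
      · subst h1
        have h2 := lemDa h hw hA
        linarith
      · have h2 := LemDb_high h hw h1 hA
        have h3 : ‖pr f (∑ k ∈ A, x k)‖ ≤ C / (mm j : ℝ) ^ 2 * A.card + C := by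
          rw [pr_sum]
          exact (norm_sum_le _ _).trans h2
        have h4 : C / (mm j : ℝ) ^ 2 * A.card ≤
            (4 * C / (mm j : ℝ) ^ 2 + C / 2 ^ (d + 1)) * A.card := by
          apply mul_le_mul_of_nonneg_right _ (Nat.cast_nonneg _)
          have h5 : 0 ≤ C / 2 ^ (d + 1) := by positivity
          have h6 : 4 * C / (mm j : ℝ) ^ 2 = 4 * (C / (mm j : ℝ) ^ 2) := by ring
          have h7 : 0 ≤ C / (mm j : ℝ) ^ 2 := by positivity
          linarith
        linarith

/-- (2.5) -/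
theorem lemD {j : ℕ} {C : ℝ} {N : ℕ → ℕ} {F x : ℕ → V} (h : DS j C N F x) :
    ‖∑ k ∈ range (nn j), x k‖ ≤ 8 * C * nn j / (mm j : ℝ) ^ 2 := by
  have hC : 0 ≤ C := zero_le_one.trans h.one_le
  have hm : (0 : ℝ) < (mm j : ℝ) ^ 2 := by have := mm_posR j; positivity
  have hj : 1 ≤ j := by
    rcases h.odd with ⟨k, hk⟩
    omega
  apply normV_le
  intro f hf
  refine (LemDb_ind h (2 * 2 ^ j) f hf (range (nn j)) (Finset.Subset.refl _)).trans ?_
  rw [card_range]
  have h1 : (2 : ℝ) ^ (2 * 2 ^ j) = (mm j : ℝ) ^ 2 := by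
    unfold mm
    push_cast
    rw [← pow_mul, mul_comm]
  rw [h1]
  have h2 : 6 * ((nn (j - 1) : ℝ) + 2) ^ (2 * 2 ^ j) * (mm j : ℝ) ^ 2 ≤ nn j := by
    exact_mod_cast P2b hj
  have h3 : 6 * C * ((nn (j - 1) : ℝ) + 2) ^ (2 * 2 ^ j) ≤ C * nn j / (mm j : ℝ) ^ 2 := by
    rw [le_div_iff₀ hm]
    calc 6 * C * ((nn (j - 1) : ℝ) + 2) ^ (2 * 2 ^ j) * (mm j : ℝ) ^ 2
        = C * (6 * ((nn (j - 1) : ℝ) + 2) ^ (2 * 2 ^ j) * (mm j : ℝ) ^ 2) := by ring
      _ ≤ C * nn j := mul_le_mul_of_nonneg_left h2 hC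
  have h4 : (4 * C / (mm j : ℝ) ^ 2 + C / (mm j : ℝ) ^ 2) * nn j =
      5 * (C * nn j / (mm j : ℝ) ^ 2) := by ring
  have h5 : 8 * C * nn j / (mm j : ℝ) ^ 2 = 8 * (C * nn j / (mm j : ℝ) ^ 2) := by ring
  have h6 : 0 ≤ C * nn j / (mm j : ℝ) ^ 2 := by
    have := nn_posR j
    positivity
  rw [h4, h5]
  linarith

end Pool.Agent.FSG
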