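import Pool.Agent.FSG.WComp

set_option autoImplicit false

open Finset Filter Topology

namespace Pool.Agent.FSG

/-- evaluation at a vector, as a functional on a subspace of the dual -/
noncomputable def NSa_ev (Y : Submodule ℂ D) (x : V) : Y →L[ℂ] ℂ :=
  (ContinuousLinearMap.apply ℂ ℂ x).comp Y.subtypeL

theorem NSa_ev_apply (Y : Submodule ℂ D) (x : V) (y : Y) : NSa_ev Y x y = (y : D) x := rfl

/-- (4.4), first step -/
theorem no_sub_null (Y : Submodule ℂ D) (hY : IsClosed (Y : Set D)) (J : Y →L[ℂ] Y)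
    {y : ℕ → Y} {M : ℝ} (hM : ∀ s, ‖y s‖ ≤ M) (hJ : Tendsto (fun s => J (y s)) atTop (𝓝 0))
    (hno : ¬ ∃ φ : ℕ → ℕ, StrictMono φ ∧ ∃ l, Tendsto (fun s => y (φ s)) atTop (𝓝 l)) :
    ∃ (u : ℕ → Y) (M' δ : ℝ), (∀ i, ‖u i‖ ≤ M') ∧ 0 < δ ∧ (∀ i, δ ≤ ‖u i‖) ∧
      (∀ x : V, Tendsto (fun i => (u i : D) x) atTop (𝓝 0)) ∧ Summable fun i => ‖J (u i)‖ := by
  obtain ⟨φ, hφ, l, hl⟩ := weak_comp Y hY hM
  have hJφ : Tendsto (fun s => J (y (φ s))) atTop (𝓝 0) := hJ.comp hφ.tendsto_atTop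
  -- `J l = 0`
  have hJl : J l = 0 := by
    apply Subtype.ext
    apply ContinuousLinearMap.ext
    intro x
    have h1 : Tendsto (fun s => ((NSa_ev Y x).comp J) (y (φ s))) atTop
        (𝓝 (((NSa_ev Y x).comp J) l)) := hl _
    have h2 : Tendsto (fun s => NSa_ev Y x (J (y (φ s)))) atTop (𝓝 (NSa_ev Y x 0)) :=
      ((NSa_ev Y x).continuous.tendsto 0).comp hJφ
    have h3 := tendsto_nhds_unique h1 h2
    rw [map_zero] at h3
    exact h3
  -- the differences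
  have hnt : ¬ Tendsto (fun s => y (φ s)) atTop (𝓝 l) := fun h => hno ⟨φ, hφ, l, h⟩
  rw [Metric.tendsto_atTop] at hnt
  push Not at hnt
  obtain ⟨δ, hδ, hfr⟩ := hnt
  have hfreq : ∃ᶠ s in atTop, δ ≤ ‖y (φ s) - l‖ := by
    rw [Filter.frequently_atTop]
    intro N
    obtain ⟨s, hs, h⟩ := hfr N
    refine ⟨s, hs, ?_⟩
    rwa [dist_eq_norm] at h
  have hJw : ∀ s, J (y (φ s) - l) = J (y (φ s)) := fun s => by rw [map_sub, hJl, sub_zero]
  have hev : ∀ n : ℕ, ∀ᶠ s in atTop, ‖J (y (φ s) - l)‖ ≤ (1 / 2 : ℝ) ^ n := by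
    intro n
    have h1 : Tendsto (fun s => ‖J (y (φ s))‖) atTop (𝓝 0) := by
      have h2 := hJφ.norm
      rwa [norm_zero] at h2
    have h2 : ∀ᶠ s in atTop, ‖J (y (φ s))‖ < (1 / 2 : ℝ) ^ n :=
      h1.eventually (gt_mem_nhds (by positivity))
    filter_upwards [h2] with s hs
    rw [hJw]
    exact hs.le
  obtain ⟨ψ, hψ, hψ2⟩ := Filter.extraction_forall_of_frequently
    (P := fun n s => δ ≤ ‖y (φ s) - l‖ ∧ ‖J (y (φ s) - l)‖ ≤ (1 / 2 : ℝ) ^ n)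
    (fun n => hfreq.and_eventually (hev n))
  refine ⟨fun i => y (φ (ψ i)) - l, M + ‖l‖, δ, ?_, hδ, fun i => (hψ2 i).1, ?_, ?_⟩
  · intro i
    exact (norm_sub_le _ _).trans (add_le_add (hM _) le_rfl)
  · intro x
    have h1 : Tendsto (fun s => NSa_ev Y x (y (φ s))) atTop (𝓝 (NSa_ev Y x l)) := hl _
    have h2 : Tendsto (fun s => NSa_ev Y x (y (φ s)) - NSa_ev Y x l) atTop (𝓝 0) := by
      have h3 := h1.sub_const (NSa_ev Y x l)
      rwa [sub_self] at h3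
    refine (h2.comp hψ.tendsto_atTop).congr (fun i => ?_)
    show NSa_ev Y x (y (φ (ψ i))) - NSa_ev Y x l = ((y (φ (ψ i)) - l : Y) : D) x
    rw [NSa_ev_apply, NSa_ev_apply]
    rfl
  · refine Summable.of_nonneg_of_le (fun i => norm_nonneg _) (fun i => (hψ2 i).2) ?_
    exact summable_geometric_of_lt_one (by norm_num) (by norm_num)

end Pool.Agent.FSG
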