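import Pool.Agent.FSG.ClaimW
import Pool.Agent.FSG.Aver
import Pool.Agent.FSG.RISm

set_option autoImplicit false

open Finset Filter Topology

namespace Pool.Agent.FSG

theorem NSb_tail {a : ℕ → ℝ} (_h0 : ∀ i, 0 ≤ a i) (ha : Summable a) (q : ℕ) : ∃ i₀, q ≤ i₀ ∧
    ∀ B : Finset ℕ, (∀ i ∈ B, i₀ ≤ i) → ∑ i ∈ B, a i ≤ 1 / ((q : ℝ) + 1) := by
  obtain ⟨s, hs⟩ := summable_iff_vanishing_norm.mp ha (1 / ((q : ℝ) + 1)) (by positivity)
  refine ⟨max q (s.sup id + 1), le_max_left _ _, fun B hB => ?_⟩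
  have h1 : Disjoint B s := by
    rw [Finset.disjoint_left]
    intro i hi his
    have h2 := hB i hi
    have h3 : i ≤ s.sup id := Finset.le_sup (f := id) his
    have h4 := le_max_right q (s.sup id + 1)
    omega
  exact (le_abs_self _).trans (hs B h1).le

/-- (4.4), second step -/
theorem exists_tp (Y : Submodule ℂ D) (J : Y →L[ℂ] Y) {u : ℕ → Y} {M δ : ℝ}
    (hM : ∀ i, ‖u i‖ ≤ M) (hδ : 0 < δ) (hl : ∀ i, δ ≤ ‖u i‖)
    (hn : ∀ x : V, Tendsto (fun i => (u i : D) x) atTop (𝓝 0))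
    (hJ : Summable fun i => ‖J (u i)‖) :
    ∃ (w : ℕ → Y) (z : ℕ → V), TP Y w z ∧
      Tendsto (fun q => (J (w q) : D) (z q)) atTop (𝓝 0) := by
  choose i₀ hq hi₀ using NSb_tail (fun i => norm_nonneg (J (u i))) hJ
  have hcl := fun q : ℕ => claimW (u := fun i => (u i : D)) hM hδ hl hn (nn q) (i₀ q) (nn_pos q)
    (η := 1 / ((q : ℝ) + 1)) (by positivity)
  choose B θ x hB hθ h2 hs hx hsupp hr hre using hcl
  set w' : ℕ → Y := fun q => θ q • ∑ i ∈ B q, u i with hw'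
  have hcoe : ∀ q, ((w' q : Y) : D) = θ q • ∑ i ∈ B q, (u i : D) := by
    intro q
    simp [hw']
  set z : ℕ → V := fun q => (1 / (nn q : ℂ)) • ∑ c ∈ range (nn q), x q c with hz
  set lam : ℕ → ℂ := fun q => (w' q : D) (z q) with hlam
  have hlre : ∀ q, 1 / 4 ≤ (lam q).re := by
    intro q
    show 1 / 4 ≤ ((w' q : D) (z q)).re
    rw [hcoe q]
    exact hre q
  have hln : ∀ q, 1 / 4 ≤ ‖lam q‖ := fun q =>
    (hlre q).trans ((le_abs_self _).trans (Complex.abs_re_le_norm _))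
  have hl0 : ∀ q, lam q ≠ 0 := fun q h0 => by
    have := hln q
    rw [h0, norm_zero] at this
    norm_num at this
  have hlinv : ∀ q, ‖(lam q)⁻¹‖ ≤ 4 := by
    intro q
    rw [norm_inv, inv_le_comm₀ (by have := hln q; linarith) (by norm_num)]
    have := hln q
    linarith
  have hPR : PR 2 z := by
    apply avg_PR hs hx
    intro N
    filter_upwards [eventually_ge_atTop N] with s hsN c hc a ha
    exact hsN.trans ((hq s).trans (hsupp s c hc a ha))
  have hq0 : Tendsto (fun q : ℕ => 1 / ((q : ℝ) + 1)) atTop (𝓝 0) :=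
    tendsto_one_div_add_atTop_nhds_zero_nat
  refine ⟨fun q => (lam q)⁻¹ • w' q, z, ⟨⟨8, ?_⟩, ?_, ⟨2, hPR⟩, ?_⟩, ?_⟩
  · intro q
    have h3 : ‖w' q‖ ≤ 2 := by
      have h4 : ‖w' q‖ = ‖((w' q : Y) : D)‖ := rfl
      rw [h4, hcoe q]
      exact h2 q
    rw [norm_smul]
    calc ‖(lam q)⁻¹‖ * ‖w' q‖ ≤ 4 * 2 := mul_le_mul (hlinv q) h3 (norm_nonneg _) (by norm_num)
      _ = 8 := by norm_num
  · intro y
    obtain ⟨n0, hn0⟩ : ∃ n0, ∀ i ∈ y.support, i < n0 :=
      ⟨y.support.sup id + 1, fun i hi => Nat.lt_succ_of_le (Finset.le_sup (f := id) hi)⟩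
    have h3 : ∀ᶠ q in atTop, ‖(((lam q)⁻¹ • w' q : Y) : D) y‖ ≤ 4 * (1 / ((q : ℝ) + 1) * ‖y‖) := by
      filter_upwards [eventually_ge_atTop n0] with q hqn
      have h4 : rs 0 (i₀ q) y = y := by
        rw [rs_eq_self_iff]
        intro i hi
        exact ⟨Nat.zero_le _, (hn0 i hi).trans_le (hqn.trans (hq q))⟩
      have h5 : (((lam q)⁻¹ • w' q : Y) : D) y = (lam q)⁻¹ * (w' q : D) y := by
        rw [Submodule.coe_smul]
        rfl
      have h6 : (w' q : D) y = rD 0 (i₀ q) (θ q • ∑ i ∈ B q, (u i : D)) y := by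
        rw [rD_apply, h4, hcoe q]
      rw [h5, norm_mul, h6]
      refine mul_le_mul (hlinv q) ?_ (norm_nonneg _) (by norm_num)
      exact (ContinuousLinearMap.le_opNorm _ _).trans
        (mul_le_mul_of_nonneg_right (hr q) (norm_nonneg _))
    have h4 : Tendsto (fun q : ℕ => 4 * (1 / ((q : ℝ) + 1) * ‖y‖)) atTop (𝓝 0) := by
      have := (hq0.mul_const ‖y‖).const_mul 4
      simpa using this
    exact squeeze_zero_norm' h3 h4
  · intro q
    have h5 : (((lam q)⁻¹ • w' q : Y) : D) (z q) = (lam q)⁻¹ * lam q := by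
      rw [Submodule.coe_smul]
      rfl
    rw [h5]
    exact inv_mul_cancel₀ (hl0 q)
  · have h3 : ∀ q, ‖(J ((lam q)⁻¹ • w' q) : D) (z q)‖ ≤
        4 * (2 / δ * (1 / ((q : ℝ) + 1))) * 2 := by
      intro q
      have h4 : ‖J ((lam q)⁻¹ • w' q)‖ ≤ 4 * (2 / δ * (1 / ((q : ℝ) + 1))) := by
        rw [map_smul, norm_smul]
        refine mul_le_mul (hlinv q) ?_ (norm_nonneg _) (by norm_num)
        show ‖J (θ q • ∑ i ∈ B q, u i)‖ ≤ _
        rw [map_smul, norm_smul, map_sum]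
        refine mul_le_mul (hθ q) ?_ (norm_nonneg _) (by positivity)
        exact (norm_sum_le _ _).trans (hi₀ q (B q) (hB q))
      have h5 : ‖(J ((lam q)⁻¹ • w' q) : D) (z q)‖ ≤ ‖(J ((lam q)⁻¹ • w' q) : D)‖ * ‖z q‖ :=
        ContinuousLinearMap.le_opNorm _ _
      exact h5.trans (mul_le_mul h4 (hPR.bd q) (norm_nonneg _) (by positivity))
    have h4 : Tendsto (fun q : ℕ => 4 * (2 / δ * (1 / ((q : ℝ) + 1))) * 2) atTop (𝓝 0) := by
      have := ((hq0.const_mul (2 / δ)).const_mul 4).mul_const 2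
      simpa using this
    exact squeeze_zero_norm h3 h4

end Pool.Agent.FSG
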