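import Pool.Agent.FSG.NSa
import Pool.Agent.FSG.NSb
import Pool.Agent.FSG.Merge

set_option autoImplicit false

open Finset Filter Topology

namespace Pool.Agent.FSG

/-- (4.4) -/
theorem no_sub (Y : Submodule ℂ D) (hY : IsClosed (Y : Set D)) (J : Y →L[ℂ] Y)
    {y : ℕ → Y} {M : ℝ} (hM : ∀ s, ‖y s‖ ≤ M) (hJ : Tendsto (fun s => J (y s)) atTop (𝓝 0))
    (hno : ¬ ∃ φ : ℕ → ℕ, StrictMono φ ∧ ∃ l, Tendsto (fun s => y (φ s)) atTop (𝓝 l))
    {yD : ℕ → Y} {zD : ℕ → V} (hD : TP Y yD zD) :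
    Tendsto (fun i => (J (yD i) : D) (zD i)) atTop (𝓝 0) := by
  obtain ⟨u, M', δ, hu, hδ, hl, hn, hs⟩ := no_sub_null Y hY J hM hJ hno
  obtain ⟨w, z, hTP, hw⟩ := exists_tp Y J hu hδ hl hn hs
  by_contra hcon
  -- boundedness
  obtain ⟨M1, hM1⟩ := hD.bd
  obtain ⟨C, hC⟩ := hD.pre
  have hM1' : 0 ≤ M1 := (norm_nonneg _).trans (hM1 0)
  have hbd : ∀ i, ‖(J (yD i) : D) (zD i)‖ ≤ ‖J‖ * M1 * C := by
    intro i
    have h1 : ‖(J (yD i) : D) (zD i)‖ ≤ ‖(J (yD i) : D)‖ * ‖zD i‖ :=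
      ContinuousLinearMap.le_opNorm _ _
    have h2 : ‖(J (yD i) : D)‖ ≤ ‖J‖ * M1 :=
      (J.le_opNorm (yD i)).trans (mul_le_mul_of_nonneg_left (hM1 i) (norm_nonneg _))
    refine h1.trans ?_
    exact mul_le_mul h2 (hC.bd i) (norm_nonneg _) (mul_nonneg J.opNorm_nonneg hM1')
  -- a subsequence away from zero
  have hfreq : ∃ ε : ℝ, 0 < ε ∧ ∃ᶠ i in atTop, ε ≤ ‖(J (yD i) : D) (zD i)‖ := by
    by_contra hne
    push Not at hne
    apply hcon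
    rw [tendsto_zero_iff_norm_tendsto_zero, Metric.tendsto_atTop]
    intro ε hε
    have h3 := hne ε hε
    obtain ⟨N, hN⟩ := Filter.eventually_atTop.mp h3
    refine ⟨N, fun n hn => ?_⟩
    have h4 := hN n hn
    rw [Real.dist_eq, sub_zero, abs_of_nonneg (norm_nonneg _)]
    exact h4
  obtain ⟨ε, hε, hf⟩ := hfreq
  obtain ⟨φ, hφ, hφe⟩ := Filter.extraction_of_frequently_atTop hf
  -- a convergent subsequence
  obtain ⟨α, _, ψ, hψ, hα⟩ := tendsto_subseq_of_bounded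
    (x := fun i => (J (yD (φ i)) : D) (zD (φ i))) (s := Metric.closedBall 0 (‖J‖ * M1 * C))
    Metric.isBounded_closedBall (fun i => by
      rw [mem_closedBall_zero_iff]
      exact hbd (φ i))
  have hα' : Tendsto (fun s => (J (yD ((φ ∘ ψ) s)) : D) (zD ((φ ∘ ψ) s))) atTop (𝓝 α) := hα
  have h5 : α = 0 := merge Y hY J (hD.comp (hφ.comp hψ)) hTP hα' hw
  have h6 : ε ≤ ‖α‖ := by
    refine le_of_tendsto_of_tendsto' tendsto_const_nhds hα'.norm fun s => ?_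
    exact hφe (ψ s)
  rw [h5, norm_zero] at h6
  exact absurd hε (not_lt.mpr h6)

end Pool.Agent.FSG
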