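import Pool.Agent.FSG.DScal
import Pool.Agent.FSG.DLim
import Pool.Agent.FSG.NoSub
import Pool.Agent.FSG.AbsDefs

set_option autoImplicit false

open Finset Filter Topology

namespace Pool.Agent.FSG

theorem Scal_tendsto {C₀ : ℝ} {σ τ : ℕ → ℕ → ℕ → ℂ} (h : Davie C₀ σ τ)
    {a : (YS σ τ →L[ℂ] YS σ τ) →ₗ[ℂ] ℂ}
    (ha : ∀ T, Tendsto (fun k => beta σ τ k T) atTop (𝓝 (a T))) (T : YS σ τ →L[ℂ] YS σ τ) :
    Tendsto (fun i => (T ((1 / (mm (2 * (i + 1)) : ℂ)) • yv σ τ (rk i) 0) : D)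
      ((mm (2 * (i + 1)) : ℂ) • al σ (rk i) 0)) atTop (𝓝 (a T)) := by
  have h1 := tendsto_pair h ha T (c := fun _ => 0) (fun i => by positivity)
  refine h1.congr fun i => ?_
  have hm : (mm (2 * (i + 1)) : ℂ) ≠ 0 := by exact_mod_cast (mm_pos _).ne'
  rw [map_smul, map_smul]
  have h2 : (((1 / (mm (2 * (i + 1)) : ℂ)) • T (yv σ τ (rk i) 0) : YS σ τ) : D)
      = (1 / (mm (2 * (i + 1)) : ℂ)) • (T (yv σ τ (rk i) 0) : D) := rfl
  rw [h2, _root_.smul_apply, smul_eq_mul, smul_eq_mul]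
  field_simp

/-- (5.3), (5.5), (5.6): the space has a scalar part -/
theorem exists_scalarPart {C₀ : ℝ} {σ τ : ℕ → ℕ → ℕ → ℂ} (h : Davie C₀ σ τ) :
    ∃ a : (YS σ τ →L[ℂ] YS σ τ) →ₗ[ℂ] ℂ, ScalarPart a := by
  obtain ⟨a, h1, ha, hsot⟩ := exists_scal h
  have hTP := tp_davie h (c := fun _ => 0) (fun i => by positivity)
  refine ⟨a, h1, hsot, ?_, ?_, ?_⟩
  · intro J hJ y M hM hJy
    by_contra hno
    have h2 := no_sub (YS σ τ) (YS_closed σ τ) J hM hJy hno hTP
    exact hJ (tendsto_nhds_unique (Scal_tendsto h ha J) h2)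
  · intro A S hA
    obtain ⟨M, hM⟩ := hTP.bd
    obtain ⟨C, hC⟩ := hTP.pre
    set y : ℕ → YS σ τ := fun i => (1 / (mm (2 * (i + 1)) : ℂ)) • yv σ τ (rk i) 0 with hy
    set z : ℕ → V := fun i => (mm (2 * (i + 1)) : ℂ) • al σ (rk i) 0 with hz
    set c : ℕ → ℂ := fun i => (S (y i) : D) (z i) with hc
    have hcS : Tendsto c atTop (𝓝 (a S)) := Scal_tendsto h ha S
    have hM0 : 0 ≤ M := (norm_nonneg _).trans (hM 0)
    obtain ⟨B, hB⟩ : ∃ B : ℝ, ∀ i, ‖c i‖ ≤ B := by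
      obtain ⟨B, hB⟩ := (Metric.isBounded_range_of_tendsto c hcS).exists_norm_le
      exact ⟨B, fun i => hB _ ⟨i, rfl⟩⟩
    set u : ℕ → YS σ τ := fun i => S (y i) - c i • y i with hu
    have hub : ∀ i, ‖u i‖ ≤ ‖S‖ * M + B * M := by
      intro i
      refine (norm_sub_le _ _).trans (add_le_add ?_ ?_)
      · exact (S.le_opNorm _).trans (mul_le_mul_of_nonneg_left (hM i) (norm_nonneg _))
      · rw [norm_smul]
        exact mul_le_mul (hB i) (hM i) (norm_nonneg _) ((norm_nonneg _).trans (hB i))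
    have huz : ∀ i, (u i : D) (z i) = 0 := by
      intro i
      have h3 : (u i : D) = (S (y i) : D) - c i • (y i : D) := rfl
      rw [h3, _root_.sub_apply, _root_.smul_apply, smul_eq_mul]
      have h4 : (y i : D) (z i) = 1 := hTP.one i
      rw [h4, mul_one]
      exact sub_self _
    have hE : Tendsto (fun i => (A (u i) : D) (z i)) atTop (𝓝 0) := by
      apply thmE (YS σ τ) (YS_closed σ τ) A hub hC
      refine tendsto_const_nhds.congr fun i => (huz i).symm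
    have hAy : Tendsto (fun i => (A (y i) : D) (z i)) atTop (𝓝 (a A)) := Scal_tendsto h ha A
    have hAS : Tendsto (fun i => ((A * S) (y i) : D) (z i)) atTop (𝓝 (a (A * S))) :=
      Scal_tendsto h ha (A * S)
    have h5 : Tendsto (fun i => (A (u i) : D) (z i) + c i * (A (y i) : D) (z i)) atTop
        (𝓝 (0 + a S * a A)) := hE.add (hcS.mul hAy)
    rw [hA, mul_zero, add_zero] at h5
    refine tendsto_nhds_unique hAS (h5.congr fun i => ?_)
    have h6 : A (u i) = A (S (y i)) - c i • A (y i) := by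
      rw [hu]
      simp only [map_sub, map_smul]
    have h7 : (A (u i) : D) = (A (S (y i)) : D) - c i • (A (y i) : D) := by rw [h6]; rfl
    rw [h7, _root_.sub_apply, _root_.smul_apply, smul_eq_mul,
      sub_add_cancel]
    rfl
  · intro y M hM
    exact weak_comp (YS σ τ) (YS_closed σ τ) hM

end Pool.Agent.FSG
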