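import Pool.Agent.FSG.Tail

set_option autoImplicit false

open Finset Filter Topology

namespace Pool.Agent.FSG

/-- the supports of the vectors move to the right -/
theorem select_le_supp {Y : Submodule ℂ D} {T : Y →L[ℂ] Y} {u : ℕ → Y} {z : ℕ → V} {j : ℕ → ℕ}
    {C δ : ℝ} (h : EH Y T u z j C δ) : ∀ s, ∀ a ∈ (z s).support, s ≤ a := by
  have hne : ∀ s, (z s).support.Nonempty := by
    intro s
    rw [Finsupp.support_nonempty_iff]
    intro h0
    have h1 := h.low s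
    rw [h0] at h1
    simp only [map_zero, Complex.zero_re] at h1
    exact absurd h.pos (not_lt.mpr h1)
  intro s
  induction s with
  | zero => intro a _; exact Nat.zero_le a
  | succ s ih =>
    intro a ha
    obtain ⟨b, hb⟩ := hne s
    have h1 := ih b hb
    have h2 := h.ris.succ (s + 2) s (s + 1) (Nat.lt_succ_self s) (Nat.lt_succ_self _) b hb a ha
    omega

/-- one step of the selection -/
theorem select_step {Y : Submodule ℂ D} {T : Y →L[ℂ] Y} {u : ℕ → Y} {z : ℕ → V} {j : ℕ → ℕ}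
    {C δ : ℝ} (h : EH Y T u z j C δ) (w : ℕ) {η : ℝ} (hη : 0 < η) (p N : ℕ) :
    ∃ s M : ℕ, p ≤ s ∧ N ≤ M ∧ w < j s ∧ rs N M (z s) = z s ∧
      ‖(u s : D) - rD N M (u s : D)‖ ≤ η ∧ ‖(T (u s) : D) - rD N M (T (u s) : D)‖ ≤ η ∧
      ‖(u s : D) (z s)‖ ≤ η := by
  have e1 := small_out (u := fun s => (u s : D)) h.null N hη
  have e2 := small_out (u := fun s => (T (u s) : D)) h.nullT N hη
  have e3 : ∀ᶠ s in atTop, ‖(u s : D) (z s)‖ ≤ η := by
    have h1 := h.pair.norm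
    rw [norm_zero] at h1
    exact (h1.eventually (gt_mem_nhds hη)).mono fun s hs => hs.le
  have e4 : ∀ᶠ s in atTop, max (max p N) (w + 1) ≤ s := eventually_ge_atTop _
  obtain ⟨s, ⟨N₁, h1⟩, ⟨N₂, h2⟩, h3, h4⟩ := (e1.and (e2.and (e3.and e4))).exists
  have hp : p ≤ s := (le_max_left p N).trans ((le_max_left _ _).trans h4)
  have hN : N ≤ s := (le_max_right p N).trans ((le_max_left _ _).trans h4)
  have hw : w + 1 ≤ s := (le_max_right _ _).trans h4
  refine ⟨s, max (max N₁ N₂) (max N ((z s).support.sup id + 1)), hp, ?_, ?_, ?_, ?_, ?_, h3⟩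
  · exact (le_max_left _ _).trans (le_max_right _ _)
  · exact lt_of_lt_of_le (Nat.lt_of_succ_le hw) h.ris.mono.le_apply
  · rw [rs_eq_self_iff]
    intro i hi
    refine ⟨hN.trans (select_le_supp h s i hi), ?_⟩
    have h5 : i ≤ (z s).support.sup id := Finset.le_sup (f := id) hi
    exact lt_of_lt_of_le (Nat.lt_succ_of_le h5) ((le_max_right _ _).trans (le_max_right _ _))
  · exact h1 _ ((le_max_left _ _).trans (le_max_left _ _))
  · exact h2 _ ((le_max_right _ _).trans (le_max_left _ _))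

/-- (4.1) (i) -/
theorem select {Y : Submodule ℂ D} {T : Y →L[ℂ] Y} {u : ℕ → Y} {z : ℕ → V} {j : ℕ → ℕ}
    {C δ : ℝ} (h : EH Y T u z j C δ) (N w : ℕ) {η : ℝ} (hη : 0 < η) :
    ∃ s M : ℕ → ℕ, M 0 = N ∧ Monotone M ∧ StrictMono s ∧ (∀ a, w < j (s a)) ∧
      (∀ a, rs (M a) (M (a + 1)) (z (s a)) = z (s a)) ∧
      (∀ a, ‖(u (s a) : D) - rD (M a) (M (a + 1)) (u (s a) : D)‖ ≤ η) ∧
      (∀ a, ‖(T (u (s a)) : D) - rD (M a) (M (a + 1)) (T (u (s a)) : D)‖ ≤ η) ∧
      (∀ a, ‖(u (s a) : D) (z (s a))‖ ≤ η) := by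
  choose sf Mf h1 h2 h3 h4 h5 h6 h7 using select_step h w hη
  let st : ℕ → ℕ × ℕ := fun a =>
    Nat.rec (0, N) (fun _ q => (sf q.1 q.2 + 1, Mf q.1 q.2)) a
  have hst : ∀ a, st (a + 1) = (sf (st a).1 (st a).2 + 1, Mf (st a).1 (st a).2) := fun a => rfl
  refine ⟨fun a => sf (st a).1 (st a).2, fun a => (st a).2, rfl, ?_, ?_, ?_, ?_, ?_, ?_, ?_⟩
  · exact monotone_nat_of_le_succ fun a => by rw [hst a]; exact h2 _ _
  · refine strictMono_nat_of_lt_succ fun a => ?_
    have := h1 (st (a + 1)).1 (st (a + 1)).2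
    rw [hst a] at this
    rw [hst a]
    exact Nat.lt_of_succ_le this
  · exact fun a => h3 _ _
  · intro a
    beta_reduce
    rw [hst a]
    exact h4 _ _
  · intro a
    beta_reduce
    rw [hst a]
    exact h5 _ _
  · intro a
    beta_reduce
    rw [hst a]
    exact h6 _ _
  · exact fun a => h7 _ _

end Pool.Agent.FSG
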