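import Pool.Agent.FSG.WSeq

set_option autoImplicit false

open Finset Filter Topology

namespace Pool.Agent.FSG

/-- the coordinatewise limit is a bounded functional -/
theorem WComp_limit {v : ℕ → D} {M : ℝ} (hM : ∀ s, ‖v s‖ ≤ M) :
    ∃ φ : ℕ → ℕ, StrictMono φ ∧ ∃ u : D, ∀ x : V, Tendsto (fun s => v (φ s) x) atTop (𝓝 (u x)) := by
  have hM0 : 0 ≤ M := (norm_nonneg _).trans (hM 0)
  -- compactness of the product
  have hcomp : IsCompact (Set.pi Set.univ fun i : ℕ =>
      Metric.closedBall (0 : ℂ) (M * ‖(ee i : V)‖)) :=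
    isCompact_univ_pi fun i => isCompact_closedBall _ _
  have hmem : ∀ s, (fun i => v s (ee i)) ∈ (Set.pi Set.univ fun i : ℕ =>
      Metric.closedBall (0 : ℂ) (M * ‖(ee i : V)‖)) := by
    intro s i _
    rw [mem_closedBall_zero_iff]
    exact ((v s).le_opNorm _).trans (mul_le_mul_of_nonneg_right (hM s) (norm_nonneg _))
  obtain ⟨l, -, φ, hφ, hl⟩ := hcomp.tendsto_subseq hmem
  rw [tendsto_pi_nhds] at hl
  -- the linear functional
  let L : V →ₗ[ℂ] ℂ := Finsupp.linearCombination ℂ l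
  have hrep : ∀ (w : D) (x : V), w x = ∑ i ∈ x.support, x i * w (ee i) := by
    intro w x
    conv_lhs => rw [← Finsupp.sum_single x]
    unfold Finsupp.sum
    rw [map_sum]
    refine Finset.sum_congr rfl fun i _ => ?_
    have : (Finsupp.single i (x i) : V) = x i • ee i := by
      rw [Finsupp.smul_single, smul_eq_mul, mul_one]
    rw [this, map_smul, smul_eq_mul]
  have hL : ∀ x : V, L x = ∑ i ∈ x.support, x i * l i := by
    intro x
    simp only [L, Finsupp.linearCombination_apply, Finsupp.sum, smul_eq_mul]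
  have hlim : ∀ x : V, Tendsto (fun s => v (φ s) x) atTop (𝓝 (L x)) := by
    intro x
    rw [hL x]
    simp only [fun s => hrep (v (φ s)) x]
    exact tendsto_finsetSum _ fun i _ => (hl i).const_mul (x i)
  refine ⟨φ, hφ, L.mkContinuous M ?_, ?_⟩
  · intro x
    refine le_of_tendsto (hlim x).norm (Eventually.of_forall fun s => ?_)
    exact ((v (φ s)).le_opNorm _).trans (mul_le_mul_of_nonneg_right (hM _) (norm_nonneg _))
  · intro x
    exact hlim x

/-- (3.4) -/
theorem weak_comp (Y : Submodule ℂ D) (hY : IsClosed (Y : Set D)) {y : ℕ → Y} {M : ℝ}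
    (hM : ∀ s, ‖y s‖ ≤ M) :
    ∃ φ : ℕ → ℕ, StrictMono φ ∧ ∃ u : Y, ∀ ξ : Y →L[ℂ] ℂ,
      Tendsto (fun s => ξ (y (φ s))) atTop (𝓝 (ξ u)) := by
  obtain ⟨φ, hφ, u, hu⟩ := WComp_limit (v := fun s => (y s : D)) (M := M) (fun s => hM s)
  have hweak : ∀ ξ : D →L[ℂ] ℂ, Tendsto (fun s => ξ (y (φ s) : D)) atTop (𝓝 (ξ u)) := by
    intro ξ
    have h1 := weak_null_of_pointwise (v := fun s => (y (φ s) : D) - u) (M := M + ‖u‖)
      (fun t => (norm_sub_le _ _).trans (add_le_add_left (hM (φ t)) _)) (by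
        intro x
        have := (hu x).sub_const (u x)
        simpa using this) ξ
    have h2 := h1.add_const (ξ u)
    simpa using h2
  have huY : u ∈ Y := by
    by_contra hcon
    have hconv : Convex ℝ (Y : Set D) := by
      intro a ha b hb s t _ _ _
      have h1 : s • a = (s : ℂ) • a := by
        ext x; simp
      have h2 : t • b = (t : ℂ) • b := by
        ext x; simp
      rw [h1, h2]
      exact Y.add_mem (Y.smul_mem _ ha) (Y.smul_mem _ hb)
    obtain ⟨f, r, h1, h2⟩ := RCLike.geometric_hahn_banach_closed_point (𝕜 := ℂ) hconv hY hcon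
    have h3 := (RCLike.continuous_re.tendsto _).comp (hweak f)
    have h4 : RCLike.re (f u) ≤ r :=
      le_of_tendsto h3 (Eventually.of_forall fun s => (h1 _ (y (φ s)).2).le)
    exact absurd h2 (not_lt.2 h4)
  refine ⟨φ, hφ, ⟨u, huY⟩, fun ξ => ?_⟩
  obtain ⟨g, hg, -⟩ := exists_extension_norm_eq (𝕜 := ℂ) Y ξ
  have h := hweak g
  have e1 : ∀ s, g (y (φ s) : D) = ξ (y (φ s)) := fun s => hg _
  have e2 : g u = ξ ⟨u, huY⟩ := hg ⟨u, huY⟩
  simp only [e1, e2] at h
  exact h

end Pool.Agent.FSG
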