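import Pool.Agent.FSG.ThmEx
import Pool.Agent.FSG.WComp

set_option autoImplicit false

open Finset Filter Topology

namespace Pool.Agent.FSG

/-- a bounded factor does not destroy convergence to zero -/
theorem ThmE_mul_null {c a : ℕ → ℂ} {B : ℝ} (hc : ∀ s, ‖c s‖ ≤ B)
    (ha : Tendsto a atTop (𝓝 0)) : Tendsto (fun s => c s * a s) atTop (𝓝 0) := by
  rw [tendsto_zero_iff_norm_tendsto_zero] at ha ⊢
  have h1 : Tendsto (fun s => B * ‖a s‖) atTop (𝓝 0) := by
    simpa using ha.const_mul B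
  refine squeeze_zero (fun s => norm_nonneg _) (fun s => ?_) h1
  rw [norm_mul]
  exact mul_le_mul_of_nonneg_right (hc s) (norm_nonneg _)

/-- a phase -/
theorem ThmE_phase (a : ℂ) : ∃ c : ℂ, ‖c‖ = 1 ∧ c * a = (‖a‖ : ℂ) := by
  by_cases h : a = 0
  · exact ⟨1, by simp, by simp [h]⟩
  · have h1 : (‖a‖ : ℂ) ≠ 0 := by exact_mod_cast (norm_ne_zero_iff.mpr h)
    refine ⟨(starRingEnd ℂ) a / (‖a‖ : ℂ), ?_, ?_⟩
    · simp only [norm_div, RCLike.norm_conj, Complex.norm_real, Real.norm_eq_abs, abs_norm]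
      exact div_self (norm_ne_zero_iff.mpr h)
    · rw [div_mul_eq_mul_div, div_eq_iff h1, mul_comm, Complex.mul_conj, Complex.normSq_eq_norm_sq]
      push_cast
      ring

/-- (4.1) Theorem E -/
theorem thmE (Y : Submodule ℂ D) (hY : IsClosed (Y : Set D)) (T : Y →L[ℂ] Y) {u : ℕ → Y}
    {M : ℝ} (hu : ∀ s, ‖u s‖ ≤ M) {C : ℝ} {z : ℕ → V} (hz : PR C z)
    (h : Tendsto (fun s => (u s : D) (z s)) atTop (𝓝 0)) :
    Tendsto (fun s => (T (u s) : D) (z s)) atTop (𝓝 0) := by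
  by_contra hcon
  rw [Metric.tendsto_atTop] at hcon
  push Not at hcon
  obtain ⟨d, hd, hfr⟩ := hcon
  have hfr' : ∃ᶠ s in atTop, d ≤ ‖(T (u s) : D) (z s)‖ := by
    rw [frequently_atTop]
    intro a
    obtain ⟨n, hn, h1⟩ := hfr a
    refine ⟨n, hn, ?_⟩
    rwa [dist_zero_right] at h1
  obtain ⟨φ, hφ, hφd⟩ := extraction_of_frequently_atTop hfr'
  obtain ⟨φ₂, hφ₂, u₀, hu₀⟩ := weak_comp Y hY (y := fun s => u (φ s)) (fun s => hu (φ s))
  obtain ⟨φ₃, hφ₃, j, hris⟩ := ((hz.comp hφ).comp hφ₂).exists_ris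
  -- the composed subsequence
  set Φ : ℕ → ℕ := fun s => φ (φ₂ (φ₃ s)) with hΦ
  have hΦm : StrictMono Φ := hφ.comp (hφ₂.comp hφ₃)
  have hris' : RIS (max C 1) j (fun s => z (Φ s)) := hris.mono_const (le_max_left C 1)
  have hlim : ∀ ξ : Y →L[ℂ] ℂ, Tendsto (fun s => ξ (u (Φ s))) atTop (𝓝 (ξ u₀)) := fun ξ =>
    (hu₀ ξ).comp hφ₃.tendsto_atTop
  have hzΦ : PR C (fun s => z (Φ s)) := hz.comp hΦm
  set v : ℕ → Y := fun s => u (Φ s) - u₀ with hv
  have hvb : ∀ s, ‖v s‖ ≤ M + ‖u₀‖ := fun s =>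
    (norm_sub_le _ _).trans (add_le_add (hu _) le_rfl)
  have hvnull : ∀ x : V, Tendsto (fun s => (v s : D) x) atTop (𝓝 0) := by
    intro x
    have h1 := hlim ((ContinuousLinearMap.apply ℂ ℂ x).comp Y.subtypeL)
    have h2 : Tendsto (fun s => (u (Φ s) : D) x - (u₀ : D) x) atTop
        (𝓝 ((u₀ : D) x - (u₀ : D) x)) := h1.sub_const _
    rw [sub_self] at h2
    refine h2.congr fun s => ?_
    simp [hv]
  have hTnull := null_map Y T hvb hvnull
  have hpair : Tendsto (fun s => (v s : D) (z (Φ s))) atTop (𝓝 0) := by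
    have h1 := h.comp hΦm.tendsto_atTop
    have h2 := hzΦ.weak_null (u₀ : D)
    have h3 := h1.sub h2
    rw [sub_zero] at h3
    refine h3.congr fun s => ?_
    simp [hv]
  have hTu₀ := hzΦ.weak_null (T u₀ : D)
  obtain ⟨s₀, hs₀⟩ := (Metric.tendsto_atTop.mp hTu₀) (d / 2) (by linarith)
  have hlow : ∀ s, d / 2 ≤ ‖(T (v (s + s₀)) : D) (z (Φ (s + s₀)))‖ := by
    intro s
    have h1 := hφd (φ₂ (φ₃ (s + s₀)))
    have h2 := hs₀ (s + s₀) (by omega)
    rw [dist_zero_right] at h2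
    have h3 : (T (v (s + s₀)) : D) (z (Φ (s + s₀))) =
        (T (u (Φ (s + s₀))) : D) (z (Φ (s + s₀))) - (T u₀ : D) (z (Φ (s + s₀))) := by
      simp [hv]
    rw [h3]
    have h4 := norm_sub_norm_le ((T (u (Φ (s + s₀))) : D) (z (Φ (s + s₀))))
      ((T u₀ : D) (z (Φ (s + s₀))))
    have h5 : d ≤ ‖(T (u (Φ (s + s₀))) : D) (z (Φ (s + s₀)))‖ := h1
    linarith
  -- scaling
  set M' : ℝ := max (M + ‖u₀‖) 1 with hM'
  have hM'1 : 1 ≤ M' := le_max_right _ _
  have hM'0 : 0 < M' := by linarith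
  choose c hc1 hc2 using fun s => ThmE_phase ((T (v (s + s₀)) : D) (z (Φ (s + s₀))))
  set κ : ℕ → ℂ := fun s => ((M'⁻¹ : ℝ) : ℂ) * c s with hκ
  have hκn : ∀ s, ‖κ s‖ = M'⁻¹ := by
    intro s
    rw [hκ]
    simp only
    rw [norm_mul, hc1, mul_one, Complex.norm_real, Real.norm_eq_abs, abs_of_pos (inv_pos.mpr hM'0)]
  have hκ1 : ∀ s, ‖κ s‖ ≤ 1 := fun s => by
    rw [hκn]
    exact inv_le_one_of_one_le₀ hM'1
  have hsh : StrictMono (fun s : ℕ => s + s₀) := fun a b hab => by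
    simp only
    omega
  have hEH : EH Y T (fun s => κ s • v (s + s₀)) (fun s => z (Φ (s + s₀)))
      (fun s => j (s + s₀)) (max C 1) (M'⁻¹ * (d / 2)) :=
    { one_le := le_max_right _ _
      pos := by positivity
      ris := hris'.comp hsh
      bd := by
        intro s
        rw [norm_smul, hκn]
        calc M'⁻¹ * ‖v (s + s₀)‖ ≤ M'⁻¹ * M' :=
              mul_le_mul_of_nonneg_left ((hvb _).trans (le_max_left _ _)) (inv_pos.mpr hM'0).le
          _ = 1 := inv_mul_cancel₀ hM'0.ne'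
      null := by
        intro x
        have h1 := ThmE_mul_null hκ1 ((hvnull x).comp hsh.tendsto_atTop)
        refine h1.congr fun s => ?_
        simp
      nullT := by
        intro x
        have h1 := ThmE_mul_null hκ1 ((hTnull x).comp hsh.tendsto_atTop)
        refine h1.congr fun s => ?_
        simp
      pair := by
        have h1 := ThmE_mul_null hκ1 (hpair.comp hsh.tendsto_atTop)
        refine h1.congr fun s => ?_
        simp
      low := by
        intro s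
        have h1 : (T (κ s • v (s + s₀)) : D) (z (Φ (s + s₀))) =
            ((M'⁻¹ * ‖(T (v (s + s₀)) : D) (z (Φ (s + s₀)))‖ : ℝ) : ℂ) := by
          rw [map_smul]
          have : ((κ s • T (v (s + s₀)) : Y) : D) (z (Φ (s + s₀))) =
              κ s * (T (v (s + s₀)) : D) (z (Φ (s + s₀))) := by simp
          rw [this, hκ]
          simp only
          rw [mul_assoc, hc2]
          push_cast
          ring
        rw [h1, Complex.ofReal_re]
        exact mul_le_mul_of_nonneg_left (hlow s) (inv_pos.mpr hM'0).le }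
  exact hEH.false

end Pool.Agent.FSG
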