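import Pool.Agent.FSG.DepSeq
import Pool.Agent.FSG.LemDb

set_option autoImplicit false

open Finset Filter Topology

namespace Pool.Agent.FSG

/-- a sequence of blocks is a dependent sequence -/
theorem ThmEx_DS {Y : Submodule ℂ D} {T : Y →L[ℂ] Y} {C δ η : ℝ} {jj : ℕ} (hj : Odd jj)
    (hC : 1 ≤ C) (hη : η ≤ 1 / nn jj) {N : ℕ → ℕ} {F x : ℕ → V} {y : ℕ → Y}
    (hB : ∀ k, BlockC Y T C δ η (code jj ((List.range k).map F)) (N k) (N (k + 1))
      (F k) (x k) (y k)) :
    DS jj (5 * C) N F x where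
  odd := hj
  one_le := by linarith
  mono := monotone_nat_of_le_succ fun k => (hB k).le
  spec :=
    { succ := by
        intro i k hik _ a ha b hb
        have hm := monotone_nat_of_le_succ fun k => (hB k).le
        have h1 := (rs_eq_self_iff.mp (hB i).Fs a ha).2
        have h2 := (rs_eq_self_iff.mp (hB k).Fs b hb).1
        have h3 : N (i + 1) ≤ N k := hm hik
        omega
      rat := fun k _ => (hB k).rat
      wf := fun k _ => (hB k).wf }
  Fs := fun k _ => (hB k).Fs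
  xs := fun k _ => (hB k).xs
  bd := fun k _ => (hB k).bd
  pair := fun k _ => (hB k).pair.trans hη
  low := fun k _ w f hf hw => (hB k).wlow w f hf hw
  high := fun k _ w f hf hw => (hB k).whigh w f hf hw

/-- pairing of a block with other blocks -/
theorem ThmEx_off {Y : Submodule ℂ D} {T : Y →L[ℂ] Y} {C δ η : ℝ} {jj : ℕ} (hη0 : 0 < η)
    {N : ℕ → ℕ} {F x : ℕ → V} {y : ℕ → Y}
    (hB : ∀ k, BlockC Y T C δ η (code jj ((List.range k).map F)) (N k) (N (k + 1))
      (F k) (x k) (y k)) {k l : ℕ} (hkl : l ≠ k) :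
    ‖(T (y k) : D) (x l)‖ ≤ η * (5 * C) := by
  have hm := monotone_nat_of_le_succ fun k => (hB k).le
  have h0 : rs (N k) (N (k + 1)) (x l) = 0 := by
    ext i
    rw [rs_apply]
    split_ifs with hi
    · by_contra h1
      have h2 := rs_eq_self_iff.mp (hB l).xs i (Finsupp.mem_support_iff.mpr h1)
      rcases lt_or_gt_of_ne hkl with h3 | h3
      · have : N (l + 1) ≤ N k := hm h3
        omega
      · have : N (k + 1) ≤ N l := hm h3
        omega
    · rfl
  have h1 : (T (y k) : D) (x l) =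
      ((T (y k) : D) - rD (N k) (N (k + 1)) (T (y k) : D)) (x l) := by
    rw [_root_.sub_apply, rD_apply, h0, map_zero, sub_zero]
  rw [h1]
  refine (ContinuousLinearMap.le_opNorm _ _).trans ?_
  exact mul_le_mul (hB k).out (hB l).bd (norm_nonneg _) hη0.le

/-- the main estimate -/
theorem ThmEx_bound {Y : Submodule ℂ D} {T : Y →L[ℂ] Y} {C δ η : ℝ} {jj : ℕ} (hj : Odd jj)
    (hC : 1 ≤ C) (hδ : 0 < δ) (hη0 : 0 < η) (hη : η ≤ 1 / nn jj)
    (hη2 : nn jj * (η * (5 * C)) ≤ δ / 4) {N : ℕ → ℕ} {F x : ℕ → V} {y : ℕ → Y}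
    (hB : ∀ k, BlockC Y T C δ η (code jj ((List.range k).map F)) (N k) (N (k + 1))
      (F k) (x k) (y k)) :
    (mm jj : ℝ) * δ ≤ 320 * C * ‖T‖ := by
  have hDS := ThmEx_DS hj hC hη hB
  have hm := hDS.mono
  have hX := lemD hDS
  have hmpos := mm_posR jj
  have hnpos := nn_posR jj
  set n := nn jj with hn
  set m := mm jj with hmdef
  set X : V := ∑ k ∈ range n, x k with hXdef
  -- the functional `g`
  have hgK : K ((1 / (m : ℂ)) • ∑ k ∈ range n, F k) := by
    have h1 := K.of_special hj le_rfl hDS.spec 0 (N n)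
    have h2 : ∑ k ∈ range n, rs 0 (N n) (F k) = ∑ k ∈ range n, F k := by
      refine Finset.sum_congr rfl fun k hk => ?_
      rw [rs_eq_self_iff]
      intro i hi
      have h3 := rs_eq_self_iff.mp (hB k).Fs i hi
      have h4 : N (k + 1) ≤ N n := hm (Finset.mem_range.mp hk)
      omega
    rw [← hn] at h1
    rw [h2] at h1
    exact h1
  have hg1 := norm_toD_le hgK
  have hminv : ‖(1 / (m : ℂ))‖ = 1 / (m : ℝ) := by
    rw [norm_div, norm_one, Complex.norm_natCast]
  have hm1 : (1 : ℝ) / m ≤ 1 := by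
    rw [div_le_one hmpos]
    exact_mod_cast one_le_mm jj
  set g' : Y := (1 / (m : ℂ)) • ∑ k ∈ range n, y k with hg'
  have hg'D : (g' : D) = (1 / (m : ℂ)) • ∑ k ∈ range n, (y k : D) := by
    rw [hg']
    push_cast
    rfl
  have hdiff : ‖(g' : D) - toD ((1 / (m : ℂ)) • ∑ k ∈ range n, F k)‖ ≤ 1 := by
    have h0 : (g' : D) - toD ((1 / (m : ℂ)) • ∑ k ∈ range n, F k) =
        (1 / (m : ℂ)) • ∑ k ∈ range n, ((y k : D) - toD (F k)) := by
      rw [hg'D]
      ext v
      simp only [_root_.sub_apply, toD_apply, _root_.smul_apply, smul_pr, sum_pr,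
        _root_.sum_apply, smul_eq_mul, Finset.sum_sub_distrib]
      ring
    rw [h0, norm_smul, hminv]
    have h1 : ‖∑ k ∈ range n, ((y k : D) - toD (F k))‖ ≤ n * η := by
      refine (norm_sum_le _ _).trans ?_
      refine (Finset.sum_le_sum fun k _ => (hB k).near).trans ?_
      simp
    have h2 : (n : ℝ) * η ≤ 1 := by
      calc (n : ℝ) * η ≤ n * (1 / n) := mul_le_mul_of_nonneg_left hη hnpos.le
        _ = 1 := by field_simp
    calc 1 / (m : ℝ) * ‖∑ k ∈ range n, ((y k : D) - toD (F k))‖ ≤ 1 * 1 :=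
          mul_le_mul hm1 (h1.trans h2) (norm_nonneg _) zero_le_one
      _ = 1 := one_mul 1
  have hg'2 : ‖g'‖ ≤ 2 := by
    have h1 : ‖(g' : D)‖ ≤ 2 := by
      calc ‖(g' : D)‖ = ‖((g' : D) - toD ((1 / (m : ℂ)) • ∑ k ∈ range n, F k)) +
            toD ((1 / (m : ℂ)) • ∑ k ∈ range n, F k)‖ := by rw [sub_add_cancel]
        _ ≤ 1 + 1 := (norm_add_le _ _).trans (add_le_add hdiff hg1)
        _ = 2 := by norm_num
    exact h1
  have hTg : ‖(T g' : D)‖ ≤ ‖T‖ * 2 :=
    (T.le_opNorm g').trans (mul_le_mul_of_nonneg_left hg'2 (norm_nonneg _))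
  -- upper bound
  have hup : ((T g' : D) X).re ≤ ‖T‖ * 2 * (8 * (5 * C) * n / (m : ℝ) ^ 2) := by
    refine (Complex.re_le_norm _).trans ?_
    refine (ContinuousLinearMap.le_opNorm _ _).trans ?_
    exact mul_le_mul hTg hX (norm_nonneg _) (by positivity)
  -- lower bound
  have hTgX : (T g' : D) X = (1 / (m : ℂ)) * ∑ k ∈ range n, (T (y k) : D) X := by
    have h1 : (T g' : D) = (1 / (m : ℂ)) • ∑ k ∈ range n, (T (y k) : D) := by
      rw [hg', map_smul, map_sum]
      push_cast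
      rfl
    rw [h1]
    simp
  have hk : ∀ k ∈ range n, δ / 4 ≤ ((T (y k) : D) X).re := by
    intro k hk
    have h1 : (T (y k) : D) X = (T (y k) : D) (x k) +
        ∑ l ∈ (range n).erase k, (T (y k) : D) (x l) := by
      rw [hXdef, map_sum]
      exact (Finset.add_sum_erase _ (fun l => (T (y k) : D) (x l)) hk).symm
    have h2 : ‖∑ l ∈ (range n).erase k, (T (y k) : D) (x l)‖ ≤ n * (η * (5 * C)) := by
      refine (norm_sum_le _ _).trans ?_
      refine (Finset.sum_le_sum fun l hl =>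
        ThmEx_off hη0 hB (Finset.ne_of_mem_erase hl)).trans ?_
      rw [Finset.sum_const, nsmul_eq_mul]
      refine mul_le_mul_of_nonneg_right ?_ (by positivity)
      have h3 := Finset.card_le_card (Finset.erase_subset k (range n))
      rw [Finset.card_range] at h3
      exact_mod_cast h3
    have h3 := (hB k).low
    have h4 := (abs_le.mp (Complex.abs_re_le_norm
      (∑ l ∈ (range n).erase k, (T (y k) : D) (x l)))).1
    rw [h1, Complex.add_re]
    linarith
  have hlow : 1 / (m : ℝ) * (n * (δ / 4)) ≤ ((T g' : D) X).re := by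
    rw [hTgX]
    have h1 : (1 / (m : ℂ)) = (((1 : ℝ) / (m : ℝ) : ℝ) : ℂ) := by push_cast; rfl
    rw [h1, Complex.re_ofReal_mul, Complex.re_sum]
    refine mul_le_mul_of_nonneg_left ?_ (by positivity)
    have h2 := Finset.sum_le_sum hk
    rw [Finset.sum_const, Finset.card_range, nsmul_eq_mul] at h2
    exact h2
  have hfin := hlow.trans hup
  have h1 : 1 / (m : ℝ) * (n * (δ / 4)) * (4 * (m : ℝ) ^ 2 / n) = m * δ := by
    field_simp
  have h2 : ‖T‖ * 2 * (8 * (5 * C) * n / (m : ℝ) ^ 2) * (4 * (m : ℝ) ^ 2 / n) =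
      320 * C * ‖T‖ := by
    field_simp
    ring
  rw [← h1, ← h2]
  exact mul_le_mul_of_nonneg_right hfin (by positivity)

/-- (4.1) (iii), the contradiction -/
theorem EH.false {Y : Submodule ℂ D} {T : Y →L[ℂ] Y} {u : ℕ → Y} {z : ℕ → V} {j : ℕ → ℕ}
    {C δ : ℝ} (h : EH Y T u z j C δ) : False := by
  have hC := h.one_le
  have hδ := h.pos
  -- choose an odd `jj` with `320 C ‖T‖ < δ m_jj`
  obtain ⟨i, hi⟩ := ((mm_tendsto.eventually_gt_atTop (320 * C * ‖T‖ / δ)).and
    (eventually_ge_atTop 1)).exists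
  obtain ⟨hi1, hi2⟩ := hi
  have hodd : Odd (2 * i + 1) := odd_two_mul_add_one i
  have hmono : (mm i : ℝ) ≤ mm (2 * i + 1) := by
    exact_mod_cast mm_strictMono.monotone (by omega)
  have hbig : 320 * C * ‖T‖ < mm (2 * i + 1) * δ := by
    rw [div_lt_iff₀ hδ] at hi1
    exact hi1.trans_le (mul_le_mul_of_nonneg_right hmono hδ.le)
  have hn := nn_posR (2 * i + 1)
  set η : ℝ := min (1 / nn (2 * i + 1)) (δ / 4 / (nn (2 * i + 1) * (5 * C))) with hηdef
  have hη0 : 0 < η := by
    rw [hηdef]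
    refine lt_min (by positivity) (by positivity)
  have hη1 : η ≤ 1 / nn (2 * i + 1) := min_le_left _ _
  have hη2 : nn (2 * i + 1) * (η * (5 * C)) ≤ δ / 4 := by
    have h1 : η ≤ δ / 4 / (nn (2 * i + 1) * (5 * C)) := min_le_right _ _
    rw [le_div_iff₀ (by positivity)] at h1
    calc (nn (2 * i + 1) : ℝ) * (η * (5 * C)) = η * (nn (2 * i + 1) * (5 * C)) := by ring
      _ ≤ δ / 4 := h1
  obtain ⟨N, F, x, y, hB⟩ := depSeq h (2 * i + 1) hη0
  have := ThmEx_bound hodd hC hδ hη0 hη1 hη2 hB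
  linarith

end Pool.Agent.FSG
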