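import Mathlib

set_option autoImplicit false

open Finset

namespace Pool.Agent.FSG

/-- averaging over an `N`-adic tree -/
theorem tree {E : Type*} [SeminormedAddCommGroup E] {N L : ℕ} (hN : 0 < N) {δ : ℝ} {v : ℕ → E}
    (h0 : ∀ i < N ^ L, δ ≤ ‖v i‖) (hL : ‖∑ i ∈ range (N ^ L), v i‖ < 2 ^ L * δ) :
    ∃ t q, t < L ∧ (q + 1) * N ^ (t + 1) ≤ N ^ L ∧
      ‖∑ i ∈ Ico (q * N ^ (t + 1)) ((q + 1) * N ^ (t + 1)), v i‖ ≤ (2 / (N : ℝ)) *
        ∑ c ∈ range N, ‖∑ i ∈ Ico (q * N ^ (t + 1) + c * N ^ t)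
          (q * N ^ (t + 1) + (c + 1) * N ^ t), v i‖ := by
  by_contra hcon
  push Not at hcon
  have key : ∀ t, t ≤ L → ∀ q, (q + 1) * N ^ t ≤ N ^ L →
      2 ^ t * δ ≤ ‖∑ i ∈ Ico (q * N ^ t) ((q + 1) * N ^ t), v i‖ := by
    intro t
    induction t with
    | zero =>
      intro _ q hq
      simp only [pow_zero, mul_one, one_mul] at hq ⊢
      rw [Nat.Ico_succ_singleton, sum_singleton]
      exact h0 q (by omega)
    | succ t ih =>
      intro ht q hq
      have hlt := hcon t q (by omega) hq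
      have hNpos : (0 : ℝ) < N := by exact_mod_cast hN
      have hchild : ∀ c ∈ range N, 2 ^ t * δ ≤ ‖∑ i ∈ Ico (q * N ^ (t + 1) + c * N ^ t)
          (q * N ^ (t + 1) + (c + 1) * N ^ t), v i‖ := by
        intro c hc
        rw [mem_range] at hc
        have e1 : q * N ^ (t + 1) + c * N ^ t = (q * N + c) * N ^ t := by ring
        have e2 : q * N ^ (t + 1) + (c + 1) * N ^ t = (q * N + c + 1) * N ^ t := by ring
        rw [e1, e2]
        refine ih (by omega) (q * N + c) (le_trans ?_ hq)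
        have e3 : (q + 1) * N ^ (t + 1) = ((q + 1) * N) * N ^ t := by ring
        rw [e3]
        refine Nat.mul_le_mul_right _ ?_
        nlinarith
      have hsum : (N : ℝ) * (2 ^ t * δ) ≤ ∑ c ∈ range N, ‖∑ i ∈ Ico (q * N ^ (t + 1) + c * N ^ t)
          (q * N ^ (t + 1) + (c + 1) * N ^ t), v i‖ := by
        calc (N : ℝ) * (2 ^ t * δ) = ∑ _c ∈ range N, 2 ^ t * δ := by
              rw [sum_const, card_range, nsmul_eq_mul]
          _ ≤ _ := sum_le_sum hchild
      have h2 : (2 / (N : ℝ)) * ((N : ℝ) * (2 ^ t * δ)) = 2 ^ (t + 1) * δ := by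
        field_simp
        ring
      have h3 : (2 / (N : ℝ)) * ((N : ℝ) * (2 ^ t * δ)) ≤ (2 / (N : ℝ)) *
          ∑ c ∈ range N, ‖∑ i ∈ Ico (q * N ^ (t + 1) + c * N ^ t)
          (q * N ^ (t + 1) + (c + 1) * N ^ t), v i‖ :=
        mul_le_mul_of_nonneg_left hsum (by positivity)
      linarith
  have := key L le_rfl 0 (by simp)
  simp only [zero_mul, zero_add, one_mul, Nat.Ico_zero_eq_range] at this
  linarith

end Pool.Agent.FSG
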