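import Pool.Agent.FSG.LemB
import Pool.Agent.FSG.RISm

set_option autoImplicit false

open Finset Filter Topology

namespace Pool.Agent.FSG

/-- (3.1) -/
theorem PR.weak_null {C : ℝ} {z : ℕ → V} (h : PR C z) (ζ : D) :
    Tendsto (fun s => ζ (z s)) atTop (𝓝 0) := by
  by_contra hcon
  rw [Metric.tendsto_atTop] at hcon
  push Not at hcon
  obtain ⟨ε, hε, hfr⟩ := hcon
  have hfr' : ∃ᶠ s in atTop, ε ≤ ‖ζ (z s)‖ := by
    rw [frequently_atTop]
    intro a
    obtain ⟨n, hn, h1⟩ := hfr a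
    refine ⟨n, hn, ?_⟩
    rwa [dist_zero_right] at h1
  obtain ⟨φ, hφ, hφε⟩ := extraction_of_frequently_atTop hfr'
  obtain ⟨ψ, hψ, j, hris⟩ := (h.comp hφ).exists_ris
  have hris' := hris.mono_const (le_max_left C 1)
  set C' : ℝ := max C 1 with hC'
  have hC1 : 1 ≤ C' := le_max_right C 1
  set y : ℕ → V := fun s => z (φ (ψ s)) with hy
  have hyε : ∀ s, ε ≤ ‖ζ (y s)‖ := fun s => hφε (ψ s)
  have hy0 : ∀ s, ‖ζ (y s)‖ ≠ 0 := fun s => (hε.trans_le (hyε s)).ne'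
  set c : ℕ → ℂ := fun s => (starRingEnd ℂ) (ζ (y s)) / (‖ζ (y s)‖ : ℂ) with hc
  have hc1 : ∀ s, ‖c s‖ = 1 := by
    intro s
    rw [hc]
    simp only [norm_div, RCLike.norm_conj, Complex.norm_real, Real.norm_eq_abs, abs_norm]
    exact div_self (hy0 s)
  have hR := hris'.smul hc1
  have hval : ∀ s, ζ (c s • y s) = ((‖ζ (y s)‖ : ℝ) : ℂ) := by
    intro s
    rw [map_smul, smul_eq_mul, hc]
    simp only
    have h1 : (‖ζ (y s)‖ : ℂ) ≠ 0 := by exact_mod_cast hy0 s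
    rw [div_mul_eq_mul_div, div_eq_iff h1, mul_comm, Complex.mul_conj, Complex.normSq_eq_norm_sq]
    push_cast
    ring
  have hjle : ∀ s, s ≤ j s := fun s => hris.mono.le_apply
  have key : ∀ v, 1 ≤ v → ε * mm v ≤ 4 * C' * ‖ζ‖ := by
    intro v hv
    have hbh := hR.bh hC1 (v := v) (A₀ := Ico v (v + nn v)) (by
      intro s hs
      rw [mem_Ico] at hs
      exact hs.1.trans (hjle s))
    have hB := lemB' hv (by linarith : (0 : ℝ) ≤ C') hbh (Ico v (v + nn v)) (Finset.Subset.refl _)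
    have hcard : (Ico v (v + nn v)).card = nn v := by simp
    rw [hcard] at hB
    have hmm : (1 : ℝ) ≤ mm v := by exact_mod_cast one_le_mm v
    have hmp : (0 : ℝ) < mm v := mm_posR v
    have hP : (5 : ℝ) * ((nn (v - 1) : ℝ) + 2) ^ 2 ^ v * (mm v : ℝ) ^ 3 ≤ nn v := by
      have := P2a hv
      exact_mod_cast this
    have hX0 : (0 : ℝ) ≤ 5 * ((nn (v - 1) : ℝ) + 2) ^ 2 ^ v := by positivity
    have hP' : (5 : ℝ) * ((nn (v - 1) : ℝ) + 2) ^ 2 ^ v * (mm v : ℝ) ≤ nn v := by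
      refine le_trans (mul_le_mul_of_nonneg_left ?_ hX0) hP
      nlinarith [mul_nonneg hmp.le (sub_nonneg.mpr hmm), mul_nonneg (mul_nonneg hmp.le hmp.le) (sub_nonneg.mpr hmm)]
    have hB2 : ‖∑ s ∈ Ico v (v + nn v), c s • y s‖ * mm v ≤ 4 * C' * nn v := by
      calc ‖∑ s ∈ Ico v (v + nn v), c s • y s‖ * mm v
          ≤ (3 * C' * nn v / mm v + 5 * C' * ((nn (v - 1) : ℝ) + 2) ^ 2 ^ v) * mm v :=
            mul_le_mul_of_nonneg_right hB hmp.le
        _ = 3 * C' * nn v + C' * (5 * ((nn (v - 1) : ℝ) + 2) ^ 2 ^ v * mm v) := by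
            field_simp
        _ ≤ 3 * C' * nn v + C' * nn v := by
            have := mul_le_mul_of_nonneg_left hP' (by linarith : (0 : ℝ) ≤ C')
            linarith
        _ = 4 * C' * nn v := by ring
    have hζ : ε * nn v ≤ ‖ζ‖ * ‖∑ s ∈ Ico v (v + nn v), c s • y s‖ := by
      refine le_trans ?_ (ζ.le_opNorm _)
      rw [map_sum, sum_congr rfl fun s _ => hval s, ← Complex.ofReal_sum, Complex.norm_real,
        Real.norm_eq_abs]
      refine le_trans ?_ (le_abs_self _)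
      calc ε * nn v = ∑ _s ∈ Ico v (v + nn v), ε := by
            rw [sum_const, hcard, nsmul_eq_mul, mul_comm]
        _ ≤ _ := sum_le_sum fun s _ => hyε s
    have hnn : (0 : ℝ) < nn v := nn_posR v
    have h3 : (ε * mm v) * nn v ≤ (4 * C' * ‖ζ‖) * nn v := by
      calc (ε * mm v) * nn v = (ε * nn v) * mm v := by ring
        _ ≤ (‖ζ‖ * ‖∑ s ∈ Ico v (v + nn v), c s • y s‖) * mm v :=
            mul_le_mul_of_nonneg_right hζ hmp.le
        _ = ‖ζ‖ * (‖∑ s ∈ Ico v (v + nn v), c s • y s‖ * mm v) := by ring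
        _ ≤ ‖ζ‖ * (4 * C' * nn v) := mul_le_mul_of_nonneg_left hB2 (norm_nonneg _)
        _ = (4 * C' * ‖ζ‖) * nn v := by ring
    exact le_of_mul_le_mul_right h3 hnn
  have htend := (mm_tendsto.const_mul_atTop hε).eventually_gt_atTop (4 * C' * ‖ζ‖)
  obtain ⟨v, hv1, hv2⟩ := (htend.and (eventually_ge_atTop 1)).exists
  exact absurd (key v hv2) (not_le.mpr hv1)

end Pool.Agent.FSG
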