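import Pool.Agent.FSG.Tail
import Pool.Agent.FSG.Upper
import Pool.Agent.FSG.Params

set_option autoImplicit false

open Finset Filter Topology

namespace Pool.Agent.FSG

theorem WSeq_phase (w : ℂ) : ∃ c : ℂ, ‖c‖ ≤ 1 ∧ c * w = (‖w‖ : ℂ) := by
  by_cases hw : w = 0
  · exact ⟨0, by simp, by simp [hw]⟩
  · have hn : ‖w‖ ≠ 0 := norm_ne_zero_iff.mpr hw
    have hnc : (‖w‖ : ℂ) ≠ 0 := by exact_mod_cast hn
    refine ⟨(starRingEnd ℂ) w / (‖w‖ : ℂ), ?_, ?_⟩
    · rw [norm_div, RCLike.norm_conj, Complex.norm_real, norm_norm, div_self hn]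
    · have h1 : (starRingEnd ℂ) w * w = (‖w‖ : ℂ) ^ 2 := by
        rw [mul_comm, Complex.mul_conj, Complex.normSq_eq_norm_sq]
        push_cast
        ring
      rw [div_mul_eq_mul_div, h1]
      field_simp

theorem WSeq_seq {v : ℕ → D} (h : ∀ x : V, Tendsto (fun t => v t x) atTop (𝓝 0))
    {P : ℕ → Prop} (hP : ∃ᶠ t in atTop, P t) {η : ℝ} (hη : 0 < η) :
    ∃ (t N : ℕ → ℕ), Monotone N ∧ ∀ i, P (t i) ∧
      ‖v (t i) - rD (N i) (N (i + 1)) (v (t i))‖ ≤ η := by
  have step : ∀ n : ℕ, ∃ t n', n ≤ n' ∧ P t ∧ ‖v t - rD n n' (v t)‖ ≤ η := by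
    intro n
    obtain ⟨t, ht1, N₀, ht2⟩ := (hP.and_eventually (small_out h n hη)).exists
    exact ⟨t, max n N₀, le_max_left _ _, ht1, ht2 _ (le_max_right _ _)⟩
  choose tf nf h1 h2 h3 using step
  refine ⟨fun i => tf (Nat.rec 0 (fun _ n => nf n) i), fun i => Nat.rec 0 (fun _ n => nf n) i,
    ?_, ?_⟩
  · exact monotone_nat_of_le_succ fun i => h1 _
  · intro i
    exact ⟨h2 _, h3 _⟩

/-- (3.3) -/
theorem weak_null_of_pointwise {v : ℕ → D} {M : ℝ} (hM : ∀ t, ‖v t‖ ≤ M)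
    (h : ∀ x : V, Tendsto (fun t => v t x) atTop (𝓝 0)) (ξ : D →L[ℂ] ℂ) :
    Tendsto (fun t => ξ (v t)) atTop (𝓝 0) := by
  have hM0 : 0 ≤ M := (norm_nonneg _).trans (hM 0)
  by_contra hcon
  rw [Metric.tendsto_atTop] at hcon
  push Not at hcon
  obtain ⟨δ, hδ, hcon⟩ := hcon
  have hfreq : ∃ᶠ t in atTop, δ ≤ ‖ξ (v t)‖ := by
    rw [frequently_atTop]
    intro a
    obtain ⟨b, hb, hb2⟩ := hcon a
    exact ⟨b, hb, by simpa [dist_zero_right] using hb2⟩
  have key : ∀ j, 1 ≤ j → Even j → δ * mm j ≤ ‖ξ‖ * (M + 1) := by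
    intro j hj hje
    have hn : (0:ℝ) < nn j := nn_posR j
    have hm : (0:ℝ) < mm j := mm_posR j
    obtain ⟨t, N, hN, ht⟩ := WSeq_seq h hfreq (η := 1 / nn j) (by positivity)
    choose c hc1 hc2 using fun i => WSeq_phase (ξ (v (t i)))
    set ζ : ℕ → D := fun i => c i • rD (N i) (N (i + 1)) (v (t i)) with hζ
    have hup : ‖∑ i ∈ range (nn j), ζ i‖ ≤ mm j * M := by
      apply upper hje le_rfl hN _ hM0
      · intro i _
        rw [hζ]
        simp only
        calc ‖c i • rD (N i) (N (i + 1)) (v (t i))‖ = ‖c i‖ * ‖rD (N i) (N (i + 1)) (v (t i))‖ :=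
              norm_smul _ _
          _ ≤ 1 * ‖v (t i)‖ := by
              gcongr
              · exact hc1 i
              · exact norm_rD_le _ _ _
          _ ≤ M := by rw [one_mul]; exact hM _
      · intro i _
        rw [hζ]
        simp only
        rw [rD_smul, rD_rD, max_self, min_self]
    have hsum : ‖∑ i ∈ range (nn j), c i • v (t i)‖ ≤ mm j * M + 1 := by
      have e1 : ∑ i ∈ range (nn j), c i • v (t i) = ∑ i ∈ range (nn j), ζ i +
          ∑ i ∈ range (nn j), c i • (v (t i) - rD (N i) (N (i + 1)) (v (t i))) := by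
        rw [← Finset.sum_add_distrib]
        refine Finset.sum_congr rfl fun i _ => ?_
        rw [hζ, smul_sub]
        abel
      rw [e1]
      refine (norm_add_le _ _).trans (add_le_add hup ?_)
      calc ‖∑ i ∈ range (nn j), c i • (v (t i) - rD (N i) (N (i + 1)) (v (t i)))‖
          ≤ ∑ i ∈ range (nn j), ‖c i • (v (t i) - rD (N i) (N (i + 1)) (v (t i)))‖ :=
            norm_sum_le _ _
        _ ≤ ∑ i ∈ range (nn j), (1 / nn j : ℝ) := by
            refine Finset.sum_le_sum fun i _ => ?_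
            calc ‖c i • (v (t i) - rD (N i) (N (i + 1)) (v (t i)))‖
                = ‖c i‖ * ‖v (t i) - rD (N i) (N (i + 1)) (v (t i))‖ := norm_smul _ _
              _ ≤ 1 * (1 / nn j) := by
                  gcongr
                  · exact hc1 i
                  · exact (ht i).2
              _ = 1 / nn j := one_mul _
        _ = 1 := by
            rw [Finset.sum_const, Finset.card_range, nsmul_eq_mul]
            field_simp
    have hlow : δ * nn j ≤ ‖ξ (∑ i ∈ range (nn j), c i • v (t i))‖ := by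
      rw [map_sum]
      have e2 : ∑ i ∈ range (nn j), ξ (c i • v (t i)) =
          ((∑ i ∈ range (nn j), ‖ξ (v (t i))‖ : ℝ) : ℂ) := by
        push_cast
        refine Finset.sum_congr rfl fun i _ => ?_
        rw [map_smul, smul_eq_mul, hc2]
      rw [e2, Complex.norm_real, Real.norm_of_nonneg (Finset.sum_nonneg fun _ _ => norm_nonneg _)]
      calc δ * nn j = ∑ i ∈ range (nn j), δ := by
            rw [Finset.sum_const, Finset.card_range, nsmul_eq_mul]; ring
        _ ≤ _ := Finset.sum_le_sum fun i _ => (ht i).1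
    have h1 : δ * nn j ≤ ‖ξ‖ * (mm j * M + 1) :=
      hlow.trans ((ξ.le_opNorm _).trans (mul_le_mul_of_nonneg_left hsum (norm_nonneg _)))
    have h2 : (mm j : ℝ) ^ 2 ≤ nn j := by exact_mod_cast mm_sq_le hj
    have h3 : (1:ℝ) ≤ mm j := by exact_mod_cast one_le_mm j
    have h4 : ‖ξ‖ * (mm j * M + 1) ≤ ‖ξ‖ * (M + 1) * mm j := by
      have := norm_nonneg ξ
      have h5 : (mm j : ℝ) * M + 1 ≤ (M + 1) * mm j := by nlinarith
      calc ‖ξ‖ * (mm j * M + 1) ≤ ‖ξ‖ * ((M + 1) * mm j) := by gcongr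
        _ = _ := by ring
    have h6 : δ * mm j * mm j ≤ ‖ξ‖ * (M + 1) * mm j := by
      calc δ * mm j * mm j = δ * (mm j : ℝ) ^ 2 := by ring
        _ ≤ δ * nn j := by gcongr
        _ ≤ _ := h1.trans h4
    exact le_of_mul_le_mul_right h6 hm
  have hev : ∀ᶠ j in atTop, ‖ξ‖ * (M + 1) / δ < (mm j : ℝ) := mm_tendsto.eventually_gt_atTop _
  obtain ⟨a, ha⟩ := eventually_atTop.mp hev
  have h1 := ha (2 * (a + 1)) (by omega)
  have h2 := key (2 * (a + 1)) (by omega) (even_two_mul _)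
  rw [div_lt_iff₀ hδ] at h1
  linarith

theorem null_map (Y : Submodule ℂ D) (T : Y →L[ℂ] Y) {y : ℕ → Y} {M : ℝ} (hM : ∀ s, ‖y s‖ ≤ M)
    (h : ∀ x : V, Tendsto (fun s => (y s : D) x) atTop (𝓝 0)) (x : V) :
    Tendsto (fun s => (T (y s) : D) x) atTop (𝓝 0) := by
  let φ : Y →L[ℂ] ℂ := LinearMap.mkContinuous
    { toFun := fun w => (T w : D) x
      map_add' := fun a b => by simp
      map_smul' := fun c a => by simp } (‖T‖ * ‖x‖) (by
    intro w
    show ‖(T w : D) x‖ ≤ ‖T‖ * ‖x‖ * ‖w‖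
    calc ‖(T w : D) x‖ ≤ ‖(T w : D)‖ * ‖x‖ := (T w : D).le_opNorm x
      _ ≤ (‖T‖ * ‖w‖) * ‖x‖ := by
          gcongr
          exact T.le_opNorm w
      _ = _ := by ring)
  obtain ⟨g, hg, -⟩ := exists_extension_norm_eq (𝕜 := ℂ) (E := D) Y φ
  have h1 := weak_null_of_pointwise (v := fun s => (y s : D)) (M := M) hM h g
  refine h1.congr fun s => ?_
  exact hg (y s)

end Pool.Agent.FSG
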